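import Pool.Agent.H30.OD.Od2
import Pool.Agent.H36.CY.Ld

/-!
Project MP_78d38b_GM: totally positive elements with given square classes at finitely many primes.
-/

set_option autoImplicit false
set_option linter.unusedSectionVars false
open scoped Classical

open WithZero NumberField IsDedekindDomain H38RT

namespace H76GM

variable {K : Type} [Field K] [NumberField K]

/-- A positive integer close to zero. -/
theorem exists_int (Sg : Finset (HeightOneSpectrum (𝓞 K))) {ε : WithZero (Multiplicative ℤ)}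
    (hε : ε ≠ 0) : ∃ m : ℕ, 0 < m ∧ ∀ u ∈ Sg, u.valuation K (m : K) < ε := by
  obtain ⟨j, hj⟩ := exists_exp_neg_natCast_lt (x := ε) hε
  obtain ⟨n, hn⟩ : ∃ n : ℕ, n = ∏ u ∈ Sg, Ideal.absNorm u.asIdeal := ⟨_, rfl⟩
  have hn0 : n ≠ 0 := by
    rw [hn, Finset.prod_ne_zero_iff]
    intro u _
    exact (Ideal.absNorm_eq_zero_iff.not).2 u.ne_bot
  refine ⟨n ^ j, Nat.pos_of_ne_zero (pow_ne_zero _ hn0), fun u hu => lt_of_le_of_lt ?_ hj⟩
  have hmem : ((n : ℕ) : 𝓞 K) ∈ u.asIdeal := by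
    rw [hn, ← Finset.mul_prod_erase Sg _ hu, Nat.cast_mul]
    exact Ideal.mul_mem_right _ _ (Ideal.absNorm_mem u.asIdeal)
  have h1 : u.valuation K ((n : ℕ) : K) ≤ exp (-1 : ℤ) := by
    have h2 := (u.valuation_lt_one_iff_mem (K := K) _).2 hmem
    have h3 : (((n : ℕ) : 𝓞 K) : K) = (n : K) := by push_cast; rfl
    have h4 : u.valuation K ((n : ℕ) : K) < 1 := lt_of_eq_of_lt (congrArg (u.valuation K) h3.symm) h2
    rw [← exp_zero] at h4
    have h5 : u.valuation K ((n : ℕ) : K) ≠ 0 :=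
      (Valuation.ne_zero_iff _).2 (Nat.cast_ne_zero.2 hn0)
    obtain ⟨z, hz⟩ : ∃ z : ℤ, u.valuation K ((n : ℕ) : K) = exp z := ⟨_, (exp_log h5).symm⟩
    rw [hz] at h4 ⊢
    rw [exp_lt_exp] at h4
    rw [exp_le_exp]
    omega
  rw [Nat.cast_pow, map_pow]
  refine (pow_le_pow_left' h1 j).trans (le_of_eq ?_)
  rw [← exp_nsmul]
  congr 1
  simp

theorem approx_pos (Sg : Finset (HeightOneSpectrum (𝓞 K))) (x : HeightOneSpectrum (𝓞 K) → K)
    (hx : ∀ u ∈ Sg, x u ≠ 0) :
    ∃ y : K, y ≠ 0 ∧ (∀ u ∈ Sg, u.valuation K y = u.valuation K (x u) ∧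
      ∃ r : u.adicCompletion K, r ≠ 0 ∧ algebraMap K (u.adicCompletion K) y =
        algebraMap K (u.adicCompletion K) (x u) * r ^ 2) ∧ ∀ s : K →+* ℝ, 0 < s y := by
  rcases Sg.eq_empty_or_nonempty with rfl | hne
  · refine ⟨1, one_ne_zero, fun u hu => absurd hu (Finset.notMem_empty _), fun s => ?_⟩
    rw [map_one]
    exact one_pos
  obtain ⟨ε, hε⟩ : ∃ ε, ε = Sg.inf' hne fun u => u.valuation K (4 * x u) := ⟨_, rfl⟩
  have hle : ∀ u ∈ Sg, ε ≤ u.valuation K (4 * x u) := fun u hu => by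
    rw [hε]
    exact Finset.inf'_le _ hu
  have hε0 : ε ≠ 0 := by
    obtain ⟨u, hu, h1⟩ := Finset.exists_mem_eq_inf' hne fun u => u.valuation K (4 * x u)
    rw [hε, h1]
    exact (Valuation.ne_zero_iff _).2 (mul_ne_zero (by norm_num) (hx u hu))
  obtain ⟨y0, hy0⟩ := H30OD.weak_app Sg x hε0
  obtain ⟨m, hm, hmv⟩ := exists_int Sg hε0
  obtain ⟨B, hB⟩ : ∃ B : ℝ, ∀ s : K →+* ℝ, -(s y0) ≤ B := by
    obtain ⟨B, hB⟩ := (Set.finite_range fun s : K →+* ℝ => -(s y0)).bddAbove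
    exact ⟨B, fun s => hB ⟨s, rfl⟩⟩
  obtain ⟨k, hk⟩ := exists_nat_gt B
  obtain ⟨y, hy⟩ : ∃ y : K, y = y0 + (k : K) * (m : K) := ⟨_, rfl⟩
  have hclose : ∀ u ∈ Sg, u.valuation K (y - x u) < u.valuation K (4 * x u) := by
    intro u hu
    have e : y - x u = (y0 - x u) + (k : K) * (m : K) := by
      rw [hy]
      ring
    rw [e]
    refine lt_of_lt_of_le (Valuation.map_add_lt _ (hy0 u hu) ?_) (hle u hu)
    rw [map_mul]
    refine lt_of_le_of_lt (mul_le_of_le_one_left' ?_) (hmv u hu)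
    have h1 := u.valuation_le_one (K := K) ((k : ℕ) : 𝓞 K)
    have h3 : (((k : ℕ) : 𝓞 K) : K) = (k : K) := by push_cast; rfl
    exact (congrArg (u.valuation K) h3.symm).trans_le h1
  have hval : ∀ u ∈ Sg, u.valuation K y = u.valuation K (x u) := by
    intro u hu
    have h4 : u.valuation K (4 * x u) ≤ u.valuation K (x u) := by
      rw [map_mul]
      refine mul_le_of_le_one_left' ?_
      have h1 := u.valuation_le_one (K := K) (4 : 𝓞 K)
      have h3 : ((4 : 𝓞 K) : K) = 4 := map_ofNat (algebraMap (𝓞 K) K) 4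
      exact (congrArg (u.valuation K) h3.symm).trans_le h1
    have h5 : u.valuation K (y - x u) < u.valuation K (x u) := lt_of_lt_of_le (hclose u hu) h4
    have e : y = x u + (y - x u) := by ring
    rw [e]
    exact Valuation.map_add_eq_of_lt_left _ h5
  refine ⟨y, ?_, fun u hu => ⟨hval u hu, H36CY.sq_near' u (hclose u hu)⟩, fun s => ?_⟩
  · obtain ⟨u, hu⟩ := hne
    intro h0
    have h1 := hval u hu
    rw [h0, map_zero] at h1
    exact (Valuation.ne_zero_iff _).2 (hx u hu) h1.symm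
  · rw [hy, map_add, map_mul, map_natCast, map_natCast]
    have h1 := hB s
    have h2 : (1 : ℝ) ≤ m := by exact_mod_cast hm
    have h3 : (k : ℝ) ≤ k * m := le_mul_of_one_le_right (Nat.cast_nonneg k) h2
    linarith

end H76GM
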