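import Pool.Agent.H76.GM.Df
import Pool.Agent.H30.OD.Vs
import Pool.Agent.H30.OR.Ti
import Pool.Agent.H88.OD.Fe
import Pool.Agent.H26.OD.Ka

/-!
Project MP_78d38b_GM: the local conditions over `M` for the twists by elements of `K`.
-/

set_option autoImplicit false
set_option linter.unusedSectionVars false
open scoped Classical

open WithZero NumberField IsDedekindDomain H38RT
open H38T1 (SC sc scu rep eo la si OddP)
open H76PP (Cub LC ev scm dn val_le val_one)
open H88OD H26OD H30OD H30ZO H36CY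

namespace H76GM

variable {K M LM : Type} [Field K] [NumberField K] [Field M] [NumberField M] [Field LM]
  [NumberField LM] [Algebra K M] [Algebra M LM] {a b : 𝓞 K} {θ : LM}

/-- The conditions for the base field and the twist `D`: `Sg` contains the bad primes. -/
structure OkK (a b : 𝓞 K) (D : K) (Sg : Finset (HeightOneSpectrum (𝓞 K))) : Prop where
  ne : D ≠ 0
  dne : 4 * (a : K) ^ 3 + 27 * (b : K) ^ 2 ≠ 0
  two : ∀ v : HeightOneSpectrum (𝓞 K), v ∉ Sg → v.valuation K 2 = 1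
  three : ∀ v : HeightOneSpectrum (𝓞 K), v ∉ Sg → v.valuation K 3 = 1
  dis : ∀ v : HeightOneSpectrum (𝓞 K), v ∉ Sg →
    v.valuation K (4 * (a : K) ^ 3 + 27 * (b : K) ^ 2) = 1
  val : ∀ v : HeightOneSpectrum (𝓞 K), v ∉ Sg → v.valuation K D = 1

theorem Lv_self {k L : Type} [Field k] [NumberField k] [Field L] [NumberField L] [Algebra k L]
    {A B : k} {θ : L} (S : Ext k k L A B θ) (E : k) (v : HeightOneSpectrum (𝓞 k)) (c : SC L) :
    S.Lv E v c ↔ Wc (algebraMap k (v.adicCompletion k)) (E ^ 2 * A) (E ^ 3 * B)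
      (algebraMap k L E * θ) c := Iff.rfl

theorem cub_self {k L : Type} [Field k] [NumberField k] [Field L] [NumberField L] [Algebra k L]
    {A B : k} {θ : L} (S : Ext k k L A B θ) : Cub k L A B θ := S.cub

theorem Lr_self {k L : Type} [Field k] [NumberField k] [Field L] [NumberField L] [Algebra k L]
    {A B : k} {θ : L} (S : Ext k k L A B θ) (E : k) (s : k →+* ℝ) (c : SC L) :
    S.Lr E s c ↔ Wc s (E ^ 2 * A) (E ^ 3 * B) (algebraMap k L E * θ) c := Iff.rfl

/-- The real places. -/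
theorem same_real (S : Ext M M LM (algebraMap K M (a : K)) (algebraMap K M (b : K)) θ) {D δ : K}
    (hD : D ≠ 0) (hδ : δ ≠ 0) (hpos : ∀ s : K →+* ℝ, 0 < s δ) (s : M →+* ℝ) (c : SC LM) :
    S.Lr (algebraMap K M (D * δ)) s c ↔ S.Lr (algebraMap K M D) s c := by
  have hD0 : algebraMap K M D ≠ 0 := (map_ne_zero _).2 hD
  have hδ0 : algebraMap K M δ ≠ 0 := (map_ne_zero _).2 hδ
  have hDδ0 : algebraMap K M (D * δ) ≠ 0 := (map_ne_zero _).2 (mul_ne_zero hD hδ)
  rw [Lr_self, Lr_self]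
  refine H76OD.Wc_tw_real s hDδ0 hD0 ?_
  have e : algebraMap K M D / algebraMap K M (D * δ) = (algebraMap K M δ)⁻¹ := by
    rw [map_mul]
    field_simp
  rw [e, map_inv₀]
  exact inv_pos.2 (hpos (s.comp (algebraMap K M)))

/-- The places of `M` above a place at which `δ` is a square. -/
theorem same_sq (S : Ext M M LM (algebraMap K M (a : K)) (algebraMap K M (b : K)) θ) {D δ : K}
    (hD : D ≠ 0) (hδ : δ ≠ 0) (u : HeightOneSpectrum (𝓞 M))
    (h : IsSquare (algebraMap K ((dn K u).adicCompletion K) δ)) (c : SC LM) :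
    S.Lv (algebraMap K M (D * δ)) u c ↔ S.Lv (algebraMap K M D) u c := by
  have hD0 : algebraMap K M D ≠ 0 := (map_ne_zero _).2 hD
  have hδ0 : algebraMap K M δ ≠ 0 := (map_ne_zero _).2 hδ
  have hDδ0 : algebraMap K M (D * δ) ≠ 0 := (map_ne_zero _).2 (mul_ne_zero hD hδ)
  rw [Lv_self, Lv_self]
  refine H76OD.Wc_tw_iff _ hDδ0 hD0 ?_
  have e : algebraMap K M D / algebraMap K M (D * δ) = (algebraMap K M δ)⁻¹ := by
    rw [map_mul]
    field_simp
  rw [e, map_inv₀]
  refine IsSquare.inv ?_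
  obtain ⟨r, hr⟩ := h
  have h2 : algebraMap M (u.adicCompletion M) (algebraMap K M δ) =
      (over_dn (K := K) u).map (algebraMap K ((dn K u).adicCompletion K) δ) :=
    (Pool.Agent.H10.Over.map_algebraMap _ _).symm
  rw [h2, hr, map_mul]
  exact ⟨_, rfl⟩

/-- The good places. -/
theorem same_good (S : Ext M M LM (algebraMap K M (a : K)) (algebraMap K M (b : K)) θ) {D δ : K}
    {Sg : Finset (HeightOneSpectrum (𝓞 K))} (ok : OkK a b D Sg)
    (u : HeightOneSpectrum (𝓞 M)) (hu : dn K u ∉ Sg) (hδ : (dn K u).valuation K δ = 1)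
    {c : SC LM} (hc : c ∈ HH M LM) :
    S.Lv (algebraMap K M (D * δ)) u c ↔ S.Lv (algebraMap K M D) u c := by
  have hav : u.valuation M (algebraMap K M (a : K)) ≤ 1 := S.ha u
  have hbv : u.valuation M (algebraMap K M (b : K)) ≤ 1 := S.hb u
  have h2 : u.valuation M 2 = 1 := by
    have := val_one (w := u) (ok.two _ hu)
    rwa [map_ofNat] at this
  have hd : u.valuation M (4 * (algebraMap K M (a : K)) ^ 3 +
      27 * (algebraMap K M (b : K)) ^ 2) = 1 := by
    have := val_one (w := u) (ok.dis _ hu)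
    rwa [map_add, map_mul, map_mul, map_pow, map_pow, map_ofNat, map_ofNat] at this
  have h1 : u.valuation M (algebraMap K M D) = 1 := val_one (ok.val _ hu)
  have h3 : u.valuation M (algebraMap K M (D * δ)) = 1 := by
    apply val_one
    rw [map_mul, ok.val _ hu, hδ, one_mul]
  rw [Lv_self, Lv_self, H76OD.Wc_good (cub_self S) u hav hbv h2 hd h3 hc,
    H76OD.Wc_good (cub_self S) u hav hbv h2 hd h1 hc]

/-- The number of places above a place at which the cubic has no root. -/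
theorem nb_noroot {k L : Type} [Field k] [NumberField k] [Field L] [NumberField L] [Algebra k L]
    {A B : 𝓞 k} {θ : L} (h : Cub k L (A : k) (B : k) θ) (u : HeightOneSpectrum (𝓞 k))
    (hn : ∀ t : 𝓞 k, t ^ 3 + A * t + B ∉ u.asIdeal) : H30ZO.nb k L u ≤ 1 := by
  refine H36O2.Oi_nb h ?_
  refine ⟨1, (A : k), (B : k), one_ne_zero, ?_, ?_, u.valuation_le_one A, u.valuation_le_one B, ?_⟩
  · rw [one_pow, one_mul]
  · rw [one_pow, one_mul]
  · exact H26OD.val_NR hn

/-- The places at which the cubic has no root. -/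
theorem same_nr (S : Ext M M LM (algebraMap K M (a : K)) (algebraMap K M (b : K)) θ) {D δ : K}
    (hD : D ≠ 0) (hδ : δ ≠ 0) (u : HeightOneSpectrum (𝓞 M))
    (h2 : (dn K u).valuation K 2 = 1)
    (hn : ∀ t : 𝓞 M, t ^ 3 + algebraMap (𝓞 K) (𝓞 M) a * t + algebraMap (𝓞 K) (𝓞 M) b ∉ u.asIdeal)
    {c : SC LM} (hc : c ∈ HH M LM) :
    S.Lv (algebraMap K M (D * δ)) u c ↔ S.Lv (algebraMap K M D) u c := by
  have hD0 : algebraMap K M D ≠ 0 := (map_ne_zero _).2 hD
  have hDδ0 : algebraMap K M (D * δ) ≠ 0 := (map_ne_zero _).2 (mul_ne_zero hD hδ)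
  have h2' : u.valuation M 2 = 1 := by
    have := val_one (w := u) h2
    rwa [map_ofNat] at this
  have hnb : H30ZO.nb M LM u ≤ 1 := nb_noroot (A := algebraMap (𝓞 K) (𝓞 M) a)
    (B := algebraMap (𝓞 K) (𝓞 M) b) S.cub u hn
  exact ⟨fun _ => Wc_all S.cub u (S.ha u) (S.hb u) (dne_F S) h2' hnb hD0 hc,
    fun _ => Wc_all S.cub u (S.ha u) (S.hb u) (dne_F S) h2' hnb hDδ0 hc⟩

/-- All places except for `w`. -/
theorem same_oth (S : Ext M M LM (algebraMap K M (a : K)) (algebraMap K M (b : K)) θ) {D δ : K}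
    {Sg : Finset (HeightOneSpectrum (𝓞 K))} (ok : OkK a b D Sg)
    {q : HeightOneSpectrum (𝓞 K)} {w : HeightOneSpectrum (𝓞 M)} (P : Pr3 a b q w)
    (hδ : δ ≠ 0) (hsq : ∀ u ∈ Sg, IsSquare (algebraMap K (u.adicCompletion K) δ))
    (hout : ∀ u : HeightOneSpectrum (𝓞 K), u ≠ q → u ∉ Sg → u.valuation K δ = 1)
    (u : HeightOneSpectrum (𝓞 M)) (hu : u ≠ w) {c : SC LM} (hc : c ∈ HH M LM) :
    S.Lv (algebraMap K M (D * δ)) u c ↔ S.Lv (algebraMap K M D) u c := by
  by_cases h1 : dn K u ∈ Sg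
  · exact same_sq S ok.ne hδ u (hsq _ h1) c
  · by_cases h2 : dn K u = q
    · exact same_nr S ok.ne hδ u (ok.two _ h1) (P.oth u h2 hu) hc
    · exact same_good S ok u h1 (hout _ h2 h1) hc

end H76GM
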