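import Pool.Agent.H26.OD.Nb
import Pool.Agent.H30.OR.Td
import Pool.Agent.H88.RE.Ib

/-!
Definitions for the project MP_78d38b_GM (no row).  The paper proof is /team-store/H76_78d38b_GEN.md.

`M / K` is an extension of number fields of odd degree, `N / K` is Galois and contains `M`; `L0 = K(θ0)`, `LM = M(θ)`,
`θ` a root of `x^3 + a x + b`, `a, b ∈ K` integral. The setting over `M` is `S : Ext M M LM ..` (trivial group).
-/

set_option autoImplicit false
set_option linter.unusedSectionVars false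
open scoped Classical

open WithZero NumberField IsDedekindDomain H38RT
open H38T1 (SC sc scu rep eo la si OddP)
open H76PP (Cub LC ev scm dn)
open H88OD H26OD

namespace H76GM

/-- Every cyclic permutation of three embeddings of `M` in `N` over `K` is induced by an automorphism
of `N`, and if `[M : K] = 3` then every transposition, too. So the group of the Galois closure of
`M / K` contains all even permutations of the embeddings. -/
structure Gen (K M N : Type) [Field K] [Field M] [Field N] [Algebra K M] [Algebra K N] : Prop where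
  cyc : ∀ o₁ o₂ o₃ : M →ₐ[K] N, o₁ ≠ o₂ → o₂ ≠ o₃ → o₃ ≠ o₁ → ∃ g : N ≃ₐ[K] N,
    g.toAlgHom.comp o₁ = o₂ ∧ g.toAlgHom.comp o₂ = o₃ ∧ g.toAlgHom.comp o₃ = o₁ ∧
    ∀ o : M →ₐ[K] N, o ≠ o₁ → o ≠ o₂ → o ≠ o₃ → g.toAlgHom.comp o = o
  swap : Module.finrank K M = 3 → ∀ o₁ o₂ : M →ₐ[K] N, o₁ ≠ o₂ → ∃ g : N ≃ₐ[K] N,
    g.toAlgHom.comp o₁ = o₂ ∧ g.toAlgHom.comp o₂ = o₁

/-- The field `N2` generated over `N` by the roots `r m` of `x^3 + a x + b`, whose Galois group over
`K` is the product of the group of `N / K` and the symmetric group. -/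
structure N2D (K N N2 : Type) [Field K] [Field N] [Field N2] [Algebra K N] [Algebra K N2]
    [Algebra N N2] (a b : K) (r : Fin 3 → N2) : Prop where
  gal : IsGalois K N2
  inj : Function.Injective r
  roots : ∀ x : N2, x ^ 3 + algebraMap K N2 a * x + algebraMap K N2 b =
    (x - r 0) * (x - r 1) * (x - r 2)
  gen : ∀ g : N2 ≃ₐ[K] N2, (∀ z : N, g (algebraMap N N2 z) = algebraMap N N2 z) →
    (∀ m, g (r m) = r m) → g = 1
  lift : ∀ (γ : N ≃ₐ[K] N) (σ : Equiv.Perm (Fin 3)), ∃ g : N2 ≃ₐ[K] N2,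
    (∀ z : N, g (algebraMap N N2 z) = algebraMap N N2 (γ z)) ∧ ∀ m, g (r m) = r (σ m)

/-- The embeddings of `LM = M(θ)` in `N2`: `o` on `M` and `θ ↦ r m`. -/
structure EpsD {K M N N2 LM : Type} [Field K] [Field M] [Field N] [Field N2] [Field LM]
    [Algebra K M] [Algebra K N] [Algebra N N2] [Algebra M LM] (θ : LM) (r : Fin 3 → N2)
    (ε : (M →ₐ[K] N) → Fin 3 → (LM →+* N2)) : Prop where
  m : ∀ (o : M →ₐ[K] N) (i : Fin 3) (x : M), ε o i (algebraMap M LM x) = algebraMap N N2 (o x)
  θ : ∀ (o : M →ₐ[K] N) (i : Fin 3), ε o i θ = r i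

/-- A prime `q` of `K` and a place `w` of `M` above `q` at which `x^3 + a x + b` has three roots; it
has no root at `q` and at the other places above `q`. -/
structure Pr3 {K M : Type} [Field K] [NumberField K] [Field M] [NumberField M] [Algebra K M]
    (a b : 𝓞 K) (q : HeightOneSpectrum (𝓞 K)) (w : HeightOneSpectrum (𝓞 M)) : Prop where
  dn : dn K w = q
  ur : ∀ x : K, x ≠ 0 → ord (w.valuation M) (algebraMap K M x) = ord (q.valuation K) x
  nr : ∀ t : 𝓞 K, t ^ 3 + a * t + b ∉ q.asIdeal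
  oth : ∀ u : HeightOneSpectrum (𝓞 M), H76PP.dn K u = q → u ≠ w →
    ∀ t : 𝓞 M, t ^ 3 + algebraMap (𝓞 K) (𝓞 M) a * t + algebraMap (𝓞 K) (𝓞 M) b ∉ u.asIdeal
  three : ∃ e : Fin 3 → w.adicCompletion M,
    H30OR.R3 (algebraMap M (w.adicCompletion M) (algebraMap K M (a : K)))
      (algebraMap M (w.adicCompletion M) (algebraMap K M (b : K))) e

end H76GM
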