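import Pool.Agent.H76.GM.Ac
import Pool.Agent.H76.GM.Wa
import Pool.Agent.H88.OD.Hd
import Pool.Agent.H26.OD.Na

/-!
Project MP_78d38b_GM: the criterion for one extension `M / K`.
-/

set_option autoImplicit false
set_option linter.unusedSectionVars false
open scoped Classical

open WithZero NumberField IsDedekindDomain H38RT
open H38T1 (SC sc scu rep eo la si OddP)
open H76PP (Cub LC ev scm dn val_le val_one)
open H88OD H26OD H30OD H30ZO H36CY H30OR

namespace H76GM

/-- The field `M(θ)`. -/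
theorem exists_upM {K M L0 : Type} [Field K] [NumberField K] [Field M] [NumberField M]
    [Algebra K M] [Field L0] [NumberField L0] [Algebra K L0] {a b : K} {θ0 : L0}
    (S0 : Ext K K L0 a b θ0)
    (hir : ∀ t : M, t ^ 3 + algebraMap K M a * t + algebraMap K M b ≠ 0)
    (hsq : ¬ IsSquare (algebraMap K M (-(4 * a ^ 3 + 27 * b ^ 2)))) :
    ∃ (LM : Type) (_ : Field LM) (_ : NumberField LM) (_ : Algebra M LM) (_ : Algebra L0 LM),
      UpN S0 M LM ∧
        Nonempty (Ext M M LM (algebraMap K M a) (algebraMap K M b) (algebraMap L0 LM θ0)) := by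
  obtain ⟨LM, i1, i2, i3, θM, hc⟩ := H24PD.exists_cub (K := M) hir
  have hj : θM ^ 3 + ((algebraMap M LM).comp (algebraMap K M)) (algebraMap K K a) * θM +
      ((algebraMap M LM).comp (algebraMap K M)) (algebraMap K K b) = 0 := hc.root
  obtain ⟨j, hj1, hj2⟩ : ∃ j : L0 →+* LM, j θ0 = θM ∧
      ∀ x : K, j (algebraMap K L0 x) = algebraMap M LM (algebraMap K M x) :=
    ⟨H36MX.rh S0.cub _ hj, H36MX.rh_theta _ _ _, fun x => H36MX.rh_algebraMap _ _ _ x⟩
  refine ⟨LM, i1, i2, i3, j.toAlgebra, ?_⟩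
  let _ : Algebra L0 LM := j.toAlgebra
  have e : algebraMap L0 LM θ0 = θM := hj1
  rw [e]
  have hc' : Cub M LM (algebraMap M M (algebraMap K M a)) (algebraMap M M (algebraMap K M b)) θM :=
    hc
  refine ⟨⟨?_, fun x => hj2 x⟩, ⟨?_⟩⟩
  · rw [e]
    exact hc
  · exact
      { cub := hc'
        gal := inferInstance
        odd := by
          rw [Module.finrank_self]
          exact odd_one
        ha := fun v => val_le (S0.ha _)
        hb := fun v => val_le (S0.hb _)
        dne := by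
          have h := (map_ne_zero (algebraMap K M)).2 S0.dne
          rwa [map_add, map_mul, map_mul, map_pow, map_pow, map_ofNat, map_ofNat] at h
        dsq := by
          have h := hsq
          rwa [map_neg, map_add, map_mul, map_mul, map_pow, map_pow, map_ofNat, map_ofNat] at h
        ρ :=
          { toFun := fun g => Ex_aut hc' g
            map_one' := by
              ext y
              exact Ex_phi_one hc' y
            map_mul' := fun g h => by
              ext y
              exact Ex_phi_mul hc' g h y }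
        ρF := fun g x => Ex_phi_F hc' g x
        ρθ := fun g => Ex_phi_theta hc' g }

/-- From the Selmer group to `Tv`. -/
theorem tv_of_V {k L : Type} [Field k] [NumberField k] [Field L] [NumberField L] [Algebra k L]
    {A B : k} {θ : L} (S : Ext k k L A B θ) {D : k} (hD : D ≠ 0) (h : ∀ c, S.V D c → c = 0) :
    Tv k (D ^ 2 * A) (D ^ 3 * B) := tv_between S hD h k

/-- From `Tv` to the Selmer group. -/
theorem V_of_tv {k L : Type} [Field k] [NumberField k] [Field L] [NumberField L] [Algebra k L]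
    {A B : k} {θ : L} (S : Ext k k L A B θ) {D : k} (hD : D ≠ 0)
    (h : Tv k (D ^ 2 * A) (D ^ 3 * B)) (c : SC L) (hc : S.V D c) : c = 0 := by
  refine fix_zero S hD h c hc fun g => ?_
  have hg : g = 1 := Subsingleton.elim _ _
  rw [hg, map_one, one_smul]

/-- **Descent of `Tv`** in extensions of odd degree. -/
theorem tv_down {k M : Type} [Field k] [NumberField k] [Field M] [NumberField M] [Algebra k M]
    (hodd : Odd (Module.finrank k M)) {A B : k}
    (hA : ∀ v : HeightOneSpectrum (𝓞 k), v.valuation k A ≤ 1)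
    (hB : ∀ v : HeightOneSpectrum (𝓞 k), v.valuation k B ≤ 1)
    (hir : ∀ t : M, t ^ 3 + algebraMap k M A * t + algebraMap k M B ≠ 0)
    (hsq : ¬ IsSquare (algebraMap k M (-(4 * A ^ 3 + 27 * B ^ 2)))) {D : k} (hD : D ≠ 0)
    (h : Tv M ((algebraMap k M D) ^ 2 * algebraMap k M A)
      ((algebraMap k M D) ^ 3 * algebraMap k M B)) : Tv k (D ^ 2 * A) (D ^ 3 * B) := by
  have hirk : ∀ t : k, t ^ 3 + A * t + B ≠ 0 := by
    intro t ht
    apply hir (algebraMap k M t)
    rw [← map_pow, ← map_mul, ← map_add, ← map_add, ht, map_zero]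
  have hsqk : ¬ IsSquare (-(4 * A ^ 3 + 27 * B ^ 2)) := fun h => hsq (h.map (algebraMap k M))
  have hne : 4 * A ^ 3 + 27 * B ^ 2 ≠ 0 := by
    intro h0
    apply hsqk
    rw [h0, neg_zero]
    exact ⟨0, (mul_zero 0).symm⟩
  obtain ⟨L0, _, _, _, θ0, ⟨S0⟩⟩ := exists_self hA hB hirk hne hsqk
  obtain ⟨LM, _, _, _, _, U, ⟨S⟩⟩ := exists_upM S0 hir hsq
  refine tv_of_V S0 hD fun c hc => ?_
  have h1 := V_up U S hc
  exact res_inj hodd U hc.hh (V_of_tv S ((map_ne_zero _).2 hD) h _ h1)

variable {K M N : Type} [Field K] [NumberField K] [Field M] [NumberField M] [Field N]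
  [NumberField N] [Algebra K M] [Algebra K N] [Algebra M N] [IsScalarTower K M N] {a b : 𝓞 K}

/-- Integral elements. -/
lemma cr_noroot [IsGalois K N] (hir : ∀ t : K, t ^ 3 + (a : K) * t + (b : K) ≠ 0)
    (hsqN : ¬ IsSquare (algebraMap K N (-(4 * (a : K) ^ 3 + 27 * (b : K) ^ 2)))) (t : M) :
    t ^ 3 + algebraMap K M (a : K) * t + algebraMap K M (b : K) ≠ 0 := by
  intro h
  apply noroot_N hir hsqN (algebraMap M N t)
  have h1 := congrArg (algebraMap M N) h
  rwa [map_add, map_add, map_mul, map_pow, map_zero, ← IsScalarTower.algebraMap_apply K M N,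
    ← IsScalarTower.algebraMap_apply K M N] at h1

lemma cr_sq (hsqN : ¬ IsSquare (algebraMap K N (-(4 * (a : K) ^ 3 + 27 * (b : K) ^ 2)))) :
    ¬ IsSquare (algebraMap K M (-(4 * (a : K) ^ 3 + 27 * (b : K) ^ 2))) := by
  intro h
  apply hsqN
  rw [IsScalarTower.algebraMap_apply K M N]
  exact h.map (algebraMap M N)

/-- A finite set of primes of `M`. -/
theorem exists_okM {LM : Type} [Field LM] [NumberField LM] [Algebra M LM] {θ : LM}
    (S : Ext M M LM (algebraMap K M (a : K)) (algebraMap K M (b : K)) θ) {D : K}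
    {Sg : Finset (HeightOneSpectrum (𝓞 K))} (ok : OkK a b D Sg) :
    ∃ SM : Finset (HeightOneSpectrum (𝓞 M)), (∀ u, u ∈ SM ↔ dn K u ∈ Sg) ∧
      S.Ok (algebraMap K M D) SM ∧ ∀ u, u ∉ SM → u.valuation M 3 = 1 := by
  obtain ⟨SM, hSM⟩ : ∃ A : Finset (HeightOneSpectrum (𝓞 M)), A = (fin_ab (F := M) Sg).toFinset :=
    ⟨_, rfl⟩
  have m1 : ∀ u, u ∈ SM ↔ dn K u ∈ Sg := fun u => by
    rw [hSM, Set.Finite.mem_toFinset]
    rfl
  refine ⟨SM, m1, ⟨(map_ne_zero _).2 ok.ne, fun u hu => ?_, fun u hu => ?_, fun u hu => ?_⟩,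
    fun u hu => ?_⟩
  all_goals rw [m1] at hu
  · have := val_one (w := u) (ok.two _ hu)
    rwa [map_ofNat] at this
  · have := val_one (w := u) (ok.dis _ hu)
    rwa [map_add, map_mul, map_mul, map_pow, map_pow, map_ofNat, map_ofNat] at this
  · exact val_one (ok.val _ hu)
  · have := val_one (w := u) (ok.three _ hu)
    rwa [map_ofNat] at this

/-- The parity of the Selmer rank over `M` does not change. -/
theorem par_M {LM : Type} [Field LM] [NumberField LM] [Algebra M LM] {θ : LM}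
    (S : Ext M M LM (algebraMap K M (a : K)) (algebraMap K M (b : K)) θ) {D0 D : K}
    {Sg : Finset (HeightOneSpectrum (𝓞 K))} (ok : OkK a b D0 Sg) (h : Rel K Sg D0 D) :
    (∃ k : ℕ, Nat.card {c : SC LM // S.V (algebraMap K M D0) c} = 4 ^ k) ↔
      ∃ k : ℕ, Nat.card {c : SC LM // S.V (algebraMap K M D) c} = 4 ^ k := by
  obtain ⟨SM, m1, okM, h3⟩ := exists_okM S ok
  obtain ⟨δ, hδ⟩ : ∃ δ : K, δ = D / D0 := ⟨_, rfl⟩
  have hδ0 : δ ≠ 0 := by
    rw [hδ]
    exact div_ne_zero h.n1 h.n0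
  have hD : D = D0 * δ := by
    rw [hδ, mul_div_cancel₀ _ h.n0]
  obtain ⟨m, n, hm, hn, hev⟩ := parity_tw S okM h3 (δ := algebraMap K M δ)
    ((map_ne_zero _).2 hδ0) (fun u hu => by
      obtain ⟨r, hr⟩ := h.sq _ ((m1 u).1 hu)
      have h2 : algebraMap M (u.adicCompletion M) (algebraMap K M δ) =
          (over_dn (K := K) u).map (algebraMap K ((dn K u).adicCompletion K) δ) :=
        (Pool.Agent.H10.Over.map_algebraMap _ _).symm
      rw [h2, hδ, hr, map_mul]
      exact ⟨_, rfl⟩) (fun s => by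
      rw [hδ]
      exact h.pos (s.comp (algebraMap K M)))
  rw [hD, map_mul, hm, hn]
  have key : ∀ p q : ℕ, Even (p + q) → (∃ k : ℕ, 2 ^ p = 4 ^ k) → ∃ k : ℕ, 2 ^ q = 4 ^ k := by
    rintro p q h1 ⟨k, hk⟩
    have h4 : p = 2 * k := by
      have e : (4 : ℕ) ^ k = 2 ^ (2 * k) := by
        rw [pow_mul]
        norm_num
      rw [e] at hk
      exact Nat.pow_right_injective le_rfl hk
    have h5 : Even q := by
      rw [Nat.even_add] at h1
      exact h1.1 ⟨k, by omega⟩
    obtain ⟨j, hj⟩ := h5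
    refine ⟨j, ?_⟩
    have e : (4 : ℕ) ^ j = 2 ^ (2 * j) := by
      rw [pow_mul]
      norm_num
    rw [e, hj, two_mul]
  exact ⟨key m n hev, key n m (by rwa [add_comm])⟩

end H76GM
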