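import Pool.Agent.H30.OR.Tm
import Pool.Agent.H76.GM.Aa
import Pool.Agent.H30.OR.Te
import Pool.Agent.H88.OD.Gb

/-!
Project MP_78d38b_GM: twisting at a prime of type (3,3) divides the order of the Selmer group over `M`
by four.
-/

set_option autoImplicit false
set_option linter.unusedSectionVars false
open scoped Classical

open WithZero NumberField IsDedekindDomain H38RT
open H38T1 (SC sc scu rep eo la si OddP)
open H76PP (Cub LC ev scm dn val_le val_one)
open H88OD H26OD H30OD H30ZO H36CY H30OR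

namespace H76GM

/-- Three different nonzero vectors. -/
lemma Ab_span {V : Type} [AddCommGroup V] (f : V →+ (Fin 2 → ZMod 2)) {x y : V} (hx : f x ≠ 0)
    (hy : f y ≠ 0) (hxy : f (x + y) ≠ 0) (z : Fin 2 → ZMod 2) : ∃ v : V, f v = z := by
  have key0 : ∀ p0 p1 q0 q1 z0 z1 : ZMod 2, ¬ (p0 = 0 ∧ p1 = 0) → ¬ (q0 = 0 ∧ q1 = 0) →
      ¬ (p0 + q0 = 0 ∧ p1 + q1 = 0) → (z0 = 0 ∧ z1 = 0) ∨ (z0 = p0 ∧ z1 = p1) ∨
        (z0 = q0 ∧ z1 = q1) ∨ (z0 = p0 + q0 ∧ z1 = p1 + q1) := by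
    have hz : ∀ z : ZMod 2, z = 0 ∨ z = 1 := by decide
    have h11 : (1 : ZMod 2) + 1 = 0 := by decide
    have h10 : (1 : ZMod 2) ≠ 0 := by decide
    intro p0 p1 q0 q1 z0 z1
    rcases hz p0 with rfl | rfl <;> rcases hz p1 with rfl | rfl <;>
      rcases hz q0 with rfl | rfl <;> rcases hz q1 with rfl | rfl <;>
      rcases hz z0 with rfl | rfl <;> rcases hz z1 with rfl | rfl <;> simp [h11]
  have ext2 : ∀ p q : Fin 2 → ZMod 2, p 0 = q 0 ∧ p 1 = q 1 → p = q := by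
    rintro p q ⟨h0, h1⟩
    funext i
    fin_cases i
    · exact h0
    · exact h1
  have key : ∀ p q z : Fin 2 → ZMod 2, p ≠ 0 → q ≠ 0 → p + q ≠ 0 →
      z = 0 ∨ z = p ∨ z = q ∨ z = p + q := by
    intro p q z h1 h2 h3
    rcases key0 (p 0) (p 1) (q 0) (q 1) (z 0) (z 1) (fun h => h1 (ext2 _ _ h))
      (fun h => h2 (ext2 _ _ h)) (fun h => h3 (ext2 _ _ h)) with h | h | h | h
    · exact Or.inl (ext2 _ _ h)
    · exact Or.inr (Or.inl (ext2 _ _ h))
    · exact Or.inr (Or.inr (Or.inl (ext2 _ _ h)))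
    · exact Or.inr (Or.inr (Or.inr (ext2 _ _ h)))
  rw [map_add] at hxy
  rcases key (f x) (f y) z hx hy hxy with h | h | h | h
  · exact ⟨0, by rw [map_zero, h]⟩
  · exact ⟨x, h.symm⟩
  · exact ⟨y, h.symm⟩
  · exact ⟨x + y, by rw [map_add, h]⟩

lemma Ab_card {V : Type} [AddCommGroup V] {A : AddSubgroup V} {P Q : V → Prop}
    (hA : ∀ c, c ∈ A ↔ P c) (f : V →+ (Fin 2 → ZMod 2)) (hQ : ∀ c, Q c ↔ P c ∧ f c = 0)
    {x y : V} (hx : P x) (hy : P y) (h1 : f x ≠ 0) (h2 : f y ≠ 0) (h3 : f (x + y) ≠ 0) :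
    Nat.card {c // P c} = 4 * Nat.card {c // Q c} := by
  have e1 : Nat.card {c // P c} = Nat.card A :=
    Nat.card_congr (Equiv.subtypeEquivRight fun c => (hA c).symm)
  obtain ⟨g, hg⟩ : ∃ g : A →+ (Fin 2 → ZMod 2), ∀ c, g c = f c := ⟨f.comp A.subtype, fun _ => rfl⟩
  have e2 : Nat.card {c // Q c} = Nat.card g.ker := by
    refine Nat.card_congr
      { toFun := fun c => ⟨⟨c.1, (hA _).2 ((hQ _).1 c.2).1⟩, ?_⟩
        invFun := fun c => ⟨c.1.1, (hQ _).2 ⟨(hA _).1 c.1.2, ?_⟩⟩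
        left_inv := fun _ => rfl
        right_inv := fun _ => rfl }
    · rw [AddMonoidHom.mem_ker, hg]
      exact ((hQ _).1 c.2).2
    · rw [← hg]
      exact c.2
  have e3 : Function.Surjective g := by
    intro z
    obtain ⟨v, hv⟩ := Ab_span (V := A) g (x := ⟨x, (hA x).2 hx⟩) (y := ⟨y, (hA y).2 hy⟩)
      (by rw [hg]; exact h1) (by rw [hg]; exact h2) (by rw [hg]; exact h3) z
    exact ⟨v, hv⟩
  have e4 := AddSubgroup.card_mul_index g.ker
  rw [AddSubgroup.index_ker, AddMonoidHom.range_eq_top.2 e3,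
    Nat.card_congr AddSubgroup.topEquiv.toEquiv] at e4
  have e5 : Nat.card (Fin 2 → ZMod 2) = 4 := by
    rw [Nat.card_eq_fintype_card, Fintype.card_fun, ZMod.card, Fintype.card_fin]
    norm_num
  rw [e1, e2, ← e4, e5, mul_comm]

variable {K M LM : Type} [Field K] [NumberField K] [Field M] [NumberField M] [Field LM]
  [NumberField LM] [Algebra K M] [Algebra M LM] {a b : 𝓞 K} {θ : LM}

/-- **The step.** -/
theorem drop (S : Ext M M LM (algebraMap K M (a : K)) (algebraMap K M (b : K)) θ) {D δ : K}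
    {Sg : Finset (HeightOneSpectrum (𝓞 K))} (ok : OkK a b D Sg)
    {q : HeightOneSpectrum (𝓞 K)} {w : HeightOneSpectrum (𝓞 M)} (P : Pr3 a b q w) (hq : q ∉ Sg)
    (hδ : δ ≠ 0) (hsq : ∀ u ∈ Sg, IsSquare (algebraMap K (u.adicCompletion K) δ))
    (hpos : ∀ s : K →+* ℝ, 0 < s δ)
    (hout : ∀ u : HeightOneSpectrum (𝓞 K), u ≠ q → u ∉ Sg → u.valuation K δ = 1)
    (hodd : Odd (ord (q.valuation K) δ)) {x1 x2 : SC LM} (hx1 : S.V (algebraMap K M D) x1)
    (hx2 : S.V (algebraMap K M D) x2)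
    (h1 : ∃ t : HeightOneSpectrum (𝓞 LM), dn M t = w ∧ la t x1 = 1)
    (h2 : ∃ t : HeightOneSpectrum (𝓞 LM), dn M t = w ∧ la t x2 = 1)
    (h3 : ∃ t : HeightOneSpectrum (𝓞 LM), dn M t = w ∧ la t (x1 + x2) = 1) :
    Nat.card {c : SC LM // S.V (algebraMap K M D) c} =
      4 * Nat.card {c : SC LM // S.V (algebraMap K M (D * δ)) c} := by
  have hw : dn K w ∉ Sg := by
    rw [P.dn]
    exact hq
  have hD0 : algebraMap K M D ≠ 0 := (map_ne_zero _).2 ok.ne
  have hDδ0 : algebraMap K M (D * δ) ≠ 0 := (map_ne_zero _).2 (mul_ne_zero ok.ne hδ)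
  have h2' : OddP w := by
    have := val_one (w := w) (ok.two _ hw)
    rwa [map_ofNat] at this
  have hd : w.valuation M (4 * (algebraMap K M (a : K)) ^ 3 +
      27 * (algebraMap K M (b : K)) ^ 2) = 1 := by
    have := val_one (w := w) (ok.dis _ hw)
    rwa [map_add, map_mul, map_mul, map_pow, map_pow, map_ofNat, map_ofNat] at this
  have hoD : ord (w.valuation M) (algebraMap K M D) = 0 := by
    unfold ord
    rw [val_one (ok.val _ hw), log_one, neg_zero]
  have hDe : Even (ord (w.valuation M) (algebraMap K M D)) := by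
    rw [hoD]
    exact Even.zero
  have hEo : Odd (ord (w.valuation M) (algebraMap K M (D * δ))) := by
    rw [map_mul, ord_mul hD0 ((map_ne_zero _).2 hδ), hoD, zero_add, P.ur δ hδ]
    exact hodd
  obtain ⟨e, he⟩ := P.three
  obtain ⟨r, u, hloc⟩ := loc3 (cub_self S) h2' (S.ha w) (S.hb w) hd (nb_le3 (cub_self S) w) he hD0
    hDe hDδ0 hEo
  have hoth := same_oth S ok P hδ hsq hout
  have hreal := same_real S ok.ne hδ hpos
  have hrec : ∀ c ∈ HH M LM, (∀ v, v ≠ w → S.Lv (algebraMap K M D) v c) →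
      (∀ s : M →+* ℝ, S.Lr (algebraMap K M D) s c) → ∑ i, r i c * u i c = 0 := by
    intro c hc hf hr
    have h4 := rec_all (T := {w}) (q := fun _ => ∑ i, r i c * u i c) (cub_self S) hc
      (fun v hv y hy hyc hal hbe => by
        rw [Finset.mem_singleton.1 hv]
        exact hloc.hq c hc y hy hyc hal hbe)
      (fun v hv => conAt_of_Wc (cub_self S) hD0 v
        ((Lv_self S _ v c).1 (hf v fun h => hv (Finset.mem_singleton.2 h))))
      (fun s => conR_of_Wc (cub_self S) hD0 s ((Lr_self S _ s c).1 (hr s)))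
    rwa [Finset.sum_singleton] at h4
  have hz2 : ∀ z : ZMod 2, z = 0 ∨ z = 1 := by decide
  -- the functional
  obtain ⟨f, hf⟩ : ∃ f : SC LM →+ (Fin 2 → ZMod 2), ∀ c i, f c i = u i c :=
    ⟨{ toFun := fun c i => u i c
       map_zero' := by
        funext i
        exact map_zero _
       map_add' := fun x y => by
        funext i
        exact map_add _ _ _ }, fun _ _ => rfl⟩
  have hr0 : ∀ c, S.V (algebraMap K M D) c → ∀ i, r i c = 0 := fun c hc =>
    (hloc.hr c hc.hh).1 ((Lv_self S _ w c).1 (hc.fin w))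
  have hfne : ∀ c, S.V (algebraMap K M D) c →
      (∃ t : HeightOneSpectrum (𝓞 LM), dn M t = w ∧ la t c = 1) → f c ≠ 0 := by
    rintro c hc ⟨t, ht, hla⟩ h0
    have h5 := H30OR.inj3 (cub_self S) h2' (S.ha w) (S.hb w) hd he hD0 hDe hDδ0 hEo hc.hh
      ((Lv_self S _ w c).1 (hc.fin w)) ((hloc.hu c hc.hh).2 fun i => by
        rw [← hf, h0]
        rfl) ht
    rw [h5] at hla
    exact zero_ne_one hla
  obtain ⟨V, hV⟩ := exists_VG S hD0
  have hx12 : S.V (algebraMap K M D) (x1 + x2) :=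
    (hV _).1 (V.add_mem ((hV _).2 hx1) ((hV _).2 hx2))
  refine Ab_card hV f (fun c => ?_) hx1 hx2 (hfne _ hx1 h1) (hfne _ hx2 h2) (hfne _ hx12 h3)
  constructor
  · intro hc
    have hu0 : ∀ i, u i c = 0 := (hloc.hu c hc.hh).1 ((Lv_self S _ w c).1 (hc.fin w))
    have hf' : ∀ v, v ≠ w → S.Lv (algebraMap K M D) v c := fun v hv =>
      (hoth v hv hc.hh).1 (hc.fin v)
    have hr' : ∀ s : M →+* ℝ, S.Lr (algebraMap K M D) s c := fun s =>
      (hreal s c).1 (hc.inf s)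
    -- reciprocity
    have hpair : ∀ x, S.V (algebraMap K M D) x → ∑ i, r i c * u i x = 0 := by
      intro x hx
      have h6 : ∀ v, v ≠ w → S.Lv (algebraMap K M D) v (c + x) := by
        intro v hv
        obtain ⟨W, hW⟩ := Gb_Wv S hD0 v
        exact ((hW _).1 (W.add_mem ((hW _).2 ⟨hc.hh, hf' v hv⟩) ((hW _).2 ⟨hx.hh, hx.fin v⟩))).2
      have h7 : ∀ s : M →+* ℝ, S.Lr (algebraMap K M D) s (c + x) := by
        intro s
        obtain ⟨W, hW⟩ := Gb_Ws S hD0 s
        exact ((hW _).1 (W.add_mem ((hW _).2 ⟨hc.hh, hr' s⟩) ((hW _).2 ⟨hx.hh, hx.inf s⟩))).2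
      have h8 := hrec (c + x) ((HH M LM).add_mem hc.hh hx.hh) h6 h7
      rw [← h8]
      refine Finset.sum_congr rfl fun i _ => ?_
      rw [map_add, map_add, hr0 x hx i, add_zero, hu0 i, zero_add]
    have hrc : ∀ i, r i c = 0 := by
      have h9 : ∀ z : Fin 2 → ZMod 2, ∑ i, r i c * z i = 0 := by
        intro z
        obtain ⟨g, hg⟩ : ∃ g : V →+ (Fin 2 → ZMod 2), ∀ c, g c = f c :=
          ⟨f.comp V.subtype, fun _ => rfl⟩
        obtain ⟨v, hv⟩ := Ab_span (V := V) g (x := ⟨x1, (hV x1).2 hx1⟩)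
          (y := ⟨x2, (hV x2).2 hx2⟩) (by rw [hg]; exact hfne _ hx1 h1)
          (by rw [hg]; exact hfne _ hx2 h2) (by rw [hg]; exact hfne _ hx12 h3) z
        rw [← hpair v ((hV _).1 v.2)]
        refine Finset.sum_congr rfl fun i _ => ?_
        rw [← hf, ← hg, hv]
      intro i
      have h10 := h9 (fun j => if j = i then 1 else 0)
      rw [Finset.sum_eq_single i (fun j _ hj => by rw [if_neg hj, mul_zero])
        (fun h => absurd (Finset.mem_univ i) h), if_pos rfl, mul_one] at h10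
      exact h10
    refine ⟨⟨hc.hh, fun v => ?_, hr'⟩, ?_⟩
    · by_cases hv : v = w
      · rw [hv]
        exact (Lv_self S _ w c).2 ((hloc.hr c hc.hh).2 hrc)
      · exact hf' v hv
    · funext i
      rw [hf]
      exact hu0 i
  · rintro ⟨hc, h0⟩
    refine ⟨hc.hh, fun v => ?_, fun s => (hreal s c).2 (hc.inf s)⟩
    by_cases hv : v = w
    · rw [hv]
      refine (Lv_self S _ w c).2 ((hloc.hu c hc.hh).2 fun i => ?_)
      rw [← hf, h0]
      rfl
    · exact (hoth v hv hc.hh).2 (hc.fin v)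

end H76GM
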