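import Pool.Agent.H76.GM.Df
import Pool.Agent.H36.GM.Bz

/-!
TARGET of part B (project MP_78d38b_GM).
-/

set_option autoImplicit false
set_option linter.unusedSectionVars false
open scoped Classical

open WithZero NumberField IsDedekindDomain H38RT
open H38T1 (SC sc scu rep eo la si OddP)
open H76PP (Cub LC ev scm dn)
open H88OD H26OD

namespace H76GM

/-- For two classes over `M` no combination of which comes from `K` there is a prime `q` of type
(3-cycle, 3-cycle) at which they are independent. -/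
theorem exists_q3 {K M N : Type} [Field K] [NumberField K] [Field M] [NumberField M] [Field N]
    [NumberField N] [Algebra K M] [Algebra K N] [Algebra M N] [IsScalarTower K M N] [IsGalois K N]
    (hodd : Odd (Module.finrank K M)) (h1 : Module.finrank K M ≠ 1) (G : Gen K M N) {a b : 𝓞 K}
    (hir : ∀ t : K, t ^ 3 + (a : K) * t + (b : K) ≠ 0)
    (hsq : ¬ IsSquare (algebraMap K N (-(4 * (a : K) ^ 3 + 27 * (b : K) ^ 2))))
    {L0 LM : Type} [Field L0] [NumberField L0] [Field LM] [NumberField LM] [Algebra K L0]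
    [Algebra M LM] [Algebra L0 LM] {θ0 : L0} (S0 : Ext K K L0 (a : K) (b : K) θ0)
    (U : UpN S0 M LM) {x1 x2 : SC LM} (hx1 : x1 ∈ H30ZO.HH M LM) (hx2 : x2 ∈ H30ZO.HH M LM)
    (hno : ∀ y0 ∈ H30ZO.HH K L0, ∀ α β : ZMod 2,
      (if α = 0 then 0 else x1) + (if β = 0 then 0 else x2) =
        scm (algebraMap L0 LM : L0 →* LM) y0 → α = 0 ∧ β = 0)
    {B : Set (SC K)} (hB : B.Finite) {A₀ : Set (HeightOneSpectrum (𝓞 K))} (hA₀ : A₀.Finite) :
    ∃ (q : HeightOneSpectrum (𝓞 K)) (w : HeightOneSpectrum (𝓞 M)), q ∉ A₀ ∧ Pr3 a b q w ∧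
      (∀ β ∈ B, la q β = 0) ∧
      (∃ t : HeightOneSpectrum (𝓞 LM), dn M t = w ∧ la t x1 = 1) ∧
      (∃ t : HeightOneSpectrum (𝓞 LM), dn M t = w ∧ la t x2 = 1) ∧
      ∃ t : HeightOneSpectrum (𝓞 LM), dn M t = w ∧ la t (x1 + x2) = 1 := by
  exact H36GM.exists_q3 hodd h1 G hir hsq S0 U hx1 hx2 hno hB hA₀

end H76GM
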