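import Pool.Agent.H76.GM.Df
import Pool.Agent.H38.GM.Cu
import Pool.Agent.H38.GM.Cv

/-!
Part C (project MP_78d38b_GM): descent in the extension `M / K` of odd degree.
-/

set_option autoImplicit false
set_option linter.unusedSectionVars false
open scoped Classical

open WithZero NumberField IsDedekindDomain H38RT
open H38T1 (SC sc scu rep eo la si OddP)
open H76PP (Cub LC ev scm dn)
open H88OD H26OD

namespace H76GM

variable {K M : Type} [Field K] [NumberField K] [Field M] [NumberField M] [Algebra K M]
  {L0 LM : Type} [Field L0] [NumberField L0] [Field LM] [NumberField LM] [Algebra K L0]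
  [Algebra M LM] [Algebra L0 LM] {a b : K} {θ0 : L0}

/-- The restriction is injective. -/
theorem res_inj (hodd : Odd (Module.finrank K M)) {S0 : Ext K K L0 a b θ0} (U : UpN S0 M LM)
    {y : SC L0} (hy : y ∈ H30ZO.HH K L0) (h : scm (algebraMap L0 LM : L0 →* LM) y = 0) : y = 0 := by
  exact H38GM.res_inj hodd U hy h

/-- The restriction of a class in the Selmer group over `K` is in the Selmer group over `M`. -/
theorem V_up {S0 : Ext K K L0 a b θ0} (U : UpN S0 M LM)
    (S : Ext M M LM (algebraMap K M a) (algebraMap K M b) (algebraMap L0 LM θ0)) {D : K}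
    {y : SC L0} (h : S0.V D y) :
    S.V (algebraMap K M D) (scm (algebraMap L0 LM : L0 →* LM) y) := by
  exact H38GM.V_up U S h

/-- **Descent**: if the restriction is in the Selmer group over `M` then the class is in the Selmer
group over `K`. -/
theorem V_down (hodd : Odd (Module.finrank K M)) (N : Type) [Field N] [NumberField N] [Algebra K N]
    [Algebra M N] [IsScalarTower K M N] [IsGalois K N] {S0 : Ext K K L0 a b θ0} (U : UpN S0 M LM)
    (S : Ext M M LM (algebraMap K M a) (algebraMap K M b) (algebraMap L0 LM θ0)) {D : K}
    (hD : D ≠ 0) {y : SC L0} (hy : y ∈ H30ZO.HH K L0)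
    (h : S.V (algebraMap K M D) (scm (algebraMap L0 LM : L0 →* LM) y)) : S0.V D y := by
  exact H38GM.V_down hodd N U S hD hy h

end H76GM
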