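import Pool.Agent.H76.GM.Ab
import Pool.Agent.H76.GM.Bz
import Pool.Agent.H76.GM.Cz

/-!
Project MP_78d38b_GM: the loop. The Selmer group over `K` stays trivial, the order of the Selmer group over
`M` is divided by four in every step.
-/

set_option autoImplicit false
set_option linter.unusedSectionVars false
open scoped Classical

open WithZero NumberField IsDedekindDomain H38RT
open H38T1 (SC sc scu rep eo la si OddP)
open H76PP (Cub LC ev scm dn val_le val_one)
open H88OD H26OD H30OD H30ZO H36CY H30OR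

namespace H76GM

variable {K M N : Type} [Field K] [NumberField K] [Field M] [NumberField M] [Field N]
  [NumberField N] [Algebra K M] [Algebra K N] [Algebra M N] [IsScalarTower K M N]
  {L0 LM : Type} [Field L0] [NumberField L0] [Field LM] [NumberField LM] [Algebra K L0]
  [Algebra M LM] [Algebra L0 LM] {a b : 𝓞 K} {θ0 : L0}

/-- Over `K` nothing changes. -/
theorem same_K (S0 : Ext K K L0 (a : K) (b : K) θ0) {D δ : K}
    {Sg : Finset (HeightOneSpectrum (𝓞 K))} (ok : OkK a b D Sg) {q : HeightOneSpectrum (𝓞 K)}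
    (hnr : ∀ t : 𝓞 K, t ^ 3 + a * t + b ∉ q.asIdeal) (hδ : δ ≠ 0)
    (hsq : ∀ u ∈ Sg, IsSquare (algebraMap K (u.adicCompletion K) δ))
    (hpos : ∀ s : K →+* ℝ, 0 < s δ)
    (hout : ∀ u : HeightOneSpectrum (𝓞 K), u ≠ q → u ∉ Sg → u.valuation K δ = 1) (c : SC L0) :
    S0.V (D * δ) c ↔ S0.V D c := by
  obtain ⟨S, hS⟩ : ∃ S : Ext K K L0 (algebraMap K K (a : K)) (algebraMap K K (b : K)) θ0, S = S0 :=
    ⟨S0, rfl⟩
  have hDK : ∀ E : K, algebraMap K K E = E := fun _ => rfl
  have hv : ∀ (v : HeightOneSpectrum (𝓞 K)), c ∈ HH K L0 → (S0.Lv (D * δ) v c ↔ S0.Lv D v c) := by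
    intro v hc
    rw [← hS, ← hDK (D * δ), ← hDK D]
    by_cases h1 : v ∈ Sg
    · exact same_sq S ok.ne hδ v (by rw [dn_self]; exact hsq v h1) c
    · by_cases h2 : v = q
      · refine same_nr S ok.ne hδ v (by rw [dn_self]; exact ok.two v h1) ?_ hc
        intro t
        rw [h2]
        exact hnr t
      · exact same_good S ok v (by rw [dn_self]; exact h1) (by rw [dn_self]; exact hout v h2 h1) hc
  have hr : ∀ s : K →+* ℝ, S0.Lr (D * δ) s c ↔ S0.Lr D s c := by
    intro s
    rw [← hS, ← hDK (D * δ), ← hDK D]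
    exact same_real S ok.ne hδ hpos s c
  exact ⟨fun h => ⟨h.hh, fun v => (hv v h.hh).1 (h.fin v), fun s => (hr s).1 (h.inf s)⟩,
    fun h => ⟨h.hh, fun v => (hv v h.hh).2 (h.fin v), fun s => (hr s).2 (h.inf s)⟩⟩

/-- A finite set of bad primes. -/
theorem exists_okK (hne : 4 * (a : K) ^ 3 + 27 * (b : K) ^ 2 ≠ 0) {D : K} (hD : D ≠ 0)
    (Sg : Finset (HeightOneSpectrum (𝓞 K))) :
    ∃ Sg' : Finset (HeightOneSpectrum (𝓞 K)), Sg ⊆ Sg' ∧ OkK a b D Sg' ∧ ClOk K Sg' := by
  have h1 : ∀ x : K, x ≠ 0 → {v : HeightOneSpectrum (𝓞 K) | v.valuation K x ≠ 1}.Finite := by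
    intro x hx
    obtain ⟨α, β, hβ, hxy⟩ := IsFractionRing.div_surjective (A := 𝓞 K) x
    have hβ0 : β ≠ 0 := nonZeroDivisors.ne_zero hβ
    have hα0 : α ≠ 0 := by
      rintro rfl
      apply hx
      rw [← hxy, map_zero, zero_div]
    refine ((H30MQ.fin_mem hα0).union (H30MQ.fin_mem hβ0)).subset fun v hv => ?_
    by_contra h
    rw [Set.mem_union, not_or] at h
    apply hv
    rw [← hxy, map_div₀, v.valuation_eq_one_iff_notMem.mpr h.1, v.valuation_eq_one_iff_notMem.mpr h.2,
      div_one]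
  obtain ⟨Sc, hSc, hcl⟩ := exists_cl (K := K) Sg
  refine ⟨Sc ∪ ((h1 2 two_ne_zero).toFinset ∪ ((h1 3 three_ne_zero).toFinset ∪
    ((h1 _ hne).toFinset ∪ (h1 D hD).toFinset))), hSc.trans Finset.subset_union_left,
    ⟨hD, hne, fun v hv => ?_, fun v hv => ?_, fun v hv => ?_, fun v hv => ?_⟩,
    hcl _ Finset.subset_union_left⟩
  all_goals
    simp only [Finset.mem_union, Set.Finite.mem_toFinset, Set.mem_ofPred_eq, not_or, not_not] at hv
  · exact hv.2.1
  · exact hv.2.2.1
  · exact hv.2.2.2.1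
  · exact hv.2.2.2.2

/-- Two different nonzero elements. -/
lemma two_of_card {X : Type} {P : X → Prop} {k : ℕ} (h : Nat.card {c : X // P c} = 4 ^ (k + 1))
    {z : X} : ∃ x1 x2, P x1 ∧ P x2 ∧ x1 ≠ z ∧ x2 ≠ z ∧ x1 ≠ x2 := by
  have hfin : Finite {c : X // P c} := Nat.finite_of_card_ne_zero (by rw [h]; positivity)
  have _ := Fintype.ofFinite {c : X // P c}
  rw [Nat.card_eq_fintype_card] at h
  have h4 : 4 ≤ Fintype.card {c : X // P c} := by
    rw [h, pow_succ]
    have : 1 ≤ 4 ^ k := Nat.one_le_pow _ _ (by norm_num)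
    omega
  obtain ⟨A, hA⟩ : ∃ A : Finset {c : X // P c}, A = Finset.univ.filter fun c => c.1 ≠ z := ⟨_, rfl⟩
  have hc : 2 ≤ A.card := by
    have h5 : (Finset.univ.filter fun c : {c : X // P c} => ¬ c.1 ≠ z).card ≤ 1 := by
      rw [Finset.card_le_one]
      intro c hc d hd
      rw [Finset.mem_filter, not_not] at hc hd
      exact Subtype.ext (hc.2.trans hd.2.symm)
    have h6 := Finset.card_filter_add_card_filter_not (s := (Finset.univ : Finset {c : X // P c}))
      (fun c => c.1 ≠ z)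
    rw [← hA, Finset.card_univ] at h6
    omega
  obtain ⟨c, hc1, d, hd1, hne⟩ := Finset.one_lt_card.1 (lt_of_lt_of_le one_lt_two hc)
  rw [hA, Finset.mem_filter] at hc1 hd1
  exact ⟨c.1, d.1, c.2, d.2, hc1.2, hd1.2, fun h => hne (Subtype.ext h)⟩

/-- **The loop.** -/
theorem loopM [IsGalois K N] (hodd : Odd (Module.finrank K M)) (h1 : Module.finrank K M ≠ 1)
    (G : Gen K M N) (hir : ∀ t : K, t ^ 3 + (a : K) * t + (b : K) ≠ 0)
    (hsqN : ¬ IsSquare (algebraMap K N (-(4 * (a : K) ^ 3 + 27 * (b : K) ^ 2))))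
    (S0 : Ext K K L0 (a : K) (b : K) θ0) (U : UpN S0 M LM)
    (S : Ext M M LM (algebraMap K M (a : K)) (algebraMap K M (b : K)) (algebraMap L0 LM θ0))
    (k : ℕ) : ∀ {D0 : K}, D0 ≠ 0 → (∀ c, S0.V D0 c → c = 0) →
      Nat.card {c : SC LM // S.V (algebraMap K M D0) c} = 4 ^ k →
      ∀ Sg : Finset (HeightOneSpectrum (𝓞 K)), ∃ D : K, Rel K Sg D0 D ∧
        (∀ c, S0.V D c → c = 0) ∧ ∀ c, S.V (algebraMap K M D) c → c = 0 := by
  induction k with
  | zero =>
    intro D0 hD0 hK hM Sg
    refine ⟨D0, ⟨hD0, hD0, fun v _ => ?_, fun s => ?_⟩, hK, fun c hc => ?_⟩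
    · rw [div_self hD0, map_one]
      exact ⟨1, (mul_one 1).symm⟩
    · rw [div_self hD0, map_one]
      exact one_pos
    · obtain ⟨V, hV⟩ := exists_VG S ((map_ne_zero (algebraMap K M)).2 hD0)
      rw [pow_zero, Nat.card_congr (Equiv.subtypeEquivRight fun c => (hV c).symm)] at hM
      have h2 : V = ⊥ := AddSubgroup.eq_bot_of_card_eq V hM
      have h3 := (hV c).2 hc
      rw [h2, AddSubgroup.mem_bot] at h3
      exact h3
  | succ k ih =>
    intro D0 hD0 hK hM Sg
    obtain ⟨Sg', hle, ok, hcl⟩ := exists_okK (a := a) (b := b) S0.dne hD0 Sg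
    obtain ⟨x1, x2, hx1, hx2, n1, n2, n12⟩ := two_of_card (z := 0) hM
    have hD0' : algebraMap K M D0 ≠ 0 := (map_ne_zero _).2 hD0
    obtain ⟨V, hV⟩ := exists_VG S hD0'
    have htwo : ∀ x : SC LM, x + x = 0 := H30OR.add_self_SC
    have hfinB : ((H24TD.US K (Sg' : Set (HeightOneSpectrum (𝓞 K))) : AddSubgroup (SC K)) :
        Set (SC K)).Finite := by
      have hcard := H88T7.card_US7 (K := K) (S := (Sg' : Set (HeightOneSpectrum (𝓞 K))))
        Sg'.finite_toSet
      have hf : Finite (H24TD.US K (Sg' : Set (HeightOneSpectrum (𝓞 K)))) :=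
        Nat.finite_of_card_ne_zero (by rw [hcard]; positivity)
      exact Set.toFinite _
    obtain ⟨q, w, hq, P, hla, t1, t2, t3⟩ := exists_q3 hodd h1 G hir hsqN S0 U hx1.hh hx2.hh
      (by
        intro y0 hy0 α β hy
        have hmem : (if α = 0 then 0 else x1) + (if β = 0 then 0 else x2) ∈ V := by
          refine V.add_mem ?_ ?_
          · split_ifs
            · exact V.zero_mem
            · exact (hV _).2 hx1
          · split_ifs
            · exact V.zero_mem
            · exact (hV _).2 hx2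
        rw [hy, hV] at hmem
        have h2 := V_down hodd N U S hD0 hy0 hmem
        rw [hK _ h2, map_zero] at hy
        by_cases hα : α = 0
        · by_cases hβ : β = 0
          · exact ⟨hα, hβ⟩
          · rw [if_pos hα, if_neg hβ, zero_add] at hy
            exact absurd hy n2
        · by_cases hβ : β = 0
          · rw [if_neg hα, if_pos hβ, add_zero] at hy
            exact absurd hy n1
          · rw [if_neg hα, if_neg hβ] at hy
            exfalso
            apply n12
            have h3 := congrArg (· + x2) hy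
            simp only [add_assoc, htwo, add_zero, zero_add] at h3
            exact h3)
      hfinB (A₀ := (Sg' : Set (HeightOneSpectrum (𝓞 K)))) Sg'.finite_toSet
    have hqS : q ∉ Sg' := fun h => hq (Finset.mem_coe.2 h)
    obtain ⟨δ, d1, d2, d3, d4, d5⟩ := exists_delta ok.two hcl {q} (fun p hp => by
      rw [Finset.mem_singleton.1 hp]
      exact hqS) (fun _ => 0) (by
        intro β hβ
        rw [Finset.sum_singleton, hla β hβ]
        symm
        exact Finset.sum_eq_zero fun s _ => zero_mul _)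
    have hpos : ∀ s : K →+* ℝ, 0 < s δ := by
      intro s
      have h2 := d5 s
      rw [H38T1.si_sc s d1] at h2
      unfold sw at h2
      by_contra hcon
      have h3 : s δ < 0 := lt_of_le_of_ne (not_lt.1 hcon) fun h => d1 (by
        rw [← map_eq_zero s, h])
      rw [if_pos h3] at h2
      exact one_ne_zero h2
    have hout : ∀ u : HeightOneSpectrum (𝓞 K), u ≠ q → u ∉ Sg' → u.valuation K δ = 1 :=
      fun u hu hu' => d3 u (fun h => hu (Finset.mem_singleton.1 h)) hu'
    have hord : Odd (ord (q.valuation K) δ) := by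
      rw [d2 q (Finset.mem_singleton_self q)]
      exact odd_one
    have hdrop := drop S ok P hqS d1 d4 hpos hout hord hx1 hx2 t1 t2 t3
    have hK' : ∀ c, S0.V (D0 * δ) c → c = 0 := fun c hc =>
      hK c ((same_K S0 ok P.nr d1 d4 hpos hout c).1 hc)
    have hM' : Nat.card {c : SC LM // S.V (algebraMap K M (D0 * δ)) c} = 4 ^ k := by
      rw [hM, pow_succ, mul_comm] at hdrop
      exact (Nat.eq_of_mul_eq_mul_left (by norm_num) hdrop).symm
    obtain ⟨D, g1, g2, g3⟩ := ih (mul_ne_zero hD0 d1) hK' hM' Sg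
    refine ⟨D, Rel.trans ⟨hD0, mul_ne_zero hD0 d1, fun v hv => ?_, fun s => ?_⟩ g1, g2, g3⟩
    · rw [mul_div_cancel_left₀ _ hD0]
      exact d4 v (hle hv)
    · rw [mul_div_cancel_left₀ _ hD0]
      exact hpos s

end H76GM
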