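import Pool.Agent.H76.GM.Ad

/-!
Project MP_78d38b_GM: the criterion for one extension `M / K`.
-/

set_option autoImplicit false
set_option linter.unusedSectionVars false
open scoped Classical

open WithZero NumberField IsDedekindDomain H38RT
open H38T1 (SC sc scu rep eo la si OddP unif)
open H76PP (Cub LC ev scm dn val_le val_one)
open H88OD H26OD H30OD H30ZO H36CY H30OR

namespace H76GM

/-- The two-Selmer rank of `E_D` over `M` is even. -/
def EvS (K M : Type) [Field K] [NumberField K] [Field M] [NumberField M] [Algebra K M] (a b : 𝓞 K)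
    (D : K) : Prop :=
  ∃ k : ℕ, selCard M (algebraMap K M (D ^ 2 * (a : K))) (algebraMap K M (D ^ 3 * (b : K))) = 4 ^ k

/-- The two-primary parts are trivial over all number fields between `K` and `M`. -/
def TvB (K M : Type) [Field K] [NumberField K] [Field M] [NumberField M] [Algebra K M] (a b : 𝓞 K)
    (D : K) : Prop :=
  ∀ (k : Type) [Field k] [NumberField k] [Algebra K k] [Algebra k M] [IsScalarTower K k M],
    Tv k (algebraMap K k (D ^ 2 * (a : K))) (algebraMap K k (D ^ 3 * (b : K)))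

variable {K M N : Type} [Field K] [NumberField K] [Field M] [NumberField M] [Field N]
  [NumberField N] [Algebra K M] [Algebra K N] [Algebra M N] [IsScalarTower K M N] {a b : 𝓞 K}

/-- The data over `M`. -/
theorem evS_iff {LM : Type} [Field LM] [NumberField LM] [Algebra M LM] {θ : LM}
    (S : Ext M M LM (algebraMap K M (a : K)) (algebraMap K M (b : K)) θ) {D : K} (hD : D ≠ 0) :
    EvS K M a b D ↔ ∃ k : ℕ, Nat.card {c : SC LM // S.V (algebraMap K M D) c} = 4 ^ k := by
  unfold EvS
  rw [card_V S ((map_ne_zero (algebraMap K M)).2 hD), map_mul, map_mul, map_pow, map_pow]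

/-- The parity does not change. -/
theorem par_S (hir : ∀ t : M, t ^ 3 + algebraMap K M (a : K) * t + algebraMap K M (b : K) ≠ 0)
    (hsq : ¬ IsSquare (algebraMap K M (-(4 * (a : K) ^ 3 + 27 * (b : K) ^ 2)))) {D0 D : K}
    {Sg : Finset (HeightOneSpectrum (𝓞 K))} (ok : OkK a b D0 Sg) (h : Rel K Sg D0 D) :
    EvS K M a b D0 ↔ EvS K M a b D := by
  have hirk : ∀ t : K, t ^ 3 + (a : K) * t + (b : K) ≠ 0 := by
    intro t ht
    apply hir (algebraMap K M t)
    rw [← map_pow, ← map_mul, ← map_add, ← map_add, ht, map_zero]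
  have hsqk : ¬ IsSquare (-(4 * (a : K) ^ 3 + 27 * (b : K) ^ 2)) := fun h =>
    hsq (h.map (algebraMap K M))
  obtain ⟨L0, _, _, _, θ0, ⟨S0⟩⟩ := exists_self (fun v => v.valuation_le_one a)
    (fun v => v.valuation_le_one b) hirk ok.dne hsqk
  obtain ⟨LM, _, _, _, _, U, ⟨S⟩⟩ := exists_upM S0 hir hsq
  rw [evS_iff S h.n0, evS_iff S h.n1]
  exact par_M S ok h

/-- One twist. -/
theorem crit_one [IsGalois K N] (hodd : Odd (Module.finrank K M)) (h1 : Module.finrank K M ≠ 1)
    (G : Gen K M N) (hir : ∀ t : K, t ^ 3 + (a : K) * t + (b : K) ≠ 0)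
    (hsqN : ¬ IsSquare (algebraMap K N (-(4 * (a : K) ^ 3 + 27 * (b : K) ^ 2)))) {D0 : K}
    (hD0 : D0 ≠ 0) (hK : EvS K K a b D0) (hM : EvS K M a b D0)
    (Sg : Finset (HeightOneSpectrum (𝓞 K))) : ∃ D : K, Rel K Sg D0 D ∧ TvB K M a b D := by
  have hsqk : ¬ IsSquare (-(4 * (a : K) ^ 3 + 27 * (b : K) ^ 2)) := fun h =>
    hsqN (h.map (algebraMap K N))
  have hne : 4 * (a : K) ^ 3 + 27 * (b : K) ^ 2 ≠ 0 := by
    intro h0
    apply hsqk
    rw [h0, neg_zero]
    exact ⟨0, (mul_zero 0).symm⟩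
  have hirM := cr_noroot (M := M) hir hsqN
  have hsqM := cr_sq (M := M) hsqN
  obtain ⟨L0, _, _, _, θ0, ⟨S0⟩⟩ := exists_self (fun v => v.valuation_le_one a)
    (fun v => v.valuation_le_one b) hir hne hsqk
  obtain ⟨LM, _, _, _, _, U, ⟨S⟩⟩ := exists_upM S0 hirM hsqM
  obtain ⟨Sg1, hle, ok, -⟩ := exists_okK hne hD0 Sg
  obtain ⟨k, hk⟩ := hK
  have hk' : Nat.card {c : SC L0 // S0.V D0 c} = 4 ^ k := by
    rw [card_V S0 hD0]
    exact hk
  obtain ⟨D1, g1, g2⟩ := even_loop S0 hD0 hk' Sg1
  obtain ⟨k', hk1⟩ := (evS_iff S g1.n1).1 ((par_S hirM hsqM ok g1).1 hM)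
  obtain ⟨D, g3, g4, g5⟩ := loopM (N := N) hodd h1 G hir hsqN S0 U S k' g1.n1 (V_of_tv S0 g1.n1 g2)
    hk1 Sg1
  have hrel := g1.trans g3
  refine ⟨D, ⟨hrel.n0, hrel.n1, fun v hv => hrel.sq v (hle hv), hrel.pos⟩, ?_⟩
  intro F _ _ _ _ _
  have hfd : FiniteDimensional K M := Module.Finite.of_restrictScalars_finite ℚ K M
  have hfdF : FiniteDimensional K F := Module.Finite.of_restrictScalars_finite ℚ K F
  have hfdM : FiniteDimensional F M := Module.Finite.of_restrictScalars_finite ℚ F M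
  have hoddF : Odd (Module.finrank F M) := by
    have h2 := hodd
    rw [← Module.finrank_mul_finrank K F M] at h2
    exact (Nat.odd_mul.1 h2).2
  have e : ∀ x : K, algebraMap F M (algebraMap K F x) = algebraMap K M x := fun x =>
    (IsScalarTower.algebraMap_apply K F M x).symm
  have htv := tv_of_V S ((map_ne_zero (algebraMap K M)).2 hrel.n1) g5
  have h3 := tv_down (k := F) (M := M) hoddF (A := algebraMap K F (a : K))
    (B := algebraMap K F (b : K)) (fun v => val_le ((dn K v).valuation_le_one a))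
    (fun v => val_le ((dn K v).valuation_le_one b)) (by rw [e, e]; exact hirM) (by
      have h4 := hsqM
      rw [← e] at h4
      rwa [map_neg (algebraMap K F), map_add (algebraMap K F), map_mul (algebraMap K F),
        map_mul (algebraMap K F), map_pow (algebraMap K F), map_pow (algebraMap K F),
        map_ofNat, map_ofNat] at h4) (D := algebraMap K F D)
    ((map_ne_zero _).2 hrel.n1) (by rw [e, e, e]; exact htv)
  rw [map_mul, map_mul, map_pow, map_pow]
  exact h3

end H76GM
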