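import Pool.Agent.H76.GM.Ae
import Pool.Agent.H88.OD.Fc
import Pool.Agent.H76.MQ.Cl
import Pool.Agent.H30.MQ.Ch

/-!
Project MP_78d38b_GM: infinitely many twists, the converse.
-/

set_option autoImplicit false
set_option linter.unusedSectionVars false
open scoped Classical

open WithZero NumberField IsDedekindDomain H38RT
open H38T1 (SC sc scu rep eo la si OddP unif)
open H76PP (Cub LC ev scm dn val_le val_one)
open H88OD H26OD H30OD H30ZO H36CY H30OR

namespace H76GM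

/-- The order of a local square is even. -/
theorem even_of_sq {K : Type} [Field K] [NumberField K] {v : HeightOneSpectrum (𝓞 K)} {x : K}
    (hx : x ≠ 0) (h : IsSquare (algebraMap K (v.adicCompletion K) x)) :
    Even (ord (v.valuation K) x) := by
  obtain ⟨r, hr⟩ := h
  have h1 := congrArg Valued.v hr
  rw [H36CY.val_coe, map_mul] at h1
  have h2 : v.valuation K x ≠ 0 := (Valuation.ne_zero_iff _).2 hx
  have h3 : (Valued.v r : WithZero (Multiplicative ℤ)) ≠ 0 := by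
    intro h0
    rw [h0, mul_zero] at h1
    exact h2 h1
  obtain ⟨z, hz⟩ : ∃ z : ℤ, (Valued.v r : WithZero (Multiplicative ℤ)) = exp z :=
    ⟨_, (exp_log h3).symm⟩
  refine ⟨-z, ?_⟩
  unfold ord
  rw [h1, hz, ← exp_add, log_exp]
  ring

/-- There is a prime outside a finite set. -/
theorem exists_out (K : Type) [Field K] [NumberField K] (X : Finset (HeightOneSpectrum (𝓞 K))) :
    ∃ v : HeightOneSpectrum (𝓞 K), v ∉ X := by
  obtain ⟨v, -, hv⟩ := ((H30MQ.frob_infK (K := K) (L := K) 1).sdiff X.finite_toSet).nonempty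
  exact ⟨v, fun h => hv (Finset.mem_coe.2 h)⟩

variable {K M N : Type} [Field K] [NumberField K] [Field M] [NumberField M] [Field N]
  [NumberField N] [Algebra K M] [Algebra K N] [Algebra M N] [IsScalarTower K M N] {a b : 𝓞 K}

/-- **Infinitely many twists.** -/
theorem crit_many [IsGalois K N] (hodd : Odd (Module.finrank K M)) (h1 : Module.finrank K M ≠ 1)
    (G : Gen K M N) (hir : ∀ t : K, t ^ 3 + (a : K) * t + (b : K) ≠ 0)
    (hsqN : ¬ IsSquare (algebraMap K N (-(4 * (a : K) ^ 3 + 27 * (b : K) ^ 2)))) {D0 : K}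
    (hD0 : D0 ≠ 0) (hK : EvS K K a b D0) (hM : EvS K M a b D0)
    (Sg : Finset (HeightOneSpectrum (𝓞 K))) :
    ∃ f : ℕ → K, (∀ n, Rel K Sg D0 (f n) ∧ TvB K M a b (f n)) ∧
      ∀ m n, IsSquare (f m * f n) → m = n := by
  refine exists_seq (P := fun D => Rel K Sg D0 D ∧ TvB K M a b D) (fun D h => h.1.n1) ?_
  intro X
  have hsqk : ¬ IsSquare (-(4 * (a : K) ^ 3 + 27 * (b : K) ^ 2)) := fun h =>
    hsqN (h.map (algebraMap K N))
  have hne : 4 * (a : K) ^ 3 + 27 * (b : K) ^ 2 ≠ 0 := by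
    intro h0
    apply hsqk
    rw [h0, neg_zero]
    exact ⟨0, (mul_zero 0).symm⟩
  obtain ⟨Sg1, hle, ok, -⟩ := exists_okK hne hD0 Sg
  obtain ⟨v1, hv1⟩ := exists_out K (Sg1 ∪ X)
  rw [Finset.mem_union, not_or] at hv1
  obtain ⟨y, hy0, hy, hpos⟩ := approx_pos (insert v1 Sg1) (fun u => if u = v1 then unif v1 else 1)
    (fun u _ => by
      split_ifs
      · exact H76MQ.Cl_unif_ne v1
      · exact one_ne_zero)
  have hrel1 : Rel K Sg1 D0 (D0 * y) := by
    refine ⟨hD0, mul_ne_zero hD0 hy0, fun v hv => ?_, fun s => ?_⟩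
    · rw [mul_div_cancel_left₀ _ hD0]
      obtain ⟨-, r, -, hr⟩ := hy v (Finset.mem_insert_of_mem hv)
      have hvv : v ≠ v1 := fun h => hv1.1 (h ▸ hv)
      simp only [if_neg hvv, map_one, one_mul] at hr
      exact ⟨r, by rw [hr, pow_two]⟩
    · rw [mul_div_cancel_left₀ _ hD0]
      exact hpos s
  have hK' : EvS K K a b (D0 * y) := (par_S hir hsqk ok hrel1).1 hK
  have hM' : EvS K M a b (D0 * y) :=
    (par_S (cr_noroot (M := M) hir hsqN) (cr_sq (M := M) hsqN) ok hrel1).1 hM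
  obtain ⟨D, g1, g2⟩ := crit_one (N := N) hodd h1 G hir hsqN hrel1.n1 hK' hM' (insert v1 Sg1)
  have hrel2 : Rel K Sg1 D0 D := hrel1.trans
    ⟨g1.n0, g1.n1, fun v hv => g1.sq v (Finset.mem_insert_of_mem hv), g1.pos⟩
  refine ⟨D, ⟨⟨hrel2.n0, hrel2.n1, fun v hv => hrel2.sq v (hle hv), hrel2.pos⟩, g2⟩, v1, hv1.2, ?_⟩
  have e1 := even_of_sq (div_ne_zero g1.n1 g1.n0) (g1.sq v1 (Finset.mem_insert_self _ _))
  have e2 : ord (v1.valuation K) D = ord (v1.valuation K) (D / (D0 * y)) +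
      (ord (v1.valuation K) D0 + ord (v1.valuation K) y) := by
    rw [← ord_mul hD0 hy0, ← ord_mul (div_ne_zero g1.n1 g1.n0) g1.n0, div_mul_cancel₀ _ g1.n0]
  have e3 : ord (v1.valuation K) D0 = 0 := by
    unfold ord
    rw [ok.val v1 hv1.1, log_one, neg_zero]
  have e4 : ord (v1.valuation K) y = 1 := by
    have h2 := (hy v1 (Finset.mem_insert_self _ _)).1
    simp only [if_true] at h2
    rw [← H76MQ.Cl_unif_ord v1]
    unfold ord
    rw [h2]
  rw [e2, e3, e4, zero_add]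
  exact e1.add_one

/-- **The converse.** -/
theorem crit_conv [IsGalois K N] (hir : ∀ t : K, t ^ 3 + (a : K) * t + (b : K) ≠ 0)
    (hsqN : ¬ IsSquare (algebraMap K N (-(4 * (a : K) ^ 3 + 27 * (b : K) ^ 2)))) {D0 : K}
    (hD0 : D0 ≠ 0) : ∃ S0 : Finset (HeightOneSpectrum (𝓞 K)), ∀ D, Rel K S0 D0 D →
      TvB K M a b D → EvS K K a b D0 ∧ EvS K M a b D0 := by
  have hsqk : ¬ IsSquare (-(4 * (a : K) ^ 3 + 27 * (b : K) ^ 2)) := fun h =>
    hsqN (h.map (algebraMap K N))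
  have hne : 4 * (a : K) ^ 3 + 27 * (b : K) ^ 2 ≠ 0 := by
    intro h0
    apply hsqk
    rw [h0, neg_zero]
    exact ⟨0, (mul_zero 0).symm⟩
  have hirM := cr_noroot (M := M) hir hsqN
  have hsqM := cr_sq (M := M) hsqN
  obtain ⟨Sg1, -, ok, -⟩ := exists_okK hne hD0 ∅
  obtain ⟨L0, _, _, _, θ0, ⟨S0⟩⟩ := exists_self (fun v => v.valuation_le_one a)
    (fun v => v.valuation_le_one b) hir hne hsqk
  obtain ⟨LM, _, _, _, _, U, ⟨S⟩⟩ := exists_upM S0 hirM hsqM
  refine ⟨Sg1, fun D h ht => ⟨(par_S hir hsqk ok h).2 ⟨0, ?_⟩, (par_S hirM hsqM ok h).2 ?_⟩⟩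
  · rw [pow_zero]
    exact selCard_of_Tv (fun v => v.valuation_le_one a) (fun v => v.valuation_le_one b) hir hne hsqk
      h.n1 (ht K)
  · rw [evS_iff S h.n1]
    refine ⟨0, ?_⟩
    have htv := ht M
    rw [map_mul, map_mul, map_pow, map_pow] at htv
    have h2 := V_of_tv S ((map_ne_zero (algebraMap K M)).2 h.n1) htv
    obtain ⟨V, hV⟩ := exists_VG S ((map_ne_zero (algebraMap K M)).2 h.n1)
    rw [pow_zero, Nat.card_congr (Equiv.subtypeEquivRight fun c => (hV c).symm)]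
    have h3 : V = ⊥ := (AddSubgroup.eq_bot_iff_forall _).2 fun c hc => h2 c ((hV c).1 hc)
    rw [h3]
    exact AddSubgroup.card_bot

end H76GM
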