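import Pool.Agent.H76.GM.Dr

/-!
Row D1 (project MP_78d38b_GM), about 70 lines. The proof is the first half of `H76MQ.kum_T` (Pool/Agent/H76/MQ/Tk.lean): unfold `Wc`, `obtain ⟨d, hd0, rfl, hLC⟩`;
`LC_approx` (H76/PP/Te.lean) for `H76PP.Tg_twist h hE : Cub K L (E^2 A) (E^3 B) (E θ)` (H76/PP/Tg.lean) gives `x' y : K`, `z : L`; put `x = x' / E`, so `x'^3 + E^2 A x' + E^3 B = E^3 f(x)`,
`x' - E θ = E (x - θ)`. `Tk_near_sq` at `v` gives `eo v`, `la v` of `sc (E^3 f)` and `sc (E^3 f) = sc (E f)` (Tg_sq); `Tk_near_sq` at `w` and additivity give the last part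
(`f(x)`, `x - θ` are not zero: `H54PR.ff_ne h x`, `H54PR.sub_ne h x`; `OddP w`: `oddP_dn`).
-/

set_option autoImplicit false
set_option linter.unusedSectionVars false
open scoped Classical

open WithZero NumberField IsDedekindDomain H38RT
open H38T1 (SC sc scu rep eo la si OddP unif)
open H76PP (Cub LC ev scm dn val_le val_one)
open H88OD H26OD H30OD H30ZO H36CY H30OR H36MX H76MX H76MQ

namespace H76GM

variable {K L : Type} [Field K] [NumberField K] [Field L] [NumberField L] [Algebra K L]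
  {A B : 𝓞 K} {θ : L} {v : HeightOneSpectrum (𝓞 K)} {r : K} {t₁ t₂ : HeightOneSpectrum (𝓞 L)}

/-- D1. A local Kummer class has a global abscissa. -/
theorem Wc_glob (h : Cub K L (A : K) (B : K) θ) (hv : OddP v) {E : K} (hE : E ≠ 0) {c : SC L}
    (hW : Wc (algebraMap K (v.adicCompletion K)) (E ^ 2 * (A : K)) (E ^ 3 * (B : K))
      (algebraMap K L E * θ) c) :
    ∃ x : K, eo v (sc (E * (x ^ 3 + (A : K) * x + (B : K)))) = 0 ∧
      la v (sc (E * (x ^ 3 + (A : K) * x + (B : K)))) = 0 ∧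
      ∀ w : HeightOneSpectrum (𝓞 L), dn K w = v →
        eo w c = eo w (sc (algebraMap K L E * (algebraMap K L x - θ))) ∧
        la w c = la w (sc (algebraMap K L E * (algebraMap K L x - θ))) := by
  unfold Wc at hW
  obtain ⟨d, hd0, rfl, hLC⟩ := hW
  have hEL : algebraMap K L E ≠ 0 := (map_ne_zero _).2 hE
  obtain ⟨x', y, z, hy, hz, h1, hw⟩ := H76PP.LC_approx (H76PP.Tg_twist h hE) hd0 v hLC
  obtain ⟨δ, hδ⟩ : ∃ δ, δ = ev (algebraMap K L E * θ) d := ⟨_, rfl⟩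
  rw [← hδ] at hd0 hw ⊢
  obtain ⟨x, hx'⟩ : ∃ x, x' = E * x := ⟨x' / E, by rw [mul_div_cancel₀ _ hE]⟩
  rw [hx'] at h1 hw
  have e1 : (E * x) ^ 3 + E ^ 2 * (A : K) * (E * x) + E ^ 3 * (B : K) =
      E ^ 3 * (x ^ 3 + (A : K) * x + (B : K)) := by ring
  rw [e1] at h1
  have e2 : δ * (algebraMap K L (E * x) - algebraMap K L E * θ) =
      δ * (algebraMap K L E * (algebraMap K L x - θ)) := by
    rw [map_mul]
    ring
  rw [e2] at hw
  have hf0 : x ^ 3 + (A : K) * x + (B : K) ≠ 0 := H54PR.ff_ne h x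
  have hxt : algebraMap K L x - θ ≠ 0 := H54PR.sub_ne h x
  have hE3 : E ^ 3 ≠ 0 := pow_ne_zero 3 hE
  have hEx : algebraMap K L E * (algebraMap K L x - θ) ≠ 0 := mul_ne_zero hEL hxt
  obtain ⟨p1, p2⟩ := H76MQ.Tk_near_sq hv (mul_ne_zero hE3 hf0) hy h1
  have hsEf : (sc (E ^ 3 * (x ^ 3 + (A : K) * x + (B : K))) : SC K) =
      sc (E * (x ^ 3 + (A : K) * x + (B : K))) := by
    have h3 : E ^ 3 * (x ^ 3 + (A : K) * x + (B : K)) =
        E ^ 2 * (E * (x ^ 3 + (A : K) * x + (B : K))) := by ring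
    rw [h3]
    exact H76PP.Tg_sq hE (mul_ne_zero hE hf0)
  rw [hsEf] at p1 p2
  refine ⟨x, p1, p2, fun w hwv => ?_⟩
  have hwo : OddP w := by
    rw [H76PP.oddP_dn (K := K), hwv]
    exact hv
  obtain ⟨q1, q2⟩ := H76MQ.Tk_near_sq hwo (mul_ne_zero hd0 hEx) hz (hw w hwv)
  rw [H38T1.sc_mul hd0 hEx, H38T1.eo_add] at q1
  rw [H38T1.sc_mul hd0 hEx, H38T1.la_add hwo] at q2
  have e3 : ∀ p q : ZMod 2, p + q = 0 → p = q := by decide
  exact ⟨e3 _ _ q1, e3 _ _ q2⟩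

end H76GM
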