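import Pool.Agent.H76.GM.Dr

/-!
Row D2 (project MP_78d38b_GM), about 200 lines. The structure `Rm` is in Dr.lean. Paper proof.
`v` is odd and does not divide 3, `D4 = 4 A^3 + 27 B^2` has order exactly one. Then `v(A) = v(B) = 1` (units): if `v(A) < 1` then `27 B^2 = D4 - 4 A^3` gives `v(B) < 1`, so
`v(A^3) ≤ exp (-3)`, `v(B^2) ≤ exp (-2)`, `v(D4) ≤ exp (-2)`, a contradiction. Put `r = -3 B / (2 A)`, a unit at `v`; `g = A + 3 r^2`; `D4 = 4 A^2 g`, so `v(g) = exp (-1)`.
With `f(X) = X^3 + A X + B` : `3 f(X) = 3 (X - r)^2 (X + 2 r) + g (3 X - 2 r)` (use `2 A r = -3 B`); so `3 f(r) = g r`, `3 f(-2r) = -8 g r` have order one.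
`H36MT.ord_subL` (`dsc A B ∉ v.asIdeal ^ 2`; cf. `H30OR.dsc_notMem`, `H36MX.mem_pow_iff`) at `x = r` gives `t₂` with `ord (r - θ) = 1`, at `x = -2 r` it gives `t₁` with `ord (-2r - θ) = 1`; at
the other places above `v` these are units. `t₁ ≠ t₂` because the difference `3 r` is a unit. From `f(θ) = 0`: `3 (θ - r)^2 (θ + 2 r) = - g (3 θ - 2 r)` (*). So at `w | v` one of
`θ - r`, `θ + 2 r` is not a unit (the right side has value < 1), hence `w ∈ {t₁, t₂}` (only).
e1, e2: `H54MT.ord_dn` (`∃ e, 0 < e ∧ ∀ x ≠ 0, ord_w x = e * ord_{dn w} x`), and by (*) `ord_{t₂} g = 2` (at `t₂`: `θ + 2 r ≡ 3 r`, `3 θ - 2 r ≡ r` units), `ord_{t₁} g = 1` (at `t₁`: `θ - r ≡ -3 r`,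
`3 θ - 2 r ≡ -8 r` units, `ord_{t₁} (θ + 2r) = 1`).
l1, l2: `H76MQ.Cl_la` (Pool/Agent/H76/MQ/Cl.lean; used there with `hU1 : w₁.valuation L (algebraMap K L t - θ) < 1`), with `t = -2 r` resp. `t = r`.
sg: by (*) `-g / (3 (θ - r))^2 = (θ + 2 r) / (3 (3 θ - 2 r))` and this minus one is `-8 (θ - r) / (3 (3 θ - 2 r))`, of value < 1 at `t₂`: `Tk_near_sq` (H76/MQ/Tk.lean; `OddP t₂` by `oddP_dn`).
-/

set_option autoImplicit false
set_option linter.unusedSectionVars false
open scoped Classical

open WithZero NumberField IsDedekindDomain H38RT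
open H38T1 (SC sc scu rep eo la si OddP unif)
open H76PP (Cub LC ev scm dn val_le val_one)
open H88OD H26OD H30OD H30ZO H36CY H30OR H36MX H76MX H76MQ

namespace H76GM

variable {K L : Type} [Field K] [NumberField K] [Field L] [NumberField L] [Algebra K L]
  {A B : 𝓞 K} {θ : L} {v : HeightOneSpectrum (𝓞 K)} {r : K} {t₁ t₂ : HeightOneSpectrum (𝓞 L)}

private theorem D2_lt {x : WithZero (Multiplicative ℤ)} (h : x < 1) : x ≤ exp (-1) := by
  rcases eq_or_ne x 0 with rfl | hx
  · exact zero_le
  · rw [← log_le_iff_le_exp hx]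
    rw [← exp_zero, ← log_lt_iff_lt_exp hx] at h
    omega

/-- The two coefficients are units. -/
private theorem D2_units (hv : OddP v) (h3 : v.valuation K 3 = 1)
    (hd : v.valuation K (4 * (A : K) ^ 3 + 27 * (B : K) ^ 2) = exp (-1)) :
    v.valuation K (A : K) = 1 ∧ v.valuation K (B : K) = 1 := by
  have h2 : v.valuation K 2 = 1 := hv
  have h4 : v.valuation K 4 = 1 := by
    rw [show (4 : K) = 2 * 2 by norm_num, map_mul, h2, one_mul]
  have h27 : v.valuation K 27 = 1 := by
    rw [show (27 : K) = 3 * 3 * 3 by norm_num, map_mul, map_mul, h3, one_mul, one_mul]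
  have hAle : v.valuation K (A : K) ≤ 1 := v.valuation_le_one A
  have hBle : v.valuation K (B : K) ≤ 1 := v.valuation_le_one B
  have hA : v.valuation K (A : K) = 1 := by
    by_contra hne
    have hA1 := D2_lt (lt_of_le_of_ne hAle hne)
    have hA3 : v.valuation K (4 * (A : K) ^ 3) ≤ exp (-2) := by
      rw [map_mul, h4, one_mul, map_pow]
      refine (pow_le_pow_left' hA1 3).trans ?_
      rw [← exp_nsmul, exp_le_exp]
      norm_num
    have hB2 : v.valuation K (27 * (B : K) ^ 2) < 1 := by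
      have he : 27 * (B : K) ^ 2 = (4 * (A : K) ^ 3 + 27 * (B : K) ^ 2) - 4 * (A : K) ^ 3 := by ring
      rw [he]
      refine lt_of_le_of_lt ((v.valuation K).map_sub _ _) (max_lt ?_ (lt_of_le_of_lt hA3 ?_))
      · rw [hd, ← exp_zero, exp_lt_exp]
        norm_num
      · rw [← exp_zero, exp_lt_exp]
        norm_num
    have hB1 : v.valuation K (B : K) ≤ exp (-1) := by
      refine D2_lt (lt_of_le_of_ne hBle fun hB => ?_)
      rw [map_mul, h27, map_pow, hB, one_pow, one_mul] at hB2
      exact lt_irrefl _ hB2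
    have hB3 : v.valuation K (27 * (B : K) ^ 2) ≤ exp (-2) := by
      rw [map_mul, h27, one_mul, map_pow]
      refine (pow_le_pow_left' hB1 2).trans ?_
      rw [← exp_nsmul, exp_le_exp]
      norm_num
    have hle := (v.valuation K).map_add_le hA3 hB3
    rw [hd, exp_le_exp] at hle
    norm_num at hle
  refine ⟨hA, ?_⟩
  by_contra hne
  have hB1 := lt_of_le_of_ne hBle hne
  have hB2 : v.valuation K (27 * (B : K) ^ 2) < 1 := by
    rw [map_mul, h27, one_mul, map_pow]
    exact pow_lt_one' hB1 two_ne_zero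
  have hA2 : v.valuation K (4 * (A : K) ^ 3) = 1 := by
    rw [map_mul, h4, one_mul, map_pow, hA, one_pow]
  have hlt : v.valuation K (4 * (A : K) ^ 3) < 1 := by
    have he : 4 * (A : K) ^ 3 = (4 * (A : K) ^ 3 + 27 * (B : K) ^ 2) - 27 * (B : K) ^ 2 := by ring
    rw [he]
    refine lt_of_le_of_lt ((v.valuation K).map_sub _ _) (max_lt ?_ hB2)
    rw [hd, ← exp_zero, exp_lt_exp]
    norm_num
  rw [hA2] at hlt
  exact lt_irrefl _ hlt

/-- D2. The two places. -/
theorem exists_Rm (h : Cub K L (A : K) (B : K) θ) (hv : OddP v) (h3 : v.valuation K 3 = 1)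
    (hd : v.valuation K (4 * (A : K) ^ 3 + 27 * (B : K) ^ 2) = exp (-1)) :
    ∃ (r : K) (t₁ t₂ : HeightOneSpectrum (𝓞 L)), Rm A B θ v r t₁ t₂ := by
  obtain ⟨hA, hB⟩ := D2_units hv h3 hd
  have h2 : v.valuation K 2 = 1 := hv
  have h4 : v.valuation K 4 = 1 := by
    rw [show (4 : K) = 2 * 2 by norm_num, map_mul, h2, one_mul]
  have h8 : v.valuation K 8 = 1 := by
    rw [show (8 : K) = 2 * 2 * 2 by norm_num, map_mul, map_mul, h2, one_mul, one_mul]
  have hA0 : (A : K) ≠ 0 := fun h0 => by
    rw [h0, map_zero] at hA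
    exact zero_ne_one hA
  obtain ⟨r, hr⟩ : ∃ r : K, r = -3 * (B : K) / (2 * (A : K)) := ⟨_, rfl⟩
  have hrr : 2 * (A : K) * r = -3 * (B : K) := by
    rw [hr]
    field_simp
  have hr1 : v.valuation K r = 1 := by
    rw [hr, map_div₀, map_mul, map_mul, Valuation.map_neg, h3, hB, h2, hA]
    norm_num
  have hr0 : r ≠ 0 := fun h0 => by
    rw [h0, map_zero] at hr1
    exact zero_ne_one hr1
  obtain ⟨g, hg⟩ : ∃ g : K, g = (A : K) + 3 * r ^ 2 := ⟨_, rfl⟩
  have hD4 : 4 * (A : K) ^ 3 + 27 * (B : K) ^ 2 = 4 * (A : K) ^ 2 * g := by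
    rw [hg]
    linear_combination (3 * (2 * (A : K) * r - 3 * (B : K))) * (- hrr)
  have hg1 : v.valuation K g = exp (-1) := by
    rw [hD4, map_mul, map_mul, map_pow, h4, hA, one_pow, one_mul, one_mul] at hd
    exact hd
  have hg0 : g ≠ 0 := fun h0 => by
    rw [h0, map_zero] at hg1
    exact exp_ne_zero hg1.symm
  have hf1 : 3 * (r ^ 3 + (A : K) * r + (B : K)) = g * r := by
    rw [hg]
    linear_combination hrr
  have hf2 : 3 * ((-2 * r) ^ 3 + (A : K) * (-2 * r) + (B : K)) = -8 * g * r := by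
    rw [hg]
    linear_combination hrr
  have hvf1 : v.valuation K (r ^ 3 + (A : K) * r + (B : K)) = exp (-1) := by
    have h1 : v.valuation K (3 * (r ^ 3 + (A : K) * r + (B : K))) = exp (-1) := by
      rw [hf1, map_mul, hg1, hr1, mul_one]
    rwa [map_mul, h3, one_mul] at h1
  have hvf2 : v.valuation K ((-2 * r) ^ 3 + (A : K) * (-2 * r) + (B : K)) = exp (-1) := by
    have h1 : v.valuation K (3 * ((-2 * r) ^ 3 + (A : K) * (-2 * r) + (B : K))) = exp (-1) := by
      rw [hf2, map_mul, map_mul, Valuation.map_neg, h8, hg1, hr1, mul_one, one_mul]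
    rwa [map_mul, h3, one_mul] at h1
  have hdsc : H76PP.dsc A B ∉ v.asIdeal ^ 2 := by
    intro hm
    rw [mem_pow_iff] at hm
    have h5 : ((H76PP.dsc A B : 𝓞 K) : K) = 4 * (A : K) ^ 3 + 27 * (B : K) ^ 2 := by
      change algebraMap (𝓞 K) K (H76PP.dsc A B) = _
      unfold H76PP.dsc
      rw [map_add, map_mul, map_mul, map_pow, map_pow, map_ofNat, map_ofNat]
    rw [h5, hd, exp_le_exp] at hm
    norm_num at hm
  have hx1 : v.valuation K r ≤ 1 := hr1.le
  have hx2 : v.valuation K (-2 * r) ≤ 1 := by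
    rw [map_mul, Valuation.map_neg, h2, hr1, one_mul]
  have hne0 : ∀ {x : K}, v.valuation K x = exp (-1) → x ≠ 0 := by
    intro x hx h0
    rw [h0, map_zero] at hx
    exact exp_ne_zero hx.symm
  obtain ⟨t₂, ht2, ho2, hu2⟩ := H36MT.ord_subL h hdsc hx1 (hne0 hvf1)
  obtain ⟨t₁, ht1, ho1, hu1⟩ := H36MT.ord_subL h hdsc hx2 (hne0 hvf2)
  have hsub0 : ∀ x : K, x ^ 3 + (A : K) * x + (B : K) ≠ 0 → algebraMap K L x - θ ≠ 0 := by
    intro x hx h0
    have hn := h.norm_sub x
    rw [h0, Algebra.norm_zero] at hn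
    exact hx hn.symm
  have hval : ∀ (w : HeightOneSpectrum (𝓞 L)) (x : L), x ≠ 0 → ord (w.valuation L) x = 1 →
      w.valuation L x = exp (-1) := by
    intro w x hx ho
    unfold ord at ho
    rw [← exp_log ((Valuation.ne_zero_iff (w.valuation L)).2 hx)]
    congr 1
    omega
  have hord : ∀ x : K, v.valuation K x = exp (-1) → ord (v.valuation K) x = 1 := by
    intro x hx
    unfold ord
    rw [hx, log_exp]
    norm_num
  have hs2 : t₂.valuation L (algebraMap K L r - θ) = exp (-1) :=
    hval _ _ (hsub0 _ (hne0 hvf1)) (by rw [ho2, hord _ hvf1])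
  have hs1 : t₁.valuation L (algebraMap K L (-2 * r) - θ) = exp (-1) :=
    hval _ _ (hsub0 _ (hne0 hvf2)) (by rw [ho1, hord _ hvf2])
  have hem1 : (exp (-1) : WithZero (Multiplicative ℤ)) < 1 := by
    rw [← exp_zero, exp_lt_exp]
    norm_num
  have hv3r : v.valuation K (3 * r) = 1 := by rw [map_mul, h3, hr1, one_mul]
  have hne : t₁ ≠ t₂ := by
    intro he
    have h5 : t₁.valuation L (algebraMap K L (3 * r)) < 1 := by
      have he3 : algebraMap K L (3 * r) =
          (algebraMap K L r - θ) - (algebraMap K L (-2 * r) - θ) := by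
        rw [map_mul, map_mul]
        simp only [map_neg, map_ofNat]
        ring
      rw [he3]
      refine lt_of_le_of_lt ((t₁.valuation L).map_sub _ _) (max_lt ?_ ?_)
      · rw [he, hs2]
        exact hem1
      · rw [hs1]
        exact hem1
    rw [val_one (K := K) (w := t₁) (by rw [ht1]; exact hv3r)] at h5
    exact lt_irrefl _ h5
  -- the identity
  have hstar : 3 * (algebraMap K L r - θ) ^ 2 * (algebraMap K L (-2 * r) - θ) =
      algebraMap K L g * (3 * θ - 2 * algebraMap K L r) := by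
    have hroot := h.root
    have hrrL := congrArg (algebraMap K L) hrr
    rw [hg]
    simp only [map_mul, map_add, map_pow, map_neg, map_ofNat] at hrrL ⊢
    linear_combination -3 * hroot + hrrL
  have hw3 : ∀ w : HeightOneSpectrum (𝓞 L), dn K w = v → w.valuation L (3 : L) = 1 := by
    intro w hw
    have h5 := val_one (K := K) (L := L) (w := w) (x := 3) (by rw [hw]; exact h3)
    rwa [map_ofNat] at h5
  have hw2 : ∀ w : HeightOneSpectrum (𝓞 L), dn K w = v → w.valuation L (2 : L) = 1 := by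
    intro w hw
    have h5 := val_one (K := K) (L := L) (w := w) (x := 2) (by rw [hw]; exact h2)
    rwa [map_ofNat] at h5
  have hw8 : ∀ w : HeightOneSpectrum (𝓞 L), dn K w = v → w.valuation L (8 : L) = 1 := by
    intro w hw
    have h5 := val_one (K := K) (L := L) (w := w) (x := 8) (by rw [hw]; exact h8)
    rwa [map_ofNat] at h5
  have hwr : ∀ w : HeightOneSpectrum (𝓞 L), dn K w = v →
      w.valuation L (algebraMap K L r) = 1 := fun w hw => val_one (by rw [hw]; exact hr1)
  -- units at the first place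
  have ha1 : t₁.valuation L (algebraMap K L r - θ) = 1 := hu2 _ ht1 hne
  have hb1 : t₁.valuation L (3 * θ - 2 * algebraMap K L r) = 1 := by
    have he : 3 * θ - 2 * algebraMap K L r =
        -3 * (algebraMap K L (-2 * r) - θ) - 8 * algebraMap K L r := by
      rw [map_mul]
      simp only [map_neg, map_ofNat]
      ring
    have h5 : t₁.valuation L (-3 * (algebraMap K L (-2 * r) - θ)) <
        t₁.valuation L (8 * algebraMap K L r) := by
      rw [Valuation.map_mul, Valuation.map_mul, Valuation.map_neg, hw3 _ ht1, hs1, hw8 _ ht1,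
        hwr _ ht1, one_mul, one_mul]
      exact hem1
    rw [he, Valuation.map_sub_eq_of_lt_right _ h5, Valuation.map_mul, hw8 _ ht1, hwr _ ht1,
      one_mul]
  have hg1' : t₁.valuation L (algebraMap K L g) = exp (-1) := by
    have h5 := congrArg (t₁.valuation L) hstar
    rw [Valuation.map_mul, Valuation.map_mul, Valuation.map_pow, Valuation.map_mul, hw3 _ ht1, ha1, hs1, hb1, one_pow, one_mul, one_mul,
      mul_one] at h5
    exact h5.symm
  -- units at the second place
  have ha2 : t₂.valuation L (algebraMap K L (-2 * r) - θ) = 1 := hu1 _ ht2 hne.symm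
  have hb2 : t₂.valuation L (3 * θ - 2 * algebraMap K L r) = 1 := by
    have he : 3 * θ - 2 * algebraMap K L r =
        -3 * (algebraMap K L r - θ) + algebraMap K L r := by ring
    have h5 : t₂.valuation L (-3 * (algebraMap K L r - θ)) <
        t₂.valuation L (algebraMap K L r) := by
      rw [map_mul, Valuation.map_neg, hw3 _ ht2, hs2, hwr _ ht2, one_mul]
      exact hem1
    rw [he, Valuation.map_add_eq_of_lt_right _ h5, hwr _ ht2]
  have hg2' : t₂.valuation L (algebraMap K L g) = exp (-1) ^ 2 := by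
    have h5 := congrArg (t₂.valuation L) hstar
    rw [Valuation.map_mul, Valuation.map_mul, Valuation.map_pow, Valuation.map_mul, hw3 _ ht2, hs2, ha2, hb2, one_mul, mul_one,
      mul_one] at h5
    exact h5.symm
  refine ⟨r, t₁, t₂, hrr, hr1, hg ▸ hg1, ht1, ht2, hne, ?_, ?_, ?_, ?_, hs2, ?_, ?_, ?_⟩
  · intro w hw
    by_contra hcon
    push Not at hcon
    have h5 := hu1 w hw hcon.1
    have h6 := hu2 w hw hcon.2
    have h7 := congrArg (w.valuation L) hstar
    rw [Valuation.map_mul, Valuation.map_mul, Valuation.map_pow, Valuation.map_mul, hw3 _ hw, h5, h6,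
      one_pow, one_mul, one_mul] at h7
    have h8' : w.valuation L (algebraMap K L g) < 1 := H76PP.val_lt (by rw [hw, hg1]; exact hem1)
    have h9 : w.valuation L (3 * θ - 2 * algebraMap K L r) ≤ 1 := by
      have he : 3 * θ - 2 * algebraMap K L r =
          -3 * (algebraMap K L r - θ) + algebraMap K L r := by ring
      rw [he]
      refine ((w.valuation L).map_add _ _).trans (max_le ?_ ?_)
      · rw [map_mul, Valuation.map_neg, hw3 _ hw, h6, one_mul]
      · rw [hwr _ hw]
    have h10 := lt_of_le_of_lt (mul_le_of_le_one_right' (a := w.valuation L (algebraMap K L g)) h9) h8'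
    rw [← h7] at h10
    exact lt_irrefl _ h10
  · intro x hx
    obtain ⟨e, -, he⟩ := H76PP.ord_dn (K := K) t₁
    have h5 := he g hg0
    rw [ht1] at h5
    have h6 : ord (t₁.valuation L) (algebraMap K L g) = 1 := by
      unfold ord
      rw [hg1', log_exp]
      norm_num
    rw [h6, hord _ hg1, mul_one] at h5
    rw [he x hx, ht1, ← h5, one_mul]
  · intro x hx
    obtain ⟨e, -, he⟩ := H76PP.ord_dn (K := K) t₂
    have h5 := he g hg0
    rw [ht2] at h5
    have h6 : ord (t₂.valuation L) (algebraMap K L g) = 2 := by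
      unfold ord
      rw [hg2', ← exp_nsmul, log_exp]
      norm_num
    rw [h6, hord _ hg1, mul_one] at h5
    rw [he x hx, ht2, ← h5]
  · rw [hs1]
    exact hem1
  · intro l hl hev
    exact Cl_la h hv hdsc ht1 hx2 (by rw [hs1]; exact hem1) hl hev
  · intro l hl hev
    exact Cl_la h hv hdsc ht2 hx1 (by rw [hs2]; exact hem1) hl hev
  · have hodd : OddP t₂ := by
      rw [H76PP.oddP_dn (K := K), ht2]
      exact hv
    have hz0 : algebraMap K L r - θ ≠ 0 := hsub0 _ (hne0 hvf1)
    have h30 : (3 : L) ≠ 0 := fun h0 => by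
      have h5 := hw3 _ ht2
      rw [h0, map_zero] at h5
      exact zero_ne_one h5
    have hq0 : 3 * θ - 2 * algebraMap K L r ≠ 0 := fun h0 => by
      rw [h0, map_zero] at hb2
      exact zero_ne_one hb2
    have hg0L : algebraMap K L (-((A : K) + 3 * r ^ 2)) ≠ 0 := by
      rw [← hg, map_neg]
      exact neg_ne_zero.2 fun h0 => hg0 ((algebraMap K L).injective (by rw [h0, map_zero]))
    refine (Tk_near_sq hodd hg0L (mul_ne_zero h30 hz0) ?_).2
    have hid : algebraMap K L (-((A : K) + 3 * r ^ 2)) / (3 * (algebraMap K L r - θ)) ^ 2 - 1 =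
        8 * (algebraMap K L r - θ) / (3 * (3 * θ - 2 * algebraMap K L r)) := by
      rw [← hg, map_neg, div_sub_one (pow_ne_zero 2 (mul_ne_zero h30 hz0)),
        div_eq_div_iff (pow_ne_zero 2 (mul_ne_zero h30 hz0)) (mul_ne_zero h30 hq0)]
      have hstar' := hstar
      simp only [map_mul, map_neg, map_ofNat] at hstar'
      linear_combination 3 * hstar'
    rw [hid, map_div₀, map_mul, map_mul, hw8 _ ht2, hs2, hw3 _ ht2, hb2, one_mul, one_mul, div_one]
    exact hem1

end H76GM
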