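import Pool.Agent.H76.GM.Dr

/-!
Row D3 (project MP_78d38b_GM), about 200 lines. The structure `Rm` and `kr` are in Dr.lean. Paper proof. (`hR : HR2 K L A B θ := hr2 h hD0`, cf. H76/OD/Lt.lean.) Write `eo w`, `la w` for classes.
(0) `eo t₁ c = eo t₂ c`: `n` with `eo v n = 0`, `la v n = 1` (`H36MX.exists_la hv`); `hR.proj hv hy (n ≠ 0)`: `∑ᶠ_{w | v} tp w (sc y) (sc n) = tp v (sc (N y)) (sc n) = 0` as `N y` is a square (`mem_HH`), and
`tp w (sc y) (sc n) = eo w y * la w n = eo w y` by `R.e1, R.e2` (`eo w n = 0`), `R.l1, R.l2`. The sum over the places above `v` has the two terms `t₁`, `t₂` (`R.only`, `R.ne`).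
(1) If `eo t₂ c = 0` then both `eo` vanish and `conic_CL` (H76/MQ/Cl.lean; `tp v = hsv v`: `(hilb K).odd v hv _ _ ha hb`, cf. `rec_T` in H76/OD/Rc.lean) gives 0.
(2) Let `eo t₂ c = 1` (so `eo t₁ c = 1`). `conic_F h hR hy hN ha hb` (H76/MQ/Fs.lean) gives `t s : K`, `sc y = sc l + sc (t - θ) + sc (s - θ)`, `l = -(al * be)`. By `R.e2` `eo t₂ l = 0`. So exactly one of
`t, s` has `eo t₂ (t - θ) = 1`; say `t` (both formulas of `conic_F` are the same, prove a lemma for `t` and use it for `t` or `s`): claim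
   `eo t₂ (t - θ) = 1`, `eo t₁ c = eo t₂ c = 1` → `∑ᶠ_{w | v} tp w (sc y) (sc (t - θ)) = la t₂ c + kr θ r t₂`.
Proof: `t` is integral at `v` (otherwise `(t - θ) / t` is near 1 at `t₂`, so `eo t₂ (t - θ) = eo t₂ t = 0` by e2; `Tk_mul` of H76/MQ/Tk.lean, `ord_sub_big` of H76/PP/Tc.lean). `H36MT.ord_subL` at `t`: the place `w₁` of positive order
must be `t₂` (else `t - θ` is a unit at `t₂`), so `ord_{t₂} (t - θ) = ord_v f(t)` is odd and ≥ 0 (t₂.valuation ≤ 1), so `t₂.valuation (t - θ) < 1`, and `t - θ` is a unit at `t₁`. With `R.s2`: `t₂.valuation (t - r) < 1`, so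
`v.valuation (t - r) < 1`, so `ord_{t₂} (t - r) ≥ 2` (e2) and `(t - θ) / (r - θ)` is near 1 at `t₂` (`R.s2`): `la t₂ (t - θ) = la t₂ (r - θ)`. At `t₁`: `t - θ = (t - r) + 3 r + (-2 r - θ)` is near `3 r` (`R.s1`),
so `eo t₁ (t - θ) = 0`, `la t₁ (t - θ) = la t₁ (3 r) = la v (3 r) = la t₂ (3 r)` (l1, l2). So (`tp w c d = eo c * la d + eo d * la c + eo c * eo d * ka w`, unfold H38T1.tp; `ka w = la w (-1)`)
the sum is `la t₁ (3 r) + la t₂ (r - θ) + la t₂ c + ka t₂ = la t₂ c + la t₂ (3 r * (θ - r))`.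
-/

set_option autoImplicit false
set_option linter.unusedSectionVars false
open scoped Classical

open WithZero NumberField IsDedekindDomain H38RT
open H38T1 (SC sc scu rep eo la si OddP unif)
open H76PP (Cub LC ev scm dn val_le val_one)
open H88OD H26OD H30OD H30ZO H36CY H30OR H36MX H76MX H76MQ

namespace H76GM

variable {K L : Type} [Field K] [NumberField K] [Field L] [NumberField L] [Algebra K L]
  {A B : 𝓞 K} {θ : L} {v : HeightOneSpectrum (𝓞 K)} {r : K} {t₁ t₂ : HeightOneSpectrum (𝓞 L)}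

section aux

/-- Sum over the two places. -/
private theorem D3_sum {v : HeightOneSpectrum (𝓞 K)} {t₁ t₂ : HeightOneSpectrum (𝓞 L)}
    (R : Rm A B θ v r t₁ t₂) (g : HeightOneSpectrum (𝓞 L) → ZMod 2) :
    ∑ᶠ w : {w : HeightOneSpectrum (𝓞 L) // dn K w = v}, g w.1 = g t₁ + g t₂ := by
  rw [← finsum_mem_pair (f := g) R.ne, finsum_subtype_eq_finsum_cond (f := g)]
  refine finsum_congr fun w => ?_
  have hw : (dn K w = v) ↔ w ∈ ({t₁, t₂} : Set (HeightOneSpectrum (𝓞 L))) := by
    constructor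
    · intro h
      rcases R.only w h with h | h
      · exact Or.inl h
      · exact Or.inr h
    · rintro (h | h)
      · rw [h]
        exact R.dn1
      · rw [Set.mem_singleton_iff.1 h]
        exact R.dn2
  rw [finsum_congr_Prop (propext hw) fun _ => rfl]

private theorem D3_eo1 (R : Rm A B θ v r t₁ t₂) {x : K} (hx : x ≠ 0) :
    eo t₁ (sc (algebraMap K L x)) = eo v (sc x) := by
  rw [H38T1.eo_sc ((map_ne_zero _).2 hx), H38T1.eo_sc hx, R.e1 x hx]

private theorem D3_eo2 (R : Rm A B θ v r t₁ t₂) {x : K} (hx : x ≠ 0) :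
    eo t₂ (sc (algebraMap K L x)) = 0 := by
  rw [H38T1.eo_sc ((map_ne_zero _).2 hx), R.e2 x hx]
  push_cast
  have h2 : (2 : ZMod 2) = 0 := by decide
  rw [h2, zero_mul]

/-- Small at `t₂` implies small at `v`, hence very small at `t₂` and small at `t₁`. -/
private theorem D3_small (R : Rm A B θ v r t₁ t₂) {x : K}
    (hx : t₂.valuation L (algebraMap K L x) < 1) :
    t₂.valuation L (algebraMap K L x) ≤ exp (-2) ∧ t₁.valuation L (algebraMap K L x) < 1 := by
  by_cases hx0 : x = 0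
  · rw [hx0, map_zero, map_zero, map_zero]
    exact ⟨zero_le, zero_lt_one⟩
  · have hL0 : algebraMap K L x ≠ 0 := (map_ne_zero _).2 hx0
    have h1 := (Cl_lt hL0).1 hx
    rw [R.e2 x hx0] at h1
    have h2 : 0 < ord (v.valuation K) x := by omega
    refine ⟨?_, ?_⟩
    · rw [Cl_val hL0, R.e2 x hx0, exp_le_exp]
      omega
    · rw [Cl_lt hL0, R.e1 x hx0]
      exact h2

private theorem D3_key (R : Rm A B θ v r t₁ t₂) (h : Cub K L (A : K) (B : K) θ) (hv : OddP v)
    (h3 : v.valuation K 3 = 1) {c : SC L} (hc1 : eo t₁ c = 1) (hc2 : eo t₂ c = 1) {t : K}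
    (ht : eo t₂ (sc (algebraMap K L t - θ)) = 1) :
    H38T1.tp t₁ c (sc (algebraMap K L t - θ)) + H38T1.tp t₂ c (sc (algebraMap K L t - θ)) =
      la t₂ c + kr θ r t₂ := by
  have o1 : OddP t₁ := (H76PP.oddP_dn (K := K)).2 (by rw [R.dn1]; exact hv)
  have o2 : OddP t₂ := (H76PP.oddP_dn (K := K)).2 (by rw [R.dn2]; exact hv)
  have hU0 := H54PR.sub_ne h t
  have hr0 : r ≠ 0 := by
    intro h0
    have := R.r0
    rw [h0, map_zero] at this
    exact zero_ne_one this
  have h30 : (3 : K) ≠ 0 := three_ne_zero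
  have h3r : (3 * r : K) ≠ 0 := mul_ne_zero h30 hr0
  have h3rL : algebraMap K L (3 * r) ≠ 0 := (map_ne_zero _).2 h3r
  have hrθ := H54PR.sub_ne h r
  -- t is integral
  have hti : v.valuation K t ≤ 1 := by
    by_contra hlt
    have a2 : 1 < (dn K t₂).valuation K t := by rw [R.dn2]; exact not_le.1 hlt
    have ht0 : t ≠ 0 := by
      rintro rfl
      rw [map_zero] at hlt
      exact hlt zero_le_one
    have b2 := (H76PP.ord_sub_big h a2).1
    have c2 : ord (t₂.valuation L) (algebraMap K L t - θ) =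
        ord (t₂.valuation L) (algebraMap K L t) := by
      unfold ord
      rw [b2]
    rw [H38T1.eo_sc hU0, c2, ← H38T1.eo_sc ((map_ne_zero _).2 ht0), D3_eo2 R ht0] at ht
    exact zero_ne_one ht
  obtain ⟨θ', hθ'⟩ := H76PP.theta_int h
  have hU1 : t₂.valuation L (algebraMap K L t - θ) < 1 := by
    have e1 : t₂.valuation L (algebraMap K L t - θ) ≤ 1 := by
      refine (t₂.valuation L).map_sub_le ?_ ?_
      · exact H76PP.val_le (by rw [R.dn2]; exact hti)
      · rw [← hθ']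
        exact t₂.valuation_le_one θ'
    refine lt_of_le_of_ne e1 ?_
    intro e2
    rw [Cl_eo_one e2] at ht
    exact zero_ne_one ht
  have hs2 : t₂.valuation L (algebraMap K L r - θ) < 1 := by
    rw [R.s2, ← exp_zero, exp_lt_exp]
    norm_num
  have hd2 : t₂.valuation L (algebraMap K L (t - r)) < 1 := by
    have e1 : algebraMap K L (t - r) = (algebraMap K L t - θ) - (algebraMap K L r - θ) := by
      rw [map_sub]
      ring
    rw [e1]
    exact (t₂.valuation L).map_sub_lt hU1 hs2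
  obtain ⟨hd3, hd1⟩ := D3_small R hd2
  -- at the ramified place
  have hn2 : t₂.valuation L ((algebraMap K L t - θ) / (algebraMap K L r - θ) - 1) < 1 := by
    have e1 : (algebraMap K L t - θ) / (algebraMap K L r - θ) - 1 =
        algebraMap K L (t - r) / (algebraMap K L r - θ) := by
      rw [Cl_dv hrθ, map_sub]
      congr 1
      ring
    rw [e1, map_div₀, R.s2, div_lt_one₀ (zero_lt_iff.2 exp_ne_zero)]
    refine lt_of_le_of_lt hd3 ?_
    rw [exp_lt_exp]
    norm_num
  obtain ⟨-, la2⟩ := Tk_mul o2 hU0 hrθ hn2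
  -- at the other place
  have hv3r : v.valuation K (3 * r) = 1 := by
    rw [map_mul, h3, R.r0, one_mul]
  have ho3r : ord (v.valuation K) (3 * r) = 0 := by
    unfold ord
    rw [hv3r, log_one, neg_zero]
  have hw3r : t₁.valuation L (algebraMap K L (3 * r)) = 1 := by
    rw [Cl_val h3rL, R.e1 _ h3r, ho3r, neg_zero, exp_zero]
  have hn1 : t₁.valuation L ((algebraMap K L t - θ) / algebraMap K L (3 * r) - 1) < 1 := by
    have e1 : (algebraMap K L t - θ) / algebraMap K L (3 * r) - 1 =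
        (algebraMap K L (t - r) + (algebraMap K L (-2 * r) - θ)) / algebraMap K L (3 * r) := by
      rw [Cl_dv h3rL]
      congr 1
      simp only [map_sub, map_mul, map_neg, map_ofNat]
      ring
    rw [e1, map_div₀, hw3r, div_one]
    exact (t₁.valuation L).map_add_lt hd1 R.s1
  obtain ⟨eo1, la1⟩ := Tk_mul o1 hU0 h3rL hn1
  rw [D3_eo1 R h3r, Cl_eo_one hv3r] at eo1
  have hev : Even (ord (v.valuation K) (3 * r)) := by
    rw [ho3r]
    exact Even.zero
  rw [R.l1 _ h3r hev, ← R.l2 _ h3r hev] at la1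
  -- the constant
  have hk : kr θ r t₂ = la t₂ (sc (algebraMap K L (3 * r))) +
      (la t₂ (sc (-1 : L)) + la t₂ (sc (algebraMap K L r - θ))) := by
    unfold kr
    have e1 : θ - algebraMap K L r = (-1) * (algebraMap K L r - θ) := by ring
    rw [e1, H38T1.sc_mul h3rL (mul_ne_zero (neg_ne_zero.2 one_ne_zero) hrθ),
      H38T1.sc_mul (neg_ne_zero.2 one_ne_zero) hrθ, H38T1.la_add o2, H38T1.la_add o2]
  rw [hk]
  unfold H38T1.tp
  rw [hc1, hc2, ht, eo1, la1, la2]
  ring

end aux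

/-- D3. The conic. -/
theorem Rm.conic (R : Rm A B θ v r t₁ t₂) (h : Cub K L (A : K) (B : K) θ) (hv : OddP v)
    (h3 : v.valuation K 3 = 1)
    (hd : v.valuation K (4 * (A : K) ^ 3 + 27 * (B : K) ^ 2) = exp (-1)) {c : SC L}
    (hc : c ∈ HH K L) {y : L} (hy : y ≠ 0) (hyc : sc y = c) (ha : al h y ≠ 0) (hb : be h y ≠ 0) :
    hsv v (al h y) (be h y) = eo t₂ c * (la t₂ c + kr θ r t₂ * eo t₂ c) := by
  have hD0 : 4 * (A : K) ^ 3 + 27 * (B : K) ^ 2 ≠ 0 := by
    intro h0
    rw [h0, map_zero] at hd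
    exact exp_ne_zero hd.symm
  have hR : H76PP.HR2 K L A B θ := H76PP.hr2 h hD0
  have hdm : H76PP.dsc A B ∉ v.asIdeal ^ 2 := by
    intro h1
    have h4 : ((H76PP.dsc A B : 𝓞 K) : K) = 4 * (A : K) ^ 3 + 27 * (B : K) ^ 2 := by
      unfold H76PP.dsc
      simp only [map_add, map_mul, map_pow, map_ofNat]
    have h5 := (H36MX.mem_pow_iff v _ 2).1 h1
    rw [h4, hd, exp_le_exp] at h5
    norm_num at h5
  rw [(hilb K).odd v hv _ _ ha hb]
  have hN : IsSquare (Algebra.norm K y) := (mem_HH hy).1 (by rw [hyc]; exact hc)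
  have hNy0 : Algebra.norm K y ≠ 0 := by
    have _ : FiniteDimensional K L := Module.Finite.of_restrictScalars_finite ℚ K L
    exact Algebra.norm_ne_zero_iff.2 hy
  -- the two orders have the same parity
  have h12 : eo t₁ c = eo t₂ c := by
    obtain ⟨n, hn1, hn2, hn3⟩ := exists_la hv
    have hn0 : (n : K) ≠ 0 := by
      intro h0
      apply hn1
      have h5 : n = 0 := RingOfIntegers.ext h0
      rw [h5]
      exact v.asIdeal.zero_mem
    have hp := hR.proj hv hy hn0
    rw [D3_sum R (fun w => H38T1.tp w (sc y) (sc (algebraMap K L (n : K)))),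
      (H38T1.sc_eq_zero hNy0).2 hN, Cl_tp0 hv] at hp
    have hev : Even (ord (v.valuation K) (n : K)) := by
      have hn4 : v.valuation K (n : K) = 1 := (v.valuation_eq_one_iff_notMem (K := K)).2 hn1
      unfold ord
      rw [hn4, log_one, neg_zero]
      exact Even.zero
    have g1 : eo t₁ (sc (algebraMap K L (n : K))) = 0 := by rw [D3_eo1 R hn0, hn2]
    have g2 := D3_eo2 R hn0
    have g3 := R.l1 _ hn0 hev
    have g4 := R.l2 _ hn0 hev
    rw [hn3] at g3 g4
    unfold H38T1.tp at hp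
    simp only [g1, g2, g3, g4, hyc] at hp
    have e3 : ∀ p q a b k l : ZMod 2, p * 1 + 0 * a + p * 0 * k + (q * 1 + 0 * b + q * 0 * l) = 0 → p = q := by
      decide
    exact e3 _ _ _ _ _ _ hp
  have hz : ∀ x : ZMod 2, x = 0 ∨ x = 1 := by decide
  rcases hz (eo t₂ c) with h0 | h0
  · rw [h0, zero_mul]
    refine conic_CL h hR hv hdm hy hN ha hb ?_
    intro w hw
    rw [hyc]
    rcases R.only w hw with hww | hww
    · rw [hww, h12, h0]
    · rw [hww, h0]
  · have h1 : eo t₁ c = 1 := by rw [h12, h0]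
    rw [h0, one_mul, mul_one]
    obtain ⟨t, s, hsc, -, htp⟩ := conic_F h hR hy hN ha hb
    obtain ⟨ht, hs⟩ := htp v hv
    have hl0 : -(al h y * be h y) ≠ 0 := neg_ne_zero.2 (mul_ne_zero ha hb)
    rw [D3_sum R (fun w => H38T1.tp w (sc y) (sc (algebraMap K L t - θ)))] at ht
    rw [D3_sum R (fun w => H38T1.tp w (sc y) (sc (algebraMap K L s - θ)))] at hs
    have p2 : eo t₂ (sc y) = 0 + eo t₂ (sc (algebraMap K L t - θ)) +
        eo t₂ (sc (algebraMap K L s - θ)) := by
      rw [hsc, H38T1.eo_add, H38T1.eo_add, D3_eo2 R hl0]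
    rw [hyc, h0] at p2
    have key : ∀ a b : ZMod 2, 1 = 0 + a + b → a = 1 ∨ b = 1 := by decide
    rw [hyc] at ht hs
    rcases key _ _ p2 with h4 | h4
    · rw [ht]
      exact D3_key R h hv h3 h1 h0 h4
    · rw [hs]
      exact D3_key R h hv h3 h1 h0 h4

end H76GM
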