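import Pool.Agent.H76.GM.D1

/-!
Row D4 (project MP_78d38b_GM), about 180 lines. The structure `Rm` and `kr` are in Dr.lean. Paper proof. `Wc_glob` (D1.lean, use its statement) gives `x : K`; `f = x^3 + A x + B`, `eo v (E f) = la v (E f) = 0`, and
`eo t₂ c = eo t₂ (E (x - θ))`, `la t₂ c = la t₂ (E (x - θ))`. `g = A + 3 r^2`. By `R.e2` every element of `K` has `eo t₂ = 0`, so `eo t₂ c = eo t₂ (x - θ)`.
(a) `v(x) > 1`: `x - θ` is near `x` at `t₂`, `f` near `x^3` at `v` (`ord_sub_big` of H76/PP/Tc.lean, `Tk_mul` of H76/MQ/Tk.lean): `eo t₂ c = 0`, and `la t₂ c = la t₂ (E x) = la v (E x) = 0` (R.l2; `E x` has `eo v = la v = 0`).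
So both conclusions hold.
(b) `x` integral. `H36MT.ord_subL` (`dsc A B ∉ v.asIdeal ^ 2`: cf. `H30OR.dsc_notMem`, `H36MX.mem_pow_iff`): a place `w₁` with `ord_{w₁} (x - θ) = ord_v f`, `x - θ` is a unit at the others.
 (b1) `eo t₂ (x - θ) = 0`: the first claim holds; second: let `E g (3 r)` be a local square, so its `eo v`, `la v` are 0 (cf. `H76GM.even_of_sq`, `H36MX.nsq_of_la`), so `ord_v E` is odd (`ord_v g = 1`, `R.g0`, `R.r0`), so
 `ord_v f` is odd, in particular ≠ 0, so > 0, and `w₁ ≠ t₂` (else eo t₂ (x - θ) = 1), `w₁ = t₁`. So `t₁.valuation (x - θ) < 1`, with `R.s1`: `t₁.valuation (x + 2 r) < 1`, `v.valuation (x + 2 r) < 1`, and at `t₂`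
 `x - θ = (x + 2 r) + (r - θ) - 3 r` is near `- 3 r`. So `la t₂ c = la t₂ (E * (-3 r)) = la t₂ ((E g 3 r) * (-g))` (up to the square `g^2`) `= 0 + 0` by `R.l2` and `R.sg`. And `kr * 0 = 0`.
 (b2) `eo t₂ (x - θ) = 1`: then `w₁ = t₂`, `ord_v f` is odd and `t₂.valuation (x - θ) < 1`; with `R.s2`: `v.valuation (x - r) < 1`. `3 f = 3 (x - r)^2 (x + 2 r) + g (3 x - 2 r)` (from `R.rr`), so `3 f` is near `g r` at `v`
 (`v((x - r)^2) ≤ exp (-2)`, `v(g) = exp (-1)`, `3 x - 2 r ≡ r`): `eo v`, `la v` of `f` are those of `g * (3 r)`, so `eo v (E g 3r) = la v (E g 3r) = 0`, and `E g 3 r` is a local square (`H36MX.sq_of_la`): the first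
 claim is void. Second: `ord_{t₂} (x - r) ≥ 2`, `ord_{t₂} (r - θ) = 1`: `x - θ` is near `r - θ` at `t₂`. `la t₂ c = la t₂ (E) + la t₂ (r - θ)`, and `kr = la t₂ (3 r) + la t₂ (θ - r)`; the sum is
 `la t₂ (- E * 3 r) = la t₂ ((E g 3 r) * (-g)) = 0` as before. (all sums in ZMod 2)
-/

set_option autoImplicit false
set_option linter.unusedSectionVars false
open scoped Classical

open WithZero NumberField IsDedekindDomain H38RT
open H38T1 (SC sc scu rep eo la si OddP unif)
open H76PP (Cub LC ev scm dn val_le val_one dsc)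
open H88OD H26OD H30OD H30ZO H36CY H30OR H36MX H76MX H76MQ

namespace H76GM

variable {K L : Type} [Field K] [NumberField K] [Field L] [NumberField L] [Algebra K L]
  {A B : 𝓞 K} {θ : L} {v : HeightOneSpectrum (𝓞 K)} {r : K} {t₁ t₂ : HeightOneSpectrum (𝓞 L)}

theorem D4_even {n : ℤ} (h : (n : ZMod 2) = 0) : Even n :=
  even_iff_two_dvd.2 ((ZMod.intCast_zmod_eq_zero_iff_dvd n 2).1 h)

theorem D4_ord_lt {F : Type} [Field F] {V : Valuation F ℤᵐ⁰} {x : F} (hx : x ≠ 0)
    (h : 0 < ord V x) : V x ≤ exp (-ord V x) ∧ V x < 1 := by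
  have h1 : V x ≠ 0 := (Valuation.ne_zero_iff _).2 hx
  have h2 : V x = exp (-ord V x) := by
    unfold ord
    rw [neg_neg, exp_log h1]
  refine ⟨h2.le, ?_⟩
  rw [h2, ← exp_zero, exp_lt_exp]
  omega

theorem D4_ord_pos {F : Type} [Field F] {V : Valuation F ℤᵐ⁰} {x : F} (hx : x ≠ 0)
    (h : V x < 1) : 0 < ord V x := by
  have h1 : V x ≠ 0 := (Valuation.ne_zero_iff _).2 hx
  unfold ord
  rw [← exp_log h1, ← exp_zero, exp_lt_exp] at h
  omega

theorem D4_one {F : Type} [Field F] {V : Valuation F ℤᵐ⁰} {x : F} (h : V x = 1) : ord V x = 0 := by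
  unfold ord
  rw [h, log_one, neg_zero]

theorem D4_sq {F : Type} [Field F] [NumberField F] {a z : F} (ha : a ≠ 0) (hz : z ≠ 0) :
    (sc (a * z ^ 2) : SC F) = sc a := by
  rw [H38T1.sc_mul ha (pow_ne_zero 2 hz), H54MT.sc_sq hz, add_zero]

/-- The order of a local square is even. -/
theorem D4_ev_sq {K : Type} [Field K] [NumberField K] {v : HeightOneSpectrum (𝓞 K)} {x : K}
    (hx : x ≠ 0) (h : IsSquare (algebraMap K (v.adicCompletion K) x)) :
    Even (ord (v.valuation K) x) := by
  obtain ⟨r, hr⟩ := h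
  have h1 := congrArg Valued.v hr
  rw [H36CY.val_coe, map_mul] at h1
  have h2 : v.valuation K x ≠ 0 := (Valuation.ne_zero_iff _).2 hx
  have h3 : (Valued.v r : WithZero (Multiplicative ℤ)) ≠ 0 := by
    intro h0
    rw [h0, mul_zero] at h1
    exact h2 h1
  obtain ⟨z, hz⟩ : ∃ z : ℤ, (Valued.v r : WithZero (Multiplicative ℤ)) = exp z :=
    ⟨_, (exp_log h3).symm⟩
  refine ⟨-z, ?_⟩
  unfold ord
  rw [h1, hz, ← exp_add, log_exp]
  ring

/-- D4. The local condition for the twist by `E`. -/
theorem Rm.cond (R : Rm A B θ v r t₁ t₂) (h : Cub K L (A : K) (B : K) θ) (hv : OddP v)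
    (h3 : v.valuation K 3 = 1)
    (hd : v.valuation K (4 * (A : K) ^ 3 + 27 * (B : K) ^ 2) = exp (-1)) {E : K} (hE : E ≠ 0)
    {c : SC L}
    (hW : Wc (algebraMap K (v.adicCompletion K)) (E ^ 2 * (A : K)) (E ^ 3 * (B : K))
      (algebraMap K L E * θ) c) :
    (¬ IsSquare (algebraMap K (v.adicCompletion K) (E * ((A : K) + 3 * r ^ 2) * (3 * r))) →
      eo t₂ c = 0) ∧
    (IsSquare (algebraMap K (v.adicCompletion K) (E * ((A : K) + 3 * r ^ 2) * (3 * r))) →
      la t₂ c + kr θ r t₂ * eo t₂ c = 0) := by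
  have odd2 : OddP t₂ := by
    rw [H76PP.oddP_dn (K := K), R.dn2]
    exact hv
  obtain ⟨x, p1, p2, hw⟩ := Wc_glob h hv hE hW
  obtain ⟨q1, q2⟩ := hw t₂ R.dn2
  have hEL : algebraMap K L E ≠ 0 := (map_ne_zero _).2 hE
  have hf0 : x ^ 3 + (A : K) * x + (B : K) ≠ 0 := H54PR.ff_ne h x
  have hxt : algebraMap K L x - θ ≠ 0 := H54PR.sub_ne h x
  have eK : ∀ u : K, u ≠ 0 → eo t₂ (sc (algebraMap K L u)) = 0 := by
    intro u hu
    rw [H38T1.eo_sc ((map_ne_zero _).2 hu), R.e2 u hu, Int.cast_mul]
    have e2 : ((2 : ℤ) : ZMod 2) = 0 := by decide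
    rw [e2, zero_mul]
  have lK : ∀ u : K, u ≠ 0 → eo v (sc u) = 0 → la v (sc u) = 0 →
      la t₂ (sc (algebraMap K L u)) = 0 := by
    intro u hu h1 h2
    rw [H38T1.eo_sc hu] at h1
    rw [R.l2 u hu (D4_even h1), h2]
  have z2 : ∀ p : ZMod 2, p = 0 ∨ p = 1 := by decide
  have z01 : (0 : ZMod 2) ≠ 1 := by decide
  rcases lt_or_ge 1 (v.valuation K x) with hx | hx
  · -- `x` is not integral
    have hx0 : x ≠ 0 := by
      rintro rfl
      rw [map_zero] at hx
      exact absurd hx (not_lt.2 zero_le_one)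
    have hxL : algebraMap K L x ≠ 0 := (map_ne_zero _).2 hx0
    obtain ⟨-, b2, b3, -⟩ := H76PP.ord_sub_big h (w := t₂) (x := x) (by rw [R.dn2]; exact hx)
    rw [R.dn2] at b3
    have c1 := Tk_mul hv (mul_ne_zero hE hf0) (mul_ne_zero hE (pow_ne_zero 3 hx0)) (by
      rw [mul_div_mul_left _ _ hE]
      exact b3)
    have e3 : (sc (E * x ^ 3) : SC K) = sc (E * x) := by
      have e4 : E * x ^ 3 = (E * x) * x ^ 2 := by ring
      rw [e4, D4_sq (mul_ne_zero hE hx0) hx0]
    rw [e3, p1, p2] at c1
    have c2 := Tk_mul odd2 (mul_ne_zero hEL hxt) (mul_ne_zero hEL hxL) (by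
      rw [mul_div_mul_left _ _ hEL]
      have e5 : (algebraMap K L x - θ) / algebraMap K L x - 1 = -(θ / algebraMap K L x) := by
        rw [sub_div, div_self hxL]
        ring
      rw [e5, Valuation.map_neg]
      exact b2)
    rw [← q1, ← q2, ← map_mul] at c2
    have d1 : eo t₂ c = 0 := by rw [c2.1, eK _ (mul_ne_zero hE hx0)]
    have d2 : la t₂ c = 0 := by rw [c2.2, lK _ (mul_ne_zero hE hx0) c1.1.symm c1.2.symm]
    refine ⟨fun _ => d1, fun _ => ?_⟩
    rw [d1, d2, mul_zero, add_zero]
  · have hdsc : dsc A B ∉ v.asIdeal ^ 2 := by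
      rw [mem_pow_iff]
      intro h0
      have h4 : ((dsc A B : 𝓞 K) : K) = 4 * (A : K) ^ 3 + 27 * (B : K) ^ 2 := by
        change algebraMap (𝓞 K) K (dsc A B) = _
        unfold dsc
        simp only [map_add, map_mul, map_pow, map_ofNat]
      rw [h4, hd, exp_le_exp] at h0
      norm_num at h0
    obtain ⟨w₁, g3, g4, g5⟩ := H36MT.ord_subL h hdsc hx hf0
    obtain ⟨f, hf⟩ : ∃ f, f = x ^ 3 + (A : K) * x + (B : K) := ⟨_, rfl⟩
    rw [← hf] at p1 p2 hf0 g4
    obtain ⟨g, hg⟩ : ∃ g, g = (A : K) + 3 * r ^ 2 := ⟨_, rfl⟩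
    have Rg := R.g0
    have Rsg := R.sg
    rw [← hg] at Rg Rsg ⊢
    have hg0 : g ≠ 0 := by
      rintro rfl
      rw [map_zero] at Rg
      exact exp_ne_zero Rg.symm
    have hr0 : r ≠ 0 := by
      intro h0
      have h1 := R.r0
      rw [h0, map_zero] at h1
      exact zero_ne_one h1
    have h30 : (3 : K) ≠ 0 := by
      intro h0
      rw [h0, map_zero] at h3
      exact zero_ne_one h3
    have h3r : (3 * r) ≠ 0 := mul_ne_zero h30 hr0
    have hM0 : E * g * (3 * r) ≠ 0 := mul_ne_zero (mul_ne_zero hE hg0) h3r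
    have v3r : v.valuation K (3 * r) = 1 := by rw [map_mul, h3, R.r0, one_mul]
    have hgL : algebraMap K L g ≠ 0 := (map_ne_zero _).2 hg0
    have eof : eo v (sc (E * g * (3 * r))) = eo v (sc E) + 1 := by
      rw [H38T1.sc_mul (mul_ne_zero hE hg0) h3r, H38T1.sc_mul hE hg0, H38T1.eo_add, H38T1.eo_add,
        H38T1.eo_sc hg0, H38T1.eo_sc h3r, D4_one v3r]
      have h1 : ord (v.valuation K) g = 1 := by
        unfold ord
        rw [Rg, log_exp, neg_neg]
      rw [h1, Int.cast_one, Int.cast_zero, add_zero]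
    have eoEf : eo v (sc E) + eo v (sc f) = 0 := by
      rw [← H38T1.eo_add, ← H38T1.sc_mul hE hf0]
      exact p1
    -- the class of `- E * (3 r)` at `t₂`
    have hneg : ∀ y : K, y = -(E * (3 * r)) → eo v (sc (E * g * (3 * r))) = 0 →
        la v (sc (E * g * (3 * r))) = 0 → la t₂ (sc (algebraMap K L y)) = 0 := by
      intro y hy m1 m2
      have hy0 : y ≠ 0 := by rw [hy]; exact neg_ne_zero.2 (mul_ne_zero hE h3r)
      have e6 : algebraMap K L y * algebraMap K L g ^ 2 =
          algebraMap K L (E * g * (3 * r)) * algebraMap K L (-g) := by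
        rw [← map_pow, ← map_mul, ← map_mul, hy]
        congr 1
        ring
      rw [← D4_sq ((map_ne_zero _).2 hy0) hgL, e6,
        H38T1.sc_mul ((map_ne_zero _).2 hM0) ((map_ne_zero _).2 (neg_ne_zero.2 hg0)),
        H38T1.la_add odd2, lK _ hM0 m1 m2, Rsg, add_zero]
    have eoc : eo t₂ c = eo t₂ (sc (algebraMap K L x - θ)) := by
      rw [q1, H38T1.sc_mul hEL hxt, H38T1.eo_add, eK E hE, zero_add]
    obtain ⟨t, ht⟩ := H76PP.theta_int h
    have hwt : ∀ w : HeightOneSpectrum (𝓞 L), w.valuation L θ ≤ 1 := by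
      intro w
      rw [← ht]
      exact w.valuation_le_one t
    rcases z2 (eo t₂ c) with k1 | k1
    · refine ⟨fun _ => k1, fun hs => ?_⟩
      rw [k1, mul_zero, add_zero]
      have m1 : eo v (sc (E * g * (3 * r))) = 0 := by
        rw [H38T1.eo_sc hM0]
        obtain ⟨m, hm⟩ := D4_ev_sq hM0 hs
        rw [hm, Int.cast_add]
        have : ∀ p : ZMod 2, p + p = 0 := by decide
        exact this _
      have m2 : la v (sc (E * g * (3 * r))) = 0 := by
        rcases z2 (la v (sc (E * g * (3 * r)))) with h0 | h0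
        · exact h0
        · exact absurd hs (nsq_of_la hv hM0 h0 m1)
      have eoE : eo v (sc E) = 1 := by
        rw [eof] at m1
        have : ∀ p : ZMod 2, p + 1 = 0 → p = 1 := by decide
        exact this _ m1
      have eofv : eo v (sc f) = 1 := by
        rw [eoE] at eoEf
        have : ∀ p : ZMod 2, 1 + p = 0 → p = 1 := by decide
        exact this _ eoEf
      rw [H38T1.eo_sc hf0] at eofv
      have hof : ord (v.valuation K) f ≠ 0 := by
        intro h0
        rw [h0, Int.cast_zero] at eofv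
        exact z01 eofv
      have hw1 : w₁ = t₁ := by
        rcases R.only w₁ g3 with h0 | h0
        · exact h0
        · exfalso
          rw [h0] at g4
          rw [eoc, H38T1.eo_sc hxt, g4, eofv] at k1
          exact z01 k1.symm
      rw [hw1] at g4 g5
      have hpos : 0 < ord (t₁.valuation L) (algebraMap K L x - θ) := by
        rw [g4]
        have h0 : v.valuation K f ≤ 1 := by
          rw [hf]
          have hA : v.valuation K (A : K) ≤ 1 := v.valuation_le_one A
          have hB : v.valuation K (B : K) ≤ 1 := v.valuation_le_one B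
          refine (v.valuation K).map_add_le ((v.valuation K).map_add_le ?_ ?_) hB
          · rw [map_pow]
            exact pow_le_one' hx 3
          · rw [map_mul]
            exact mul_le_one' hA hx
        have h1 : v.valuation K f ≠ 0 := (Valuation.ne_zero_iff _).2 hf0
        rw [← exp_log h1, ← exp_zero, exp_le_exp] at h0
        unfold ord at hof ⊢
        omega
      have s0 : t₁.valuation L (algebraMap K L x - θ) < 1 := (D4_ord_lt hxt hpos).2
      have s2 : v.valuation K (x + 2 * r) < 1 := by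
        by_cases h0 : x + 2 * r = 0
        · rw [h0, map_zero]
          exact zero_lt_one
        · have h1 : t₁.valuation L (algebraMap K L (x + 2 * r)) < 1 := by
            have e7 : algebraMap K L (x + 2 * r) =
                (algebraMap K L x - θ) - (algebraMap K L (-2 * r) - θ) := by
              simp only [map_add, map_mul, map_neg, map_ofNat]
              ring
            rw [e7]
            exact (t₁.valuation L).map_sub_lt s0 R.s1
          have h2 := D4_ord_pos ((map_ne_zero _).2 h0) h1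
          rw [R.e1 _ h0] at h2
          exact (D4_ord_lt h0 h2).2
      have s3 : t₂.valuation L (algebraMap K L (x + 2 * r)) < 1 :=
        H76PP.val_lt (by rw [R.dn2]; exact s2)
      have s4 : t₂.valuation L (algebraMap K L (-(3 * r))) = 1 :=
        H76PP.val_one (by rw [R.dn2, Valuation.map_neg]; exact v3r)
      have h3L : algebraMap K L (-(3 * r)) ≠ 0 := (map_ne_zero _).2 (neg_ne_zero.2 h3r)
      have s5 : t₂.valuation L (algebraMap K L r - θ) < 1 := by
        rw [R.s2, ← exp_zero, exp_lt_exp]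
        norm_num
      have c2 := Tk_mul odd2 (mul_ne_zero hEL hxt) (mul_ne_zero hEL h3L) (by
        rw [mul_div_mul_left _ _ hEL, div_sub_one h3L, map_div₀, s4, div_one]
        have e8 : algebraMap K L x - θ - algebraMap K L (-(3 * r)) =
            algebraMap K L (x + 2 * r) + (algebraMap K L r - θ) := by
          simp only [map_add, map_mul, map_neg, map_ofNat]
          ring
        rw [e8]
        exact (t₂.valuation L).map_add_lt s3 s5)
      rw [← q2, ← map_mul] at c2
      rw [c2.2]
      exact hneg _ (by ring) m1 m2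
    · have k2 : eo t₂ (sc (algebraMap K L x - θ)) = 1 := eoc ▸ k1
      rw [H38T1.eo_sc hxt] at k2
      have hw1 : w₁ = t₂ := by
        by_contra hne
        rw [D4_one (g5 t₂ R.dn2 (fun h0 => hne h0.symm)), Int.cast_zero] at k2
        exact z01 k2
      rw [hw1] at g4
      have hpos : 0 < ord (t₂.valuation L) (algebraMap K L x - θ) := by
        have h0 : t₂.valuation L (algebraMap K L x - θ) ≤ 1 :=
          (t₂.valuation L).map_sub_le (H76PP.val_le (by rw [R.dn2]; exact hx)) (hwt t₂)
        have h1 : t₂.valuation L (algebraMap K L x - θ) ≠ 0 := (Valuation.ne_zero_iff _).2 hxt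
        have h2 : ord (t₂.valuation L) (algebraMap K L x - θ) ≠ 0 := by
          intro h2
          rw [h2, Int.cast_zero] at k2
          exact z01 k2
        rw [← exp_log h1, ← exp_zero, exp_le_exp] at h0
        unfold ord at h2 ⊢
        omega
      have s0 : t₂.valuation L (algebraMap K L x - θ) < 1 := (D4_ord_lt hxt hpos).2
      have s5 : t₂.valuation L (algebraMap K L r - θ) < 1 := by
        rw [R.s2, ← exp_zero, exp_lt_exp]
        norm_num
      have s6 : v.valuation K (x - r) ≤ exp (-1) ∧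
          t₂.valuation L (algebraMap K L (x - r)) ≤ exp (-2) := by
        by_cases h0 : x - r = 0
        · rw [h0, map_zero, map_zero, map_zero]
          exact ⟨zero_le, zero_le⟩
        · have h1 : t₂.valuation L (algebraMap K L (x - r)) < 1 := by
            have e7 : algebraMap K L (x - r) =
                (algebraMap K L x - θ) - (algebraMap K L r - θ) := by
              rw [map_sub]
              ring
            rw [e7]
            exact (t₂.valuation L).map_sub_lt s0 s5
          have h2 := D4_ord_pos ((map_ne_zero _).2 h0) h1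
          have h4 := (D4_ord_lt ((map_ne_zero (algebraMap K L)).2 h0) h2).1
          rw [R.e2 _ h0] at h2 h4
          have h5 : 0 < ord (v.valuation K) (x - r) := by omega
          refine ⟨((D4_ord_lt h0 h5).1).trans ?_, h4.trans ?_⟩
          · rw [exp_le_exp]
            omega
          · rw [exp_le_exp]
            omega
      have hxr1 : v.valuation K (x - r) < 1 := s6.1.trans_lt (by
        rw [← exp_zero, exp_lt_exp]
        norm_num)
      have hr1 : v.valuation K r ≤ 1 := R.r0.le
      -- `9 E f` is near `E g (3 r)`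
      have c3 := Tk_mul hv (mul_ne_zero (mul_ne_zero hE hf0) (pow_ne_zero 2 h30)) hM0 (by
        have e9 : E * f * 3 ^ 2 / (E * g * (3 * r)) - 1 =
            (3 * (x - r) ^ 2 * (x + 2 * r)) / g / r + 3 * (x - r) / r := by
          have e10 : 3 * f = 3 * (x - r) ^ 2 * (x + 2 * r) + g * (3 * x - 2 * r) := by
            rw [hf, hg]
            linear_combination R.rr
          have e11 : E * f * 3 ^ 2 / (E * g * (3 * r)) = (3 * f) / g / r := by
            field_simp
            try ring
          rw [e11, e10]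
          field_simp
          ring
        rw [e9]
        refine (v.valuation K).map_add_lt ?_ ?_
        · rw [map_div₀, map_div₀, R.r0, div_one, Rg, map_mul, map_mul, h3, one_mul, map_pow]
          have h6 : v.valuation K (x + 2 * r) ≤ 1 := by
            refine (v.valuation K).map_add_le hx ?_
            rw [map_mul]
            refine mul_le_one' ?_ hr1
            have h8 : v.valuation K (algebraMap (𝓞 K) K 2) ≤ 1 := v.valuation_le_one 2
            rwa [map_ofNat] at h8
          have h7 : v.valuation K (x - r) ^ 2 ≤ exp (-2) := by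
            have h8 := pow_le_pow_left' s6.1 2
            rw [← exp_nsmul] at h8
            exact h8
          rw [div_lt_iff₀ (zero_lt_iff.2 exp_ne_zero), one_mul]
          calc _ ≤ exp (-2) * 1 := mul_le_mul' h7 h6
            _ < _ := by
              rw [mul_one, exp_lt_exp]
              norm_num
        · rw [map_div₀, R.r0, div_one, map_mul, h3, one_mul]
          exact hxr1)
      rw [D4_sq (mul_ne_zero hE hf0) h30, p1, p2] at c3
      have hs : IsSquare (algebraMap K (v.adicCompletion K) (E * g * (3 * r))) :=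
        sq_of_la hv hM0 c3.1.symm c3.2.symm
      refine ⟨fun hn => absurd hs hn, fun _ => ?_⟩
      rw [k1, mul_one]
      have hrt : algebraMap K L r - θ ≠ 0 := by
        intro h0
        have h1 := R.s2
        rw [h0, map_zero] at h1
        exact exp_ne_zero h1.symm
      have c2 := Tk_mul odd2 (mul_ne_zero hEL hxt) (mul_ne_zero hEL hrt) (by
        rw [mul_div_mul_left _ _ hEL, div_sub_one hrt, map_div₀, R.s2,
          div_lt_iff₀ (zero_lt_iff.2 exp_ne_zero), one_mul]
        have e12 : algebraMap K L x - θ - (algebraMap K L r - θ) = algebraMap K L (x - r) := by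
          rw [map_sub]
          ring
        rw [e12]
        refine s6.2.trans_lt ?_
        rw [exp_lt_exp]
        norm_num)
      rw [← q2] at c2
      unfold kr
      have h3L : algebraMap K L (3 * r) ≠ 0 := (map_ne_zero _).2 h3r
      have htr : θ - algebraMap K L r ≠ 0 := by
        intro h0
        apply hrt
        rw [← neg_sub, h0, neg_zero]
      rw [c2.2, ← H38T1.la_add odd2, ← H38T1.sc_mul (mul_ne_zero hEL hrt) (mul_ne_zero h3L htr)]
      have e13 : algebraMap K L E * (algebraMap K L r - θ) *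
          (algebraMap K L (3 * r) * (θ - algebraMap K L r)) =
          algebraMap K L (-(E * (3 * r))) * (algebraMap K L r - θ) ^ 2 := by
        simp only [map_neg, map_mul]
        ring
      rw [e13, D4_sq ((map_ne_zero _).2 (neg_ne_zero.2 (mul_ne_zero hE h3r))) hrt]
      exact hneg _ rfl c3.1.symm c3.2.symm

end H76GM
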