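import Pool.Agent.H76.GM.Dr

/-!
Row D5 (project MP_78d38b_GM), about 120 lines. The structure `Rm` is in Dr.lean. Paper proof. For `x : K` the class `sc (f(x) * (x - θ))`, `f(x) = x^3 + A x + B`, is in `HH K L` (`mem_HH`; the norm is
`f(x)^3 * f(x) = (f(x)^2)^2`, `h.norm_sub x`, `Algebra.norm_algebraMap`, `h.finrank`).
(a) `x = r`: `eo t₂ (f(r)) = 0` (R.e2), `eo t₂ (r - θ) = 1` (R.s2).
(b) take `n` with `n ∉ v.asIdeal`, `eo v n = 0`, `la v n = 1` (`H36MX.exists_la hv`). `v(n - 1) = 1` (else `n` is near 1 and `la v n = 0`, `Tk_near` of H76/MQ/Tk.lean). Put `x = r (n + 2) / (n - 1)`: `x - r = 3 r / (n - 1)`,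
`x + 2 r = 3 r n / (n - 1)`, units at `v`. `3 f(x) = 3 (x - r)^2 (x + 2 r) + g (3 x - 2 r)`, `g = A + 3 r^2`, `v(g) < 1` (from `R.rr`, `R.g0`): `f(x)` is near `(x - r)^2 (x + 2 r)` at `v`, so
`la t₂ (f(x)) = la v (f(x)) = la v (x + 2 r)` (R.l2; `Tk_mul`), and at `t₂` `x - θ` is near `x - r` (R.s2), so `eo t₂ (x - θ) = 0`, `la t₂ (x - θ) = la t₂ (x - r) = la v (x - r)`. The sum is
`la v ((x + 2 r) (x - r)) = la v (n) = 1` (up to the square of `3 r / (n - 1)`).
-/

set_option autoImplicit false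
set_option linter.unusedSectionVars false
open scoped Classical

open WithZero NumberField IsDedekindDomain H38RT
open H38T1 (SC sc scu rep eo la si OddP unif)
open H76PP (Cub LC ev scm dn val_le val_one)
open H88OD H26OD H30OD H30ZO H36CY H30OR H36MX H76MX H76MQ

namespace H76GM

variable {K L : Type} [Field K] [NumberField K] [Field L] [NumberField L] [Algebra K L]
  {A B : 𝓞 K} {θ : L} {v : HeightOneSpectrum (𝓞 K)} {r : K} {t₁ t₂ : HeightOneSpectrum (𝓞 L)}

/-- The class of a point is a class of square norm. -/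
theorem D5_mem (h : Cub K L (A : K) (B : K) θ) (x : K) :
    sc (algebraMap K L (x ^ 3 + (A : K) * x + (B : K)) * (algebraMap K L x - θ)) ∈ HH K L := by
  have hf0 : x ^ 3 + (A : K) * x + (B : K) ≠ 0 := H54PR.ff_ne h x
  have hxt : algebraMap K L x - θ ≠ 0 := H54PR.sub_ne h x
  rw [mem_HH (mul_ne_zero ((map_ne_zero _).2 hf0) hxt), map_mul, Algebra.norm_algebraMap,
    h.finrank, h.norm_sub x]
  exact ⟨(x ^ 3 + (A : K) * x + (B : K)) ^ 2, by ring⟩

theorem D5_ord {F : Type} [Field F] [NumberField F] {w : HeightOneSpectrum (𝓞 F)} {x : F}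
    (hx : w.valuation F x = 1) : ord (w.valuation F) x = 0 := by
  unfold ord
  rw [hx, log_one, neg_zero]

/-- D5. There are classes. -/
theorem Rm.surj (R : Rm A B θ v r t₁ t₂) (h : Cub K L (A : K) (B : K) θ) (hv : OddP v)
    (h3 : v.valuation K 3 = 1)
    (hd : v.valuation K (4 * (A : K) ^ 3 + 27 * (B : K) ^ 2) = exp (-1)) :
    (∃ c ∈ HH K L, eo t₂ c = 1) ∧ ∃ c ∈ HH K L, eo t₂ c = 0 ∧ la t₂ c = 1 := by
  have hodd2 : OddP t₂ := by
    rw [H76PP.oddP_dn (K := K), R.dn2]
    exact hv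
  have hr0 : r ≠ 0 := by
    intro h0
    have h1 := R.r0
    rw [h0, map_zero] at h1
    exact zero_ne_one h1
  have h30 : (3 : K) ≠ 0 := by
    intro h0
    rw [h0, map_zero] at h3
    exact zero_ne_one h3
  have heo2 : ∀ x : K, x ≠ 0 → eo t₂ (sc (algebraMap K L x)) = 0 := by
    intro x hx
    rw [H38T1.eo_sc ((map_ne_zero _).2 hx), R.e2 x hx]
    push_cast
    have e2 : (2 : ZMod 2) = 0 := by decide
    rw [e2, zero_mul]
  have hfr : r ^ 3 + (A : K) * r + (B : K) ≠ 0 := H54PR.ff_ne h r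
  refine ⟨⟨_, D5_mem h r, ?_⟩, ?_⟩
  · rw [H38T1.sc_mul ((map_ne_zero _).2 hfr) (H54PR.sub_ne h r), H38T1.eo_add,
      heo2 _ hfr, zero_add, H38T1.eo_sc (H54PR.sub_ne h r)]
    unfold ord
    rw [R.s2, log_exp]
    push_cast
    decide
  · obtain ⟨n, hn, hne, hnl⟩ := exists_la hv
    have hn0 : (n : K) ≠ 0 := by
      intro h0
      apply hn
      have h1 : n = 0 := RingOfIntegers.ext h0
      rw [h1]
      exact zero_mem _
    have hvn : v.valuation K (n : K) = 1 := by
      refine le_antisymm (v.valuation_le_one n) ?_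
      by_contra h0
      rw [not_le] at h0
      exact hn ((v.valuation_lt_one_iff_mem (K := K) n).1 h0)
    have hvn1 : v.valuation K ((n : K) - 1) = 1 := by
      refine le_antisymm ((v.valuation K).map_sub_le (v.valuation_le_one n)
        (by rw [map_one])) ?_
      by_contra h0
      rw [not_le] at h0
      have h1 := (Tk_near hv h0).2
      rw [hnl] at h1
      exact one_ne_zero h1
    have hm0 : (n : K) - 1 ≠ 0 := by
      intro h0
      rw [h0, map_zero] at hvn1
      exact zero_ne_one hvn1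
    obtain ⟨u, hu⟩ : ∃ u, u = 3 * r / ((n : K) - 1) := ⟨_, rfl⟩
    obtain ⟨p, hp⟩ : ∃ p, p = 3 * r * (n : K) / ((n : K) - 1) := ⟨_, rfl⟩
    obtain ⟨x, hx⟩ : ∃ x, x = u + r := ⟨_, rfl⟩
    have hxp : x + 2 * r = p := by
      rw [hx, hu, hp]
      field_simp
      ring
    have hxu : x - r = u := by
      rw [hx]
      ring
    have hu1 : v.valuation K u = 1 := by
      rw [hu, map_div₀, map_mul, h3, R.r0, hvn1, one_mul, div_one]
    have hp1 : v.valuation K p = 1 := by
      rw [hp, map_div₀, map_mul, map_mul, h3, R.r0, hvn, hvn1, one_mul, one_mul, div_one]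
    have hu0 : u ≠ 0 := by
      rw [hu]
      exact div_ne_zero (mul_ne_zero h30 hr0) hm0
    have hp0 : p ≠ 0 := by
      rw [hp]
      exact div_ne_zero (mul_ne_zero (mul_ne_zero h30 hr0) hn0) hm0
    have hx1 : v.valuation K x ≤ 1 := by
      rw [hx]
      exact (v.valuation K).map_add_le hu1.le R.r0.le
    have hf0 : x ^ 3 + (A : K) * x + (B : K) ≠ 0 := H54PR.ff_ne h x
    have hxt : algebraMap K L x - θ ≠ 0 := H54PR.sub_ne h x
    have hrr := R.rr
    have hid : 3 * (x ^ 3 + (A : K) * x + (B : K)) =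
        3 * ((x - r) ^ 2 * (x + 2 * r)) + ((A : K) + 3 * r ^ 2) * (3 * x - 2 * r) := by
      linear_combination hrr
    rw [hxu, hxp] at hid
    obtain ⟨f, hf⟩ : ∃ f, f = x ^ 3 + (A : K) * x + (B : K) := ⟨_, rfl⟩
    obtain ⟨g, hg⟩ : ∃ g, g = (A : K) + 3 * r ^ 2 := ⟨_, rfl⟩
    have hg0 := R.g0
    rw [← hf, ← hg] at hid
    rw [← hg] at hg0
    rw [← hf] at hf0
    have hup : u ^ 2 * p ≠ 0 := mul_ne_zero (pow_ne_zero 2 hu0) hp0
    have hnear : v.valuation K (f / (u ^ 2 * p) - 1) < 1 := by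
      have e1 : f / (u ^ 2 * p) - 1 = g * (3 * x - 2 * r) / (3 * (u ^ 2 * p)) := by
        rw [div_sub_one hup, div_eq_div_iff hup (mul_ne_zero h30 hup)]
        linear_combination (u ^ 2 * p) * hid
      rw [e1, map_div₀, map_mul, map_mul (v.valuation K) 3, h3, map_mul (v.valuation K) (u ^ 2),
        map_pow, hu1, hp1, one_pow, one_mul, one_mul, div_one, hg0]
      have h4 : v.valuation K (3 * x - 2 * r) ≤ 1 := by
        refine (v.valuation K).map_sub_le ?_ ?_
        · rw [map_mul, h3, one_mul]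
          exact hx1
        · rw [map_mul, R.r0, mul_one]
          exact hv.le
      calc (exp (-1) : ℤᵐ⁰) * v.valuation K (3 * x - 2 * r) ≤ exp (-1) * 1 :=
            mul_le_mul_right h4 _
        _ < 1 := by
            rw [mul_one, ← exp_zero]
            exact exp_lt_exp.2 (by norm_num)
    obtain ⟨-, k2⟩ := Tk_mul hv hf0 hup hnear
    have hvf : v.valuation K f = 1 := by
      have h5 := H54MT.near_one hnear
      rw [map_div₀, map_mul, map_pow, hu1, hp1, one_pow, one_mul, div_one] at h5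
      exact h5
    have hef : Even (ord (v.valuation K) f) := by
      rw [D5_ord hvf]
      exact Even.zero
    have heu : Even (ord (v.valuation K) u) := by
      rw [D5_ord hu1]
      exact Even.zero
    have hlf : la t₂ (sc (algebraMap K L f)) = la v (sc p) := by
      rw [R.l2 f hf0 hef, k2, H38T1.sc_mul (pow_ne_zero 2 hu0) hp0, H54MT.sc_sq hu0, zero_add]
    have huL : t₂.valuation L (algebraMap K L u) = 1 := by
      apply val_one
      rw [R.dn2]
      exact hu1
    have huL0 : algebraMap K L u ≠ 0 := (map_ne_zero _).2 hu0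
    have hnear2 : t₂.valuation L ((algebraMap K L x - θ) / algebraMap K L u - 1) < 1 := by
      have e1 : (algebraMap K L x - θ) / algebraMap K L u - 1 =
          (algebraMap K L r - θ) / algebraMap K L u := by
        rw [div_sub_one huL0, hx, map_add]
        congr 1
        ring
      rw [e1, map_div₀, huL, div_one, R.s2, ← exp_zero]
      exact exp_lt_exp.2 (by norm_num)
    obtain ⟨m1, m2⟩ := Tk_mul hodd2 hxt huL0 hnear2
    have hmem := D5_mem h x
    rw [← hf] at hmem
    refine ⟨_, hmem, ?_, ?_⟩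
    · rw [H38T1.sc_mul ((map_ne_zero _).2 hf0) hxt, H38T1.eo_add, heo2 _ hf0, m1, heo2 _ hu0,
        add_zero]
    · rw [H38T1.sc_mul ((map_ne_zero _).2 hf0) hxt, H38T1.la_add hodd2, hlf, m2,
        R.l2 u hu0 heu, ← H38T1.la_add hv, ← H38T1.sc_mul hp0 hu0]
      have e1 : p * u = u ^ 2 * (n : K) := by
        rw [hp, hu]
        ring
      rw [e1, H38T1.sc_mul (pow_ne_zero 2 hu0) hn0, H54MT.sc_sq hu0, zero_add]
      exact hnl

end H76GM
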