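import Pool.Agent.H76.GM.Dr
import Pool.Agent.H30.OR.Te

/-!
Row D6 (project MP_78d38b_GM), about 120 lines: residue degrees.
(1) `sq_iff_deg`: `w | v`, `v` odd, `x : K` a unit at `v` which is not a square in the completion `K_v`; then `x` is a square in `M_w` iff the residue degree of `w` is even.
Units are squares in the completions iff they are squares in the residue fields (`lam`, `la` of H38T1: `la v (sc x) = 0` iff square for units: `H36MX.sq_of_la`, `nsq_of_la`, `H38T1.la_sc`, `lam_unit`). With `q = Nv v`,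
`Nv w = q ^ f` (`Te_Nv` in H30/OR/Te.lean, private: copy it): a unit `x` is a square modulo `v` iff `x^((q-1)/2) = 1` in the residue field (`FiniteField.isSquare_iff`), otherwise it is `-1`; and
`x^((q^f-1)/2) = (x^((q-1)/2))^(1+q+...+q^(f-1)) = (-1)^f` in the residue field of `w` (`1+q+...+q^(f-1) ≡ f` modulo 2, `q` odd).
(2) `odd_deg`: if `v` is unramified in `M` (`hur`) and `[M : K]` is odd then the number of places above `v` of odd residue degree is odd: `ord_norm v` (as in `nb_le3` of H30/OR/Te.lean) for `algebraMap K M ϖ`,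
`ϖ` a uniformizer, `N = ϖ ^ n`, gives `∑ f_w = n`; take this modulo 2.
-/

set_option autoImplicit false
set_option linter.unusedSectionVars false
open scoped Classical

open WithZero NumberField IsDedekindDomain H38RT
open H38T1 (SC sc scu rep eo la si OddP unif)
open H76PP (Cub LC ev scm dn val_le val_one)
open H88OD H26OD H30OD H30ZO H36CY H30OR H36MX H76MX H76MQ

namespace H76GM

variable {K M : Type} [Field K] [NumberField K] [Field M] [NumberField M] [Algebra K M]

private theorem D6_Nv (w : HeightOneSpectrum (𝓞 M)) :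
    H76PP.Nv w = H76PP.Nv (dn K w) ^ (w.asIdeal.inertiaDeg (𝓞 K)) := by
  have h1 : w.asIdeal.IsMaximal := w.isMaximal
  have h2 : (dn K w).asIdeal.IsMaximal := (dn K w).isMaximal
  have h3 : w.asIdeal.LiesOver (dn K w).asIdeal := ⟨rfl⟩
  have h4 : Ideal.relNorm (𝓞 K) w.asIdeal = (dn K w).asIdeal ^ (w.asIdeal.inertiaDeg (𝓞 K)) :=
    Ideal.relNorm_eq_pow_of_isMaximal w.asIdeal (dn K w).asIdeal
  have h5 := Ideal.absNorm_relNorm (R := 𝓞 K) (S := 𝓞 M) w.asIdeal
  rw [h4, map_pow] at h5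
  exact h5.symm

private theorem D6_two {v : HeightOneSpectrum (𝓞 K)} (hv : OddP v) : (2 : 𝓞 K) ∉ v.asIdeal := by
  intro h
  have h1 : v.valuation K (algebraMap (𝓞 K) K 2) < 1 := (v.valuation_lt_one_iff_mem (K := K) _).2 h
  have h2 : v.valuation K 2 = 1 := hv
  rw [map_ofNat, h2] at h1
  exact lt_irrefl _ h1

private theorem D6_lt {v : HeightOneSpectrum (𝓞 K)} (r : 𝓞 K) :
    v.valuation K (r : K) < 1 ↔ r ∈ v.asIdeal := v.valuation_lt_one_iff_mem (K := K) r

/-- Squares modulo an odd prime. -/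
private theorem D6_res {v : HeightOneSpectrum (𝓞 K)} (hv : OddP v) {r : 𝓞 K} (hr : r ∉ v.asIdeal) :
    Odd (H76PP.Nv v) ∧ (r ^ (H76PP.Nv v / 2) - 1 ∈ v.asIdeal ∨
        r ^ (H76PP.Nv v / 2) + 1 ∈ v.asIdeal) ∧
      (Sq (v.valuation K) (r : K) ↔ r ^ (H76PP.Nv v / 2) - 1 ∈ v.asIdeal) := by
  have _ : v.asIdeal.IsMaximal := v.isMaximal
  let _ : Field (𝓞 K ⧸ v.asIdeal) := Ideal.Quotient.field v.asIdeal
  have _ : Finite (𝓞 K ⧸ v.asIdeal) := Ideal.finiteQuotientOfFreeOfNeBot v.asIdeal v.ne_bot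
  let _ : Fintype (𝓞 K ⧸ v.asIdeal) := Fintype.ofFinite _
  have hcard : Fintype.card (𝓞 K ⧸ v.asIdeal) = H76PP.Nv v := by
    rw [H76PP.Nv, Ideal.absNorm_apply, Submodule.cardQuot_apply, Nat.card_eq_fintype_card]
  have hch : ringChar (𝓞 K ⧸ v.asIdeal) ≠ 2 := by
    intro h
    have h1 : ((2 : ℕ) : 𝓞 K ⧸ v.asIdeal) = 0 := (ringChar.spec _ 2).2 (by rw [h])
    have h2 : Ideal.Quotient.mk v.asIdeal (2 : 𝓞 K) = 0 := by
      rw [map_ofNat]
      exact_mod_cast h1
    exact D6_two hv (Ideal.Quotient.eq_zero_iff_mem.1 h2)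
  have hr0 : Ideal.Quotient.mk v.asIdeal r ≠ 0 := fun h => hr (Ideal.Quotient.eq_zero_iff_mem.1 h)
  have e1 : ∀ n : ℕ, r ^ n - 1 ∈ v.asIdeal ↔ Ideal.Quotient.mk v.asIdeal r ^ n = 1 := by
    intro n
    rw [← Ideal.Quotient.eq_zero_iff_mem, map_sub, map_pow, map_one, sub_eq_zero]
  have e2 : ∀ n : ℕ, r ^ n + 1 ∈ v.asIdeal ↔ Ideal.Quotient.mk v.asIdeal r ^ n = -1 := by
    intro n
    rw [← Ideal.Quotient.eq_zero_iff_mem, map_add, map_pow, map_one, add_eq_zero_iff_eq_neg]
  have hodd := FiniteField.odd_card_of_char_ne_two hch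
  have hdi := FiniteField.pow_dichotomy hch hr0
  have hsq := FiniteField.isSquare_iff hch hr0
  rw [hcard] at hodd hdi hsq
  refine ⟨Nat.odd_iff.2 hodd, ?_, ?_⟩
  · rw [e1, e2]
    exact hdi
  · rw [e1, ← hsq]
    constructor
    · rintro ⟨t, ht⟩
      have ht1 : v.valuation K t ≤ 1 := by
        by_contra hcon
        rw [not_le] at hcon
        have h1 : v.valuation K (r : K) < v.valuation K (t ^ 2) := by
          refine lt_of_le_of_lt (v.valuation_le_one r) ?_
          rw [map_pow]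
          exact one_lt_pow₀ hcon two_ne_zero
        have h2 := Valuation.map_sub_eq_of_lt_left (v.valuation K) h1
        rw [← Valuation.map_neg, neg_sub, h2, map_pow] at ht
        exact absurd ht (not_lt.2 (one_lt_pow₀ hcon two_ne_zero).le)
      obtain ⟨s, hs⟩ := H76PP.Tf_approx v ht1
      refine ⟨Ideal.Quotient.mk v.asIdeal s, ?_⟩
      rw [← map_mul, ← sub_eq_zero, ← map_sub, Ideal.Quotient.eq_zero_iff_mem, ← D6_lt]
      have e3 : ((r - s * s : 𝓞 K) : K) = ((r : K) - t ^ 2) + (t - (s : K)) * (t + (s : K)) := by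
        have e4 : ((r - s * s : 𝓞 K) : K) = (r : K) - (s : K) * (s : K) := by
          simp
        rw [e4]
        ring
      rw [e3]
      refine Valuation.map_add_lt _ ht ?_
      rw [map_mul]
      exact mul_lt_one_of_lt_of_le hs (Valuation.map_add_le _ ht1 (v.valuation_le_one s))
    · rintro ⟨s', hs'⟩
      obtain ⟨s, rfl⟩ := Ideal.Quotient.mk_surjective s'
      refine ⟨(s : K), ?_⟩
      rw [← map_mul, ← sub_eq_zero, ← map_sub, Ideal.Quotient.eq_zero_iff_mem, ← D6_lt] at hs'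
      have e4 : ((r - s * s : 𝓞 K) : K) = (r : K) - (s : K) ^ 2 := by
        simp [pow_two]
      rw [e4] at hs'
      exact hs'

/-- Units are squares in the completion iff they are squares modulo the prime. -/
private theorem D6_iff {v : HeightOneSpectrum (𝓞 K)} (hv : OddP v) {x : K}
    (hx : v.valuation K x = 1) :
    IsSquare (algebraMap K (v.adicCompletion K) x) ↔ Sq (v.valuation K) x := by
  have hx0 : x ≠ 0 := by
    rintro rfl
    rw [map_zero] at hx
    exact zero_ne_one hx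
  have h1 : eo v (sc x) = 0 := by
    rw [H38T1.eo_sc hx0, Ta_ord_unit hx]
    rfl
  have h2 := H38T1.la_sc hv hx0
  rw [lam_unit hx] at h2
  constructor
  · intro h3
    by_contra h4
    rw [if_neg h4] at h2
    exact nsq_of_la hv hx0 h2 h1 h3
  · intro h4
    rw [if_pos h4] at h2
    exact sq_of_la hv hx0 h1 h2

private theorem D6_congr {v : HeightOneSpectrum (𝓞 K)} {x y : K} (h : v.valuation K (x - y) < 1) :
    Sq (v.valuation K) x ↔ Sq (v.valuation K) y := by
  have key : ∀ {x y : K}, v.valuation K (x - y) < 1 → Sq (v.valuation K) x →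
      Sq (v.valuation K) y := by
    rintro x y h ⟨t, ht⟩
    refine ⟨t, ?_⟩
    have e : y - t ^ 2 = (x - t ^ 2) - (x - y) := by ring
    rw [e]
    exact Valuation.map_sub_lt _ ht h
  refine ⟨key h, key ?_⟩
  rw [← Valuation.map_neg, neg_sub]
  exact h

private theorem D6_nat {q : ℕ} (hq : Odd q) (f : ℕ) :
    q ^ f / 2 = q / 2 * ∑ i ∈ Finset.range f, q ^ i ∧
      (Odd (∑ i ∈ Finset.range f, q ^ i) ↔ Odd f) := by
  obtain ⟨m, rfl⟩ := hq
  have h0 : (2 * m + 1) / 2 = m := by omega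
  rw [h0]
  have h1 : (2 * m + 1) ^ f = 2 * (m * ∑ i ∈ Finset.range f, (2 * m + 1) ^ i) + 1 := by
    induction f with
    | zero => simp
    | succ n ih =>
      rw [Finset.sum_range_succ, mul_add]
      calc (2 * m + 1) ^ (n + 1) = (2 * m + 1) ^ n + 2 * (m * (2 * m + 1) ^ n) := by ring
        _ = (2 * (m * ∑ i ∈ Finset.range n, (2 * m + 1) ^ i) + 1) +
            2 * (m * (2 * m + 1) ^ n) := by rw [← ih]
        _ = _ := by ring
  refine ⟨by rw [h1]; omega, ?_⟩
  rw [Finset.odd_sum_iff_odd_card_odd]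
  have h2 : (Finset.range f).filter (fun i => Odd ((2 * m + 1) ^ i)) = Finset.range f := by
    refine Finset.filter_true_of_mem fun i _ => ?_
    exact Odd.pow ⟨m, rfl⟩
  rw [h2, Finset.card_range]

/-- Units become squares exactly in the extensions of even residue degree. -/
theorem sq_iff_deg {v : HeightOneSpectrum (𝓞 K)} (hv : OddP v) {w : HeightOneSpectrum (𝓞 M)}
    (hw : dn K w = v) {x : K} (hx : v.valuation K x = 1)
    (hns : ¬ IsSquare (algebraMap K (v.adicCompletion K) x)) :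
    IsSquare (algebraMap M (w.adicCompletion M) (algebraMap K M x)) ↔
      Even (w.asIdeal.inertiaDeg (𝓞 K)) := by
  subst hw
  have hvw : OddP w := by
    have h1 := val_one (L := M) (w := w) (x := (2 : K)) hv
    rw [map_ofNat] at h1
    exact h1
  have hxw : w.valuation M (algebraMap K M x) = 1 := val_one hx
  rw [D6_iff hv hx] at hns
  rw [D6_iff hvw hxw]
  obtain ⟨r, hr⟩ := H76PP.Tf_approx (dn K w) hx.le
  have hrv : (dn K w).valuation K (r : K) = 1 := by
    have e : (r : K) = x - (x - (r : K)) := by ring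
    rw [e, Valuation.map_sub_eq_of_lt_left, hx]
    rw [hx]
    exact hr
  have hr0 : r ∉ (dn K w).asIdeal := by
    rw [← D6_lt, hrv]
    exact lt_irrefl _
  rw [D6_congr hr] at hns
  obtain ⟨s, hs⟩ : ∃ s, s = algebraMap (𝓞 K) (𝓞 M) r := ⟨_, rfl⟩
  have hs1 : ((s : 𝓞 M) : M) = algebraMap K M (r : K) := by
    rw [hs]
    rfl
  have hs0 : s ∉ w.asIdeal := by
    rw [hs]
    exact hr0
  have hcon : w.valuation M (algebraMap K M x - (s : M)) < 1 := by
    rw [hs1, ← map_sub]
    exact H76PP.val_lt hr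
  rw [D6_congr hcon]
  obtain ⟨hq, hdi, hiff⟩ := D6_res hv hr0
  obtain ⟨-, -, hiffw⟩ := D6_res hvw hs0
  rw [hiff] at hns
  have hneg := hdi.resolve_left hns
  have hneg' : s ^ (H76PP.Nv (dn K w) / 2) + 1 ∈ w.asIdeal := by
    have h1 : algebraMap (𝓞 K) (𝓞 M) (r ^ (H76PP.Nv (dn K w) / 2) + 1) ∈ w.asIdeal := hneg
    rw [map_add, map_pow, map_one, ← hs] at h1
    exact h1
  obtain ⟨hn1, hn2⟩ := D6_nat hq (w.asIdeal.inertiaDeg (𝓞 K))
  rw [hiffw, D6_Nv (K := K) w, hn1, pow_mul]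
  obtain ⟨g, hg⟩ : ∃ g, g = Ideal.Quotient.mk w.asIdeal (s ^ (H76PP.Nv (dn K w) / 2)) := ⟨_, rfl⟩
  have hg1 : g = -1 := by
    rw [hg, ← add_eq_zero_iff_eq_neg]
    have h1 := Ideal.Quotient.eq_zero_iff_mem.2 hneg'
    rw [map_add, map_one] at h1
    exact h1
  have h2w : (2 : 𝓞 M ⧸ w.asIdeal) ≠ 0 := by
    intro h
    refine D6_two hvw (Ideal.Quotient.eq_zero_iff_mem.1 ?_)
    rw [map_ofNat]
    exact h
  rw [← Ideal.Quotient.eq_zero_iff_mem, map_sub, map_pow, map_one, ← hg, hg1]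
  constructor
  · intro h
    by_contra hodd
    rw [Nat.not_even_iff_odd, ← hn2] at hodd
    rw [hodd.neg_one_pow] at h
    apply h2w
    linear_combination -h
  · intro h
    have h3 : Even (∑ i ∈ Finset.range (w.asIdeal.inertiaDeg (𝓞 K)), H76PP.Nv (dn K w) ^ i) := by
      rw [← Nat.not_odd_iff_even, hn2, Nat.not_odd_iff_even]
      exact h
    rw [h3.neg_one_pow, sub_self]

/-- The number of places of odd residue degree. -/
theorem odd_deg (hodd : Odd (Module.finrank K M)) {v : HeightOneSpectrum (𝓞 K)}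
    (hur : ∀ w : HeightOneSpectrum (𝓞 M), dn K w = v → ∀ x : K, x ≠ 0 →
      ord (w.valuation M) (algebraMap K M x) = ord (v.valuation K) x)
    {P : Finset (HeightOneSpectrum (𝓞 M))} (hP : ∀ w, w ∈ P ↔ dn K w = v) :
    Odd (P.filter fun w => ¬ Even (w.asIdeal.inertiaDeg (𝓞 K))).card := by
  obtain ⟨ϖ, hϖ⟩ := v.valuation_exists_uniformizer K
  have hϖ0 : ϖ ≠ 0 := by
    rintro rfl
    rw [map_zero] at hϖ
    exact absurd hϖ.symm exp_ne_zero
  have hord : ord (v.valuation K) ϖ = 1 := by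
    rw [ord, hϖ, log_exp]
    rfl
  have hL0 : algebraMap K M ϖ ≠ 0 := (map_ne_zero _).2 hϖ0
  have h1 := H76PP.ord_norm (K := K) (L := M) v hL0
  have hPe : (H76PP.fin_above (L := M) v).toFinset = P := by
    ext w
    rw [Set.Finite.mem_toFinset, hP]
    exact Iff.rfl
  have h0 : ∑ᶠ w : {w : HeightOneSpectrum (𝓞 M) // dn K w = v},
        (w.1.asIdeal.inertiaDeg (𝓞 K) : ℤ) * ord (w.1.valuation M) (algebraMap K M ϖ) =
      ∑ w ∈ (H76PP.fin_above (L := M) v).toFinset,
        (w.asIdeal.inertiaDeg (𝓞 K) : ℤ) * ord (w.valuation M) (algebraMap K M ϖ) := by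
    rw [← finsum_mem_eq_finite_toFinset_sum (fun w : HeightOneSpectrum (𝓞 M) =>
      (w.asIdeal.inertiaDeg (𝓞 K) : ℤ) * ord (w.valuation M) (algebraMap K M ϖ))
      (H76PP.fin_above (L := M) v)]
    exact finsum_set_coe_eq_finsum_mem {w : HeightOneSpectrum (𝓞 M) | dn K w = v}
      (f := fun w => (w.asIdeal.inertiaDeg (𝓞 K) : ℤ) * ord (w.valuation M) (algebraMap K M ϖ))
  have hpow : ∀ n : ℕ, ord (v.valuation K) (ϖ ^ n) = n := by
    intro n
    induction n with
    | zero =>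
      rw [pow_zero, Ta_ord_unit (map_one _)]
      rfl
    | succ n ih =>
      rw [pow_succ, Ta_ord_mul (pow_ne_zero _ hϖ0) hϖ0, ih, hord]
      push_cast
      ring
  rw [h0, hPe, Algebra.norm_algebraMap, hpow] at h1
  have h2 : (Module.finrank K M : ℤ) = ∑ w ∈ P, (w.asIdeal.inertiaDeg (𝓞 K) : ℤ) := by
    rw [h1]
    refine Finset.sum_congr rfl fun w hw => ?_
    rw [hur w ((hP w).1 hw) ϖ hϖ0, hord, mul_one]
  have h3 : Module.finrank K M = ∑ w ∈ P, w.asIdeal.inertiaDeg (𝓞 K) := by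
    exact_mod_cast h2
  rw [h3, Finset.odd_sum_iff_odd_card_odd] at hodd
  have h4 : (P.filter fun w => ¬ Even (w.asIdeal.inertiaDeg (𝓞 K))) =
      P.filter fun w => Odd (w.asIdeal.inertiaDeg (𝓞 K)) := by
    refine Finset.filter_congr fun w _ => ?_
    exact Nat.not_even_iff_odd
  rw [h4]
  exact hodd

end H76GM
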