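import Pool.Agent.H76.GM.Dr

/-!
Project MP_78d38b_GM, part D: the parity for a twist by `α` which need not be a square at the bad places.
-/

set_option autoImplicit false
set_option linter.unusedSectionVars false
open scoped Classical

open WithZero NumberField IsDedekindDomain H38RT
open H38T1 (SC sc scu rep rep_ne sc_rep sc_mul sc_eq_zero sc_surj eo la si Pri OddP tp unif ka)
open H76PP H36MX H76MQ H30ZO H76OD H88OD H26OD H30OD H36CY H30OR

namespace H76GM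

variable {K L : Type} [Field K] [NumberField K] [Field L] [NumberField L] [Algebra K L]
  {a b : K} {θ : L}

/-- The sum of the Legendre classes of `Δ` at the primes of odd order of `δ`. -/
theorem sum_hs {Δ δ : K} (hΔ : Δ ≠ 0) (hδ : δ ≠ 0) {Sg T : Finset (HeightOneSpectrum (𝓞 K))}
    (hodd : ∀ v : HeightOneSpectrum (𝓞 K), v ∉ Sg → OddP v)
    (hu : ∀ v : HeightOneSpectrum (𝓞 K), v ∉ Sg → v.valuation K Δ = 1)
    (hpos : ∀ s : K →+* ℝ, 0 < s δ)
    (hT : ∀ v, v ∈ T ↔ v ∉ Sg ∧ Odd (ord (v.valuation K) δ)) :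
    ∑ v ∈ T, la v (sc Δ) = ∑ v ∈ Sg, hsv v Δ δ := by
  have hrec := (hilb K).prod Δ δ hΔ hδ
  unfold BB at hrec
  have hreal : ∑ w : K →+* ℝ, si w (sc Δ) * si w (sc δ) = 0 := by
    refine Finset.sum_eq_zero fun s _ => ?_
    rw [H38T1.si_sc s hδ, H38T1.si_sc s hΔ]
    unfold sw
    rw [if_neg (not_lt.2 (hpos s).le), mul_zero]
  have hval : ∀ v, v ∉ Sg → hsv v Δ δ = eo v (sc δ) * la v (sc Δ) := by
    intro v hv
    rw [(hilb K).odd v (hodd v hv) _ _ hΔ hδ, Cl_tp (Cl_eo_one (hu v hv))]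
  have hsupp : (Function.support fun v => hsv v Δ δ) ⊆ ↑(T ∪ Sg) := by
    intro v hv'
    by_contra h1
    apply hv'
    rw [Finset.mem_coe, Finset.mem_union, not_or] at h1
    change hsv v Δ δ = 0
    have h2 : ¬ Odd (ord (v.valuation K) δ) := fun h => h1.1 ((hT v).2 ⟨h1.2, h⟩)
    rw [Int.not_odd_iff_even] at h2
    obtain ⟨m, hm⟩ := h2
    rw [hval v h1.2, H38T1.eo_sc hδ, hm]
    push_cast
    have h3 : ∀ t : ZMod 2, t + t = 0 := by decide
    rw [h3, zero_mul]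
  have hdj : Disjoint T Sg := by
    rw [Finset.disjoint_left]
    exact fun v h4 h5 => ((hT v).1 h4).1 h5
  rw [hreal, add_zero, finsum_eq_sum_of_support_subset _ hsupp, Finset.sum_union hdj] at hrec
  have hneg : ∀ x y : ZMod 2, x + y = 0 → x = y := by decide
  rw [← hneg _ _ hrec]
  refine Finset.sum_congr rfl fun v hvT => ?_
  obtain ⟨hv, hv1⟩ := (hT v).1 hvT
  obtain ⟨m, hm⟩ := hv1
  rw [hval v hv, H38T1.eo_sc hδ, hm]
  push_cast
  have h3 : (2 : ZMod 2) = 0 := by decide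
  rw [h3, zero_mul, zero_add, one_mul]

/-- **The parity.** -/
theorem parity_loc (S : Ext K K L a b θ) {D δ : K} (hD : D ≠ 0) (hδ0 : δ ≠ 0)
    {Sg Q : Finset (HeightOneSpectrum (𝓞 K))} (hQ : Q ⊆ Sg)
    (h2 : ∀ v : HeightOneSpectrum (𝓞 K), v ∉ Sg → v.valuation K 2 = 1)
    (h3 : ∀ v : HeightOneSpectrum (𝓞 K), v ∉ Sg → v.valuation K 3 = 1)
    (hd : ∀ v : HeightOneSpectrum (𝓞 K), v ∉ Sg → v.valuation K (4 * a ^ 3 + 27 * b ^ 2) = 1)
    (hDv : ∀ v : HeightOneSpectrum (𝓞 K), v ∉ Sg → v.valuation K D = 1)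
    (hpos : ∀ s : K →+* ℝ, 0 < s δ)
    (hbad : ∀ v ∈ Sg, v ∉ Q → ∀ c ∈ HH K L, (S.Lv D v c ↔ S.Lv (D * δ) v c))
    (h2Q : ∀ v ∈ Q, v.valuation K 2 = 1) (hnbQ : ∀ v ∈ Q, nb K L v = 2)
    (hlocQ : ∀ v ∈ Q, ∃ r u : Fin 1 → (SC L →+ ZMod 2),
      LocD (show Cub K L a b θ from S.cub) v D (D * δ) r u) :
    ∃ p n, Nat.card {c : SC L // S.V D c} = 2 ^ p ∧ Nat.card {c : SC L // S.V (D * δ) c} = 2 ^ n ∧
      ((p + n + Q.card : ℕ) : ZMod 2) = ∑ v ∈ Sg, hsv v (-(4 * a ^ 3 + 27 * b ^ 2)) δ := by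
  obtain ⟨A, rfl⟩ := Lt_int S.ha
  obtain ⟨B, rfl⟩ := Lt_int S.hb
  have h : Cub K L (A : K) (B : K) θ := S.cub
  have hDδ : D * δ ≠ 0 := mul_ne_zero hD hδ0
  obtain ⟨Δ, hΔ⟩ : ∃ Δ : K, Δ = -(4 * (A : K) ^ 3 + 27 * (B : K) ^ 2) := ⟨_, rfl⟩
  have hΔ0 : Δ ≠ 0 := by
    rw [hΔ]
    exact neg_ne_zero.2 S.dne
  have hΔv : ∀ v : HeightOneSpectrum (𝓞 K), v ∉ Sg → v.valuation K Δ = 1 := by
    intro v hv
    rw [hΔ, Valuation.map_neg]
    exact hd v hv
  have hord0 : ∀ v : HeightOneSpectrum (𝓞 K), v ∉ Sg → ord (v.valuation K) D = 0 := by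
    intro v hv
    unfold ord
    rw [hDv v hv, log_one, neg_zero]
  have hordD : ∀ v : HeightOneSpectrum (𝓞 K), v ∉ Sg →
      ord (v.valuation K) (D * δ) = ord (v.valuation K) δ := by
    intro v hv
    rw [ord_mul hD hδ0, hord0 v hv, zero_add]
  -- the primes of odd order of `δ`
  obtain ⟨Td, hTd⟩ : ∃ T : Finset (HeightOneSpectrum (𝓞 K)), ∀ v, v ∈ T ↔
      v ∉ Sg ∧ Odd (ord (v.valuation K) δ) := by
    have hfin : {v : HeightOneSpectrum (𝓞 K) | v ∉ Sg ∧ Odd (ord (v.valuation K) δ)}.Finite := by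
      refine (H88OD.fin_supp (sc δ)).subset ?_
      rintro v ⟨-, m, hm⟩
      change eo v (sc δ) ≠ 0
      rw [H38T1.eo_sc hδ0, hm]
      push_cast
      have h4 : (2 : ZMod 2) = 0 := by decide
      rw [h4, zero_mul, zero_add]
      exact one_ne_zero
    exact ⟨hfin.toFinset, fun v => by rw [Set.Finite.mem_toFinset]; rfl⟩
  have hex : ∀ v : {v // v ∈ Td}, ∃ (m : ℕ) (r u : Fin m → (SC L →+ ZMod 2)),
      nb K L v.1 = m + 1 ∧ LocD h v.1 D (D * δ) r u ∧ (m : ZMod 2) = la v.1 (sc Δ) := by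
    intro v
    obtain ⟨hv, hv1⟩ := (hTd v.1).1 v.2
    rw [hΔ]
    refine loc_all h (h2 _ hv) (h3 _ hv) (hd _ hv) hD ?_ hDδ ?_
    · rw [hord0 _ hv]
      exact Even.zero
    · rw [hordD _ hv]
      exact hv1
  choose m r u hnb hloc hla using hex
  obtain ⟨m0, hm0, hm1⟩ : ∃ m0 : HeightOneSpectrum (𝓞 K) → ℕ,
      (∀ v : {v // v ∈ Td}, m0 v.1 = m v) ∧ ∀ v, v ∉ Td → m0 v = 1 :=
    ⟨fun v => if hv : v ∈ Td then m ⟨v, hv⟩ else 1, fun v => dif_pos v.2, fun v hv => dif_neg hv⟩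
  have hTQ : Disjoint Td Q := by
    rw [Finset.disjoint_left]
    exact fun v h4 h5 => ((hTd v).1 h4).1 (hQ h5)
  obtain ⟨p, n, hp, hn, hev⟩ := parity_gen S (D := D) (E := D * δ) (Sg := Sg \ Q) (T := Td ∪ Q)
    (Q := ∅) hD hDδ
    (by
      rw [Finset.disjoint_left]
      intro v h4 h5
      rw [Finset.mem_sdiff] at h4
      rcases Finset.mem_union.1 h5 with h5 | h5
      · exact ((hTd v).1 h5).1 h4.1
      · exact h4.2 h5)
    (by
      intro v hv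
      rw [Finset.mem_sdiff, not_and_not_right] at hv
      by_cases h5 : v ∈ Sg
      · exact h2Q v (hv h5)
      · exact h2 v h5)
    (by
      intro v hv hvT
      rw [Finset.mem_union, not_or] at hvT
      have hvS : v ∉ Sg := fun h5 => hv (Finset.mem_sdiff.2 ⟨h5, hvT.2⟩)
      refine ⟨hd v hvS, ?_, ?_⟩
      · rw [hord0 v hvS]
        exact Even.zero
      · rw [hordD v hvS, ← Int.not_odd_iff_even]
        exact fun h4 => hvT.1 ((hTd v).2 ⟨hvS, h4⟩))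
    (by
      intro v hv c hc
      rw [Finset.mem_sdiff] at hv
      exact hbad v hv.1 hv.2 c hc)
    (by
      intro s hs c hc
      refine Wc_tw_real _ hD hDδ ?_
      rw [mul_div_cancel_left₀ _ hD]
      exact hpos s)
    (by
      intro s hs
      exact absurd hs (Finset.notMem_empty s)) (m := m0)
    (by
      intro v hv
      rcases Finset.mem_union.1 hv with h5 | h5
      · rw [hm0 ⟨v, h5⟩]
        exact hnb ⟨v, h5⟩
      · rw [hm1 v (Finset.disjoint_right.1 hTQ h5)]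
        exact hnbQ v h5)
    (by
      intro v hv
      rcases Finset.mem_union.1 hv with h5 | h5
      · rw [hm0 ⟨v, h5⟩]
        exact ⟨_, _, hloc ⟨v, h5⟩⟩
      · rw [hm1 v (Finset.disjoint_right.1 hTQ h5)]
        exact hlocQ v h5)
  refine ⟨p, n, hp, hn, ?_⟩
  have h4 := sum_hs hΔ0 hδ0 h2 hΔv hpos hTd
  rw [← hΔ, ← h4]
  have h5 : ((∑ v ∈ Td, m0 v : ℕ) : ZMod 2) = ∑ v ∈ Td, la v (sc Δ) := by
    push_cast
    refine Finset.sum_congr rfl fun v hv => ?_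
    rw [hm0 ⟨v, hv⟩]
    exact hla ⟨v, hv⟩
  have h6 : ∑ v ∈ Td ∪ Q, m0 v = ∑ v ∈ Td, m0 v + Q.card := by
    rw [Finset.sum_union hTQ]
    congr 1
    rw [Finset.card_eq_sum_ones]
    exact Finset.sum_congr rfl fun v hv => hm1 v (Finset.disjoint_right.1 hTQ hv)
  rw [h6, Finset.card_empty, add_zero] at hev
  rw [← h5]
  have h7 : ((p + n + (∑ v ∈ Td, m0 v + Q.card) : ℕ) : ZMod 2) = 0 := by
    rw [ZMod.natCast_eq_zero_iff]
    exact even_iff_two_dvd.1 hev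
  push_cast at h7 ⊢
  have h8 : ∀ x y z t : ZMod 2, x + y + (z + t) = 0 → x + y + t = z := by decide
  exact h8 _ _ _ _ h7

end H76GM
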