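import Pool.Agent.H76.GM.D2
import Pool.Agent.H76.GM.D3
import Pool.Agent.H76.GM.D4
import Pool.Agent.H76.GM.D5

/-!
Project MP_78d38b_GM, part D: the local conditions of the twists at a prime at which the discriminant has order one.
-/

set_option autoImplicit false
set_option linter.unusedSectionVars false
open scoped Classical

open WithZero NumberField IsDedekindDomain H38RT
open H38T1 (SC sc scu rep rep_ne sc_rep sc_mul sc_eq_zero sc_surj eo la si Pri OddP tp unif ka)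
open H76PP H36MX H76MQ H30ZO H76OD H88OD H26OD H30OD H36CY H30OR

namespace H76GM

variable {K L : Type} [Field K] [NumberField K] [Field L] [NumberField L] [Algebra K L]
  {A B : 𝓞 K} {θ : L} {v : HeightOneSpectrum (𝓞 K)} {r : K} {t₁ t₂ : HeightOneSpectrum (𝓞 L)}

/-- The class which governs the local conditions of the twists. -/
def qd (A B : K) : K := -2 * A * B * (4 * A ^ 3 + 27 * B ^ 2)

theorem Rm.sq_iff (R : Rm A B θ v r t₁ t₂) (hA : (A : K) ≠ 0) (E : K) :
    IsSquare (algebraMap K (v.adicCompletion K) (E * ((A : K) + 3 * r ^ 2) * (3 * r))) ↔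
      IsSquare (algebraMap K (v.adicCompletion K) (E * qd (A : K) (B : K))) := by
  have e1 : E * qd (A : K) (B : K) = E * ((A : K) + 3 * r ^ 2) * (3 * r) *
      ((4 * (A : K) ^ 2 / 3) * (4 * (A : K) ^ 2 / 3)) := by
    have h1 : (B : K) = -(2 * (A : K) * r) / 3 := by
      have h2 := R.rr
      field_simp
      linear_combination h2
    unfold qd
    rw [h1]
    field_simp
    ring
  have e2 : E * ((A : K) + 3 * r ^ 2) * (3 * r) = E * qd (A : K) (B : K) *
      ((3 / (4 * (A : K) ^ 2)) * (3 / (4 * (A : K) ^ 2))) := by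
    rw [e1]
    field_simp
  constructor
  · intro h1
    rw [e1, map_mul, map_mul _ (4 * (A : K) ^ 2 / 3) (4 * (A : K) ^ 2 / 3)]
    exact h1.mul ⟨_, rfl⟩
  · intro h1
    rw [e2, map_mul, map_mul _ (3 / (4 * (A : K) ^ 2)) (3 / (4 * (A : K) ^ 2))]
    exact h1.mul ⟨_, rfl⟩

theorem Rm.nb_eq (R : Rm A B θ v r t₁ t₂) : nb K L v = 2 := by
  unfold H30ZO.nb
  have h1 : {w : HeightOneSpectrum (𝓞 L) | dn K w = v} = {t₁, t₂} := by
    ext w
    constructor
    · intro hw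
      exact R.only w hw
    · rintro (rfl | hw)
      · exact R.dn1
      · rw [Set.mem_singleton_iff] at hw
        rw [hw]
        exact R.dn2
  rw [h1, Set.ncard_pair R.ne]

theorem Rm.hr (R : Rm A B θ v r t₁ t₂) (h : Cub K L (A : K) (B : K) θ) (hv : OddP v)
    (h3 : v.valuation K 3 = 1)
    (hd : v.valuation K (4 * (A : K) ^ 3 + 27 * (B : K) ^ 2) = exp (-1)) (hA : (A : K) ≠ 0)
    {D : K} (hD : D ≠ 0)
    (hDn : ¬ IsSquare (algebraMap K (v.adicCompletion K) (D * qd (A : K) (B : K)))) {c : SC L}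
    (hc : c ∈ HH K L) :
    Wc (algebraMap K (v.adicCompletion K)) (D ^ 2 * (A : K)) (D ^ 3 * (B : K))
      (algebraMap K L D * θ) c ↔ eo t₂ c = 0 := by
  have hD0 : 4 * (A : K) ^ 3 + 27 * (B : K) ^ 2 ≠ 0 := by
    intro h3
    rw [h3, map_zero] at hd
    exact exp_ne_zero hd.symm
  have hAv : v.valuation K (A : K) ≤ 1 := v.valuation_le_one A
  have hBv : v.valuation K (B : K) ≤ 1 := v.valuation_le_one B
  have hz : ∀ x : ZMod 2, x = 0 ∨ x = 1 := by decide
  obtain ⟨U, hUc⟩ : ∃ U : SC L →+ ZMod 2, ∀ c, U c = eo t₂ c :=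
    ⟨AddMonoidHom.mk' (fun c => eo t₂ c) (fun c c' => H38T1.eo_add _ _ _), fun _ => rfl⟩
  obtain ⟨W, hWH, hW, hW0, hW1⟩ := idx_W h hv hAv hBv hD0 hD
  have key : c ∈ W ↔ ∀ i, (fun _ => U : Fin 1 → (SC L →+ ZMod 2)) i c = 0 := by
    refine idx_eq hWH _ ?_ ?_ hW0 ?_ hc
    · intro c hcW _
      rw [hUc]
      refine (R.cond h hv h3 hd hD ((hW c).1 hcW).2).1 ?_
      rw [R.sq_iff hA]
      exact hDn
    · intro z
      rcases hz (z 0) with h4 | h4
      · refine ⟨0, (HH K L).zero_mem, fun i => ?_⟩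
        rw [map_zero, Subsingleton.elim i 0, h4]
      · obtain ⟨⟨c, hc, hc1⟩, -⟩ := R.surj h hv h3 hd
        refine ⟨c, hc, fun i => ?_⟩
        rw [hUc, Subsingleton.elim i 0, h4]
        exact hc1
    · rw [Fintype.card_fin, pow_one]
      have h5 := hW1
      rw [R.nb_eq] at h5
      omega
  have h6 : c ∈ W ↔ Wc (algebraMap K (v.adicCompletion K)) (D ^ 2 * (A : K)) (D ^ 3 * (B : K))
      (algebraMap K L D * θ) c := by
    rw [hW]
    exact ⟨fun h => h.2, fun h => ⟨hc, h⟩⟩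
  rw [← h6, key]
  constructor
  · intro h7
    rw [← hUc]
    exact h7 0
  · intro h7 _
    rw [hUc]
    exact h7

theorem Rm.hu (R : Rm A B θ v r t₁ t₂) (h : Cub K L (A : K) (B : K) θ) (hv : OddP v)
    (h3 : v.valuation K 3 = 1)
    (hd : v.valuation K (4 * (A : K) ^ 3 + 27 * (B : K) ^ 2) = exp (-1)) (hA : (A : K) ≠ 0)
    {D : K} (hD : D ≠ 0)
    (hDn : IsSquare (algebraMap K (v.adicCompletion K) (D * qd (A : K) (B : K)))) {c : SC L}
    (hc : c ∈ HH K L) :
    Wc (algebraMap K (v.adicCompletion K)) (D ^ 2 * (A : K)) (D ^ 3 * (B : K))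
      (algebraMap K L D * θ) c ↔ la t₂ c + kr θ r t₂ * eo t₂ c = 0 := by
  have hD0 : 4 * (A : K) ^ 3 + 27 * (B : K) ^ 2 ≠ 0 := by
    intro h3
    rw [h3, map_zero] at hd
    exact exp_ne_zero hd.symm
  have hAv : v.valuation K (A : K) ≤ 1 := v.valuation_le_one A
  have hBv : v.valuation K (B : K) ≤ 1 := v.valuation_le_one B
  have hz : ∀ x : ZMod 2, x = 0 ∨ x = 1 := by decide
  have hw2 : OddP t₂ := (oddP_dn (K := K)).2 (by rw [R.dn2]; exact hv)
  obtain ⟨U, hUc⟩ : ∃ U : SC L →+ ZMod 2, ∀ c, U c = la t₂ c + kr θ r t₂ * eo t₂ c :=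
    ⟨AddMonoidHom.mk' (fun c => la t₂ c + kr θ r t₂ * eo t₂ c) (fun c c' => by
      rw [H38T1.la_add hw2, H38T1.eo_add]
      ring), fun _ => rfl⟩
  obtain ⟨W, hWH, hW, hW0, hW1⟩ := idx_W h hv hAv hBv hD0 hD
  have key : c ∈ W ↔ ∀ i, (fun _ => U : Fin 1 → (SC L →+ ZMod 2)) i c = 0 := by
    refine idx_eq hWH _ ?_ ?_ hW0 ?_ hc
    · intro c hcW _
      rw [hUc]
      refine (R.cond h hv h3 hd hD ((hW c).1 hcW).2).2 ?_
      rw [R.sq_iff hA]
      exact hDn
    · intro z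
      rcases hz (z 0) with h4 | h4
      · refine ⟨0, (HH K L).zero_mem, fun i => ?_⟩
        rw [map_zero, Subsingleton.elim i 0, h4]
      · obtain ⟨-, c, hc, hc1, hc2⟩ := R.surj h hv h3 hd
        refine ⟨c, hc, fun i => ?_⟩
        rw [hUc, Subsingleton.elim i 0, h4, hc1, hc2, mul_zero, add_zero]
    · rw [Fintype.card_fin, pow_one]
      have h5 := hW1
      rw [R.nb_eq] at h5
      omega
  have h6 : c ∈ W ↔ Wc (algebraMap K (v.adicCompletion K)) (D ^ 2 * (A : K)) (D ^ 3 * (B : K))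
      (algebraMap K L D * θ) c := by
    rw [hW]
    exact ⟨fun h => h.2, fun h => ⟨hc, h⟩⟩
  rw [← h6, key]
  constructor
  · intro h7
    rw [← hUc]
    exact h7 0
  · intro h7 _
    rw [hUc]
    exact h7

theorem A_ne (h3 : v.valuation K 3 = 1)
    (hd : v.valuation K (4 * (A : K) ^ 3 + 27 * (B : K) ^ 2) = exp (-1)) : (A : K) ≠ 0 := by
  intro h0
  rw [h0, zero_pow three_ne_zero, mul_zero, zero_add, map_mul] at hd
  have h27 : v.valuation K 27 = 1 := by
    have e : (27 : K) = 3 ^ 3 := by norm_num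
    rw [e, map_pow, h3, one_pow]
  rw [h27, one_mul, map_pow] at hd
  have hB : v.valuation K (B : K) ≠ 0 := by
    intro h1
    rw [h1, zero_pow two_ne_zero] at hd
    exact exp_ne_zero hd.symm
  obtain ⟨z, hz⟩ : ∃ z : ℤ, v.valuation K (B : K) = exp z := ⟨_, (exp_log hB).symm⟩
  rw [hz, ← exp_nsmul] at hd
  have h4 := exp_injective hd
  simp at h4
  omega

/-- **The local conditions at a prime at which the discriminant has order one.** -/
theorem ram_loc (h : Cub K L (A : K) (B : K) θ) (hv : OddP v) (h3 : v.valuation K 3 = 1)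
    (hd : v.valuation K (4 * (A : K) ^ 3 + 27 * (B : K) ^ 2) = exp (-1)) {D E : K} (hD : D ≠ 0)
    (hE : E ≠ 0)
    (hDn : ¬ IsSquare (algebraMap K (v.adicCompletion K) (D * qd (A : K) (B : K)))) :
    (¬ IsSquare (algebraMap K (v.adicCompletion K) (E * qd (A : K) (B : K))) → ∀ c ∈ HH K L,
      (Wc (algebraMap K (v.adicCompletion K)) (D ^ 2 * (A : K)) (D ^ 3 * (B : K))
        (algebraMap K L D * θ) c ↔
      Wc (algebraMap K (v.adicCompletion K)) (E ^ 2 * (A : K)) (E ^ 3 * (B : K))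
        (algebraMap K L E * θ) c)) ∧
    (IsSquare (algebraMap K (v.adicCompletion K) (E * qd (A : K) (B : K))) → nb K L v = 2 ∧
      ∃ r u : Fin 1 → (SC L →+ ZMod 2), LocD h v D E r u) := by
  obtain ⟨r, t₁, t₂, R⟩ := exists_Rm h hv h3 hd
  have hA := A_ne h3 hd
  refine ⟨fun hEn c hc => ?_, fun hEs => ⟨R.nb_eq, ?_⟩⟩
  · rw [R.hr h hv h3 hd hA hD hDn hc, R.hr h hv h3 hd hA hE hEn hc]
  · have hw2 : OddP t₂ := (oddP_dn (K := K)).2 (by rw [R.dn2]; exact hv)
    obtain ⟨V, hVc⟩ : ∃ U : SC L →+ ZMod 2, ∀ c, U c = eo t₂ c :=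
      ⟨AddMonoidHom.mk' (fun c => eo t₂ c) (fun c c' => H38T1.eo_add _ _ _), fun _ => rfl⟩
    obtain ⟨U, hUc⟩ : ∃ U : SC L →+ ZMod 2, ∀ c, U c = la t₂ c + kr θ r t₂ * eo t₂ c :=
      ⟨AddMonoidHom.mk' (fun c => la t₂ c + kr θ r t₂ * eo t₂ c) (fun c c' => by
        rw [H38T1.la_add hw2, H38T1.eo_add]
        ring), fun _ => rfl⟩
    refine ⟨fun _ => V, fun _ => U, ?_, ?_, ?_⟩
    · intro c hc
      rw [R.hr h hv h3 hd hA hD hDn hc]
      exact ⟨fun h5 _ => (hVc c).trans h5, fun h5 => (hVc c).symm.trans (h5 0)⟩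
    · intro c hc
      rw [R.hu h hv h3 hd hA hE hEs hc]
      exact ⟨fun h5 _ => (hUc c).trans h5, fun h5 => (hUc c).symm.trans (h5 0)⟩
    · intro c hc y hy hyc ha hb
      rw [R.conic h hv h3 hd hc hy hyc ha hb]
      simp only [Finset.univ_unique, Fin.default_eq_zero, Finset.sum_singleton]
      rw [hVc, hUc]

end H76GM
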