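import Pool.Agent.H76.GM.Dc
import Pool.Agent.H76.GM.Dd
import Pool.Agent.H76.GM.Af

/-!
Project MP_78d38b_GM, part D: the parity over `M` for a twist by `α ∈ K` which is a square at the bad places of `K` except
for one prime at which the discriminant has order one.
-/

set_option autoImplicit false
set_option linter.unusedSectionVars false
open scoped Classical

open WithZero NumberField IsDedekindDomain H38RT
open H38T1 (SC sc scu rep rep_ne sc_rep sc_mul sc_eq_zero sc_surj eo la si Pri OddP tp unif ka)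
open H76PP H36MX H76MQ H30ZO H76OD H88OD H26OD H30OD H36CY H30OR

namespace H76GM

section Val

variable {K : Type} [Field K] [NumberField K] {v : HeightOneSpectrum (𝓞 K)} {A B : 𝓞 K}

/-- `A` and `B` are units. -/
theorem AB_unit (h2 : v.valuation K 2 = 1) (h3 : v.valuation K 3 = 1)
    (hd : v.valuation K (4 * (A : K) ^ 3 + 27 * (B : K) ^ 2) = exp (-1)) :
    v.valuation K (A : K) = 1 ∧ v.valuation K (B : K) = 1 := by
  have h4 : v.valuation K 4 = 1 := by
    have e : (4 : K) = 2 ^ 2 := by norm_num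
    rw [e, map_pow, h2, one_pow]
  have h27 : v.valuation K 27 = 1 := by
    have e : (27 : K) = 3 ^ 3 := by norm_num
    rw [e, map_pow, h3, one_pow]
  have hA0 := A_ne h3 hd
  have hA1 : v.valuation K (A : K) ≤ 1 := v.valuation_le_one A
  have e1 : v.valuation K (4 * (A : K) ^ 3) = v.valuation K (A : K) ^ 3 := by
    rw [map_mul, h4, one_mul, map_pow]
  have e2 : v.valuation K (27 * (B : K) ^ 2) = v.valuation K (B : K) ^ 2 := by
    rw [map_mul, h27, one_mul, map_pow]
  have hlt : (exp (-1) : ℤᵐ⁰) < 1 := by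
    rw [← exp_zero, exp_lt_exp]
    norm_num
  have e3 : 27 * (B : K) ^ 2 = (4 * (A : K) ^ 3 + 27 * (B : K) ^ 2) + -(4 * (A : K) ^ 3) := by ring
  have hAu : v.valuation K (A : K) = 1 := by
    by_contra hne
    have hAlt := lt_of_le_of_ne hA1 hne
    obtain ⟨z, hz⟩ : ∃ z : ℤ, v.valuation K (A : K) = exp z :=
      ⟨_, (exp_log ((Valuation.ne_zero_iff _).2 hA0)).symm⟩
    rw [hz, ← exp_zero, exp_lt_exp] at hAlt
    have h5 : v.valuation K (-(4 * (A : K) ^ 3)) <
        v.valuation K (4 * (A : K) ^ 3 + 27 * (B : K) ^ 2) := by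
      rw [Valuation.map_neg, e1, hd, hz, ← exp_nsmul, exp_lt_exp, nsmul_eq_mul]
      push_cast
      omega
    have h6 : v.valuation K (27 * (B : K) ^ 2) = exp (-1) := by
      rw [e3, Valuation.map_add_eq_of_lt_left _ h5, hd]
    rw [e2] at h6
    have hB0 : v.valuation K (B : K) ≠ 0 := by
      intro h0
      rw [h0, zero_pow two_ne_zero] at h6
      exact exp_ne_zero h6.symm
    obtain ⟨t, ht⟩ : ∃ z : ℤ, v.valuation K (B : K) = exp z := ⟨_, (exp_log hB0).symm⟩
    rw [ht, ← exp_nsmul] at h6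
    have h7 := exp_injective h6
    rw [nsmul_eq_mul] at h7
    push_cast at h7
    omega
  refine ⟨hAu, ?_⟩
  have h5 : v.valuation K (4 * (A : K) ^ 3 + 27 * (B : K) ^ 2) <
      v.valuation K (-(4 * (A : K) ^ 3)) := by
    rw [Valuation.map_neg, e1, hAu, one_pow, hd]
    exact hlt
  have h6 : v.valuation K (27 * (B : K) ^ 2) = 1 := by
    rw [e3, add_comm, Valuation.map_add_eq_of_lt_left _ h5, Valuation.map_neg, e1, hAu, one_pow]
  rw [e2] at h6
  have hB0 : v.valuation K (B : K) ≠ 0 := by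
    intro h0
    rw [h0, zero_pow two_ne_zero] at h6
    exact zero_ne_one h6
  obtain ⟨t, ht⟩ : ∃ z : ℤ, v.valuation K (B : K) = exp z := ⟨_, (exp_log hB0).symm⟩
  rw [ht, ← exp_nsmul, ← exp_zero] at h6
  have h7 := exp_injective h6
  rw [nsmul_eq_mul] at h7
  push_cast at h7
  have h8 : t = 0 := by omega
  rw [ht, h8, exp_zero]

/-- Elements of odd order are not squares. -/
theorem nsq_of_odd {x : K} (hx : x ≠ 0) (h : Odd (ord (v.valuation K) x)) :
    ¬ IsSquare (algebraMap K (v.adicCompletion K) x) := fun hs =>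
  (Int.not_even_iff_odd.2 h) (even_of_sq hx hs)

/-- The order of `qd`. -/
theorem ord_qd (h2 : v.valuation K 2 = 1) (h3 : v.valuation K 3 = 1)
    (hd : v.valuation K (4 * (A : K) ^ 3 + 27 * (B : K) ^ 2) = exp (-1)) :
    qd (A : K) (B : K) ≠ 0 ∧ v.valuation K (qd (A : K) (B : K)) = exp (-1) := by
  obtain ⟨hA, hB⟩ := AB_unit h2 h3 hd
  have h1 : v.valuation K (qd (A : K) (B : K)) = exp (-1) := by
    unfold qd
    rw [map_mul, map_mul, map_mul, Valuation.map_neg, h2, hA, hB, hd, one_mul, one_mul, one_mul]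
  refine ⟨?_, h1⟩
  intro h0
  rw [h0, map_zero] at h1
  exact exp_ne_zero h1.symm

end Val

section Ram

variable {K L : Type} [Field K] [NumberField K] [Field L] [NumberField L] [Algebra K L]
  {a b : K} {θ : L} {v : HeightOneSpectrum (𝓞 K)}

/-- The local conditions at a prime at which the discriminant has order one, for integral elements of `K`. -/
theorem ram_locK (h : Cub K L a b θ) (ha : ∀ v : HeightOneSpectrum (𝓞 K), v.valuation K a ≤ 1)
    (hb : ∀ v : HeightOneSpectrum (𝓞 K), v.valuation K b ≤ 1) (h2 : v.valuation K 2 = 1)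
    (h3 : v.valuation K 3 = 1) (hd : v.valuation K (4 * a ^ 3 + 27 * b ^ 2) = exp (-1)) {D E : K}
    (hD : D ≠ 0) (hE : E ≠ 0) (hDv : v.valuation K D = 1) :
    (¬ IsSquare (algebraMap K (v.adicCompletion K) (E * qd a b)) → ∀ c ∈ HH K L,
      (Wc (algebraMap K (v.adicCompletion K)) (D ^ 2 * a) (D ^ 3 * b) (algebraMap K L D * θ) c ↔
      Wc (algebraMap K (v.adicCompletion K)) (E ^ 2 * a) (E ^ 3 * b) (algebraMap K L E * θ) c)) ∧
    (IsSquare (algebraMap K (v.adicCompletion K) (E * qd a b)) → nb K L v = 2 ∧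
      ∃ r u : Fin 1 → (SC L →+ ZMod 2), LocD h v D E r u) := by
  obtain ⟨A, rfl⟩ := Lt_int ha
  obtain ⟨B, rfl⟩ := Lt_int hb
  refine ram_loc h h2 h3 hd hD hE ?_
  obtain ⟨h4, h5⟩ := ord_qd h2 h3 hd
  refine nsq_of_odd (mul_ne_zero hD h4) ?_
  unfold ord
  rw [map_mul, hDv, one_mul, h5, log_exp]
  exact ⟨0, by norm_num⟩

end Ram

section Main

variable {K M LM : Type} [Field K] [NumberField K] [Field M] [NumberField M] [Field LM]
  [NumberField LM] [Algebra K M] [Algebra M LM] {a b : 𝓞 K} {θ : LM}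

/-- Local squares. -/
theorem sq_up {x : K} {w : HeightOneSpectrum (𝓞 M)}
    (h : IsSquare (algebraMap K ((dn K w).adicCompletion K) x)) :
    IsSquare (algebraMap M (w.adicCompletion M) (algebraMap K M x)) := by
  obtain ⟨r, hr⟩ := h
  have h2 : algebraMap M (w.adicCompletion M) (algebraMap K M x) =
      (over_dn (K := K) w).map (algebraMap K ((dn K w).adicCompletion K) x) :=
    (Pool.Agent.H10.Over.map_algebraMap _ _).symm
  rw [h2, hr, map_mul]
  exact ⟨_, rfl⟩

/-- **The change of the parity over `M`.** -/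
theorem sw_M (S : Ext M M LM (algebraMap K M (a : K)) (algebraMap K M (b : K)) θ) {D α : K}
    {Sg : Finset (HeightOneSpectrum (𝓞 K))} (ok : OkK a b D Sg) (hα : α ≠ 0)
    (hpos : ∀ s : K →+* ℝ, 0 < s α) {v : HeightOneSpectrum (𝓞 K)} (hvS : v ∈ Sg)
    (hsq : ∀ u ∈ Sg, u ≠ v → IsSquare (algebraMap K (u.adicCompletion K) α))
    (h2 : v.valuation K 2 = 1) (h3 : v.valuation K 3 = 1)
    (hd : v.valuation K (4 * (a : K) ^ 3 + 27 * (b : K) ^ 2) = exp (-1))
    (hDv : v.valuation K D = 1)
    (hur : ∀ w : HeightOneSpectrum (𝓞 M), dn K w = v → ∀ x : K, x ≠ 0 →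
      ord (w.valuation M) (algebraMap K M x) = ord (v.valuation K) x)
    {P : Finset (HeightOneSpectrum (𝓞 M))} (hP : ∀ w, w ∈ P ↔ dn K w = v) :
    ∃ p n, Nat.card {c : SC LM // S.V (algebraMap K M D) c} = 2 ^ p ∧
      Nat.card {c : SC LM // S.V (algebraMap K M (D * α)) c} = 2 ^ n ∧
      ((p + n + (P.filter fun w => IsSquare (algebraMap M (w.adicCompletion M)
        (algebraMap K M (D * α * qd (a : K) (b : K))))).card : ℕ) : ZMod 2) =
      ∑ w ∈ P, hsv w (algebraMap K M (-(4 * (a : K) ^ 3 + 27 * (b : K) ^ 2))) (algebraMap K M α) := by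
  obtain ⟨SM, m1, okM, h3M⟩ := exists_okM S ok
  have hD := ok.ne
  have hDα : D * α ≠ 0 := mul_ne_zero hD hα
  have hDM : algebraMap K M D ≠ 0 := (map_ne_zero _).2 hD
  have hαM : algebraMap K M α ≠ 0 := (map_ne_zero _).2 hα
  have hDαM : algebraMap K M D * algebraMap K M α ≠ 0 := mul_ne_zero hDM hαM
  have hPS : P ⊆ SM := fun w hw => (m1 w).2 (by rw [(hP w).1 hw]; exact hvS)
  have eqd : algebraMap K M (qd (a : K) (b : K)) =
      qd (algebraMap K M (a : K)) (algebraMap K M (b : K)) := by
    unfold qd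
    simp only [map_mul, map_neg, map_add, map_pow, map_ofNat]
  have eqa : algebraMap K M (D * α * qd (a : K) (b : K)) = algebraMap K M D * algebraMap K M α *
      qd (algebraMap K M (a : K)) (algebraMap K M (b : K)) := by
    rw [map_mul, map_mul, eqd]
  have ed : algebraMap K M (4 * (a : K) ^ 3 + 27 * (b : K) ^ 2) =
      4 * (algebraMap K M (a : K)) ^ 3 + 27 * (algebraMap K M (b : K)) ^ 2 := by
    simp only [map_mul, map_add, map_pow, map_ofNat]
  have hw2 : ∀ w, w ∈ P → w.valuation M 2 = 1 := fun w hw => by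
    have := val_one (w := w) (K := K) (x := 2) (by rw [(hP w).1 hw]; exact h2)
    rwa [map_ofNat] at this
  have hw3 : ∀ w, w ∈ P → w.valuation M 3 = 1 := fun w hw => by
    have := val_one (w := w) (K := K) (x := 3) (by rw [(hP w).1 hw]; exact h3)
    rwa [map_ofNat] at this
  have hwD : ∀ w, w ∈ P → w.valuation M (algebraMap K M D) = 1 := fun w hw =>
    val_one (w := w) (K := K) (by rw [(hP w).1 hw]; exact hDv)
  have hne : 4 * (a : K) ^ 3 + 27 * (b : K) ^ 2 ≠ 0 := by
    intro h0
    rw [h0, map_zero] at hd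
    exact exp_ne_zero hd.symm
  have hwd : ∀ w, w ∈ P → w.valuation M (4 * (algebraMap K M (a : K)) ^ 3 +
      27 * (algebraMap K M (b : K)) ^ 2) = exp (-1) := fun w hw => by
    rw [← ed]
    have h4 := hur w ((hP w).1 hw) _ hne
    have h5 : ord (v.valuation K) (4 * (a : K) ^ 3 + 27 * (b : K) ^ 2) = 1 := by
      unfold ord
      rw [hd, log_exp]
      norm_num
    rw [h5] at h4
    have h6 : algebraMap K M (4 * (a : K) ^ 3 + 27 * (b : K) ^ 2) ≠ 0 := (map_ne_zero _).2 hne
    unfold ord at h4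
    rw [← exp_log ((Valuation.ne_zero_iff (w.valuation M)).2 h6)]
    congr 1
    omega
  obtain ⟨p, n, hp, hn, hsum⟩ := parity_loc S (D := algebraMap K M D) (δ := algebraMap K M α)
    (Sg := SM) (Q := P.filter fun w => IsSquare (algebraMap M (w.adicCompletion M)
        (algebraMap K M (D * α * qd (a : K) (b : K))))) hDM hαM
    ((Finset.filter_subset _ _).trans hPS) okM.two h3M okM.dis okM.val
    (fun s => hpos (s.comp (algebraMap K M)))
    (by
      intro w hw hwQ c hc
      by_cases hwv : w ∈ P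
      · have h4 := (ram_locK (show Cub M LM (algebraMap K M (a : K)) (algebraMap K M (b : K)) θ from
          S.cub) S.ha S.hb (hw2 w hwv) (hw3 w hwv) (hwd w hwv) hDM hDαM (hwD w hwv)).1 (by
            intro h5
            apply hwQ
            rw [Finset.mem_filter]
            refine ⟨hwv, ?_⟩
            rw [eqa]
            exact h5) c hc
        exact h4
      · have h4 : IsSquare (algebraMap M (w.adicCompletion M) (algebraMap K M α)) :=
          sq_up (hsq _ ((m1 w).1 hw) fun h5 => hwv ((hP w).2 h5))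
        exact Wc_tw_iff _ hDM hDαM (by
          rw [mul_div_cancel_left₀ _ hDM]
          exact h4))
    (fun w hw => hw2 w (Finset.mem_filter.1 hw).1)
    (by
      intro w hw
      rw [Finset.mem_filter] at hw
      exact ((ram_locK (show Cub M LM (algebraMap K M (a : K)) (algebraMap K M (b : K)) θ from
          S.cub) S.ha S.hb (hw2 w hw.1) (hw3 w hw.1) (hwd w hw.1) hDM hDαM (hwD w hw.1)).2 (by
            have h5 := hw.2
            rw [eqa] at h5
            exact h5)).1)
    (by
      intro w hw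
      rw [Finset.mem_filter] at hw
      exact ((ram_locK (show Cub M LM (algebraMap K M (a : K)) (algebraMap K M (b : K)) θ from
          S.cub) S.ha S.hb (hw2 w hw.1) (hw3 w hw.1) (hwd w hw.1) hDM hDαM (hwD w hw.1)).2 (by
            have h5 := hw.2
            rw [eqa] at h5
            exact h5)).2)
  refine ⟨p, n, hp, ?_, ?_⟩
  · rw [map_mul]
    exact hn
  · rw [hsum, ← ed, ← map_neg]
    symm
    refine Finset.sum_subset hPS fun w hw hwP => ?_
    have h4 : IsSquare (algebraMap M (w.adicCompletion M) (algebraMap K M α)) :=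
      sq_up (hsq _ ((m1 w).1 hw) fun h5 => hwP ((hP w).2 h5))
    change H36MX.hs _ _ = 0
    rw [hs_comm]
    exact hs_of_sq ((map_ne_zero _).2 hαM) h4

end Main

end H76GM
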