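import Pool.Agent.H76.GM.De
import Pool.Agent.H76.GM.D6

/-!
Project MP_78d38b_GM, part D: the two parity switches.
-/

set_option autoImplicit false
set_option linter.unusedSectionVars false
open scoped Classical

open WithZero NumberField IsDedekindDomain H38RT
open H38T1 (SC sc scu rep rep_ne sc_rep sc_mul sc_eq_zero sc_surj eo la si Pri OddP tp unif ka)
open H76PP H36MX H76MQ H30ZO H76OD H88OD H26OD H30OD H36CY H30OR

namespace H76GM

/-- `-d` and `d` times a square. -/
theorem hs_neg {F : Type} [Field F] (h2 : (2 : F) ≠ 0) {d x : F} (hd : d ≠ 0) (hx : x ≠ 0)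
    (h : IsSquare (x * d)) : H36MX.hs (-d) x = 0 := by
  obtain ⟨r, hr⟩ := h
  have hr0 : r ≠ 0 := by
    rintro rfl
    rw [mul_zero] at hr
    exact mul_ne_zero hx hd hr
  rw [hs_eq_zero]
  refine ⟨(1 - 1 / d) / 2, (1 + 1 / d) / 2 * (d / r), ?_⟩
  have e : x = r ^ 2 / d := by
    field_simp
    rw [hr]
    ring
  rw [e]
  field_simp
  ring

/-- Fourth powers. -/
theorem pow_four_iff {x p : ℕ} (h : x = 2 ^ p) : (∃ k : ℕ, x = 4 ^ k) ↔ Even p := by
  subst h
  constructor
  · rintro ⟨k, hk⟩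
    have h4 : (4 : ℕ) = 2 ^ 2 := by norm_num
    rw [h4, ← pow_mul] at hk
    have h5 := Nat.pow_right_injective le_rfl hk
    exact ⟨k, by omega⟩
  · rintro ⟨k, hk⟩
    refine ⟨k, ?_⟩
    have h4 : (4 : ℕ) = 2 ^ 2 := by norm_num
    rw [h4, ← pow_mul, hk]
    congr 1
    ring

/-- The setting of a switch at `v`. -/
structure Sw {K : Type} [Field K] [NumberField K] (M : Type) [Field M] [NumberField M] [Algebra K M]
    (a b : 𝓞 K) (D α : K) (Sg : Finset (HeightOneSpectrum (𝓞 K))) (v : HeightOneSpectrum (𝓞 K)) :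
    Prop where
  ok : OkK a b D Sg
  ne : α ≠ 0
  pos : ∀ s : K →+* ℝ, 0 < s α
  mem : v ∈ Sg
  sq : ∀ u ∈ Sg, u ≠ v → IsSquare (algebraMap K (u.adicCompletion K) α)
  h2 : v.valuation K 2 = 1
  h3 : v.valuation K 3 = 1
  hd : v.valuation K (4 * (a : K) ^ 3 + 27 * (b : K) ^ 2) = exp (-1)
  hD : v.valuation K D = 1
  ur : ∀ w : HeightOneSpectrum (𝓞 M), dn K w = v → ∀ x : K, x ≠ 0 →
    ord (w.valuation M) (algebraMap K M x) = ord (v.valuation K) x

variable {K M : Type} [Field K] [NumberField K] [Field M] [NumberField M]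
  [Algebra K M] {a b : 𝓞 K} {D α : K} {Sg : Finset (HeightOneSpectrum (𝓞 K))}
  {v : HeightOneSpectrum (𝓞 K)}

/-- The places above `v`. -/
theorem exists_P (M : Type) [Field M] [NumberField M] [Algebra K M] (v : HeightOneSpectrum (𝓞 K)) :
    ∃ P : Finset (HeightOneSpectrum (𝓞 M)), ∀ w, w ∈ P ↔ dn K w = v :=
  ⟨(H76PP.fin_above (K := K) (L := M) v).toFinset, fun w => by
    rw [Set.Finite.mem_toFinset]
    rfl⟩

/-- The change of the parity. -/
theorem Sw.par (W : Sw M a b D α Sg v)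
    (hir : ∀ t : M, t ^ 3 + algebraMap K M (a : K) * t + algebraMap K M (b : K) ≠ 0)
    (hsq : ¬ IsSquare (algebraMap K M (-(4 * (a : K) ^ 3 + 27 * (b : K) ^ 2))))
    {P : Finset (HeightOneSpectrum (𝓞 M))} (hP : ∀ w, w ∈ P ↔ dn K w = v) :
    ((EvS K M a b D ↔ EvS K M a b (D * α)) ↔
      (((P.filter fun w => IsSquare (algebraMap M (w.adicCompletion M)
        (algebraMap K M (D * α * qd (a : K) (b : K))))).card : ℕ) : ZMod 2) =
      ∑ w ∈ P, hsv w (algebraMap K M (-(4 * (a : K) ^ 3 + 27 * (b : K) ^ 2)))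
        (algebraMap K M α)) := by
  have hirk : ∀ t : K, t ^ 3 + (a : K) * t + (b : K) ≠ 0 := by
    intro t ht
    apply hir (algebraMap K M t)
    rw [← map_pow, ← map_mul, ← map_add, ← map_add, ht, map_zero]
  have hsqk : ¬ IsSquare (-(4 * (a : K) ^ 3 + 27 * (b : K) ^ 2)) := fun h =>
    hsq (h.map (algebraMap K M))
  obtain ⟨L0, _, _, _, θ0, ⟨S0⟩⟩ := exists_self (fun v => v.valuation_le_one a)
    (fun v => v.valuation_le_one b) hirk W.ok.dne hsqk
  obtain ⟨LM, _, _, _, _, U, ⟨S⟩⟩ := exists_upM S0 hir hsq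
  obtain ⟨p, n, hp, hn, h⟩ := sw_M S W.ok W.ne W.pos W.mem W.sq W.h2 W.h3 W.hd W.hD W.ur hP
  rw [evS_iff S W.ok.ne, evS_iff S (mul_ne_zero W.ok.ne W.ne), pow_four_iff hp, pow_four_iff hn, ← h]
  have h1 : (Even p ↔ Even n) ↔ ((p + n : ℕ) : ZMod 2) = 0 := by
    rw [ZMod.natCast_eq_zero_iff, ← even_iff_two_dvd, Nat.even_add]
  rw [h1]
  have key : ∀ x y z : ZMod 2, (x + y = 0 ↔ z = x + y + z) := by decide
  rw [Nat.cast_add, Nat.cast_add, Nat.cast_add]
  exact key _ _ _

/-- The first switch: `α` is the discriminant up to sign and squares at `v`. -/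
theorem Sw.parA (W : Sw M a b D α Sg v)
    (hir : ∀ t : M, t ^ 3 + algebraMap K M (a : K) * t + algebraMap K M (b : K) ≠ 0)
    (hsq : ¬ IsSquare (algebraMap K M (-(4 * (a : K) ^ 3 + 27 * (b : K) ^ 2))))
    {P : Finset (HeightOneSpectrum (𝓞 M))} (hP : ∀ w, w ∈ P ↔ dn K w = v)
    (hα : IsSquare (algebraMap K (v.adicCompletion K) (α * (4 * (a : K) ^ 3 + 27 * (b : K) ^ 2)))) :
    ((EvS K M a b D ↔ EvS K M a b (D * α)) ↔
      Even (P.filter fun w => IsSquare (algebraMap M (w.adicCompletion M)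
        (algebraMap K M (-2 * a * b * D)))).card) := by
  rw [W.par hir hsq hP]
  have hne := W.ok.dne
  have hup : ∀ w ∈ P, IsSquare (algebraMap M (w.adicCompletion M) (algebraMap K M
      (α * (4 * (a : K) ^ 3 + 27 * (b : K) ^ 2)))) := by
    intro w hw
    refine sq_up ?_
    rw [(hP w).1 hw]
    exact hα
  have h1 : ∑ w ∈ P, hsv w (algebraMap K M (-(4 * (a : K) ^ 3 + 27 * (b : K) ^ 2)))
        (algebraMap K M α) = 0 := by
    refine Finset.sum_eq_zero fun w hw => ?_
    have h2 := hup w hw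
    rw [map_mul, map_mul] at h2
    have h3 := hs_neg (F := w.adicCompletion M) (by norm_num)
      ((map_ne_zero (algebraMap M (w.adicCompletion M))).2 ((map_ne_zero (algebraMap K M)).2 hne))
      ((map_ne_zero (algebraMap M (w.adicCompletion M))).2 ((map_ne_zero (algebraMap K M)).2 W.ne)) h2
    change H36MX.hs _ _ = 0
    rw [map_neg, map_neg]
    exact h3
  have h2 : (P.filter fun w => IsSquare (algebraMap M (w.adicCompletion M)
        (algebraMap K M (D * α * qd (a : K) (b : K))))) =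
      P.filter fun w => IsSquare (algebraMap M (w.adicCompletion M)
        (algebraMap K M (-2 * a * b * D))) := by
    refine Finset.filter_congr fun w hw => ?_
    have h3 := hup w hw
    have e : D * α * qd (a : K) (b : K) = (-2 * a * b * D) * (α * (4 * (a : K) ^ 3 + 27 * (b : K) ^ 2)) := by
      unfold qd
      ring
    rw [e, map_mul, map_mul]
    constructor
    · intro h4
      obtain ⟨r, hr⟩ := h3
      obtain ⟨s, hs⟩ := h4
      have hr0 : r ≠ 0 := by
        rintro rfl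
        rw [mul_zero] at hr
        exact (map_ne_zero (algebraMap M (w.adicCompletion M))).2
          ((map_ne_zero (algebraMap K M)).2 (mul_ne_zero W.ne hne)) hr
      refine ⟨s / r, ?_⟩
      rw [hr] at hs
      rw [div_mul_div_comm, eq_div_iff (mul_ne_zero hr0 hr0)]
      exact hs
    · exact fun h4 => h4.mul h3
  rw [h1, h2, ZMod.natCast_eq_zero_iff, ← even_iff_two_dvd]

/-- The second switch: `α` is a unit at `v`. -/
theorem Sw.parB (W : Sw M a b D α Sg v)
    (hir : ∀ t : M, t ^ 3 + algebraMap K M (a : K) * t + algebraMap K M (b : K) ≠ 0)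
    (hsq : ¬ IsSquare (algebraMap K M (-(4 * (a : K) ^ 3 + 27 * (b : K) ^ 2))))
    {P : Finset (HeightOneSpectrum (𝓞 M))} (hP : ∀ w, w ∈ P ↔ dn K w = v)
    (hα : v.valuation K α = 1) :
    ((EvS K M a b D ↔ EvS K M a b (D * α)) ↔
      Even (P.filter fun w => ¬ IsSquare (algebraMap M (w.adicCompletion M)
        (algebraMap K M α))).card) := by
  rw [W.par hir hsq hP]
  obtain ⟨hq0, hqv⟩ := ord_qd W.h2 W.h3 W.hd
  have hne := W.ok.dne
  have hαM : algebraMap K M α ≠ 0 := (map_ne_zero _).2 W.ne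
  have hodd : ∀ w ∈ P, OddP w := fun w hw => (oddP_dn (K := K)).2 (by
    rw [(hP w).1 hw]
    exact W.h2)
  have h2 : (P.filter fun w => IsSquare (algebraMap M (w.adicCompletion M)
        (algebraMap K M (D * α * qd (a : K) (b : K))))) = ∅ := by
    refine Finset.filter_eq_empty_iff.2 fun w hw => ?_
    have hne1 : D * α * qd (a : K) (b : K) ≠ 0 := mul_ne_zero (mul_ne_zero W.ok.ne W.ne) hq0
    refine nsq_of_odd ((map_ne_zero (algebraMap K M)).2 hne1) ?_
    rw [W.ur w ((hP w).1 hw) _ hne1]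
    unfold ord
    rw [map_mul, map_mul, W.hD, hα, hqv, one_mul, one_mul, log_exp]
    exact ⟨0, by norm_num⟩
  have h3 : ∀ w ∈ P, hsv w (algebraMap K M (-(4 * (a : K) ^ 3 + 27 * (b : K) ^ 2)))
      (algebraMap K M α) = if ¬ IsSquare (algebraMap M (w.adicCompletion M)
        (algebraMap K M α)) then 1 else 0 := by
    intro w hw
    have hz : ∀ x : ZMod 2, x = 0 ∨ x = 1 := by decide
    have hneM : algebraMap K M (-(4 * (a : K) ^ 3 + 27 * (b : K) ^ 2)) ≠ 0 :=
      (map_ne_zero _).2 (neg_ne_zero.2 hne)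
    have e1 : eo w (sc (algebraMap K M α)) = 0 := Cl_eo_one (val_one (by
      rw [(hP w).1 hw]
      exact hα))
    have e2 : eo w (sc (algebraMap K M (-(4 * (a : K) ^ 3 + 27 * (b : K) ^ 2)))) = 1 := by
      rw [H38T1.eo_sc hneM, W.ur w ((hP w).1 hw) _ (neg_ne_zero.2 hne)]
      unfold ord
      rw [Valuation.map_neg, W.hd, log_exp]
      norm_num
    rw [(hilb M).odd w (hodd w hw) _ _ hneM hαM]
    unfold H38T1.tp
    rw [e1, e2, one_mul, zero_mul, mul_zero, zero_mul, add_zero, add_zero]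
    by_cases h4 : IsSquare (algebraMap M (w.adicCompletion M) (algebraMap K M α))
    · rw [if_neg (not_not.2 h4)]
      rcases hz (la w (sc (algebraMap K M α))) with h5 | h5
      · exact h5
      · exact absurd h4 (nsq_of_la (hodd w hw) hαM h5 e1)
    · rw [if_pos h4]
      rcases hz (la w (sc (algebraMap K M α))) with h5 | h5
      · exact absurd (sq_of_la (hodd w hw) hαM e1 h5) h4
      · exact h5
  rw [h2, Finset.card_empty, Finset.sum_congr rfl h3, Finset.sum_boole, Nat.cast_zero, eq_comm,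
    ZMod.natCast_eq_zero_iff, ← even_iff_two_dvd]

end H76GM
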