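import Pool.Agent.H76.GM.Dk

/-!
Project MP_78d38b_GM, part D: the switches.
-/

set_option autoImplicit false
set_option linter.unusedSectionVars false
open scoped Classical

open WithZero NumberField IsDedekindDomain H38RT
open H38T1 (SC sc scu rep rep_ne sc_rep sc_mul sc_eq_zero sc_surj eo la si Pri OddP tp unif ka)
open H76PP H36MX H76MQ H30ZO H76OD H88OD H26OD H30OD H36CY H30OR

namespace H76GM

/-- The prime `v` does not divide six, is unramified in `M` and the discriminant has order one. -/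
structure MulM {K : Type} [Field K] [NumberField K] (M : Type) [Field M] [NumberField M] [Algebra K M]
    (a b : 𝓞 K) (v : HeightOneSpectrum (𝓞 K)) : Prop where
  h2 : v.valuation K 2 = 1
  h3 : v.valuation K 3 = 1
  hd : v.valuation K (4 * (a : K) ^ 3 + 27 * (b : K) ^ 2) = exp (-1)
  ur : ∀ w : HeightOneSpectrum (𝓞 M), dn K w = v → ∀ x : K, x ≠ 0 →
    ord (w.valuation M) (algebraMap K M x) = ord (v.valuation K) x

variable {K M : Type} [Field K] [NumberField K] [Field M] [NumberField M]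
  [Algebra K M] {a b : 𝓞 K} {D α : K} {Sg : Finset (HeightOneSpectrum (𝓞 K))}
  {v : HeightOneSpectrum (𝓞 K)}

theorem MulM.self (h : MulM M a b v) : MulM K a b v :=
  ⟨h.h2, h.h3, h.hd, fun w hw x _ => by
    rw [dn_self] at hw
    rw [hw]
    rfl⟩

/-- The start. -/
theorem exists_start (h2 : v.valuation K 2 = 1) (h3 : v.valuation K 3 = 1)
    (hd : v.valuation K (4 * (a : K) ^ 3 + 27 * (b : K) ^ 2) = exp (-1)) {D0 : K} (hD0 : D0 ≠ 0)
    (S X : Finset (HeightOneSpectrum (𝓞 K))) (hvS : v ∉ S) (hXS : Disjoint X S) (hvX : v ∉ X) :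
    ∃ D : K, D ≠ 0 ∧ v.valuation K D = 1 ∧
      ¬ IsSquare (algebraMap K (v.adicCompletion K) (-2 * a * b * D)) ∧
      (∀ u ∈ X, u.valuation K D = 1) ∧
      (∀ u ∈ S, IsSquare (algebraMap K (u.adicCompletion K) (D / D0))) ∧
      ∀ s : K →+* ℝ, 0 < s (D / D0) := by
  obtain ⟨hA, hB⟩ := AB_unit h2 h3 hd
  obtain ⟨n, hn1, hn2, hn3⟩ := exists_la (v := v) h2
  have hnv : v.valuation K (n : K) = 1 := by
    refine le_antisymm (v.valuation_le_one n) (not_lt.1 fun h => hn1 ?_)
    exact (v.valuation_lt_one_iff_mem (K := K) n).1 h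
  have hn0 : (n : K) ≠ 0 := by
    intro h0
    rw [h0, map_zero] at hnv
    exact zero_ne_one hnv
  have hA0 : (a : K) ≠ 0 := A_ne h3 hd
  have hB0 : (b : K) ≠ 0 := by
    intro h0
    rw [h0, map_zero] at hB
    exact zero_ne_one hB
  have h20 : (-2 * (a : K) * b * n) ≠ 0 :=
    mul_ne_zero (mul_ne_zero (mul_ne_zero (by norm_num) hA0) hB0) hn0
  obtain ⟨y, hy0, hy, hpos⟩ := approx_pos (insert v (X ∪ S))
    (fun u => if u = v then (-2 * (a : K) * b * n) / D0 else if u ∈ X then 1 / D0 else 1)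
    (fun u _ => by
      split_ifs
      · exact div_ne_zero h20 hD0
      · exact div_ne_zero one_ne_zero hD0
      · exact one_ne_zero)
  have hxv : v.valuation K (-2 * (a : K) * b * n) = 1 := by
    rw [map_mul, map_mul, map_mul, Valuation.map_neg, h2, hA, hB, hnv, one_mul, one_mul, one_mul]
  refine ⟨D0 * y, mul_ne_zero hD0 hy0, ?_, ?_, ?_, ?_, ?_⟩
  · have h4 := (hy v (Finset.mem_insert_self _ _)).1
    simp only [if_true] at h4
    rw [map_mul, h4, ← map_mul, mul_div_cancel₀ _ hD0, hxv]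
  · intro h4
    obtain ⟨-, r, hr0, hr⟩ := hy v (Finset.mem_insert_self _ _)
    simp only [if_true] at hr
    apply nsq_of_la h2 hn0 hn3 hn2
    obtain ⟨t, ht⟩ := h4
    have e1 : algebraMap K (v.adicCompletion K) (-2 * a * b * (D0 * y)) =
        algebraMap K (v.adicCompletion K) (n : K) *
        (algebraMap K (v.adicCompletion K) (2 * a * b) * r) ^ 2 := by
      rw [map_mul, map_mul _ D0 y, hr]
      have e2 : ∀ p q d : K, algebraMap K (v.adicCompletion K) p *
          (algebraMap K (v.adicCompletion K) d * (algebraMap K (v.adicCompletion K) q * r ^ 2)) =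
          algebraMap K (v.adicCompletion K) (p * (d * q)) * r ^ 2 := by
        intro p q d
        rw [map_mul _ p, map_mul _ d]
        ring
      have e3 : (-2 * (a : K) * b) * (D0 * (-2 * a * b * n / D0)) = n * (2 * a * b) ^ 2 := by
        field_simp
      rw [e2, e3, map_mul, map_pow]
      ring
    rw [e1] at ht
    have hz0 : algebraMap K (v.adicCompletion K) (2 * a * b) * r ≠ 0 :=
      mul_ne_zero ((map_ne_zero _).2 (mul_ne_zero (mul_ne_zero two_ne_zero hA0) hB0)) hr0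
    refine ⟨t / (algebraMap K (v.adicCompletion K) (2 * a * b) * r), ?_⟩
    rw [div_mul_div_comm, eq_div_iff (mul_ne_zero hz0 hz0), ← ht]
    ring
  · intro u hu
    have huv : u ≠ v := fun h => hvX (h ▸ hu)
    have h4 := (hy u (Finset.mem_insert_of_mem (Finset.mem_union_left _ hu))).1
    simp only [if_neg huv, if_pos hu] at h4
    rw [map_mul, h4, ← map_mul, mul_div_cancel₀ _ hD0, map_one]
  · intro u hu
    have huv : u ≠ v := fun h => hvS (h ▸ hu)
    have huX : u ∉ X := fun h => (Finset.disjoint_left.1 hXS) h hu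
    obtain ⟨-, r, hr0, hr⟩ := hy u (Finset.mem_insert_of_mem (Finset.mem_union_right _ hu))
    simp only [if_neg huv, if_neg huX, map_one, one_mul] at hr
    rw [mul_div_cancel_left₀ _ hD0, hr]
    exact ⟨r, pow_two r⟩
  · intro s
    rw [mul_div_cancel_left₀ _ hD0]
    exact hpos s

/-- A factor. -/
theorem exists_al (Sg : Finset (HeightOneSpectrum (𝓞 K))) {x : K} (hx : x ≠ 0)
    (v : HeightOneSpectrum (𝓞 K)) :
    ∃ α : K, α ≠ 0 ∧ (∀ s : K →+* ℝ, 0 < s α) ∧
      (∀ u ∈ Sg, u ≠ v → IsSquare (algebraMap K (u.adicCompletion K) α) ∧ u.valuation K α = 1) ∧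
      v.valuation K α = v.valuation K x ∧
      ∃ r : v.adicCompletion K, r ≠ 0 ∧ algebraMap K (v.adicCompletion K) α =
        algebraMap K (v.adicCompletion K) x * r ^ 2 := by
  obtain ⟨y, hy0, hy, hpos⟩ := approx_pos (insert v Sg) (fun u => if u = v then x else 1)
    (fun u _ => by
      split_ifs
      · exact hx
      · exact one_ne_zero)
  refine ⟨y, hy0, hpos, fun u hu huv => ?_, ?_, ?_⟩
  · obtain ⟨h1, r, hr0, hr⟩ := hy u (Finset.mem_insert_of_mem hu)
    simp only [if_neg huv, map_one, one_mul] at hr h1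
    exact ⟨by rw [hr]; exact ⟨r, pow_two r⟩, h1⟩
  · have h1 := (hy v (Finset.mem_insert_self _ _)).1
    simp only [if_true] at h1
    exact h1
  · have h1 := (hy v (Finset.mem_insert_self _ _)).2
    simp only [if_true] at h1
    exact h1

/-- **The first switch**: afterwards the parities over `K` and `M` are the same. -/
theorem switch_one
    (hir : ∀ t : M, t ^ 3 + algebraMap K M (a : K) * t + algebraMap K M (b : K) ≠ 0)
    (hsq : ¬ IsSquare (algebraMap K M (-(4 * (a : K) ^ 3 + 27 * (b : K) ^ 2))))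
    (hv : MulM M a b v) {P : Finset (HeightOneSpectrum (𝓞 M))} (hP : ∀ w, w ∈ P ↔ dn K w = v)
    (hodd : Odd (P.filter fun w => Even (w.asIdeal.inertiaDeg (𝓞 K))).card) {D0 : K} (hD0 : D0 ≠ 0)
    (S X : Finset (HeightOneSpectrum (𝓞 K))) (hvS : v ∉ S) (hXS : Disjoint X S) (hvX : v ∉ X) :
    ∃ D : K, Rel K S D0 D ∧ (∀ u ∈ X, u.valuation K D = 1) ∧
      (EvS K K a b D ↔ EvS K M a b D) := by
  obtain ⟨D1, hD1, hDv, hns, hX, hS, hpos⟩ := exists_start hv.h2 hv.h3 hv.hd hD0 S X hvS hXS hvX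
  have hrel : Rel K S D0 D1 := ⟨hD0, hD1, hS, hpos⟩
  by_cases hcase : (EvS K K a b D1 ↔ EvS K M a b D1)
  · exact ⟨D1, hrel, hX, hcase⟩
  have hne : 4 * (a : K) ^ 3 + 27 * (b : K) ^ 2 ≠ 0 := by
    intro h0
    have h1 := hv.hd
    rw [h0, map_zero] at h1
    exact exp_ne_zero h1.symm
  have hirk : ∀ t : K, t ^ 3 + algebraMap K K (a : K) * t + algebraMap K K (b : K) ≠ 0 := by
    intro t ht
    apply hir (algebraMap K M t)
    rw [← map_pow, ← map_mul, ← map_add, ← map_add]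
    have h1 : t ^ 3 + (a : K) * t + (b : K) = 0 := ht
    rw [h1, map_zero]
  have hsqk : ¬ IsSquare (algebraMap K K (-(4 * (a : K) ^ 3 + 27 * (b : K) ^ 2))) := fun h =>
    hsq (h.map (algebraMap K M))
  obtain ⟨Sg, hle, ok, -⟩ := exists_okK hne hD1 (insert v (S ∪ X))
  obtain ⟨α, hα0, hαp, hαs, -, r, hr0, hr⟩ := exists_al Sg hne v
  have hvSg : v ∈ Sg := hle (Finset.mem_insert_self _ _)
  have hαd : IsSquare (algebraMap K (v.adicCompletion K) (α * (4 * (a : K) ^ 3 + 27 * (b : K) ^ 2))) := by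
    rw [map_mul, hr]
    exact ⟨algebraMap K (v.adicCompletion K) (4 * (a : K) ^ 3 + 27 * (b : K) ^ 2) * r, by ring⟩
  have hW : Sw M a b D1 α Sg v :=
    ⟨ok, hα0, hαp, hvSg, fun u hu huv => (hαs u hu huv).1, hv.h2, hv.h3, hv.hd, hDv, hv.ur⟩
  have hWK : Sw K a b D1 α Sg v :=
    ⟨ok, hα0, hαp, hvSg, fun u hu huv => (hαs u hu huv).1, hv.h2, hv.h3, hv.hd, hDv, hv.self.ur⟩
  obtain ⟨hA, hB⟩ := AB_unit hv.h2 hv.h3 hv.hd
  have hxv : v.valuation K (-2 * (a : K) * b * D1) = 1 := by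
    rw [map_mul, map_mul, map_mul, Valuation.map_neg, hv.h2, hA, hB, hDv, one_mul, one_mul, one_mul]
  have hM := hW.parA hir hsq hP hαd
  have hf : (P.filter fun w => IsSquare (algebraMap M (w.adicCompletion M)
      (algebraMap K M (-2 * a * b * D1)))) = P.filter fun w => Even (w.asIdeal.inertiaDeg (𝓞 K)) :=
    Finset.filter_congr fun w hw => sq_iff_deg hv.h2 ((hP w).1 hw) hxv hns
  rw [hf] at hM
  have hM' : ¬ (EvS K M a b D1 ↔ EvS K M a b (D1 * α)) := fun h =>
    (Nat.not_even_iff_odd.2 hodd) (hM.1 h)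
  have hK := hWK.parA hirk hsqk (P := {v}) (fun w => by
    rw [Finset.mem_singleton, dn_self]) hαd
  have hfK : (({v} : Finset (HeightOneSpectrum (𝓞 K))).filter fun w =>
      IsSquare (algebraMap K (w.adicCompletion K) (algebraMap K K (-2 * a * b * D1)))) = ∅ := by
    refine Finset.filter_eq_empty_iff.2 fun w hw => ?_
    rw [Finset.mem_singleton] at hw
    subst hw
    exact hns
  rw [hfK] at hK
  have hK' : (EvS K K a b D1 ↔ EvS K K a b (D1 * α)) := hK.2 (by
    rw [Finset.card_empty]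
    exact Even.zero)
  refine ⟨D1 * α, hrel.trans ⟨hD1, mul_ne_zero hD1 hα0, fun u hu => ?_, fun s => ?_⟩,
    fun u hu => ?_, ?_⟩
  · rw [mul_div_cancel_left₀ _ hD1]
    exact (hαs u (hle (Finset.mem_insert_of_mem (Finset.mem_union_left _ hu)))
      (fun h => hvS (h ▸ hu))).1
  · rw [mul_div_cancel_left₀ _ hD1]
    exact hαp s
  · rw [map_mul, hX u hu, one_mul]
    exact (hαs u (hle (Finset.mem_insert_of_mem (Finset.mem_union_right _ hu)))
      (fun h => hvX (h ▸ hu))).2
  · rw [← hK']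
    tauto

/-- **The second switch**: both parities change. -/
theorem switch_two (hodd : Odd (Module.finrank K M))
    (hir : ∀ t : M, t ^ 3 + algebraMap K M (a : K) * t + algebraMap K M (b : K) ≠ 0)
    (hsq : ¬ IsSquare (algebraMap K M (-(4 * (a : K) ^ 3 + 27 * (b : K) ^ 2))))
    (hv : MulM M a b v) {D0 : K} (hD0 : D0 ≠ 0)
    (S : Finset (HeightOneSpectrum (𝓞 K))) (hvS : v ∉ S) (hDv : v.valuation K D0 = 1)
    (h : EvS K K a b D0 ↔ EvS K M a b D0) :
    ∃ D : K, Rel K S D0 D ∧ EvS K K a b D ∧ EvS K M a b D := by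
  by_cases hcase : EvS K K a b D0
  · refine ⟨D0, ⟨hD0, hD0, fun u _ => ?_, fun s => ?_⟩, hcase, h.1 hcase⟩
    · rw [div_self hD0, map_one]
      exact ⟨1, (mul_one 1).symm⟩
    · rw [div_self hD0, map_one]
      exact one_pos
  have hcase' : ¬ EvS K M a b D0 := fun h1 => hcase (h.2 h1)
  have hne : 4 * (a : K) ^ 3 + 27 * (b : K) ^ 2 ≠ 0 := by
    intro h0
    have h1 := hv.hd
    rw [h0, map_zero] at h1
    exact exp_ne_zero h1.symm
  have hirk : ∀ t : K, t ^ 3 + algebraMap K K (a : K) * t + algebraMap K K (b : K) ≠ 0 := by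
    intro t ht
    apply hir (algebraMap K M t)
    rw [← map_pow, ← map_mul, ← map_add, ← map_add]
    have h1 : t ^ 3 + (a : K) * t + (b : K) = 0 := ht
    rw [h1, map_zero]
  have hsqk : ¬ IsSquare (algebraMap K K (-(4 * (a : K) ^ 3 + 27 * (b : K) ^ 2))) := fun h =>
    hsq (h.map (algebraMap K M))
  obtain ⟨n, hn1, hn2, hn3⟩ := exists_la (v := v) hv.h2
  have hnv : v.valuation K (n : K) = 1 := by
    refine le_antisymm (v.valuation_le_one n) (not_lt.1 fun h => hn1 ?_)
    exact (v.valuation_lt_one_iff_mem (K := K) n).1 h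
  have hn0 : (n : K) ≠ 0 := by
    intro h0
    rw [h0, map_zero] at hnv
    exact zero_ne_one hnv
  obtain ⟨Sg, hle, ok, -⟩ := exists_okK hne hD0 (insert v S)
  obtain ⟨α, hα0, hαp, hαs, hαv, r, hr0, hr⟩ := exists_al Sg hn0 v
  have hvSg : v ∈ Sg := hle (Finset.mem_insert_self _ _)
  rw [hnv] at hαv
  have hαn : ¬ IsSquare (algebraMap K (v.adicCompletion K) α) := by
    rintro ⟨t, ht⟩
    apply nsq_of_la hv.h2 hn0 hn3 hn2
    refine ⟨t / r, ?_⟩
    rw [div_mul_div_comm, eq_div_iff (mul_ne_zero hr0 hr0), ← ht, hr]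
    ring
  have hW : Sw M a b D0 α Sg v :=
    ⟨ok, hα0, hαp, hvSg, fun u hu huv => (hαs u hu huv).1, hv.h2, hv.h3, hv.hd, hDv, hv.ur⟩
  have hWK : Sw K a b D0 α Sg v :=
    ⟨ok, hα0, hαp, hvSg, fun u hu huv => (hαs u hu huv).1, hv.h2, hv.h3, hv.hd, hDv, hv.self.ur⟩
  obtain ⟨P, hP⟩ := exists_P M v
  have hM := hW.parB hir hsq hP hαv
  have hf : (P.filter fun w => ¬ IsSquare (algebraMap M (w.adicCompletion M)
      (algebraMap K M α))) = P.filter fun w => ¬ Even (w.asIdeal.inertiaDeg (𝓞 K)) :=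
    Finset.filter_congr fun w hw => not_congr (sq_iff_deg hv.h2 ((hP w).1 hw) hαv hαn)
  rw [hf] at hM
  have hM' : ¬ (EvS K M a b D0 ↔ EvS K M a b (D0 * α)) := fun h =>
    (Nat.not_even_iff_odd.2 (odd_deg hodd hv.ur hP)) (hM.1 h)
  have hK := hWK.parB hirk hsqk (P := {v}) (fun w => by
    rw [Finset.mem_singleton, dn_self]) hαv
  have hfK : (({v} : Finset (HeightOneSpectrum (𝓞 K))).filter fun w =>
      ¬ IsSquare (algebraMap K (w.adicCompletion K) (algebraMap K K α))) = {v} := by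
    refine Finset.filter_true_of_mem fun w hw => ?_
    rw [Finset.mem_singleton] at hw
    subst hw
    exact hαn
  rw [hfK] at hK
  have hK' : ¬ (EvS K K a b D0 ↔ EvS K K a b (D0 * α)) := fun h => by
    have h1 := hK.1 h
    rw [Finset.card_singleton] at h1
    exact absurd h1 (by decide)
  refine ⟨D0 * α, ⟨hD0, mul_ne_zero hD0 hα0, fun u hu => ?_, fun s => ?_⟩, by tauto, by tauto⟩
  · rw [mul_div_cancel_left₀ _ hD0]
    exact (hαs u (hle (Finset.mem_insert_of_mem hu)) (fun h => hvS (h ▸ hu))).1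
  · rw [mul_div_cancel_left₀ _ hD0]
    exact hαp s

end H76GM
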