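import Pool.Agent.H30.OR.Tl

/-!
Project MP_78d38b_GM, part D: definitions and target statements for a place at which the discriminant has order one.
-/

set_option autoImplicit false
set_option linter.unusedSectionVars false
open scoped Classical

open WithZero NumberField IsDedekindDomain H38RT
open H38T1 (SC sc scu rep eo la si OddP unif)
open H76PP (Cub LC ev scm dn val_le val_one)
open H88OD H26OD H30OD H30ZO H36CY H30OR H36MX H76MX

namespace H76GM

/-- The two places `t₁`, `t₂` above a prime `v` at which the discriminant has order one; `r` is the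
double root of `x ^ 3 + A x + B` modulo `v`, `- 2 r` is the other root, `t₂` is ramified. -/
structure Rm {K L : Type} [Field K] [NumberField K] [Field L] [NumberField L] [Algebra K L]
    (A B : 𝓞 K) (θ : L) (v : HeightOneSpectrum (𝓞 K)) (r : K) (t₁ t₂ : HeightOneSpectrum (𝓞 L)) :
    Prop where
  rr : 2 * (A : K) * r = -3 * (B : K)
  r0 : v.valuation K r = 1
  g0 : v.valuation K ((A : K) + 3 * r ^ 2) = exp (-1)
  dn1 : dn K t₁ = v
  dn2 : dn K t₂ = v
  ne : t₁ ≠ t₂
  only : ∀ w : HeightOneSpectrum (𝓞 L), dn K w = v → w = t₁ ∨ w = t₂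
  e1 : ∀ x : K, x ≠ 0 → ord (t₁.valuation L) (algebraMap K L x) = ord (v.valuation K) x
  e2 : ∀ x : K, x ≠ 0 → ord (t₂.valuation L) (algebraMap K L x) = 2 * ord (v.valuation K) x
  s1 : t₁.valuation L (algebraMap K L (-2 * r) - θ) < 1
  s2 : t₂.valuation L (algebraMap K L r - θ) = exp (-1)
  l1 : ∀ l : K, l ≠ 0 → Even (ord (v.valuation K) l) → la t₁ (sc (algebraMap K L l)) = la v (sc l)
  l2 : ∀ l : K, l ≠ 0 → Even (ord (v.valuation K) l) → la t₂ (sc (algebraMap K L l)) = la v (sc l)
  sg : la t₂ (sc (algebraMap K L (-((A : K) + 3 * r ^ 2)))) = 0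

/-- The constant at the ramified place. -/
noncomputable def kr {K L : Type} [Field K] [NumberField K] [Field L] [NumberField L] [Algebra K L]
    (θ : L) (r : K) (t₂ : HeightOneSpectrum (𝓞 L)) : ZMod 2 :=
  la t₂ (sc (algebraMap K L (3 * r) * (θ - algebraMap K L r)))

end H76GM
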