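import Pool.Agent.H36.CY.Df
import Pool.Agent.H76.GM.Df

/-!
Project MP_78d38b_GM, part E (density): definitions. (no row)
-/

set_option autoImplicit false
set_option linter.unusedSectionVars false
open scoped Classical

open WithZero NumberField IsDedekindDomain H38RT
open H76PP (dn Nv)

namespace H76GM

/-- `φ` is a Frobenius element at the place `W` of `N` over `K`. -/
def Frb (K : Type) {N : Type} [Field K] [NumberField K] [Field N] [NumberField N] [Algebra K N]
    (W : HeightOneSpectrum (𝓞 N)) (φ : N ≃ₐ[K] N) : Prop :=
  H36CY.Stb K W φ ∧ ∀ x : 𝓞 N,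
    W.valuation N (φ (x : N) - (x : N) ^ Nat.card (𝓞 K ⧸ (dn K W).asIdeal)) < 1

/-- The action of the automorphisms of `N / K` on the embeddings of `M` in `N`. -/
def pm (K M N : Type) [Field K] [Field M] [Field N] [Algebra K M] [Algebra K N] :
    (N ≃ₐ[K] N) →* Equiv.Perm (M →ₐ[K] N) where
  toFun g :=
    { toFun := fun o => g.toAlgHom.comp o
      invFun := fun o => g⁻¹.toAlgHom.comp o
      left_inv := fun o => by
        ext x
        change g⁻¹ (g (o x)) = o x
        exact g.symm_apply_apply (o x)
      right_inv := fun o => by
        ext x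
        change g (g⁻¹ (o x)) = o x
        exact g.apply_symm_apply (o x) }
  map_one' := by
    ext o x
    rfl
  map_mul' g h := by
    ext o x
    rfl

end H76GM
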