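import Pool.Agent.H76.GM.E0
import Pool.Agent.H30.OR.Ts

/-!
Project MP_78d38b_GM, density part: the primes which are inert in a quadratic extension have a divergent sum.
-/

set_option autoImplicit false
set_option linter.unusedSectionVars false
open scoped Classical

open WithZero NumberField IsDedekindDomain H38RT Filter Topology
open H76PP (dn Nv)

namespace H76GM

theorem inert_div {K K' : Type} [Field K] [NumberField K] [Field K'] [NumberField K'] [Algebra K K']
    [IsGalois K K'] (h2 : Module.finrank K K' = 2) {S : Set (HeightOneSpectrum (𝓞 K))}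
    (hS : S.Finite) (C : ℝ) :
    ∃ F : Finset (HeightOneSpectrum (𝓞 K)), (∀ v ∈ F, v ∉ S ∧ H2T4.Inert K K' v) ∧
      C ≤ ∑ v ∈ F, 1 / (Nv v : ℝ) :=
  H30OR.inert_div2 h2 hS C

end H76GM
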