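import Pool.Agent.H76.GM.E3

/-!
Row E4 (project MP_78d38b_GM, density part), about 120 lines: the primes with Frobenius elements outside the kernel of a quadratic character `χ` of the Galois group have a divergent sum. `Frb` is in E0.lean.
frob_inert: `w = dn K' W`; `φ` trivial on `K'` gives `x ^ q - x ∈ w` for all `x : 𝓞 K'`, `q = Nv v = Nat.card (𝓞 K ⧸ v)` (`Frb`; the valuation of `W` restricted to `K'`: `H76PP.dn`, `mem_dn`-like lemmas), so the field `𝓞 K' ⧸ w` has at most
`q` elements (roots of `X ^ q - X`). But `v 𝓞 K'` is prime, contained in `w`, nonzero, so equal to `w`, and its norm is `q ^ 2` (`Ideal.absNorm_algebraMap`-like: `absNorm (I.map) = absNorm I ^ finrank`; or the maps in Pool/Agent/H2/T4/FP.lean).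
div_chi: `H = χ.ker`, `K' = IntermediateField.fixedField H` (a subfield of `N`), `[K' : K] = 2` (the index of the kernel of a surjection to `ℤˣ`: `Subgroup.index_ker`, `IntermediateField.finrank_eq_fixingSubgroup_index`), `NumberField K'`,
`IsGalois K K'` (normal subgroup: `IsGalois.of_fixedField_normal_subgroup`, or degree 2). `inert_div` (STATEMENT, E3.lean); if `χ φ = 1` then `φ ∈ H` is trivial on `K'`.
-/

set_option autoImplicit false
set_option linter.unusedSectionVars false
open scoped Classical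

open WithZero NumberField IsDedekindDomain H38RT Filter Topology
open H76PP (dn Nv)

namespace H76GM

private lemma E4_under {K K' N : Type} [Field K] [NumberField K] [Field K'] [NumberField K'] [Field N]
    [NumberField N] [Algebra K K'] [Algebra K N] [Algebra K' N] [IsScalarTower K K' N]
    (W : HeightOneSpectrum (𝓞 N)) :
    (dn K' W).asIdeal.comap (algebraMap (𝓞 K) (𝓞 K')) = (dn K W).asIdeal := by
  ext x
  change algebraMap (𝓞 K') (𝓞 N) (algebraMap (𝓞 K) (𝓞 K') x) ∈ W.asIdeal ↔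
    algebraMap (𝓞 K) (𝓞 N) x ∈ W.asIdeal
  have h : algebraMap (𝓞 K') (𝓞 N) (algebraMap (𝓞 K) (𝓞 K') x) = algebraMap (𝓞 K) (𝓞 N) x := by
    apply RingOfIntegers.ext
    exact (IsScalarTower.algebraMap_apply K K' N (x : K)).symm
  rw [h]

private lemma E4_card {k : Type} [Field k] [Finite k] {q : ℕ} (hq : 2 ≤ q)
    (h : ∀ x : k, x ^ q = x) : Nat.card k ≤ q := by
  haveI := Fintype.ofFinite k
  rw [Nat.card_eq_fintype_card]
  have h1 : (Polynomial.X ^ q - Polynomial.X : Polynomial k) ≠ 0 :=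
    FiniteField.X_pow_card_sub_X_ne_zero k (by omega)
  have h2 : (Finset.univ : Finset k) ⊆ (Polynomial.X ^ q - Polynomial.X : Polynomial k).roots.toFinset := by
    intro x _
    rw [Multiset.mem_toFinset, Polynomial.mem_roots h1, Polynomial.IsRoot.def]
    simp [h x]
  calc Fintype.card k = (Finset.univ : Finset k).card := Finset.card_univ.symm
    _ ≤ _ := Finset.card_le_card h2
    _ ≤ _ := Multiset.toFinset_card_le _
    _ ≤ _ := Polynomial.card_roots' _
    _ = q := FiniteField.X_pow_card_sub_X_natDegree_eq k (by omega)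

theorem frob_inert {K K' N : Type} [Field K] [NumberField K] [Field K'] [NumberField K'] [Field N]
    [NumberField N] [Algebra K K'] [Algebra K N] [Algebra K' N] [IsScalarTower K K' N]
    (h2 : Module.finrank K K' = 2) {v : HeightOneSpectrum (𝓞 K)} (hv : H2T4.Inert K K' v)
    {W : HeightOneSpectrum (𝓞 N)} (hW : dn K W = v) {φ : N ≃ₐ[K] N} (hφ : Frb K W φ) :
    ∃ x : K', φ (algebraMap K' N x) ≠ algebraMap K' N x := by
  by_contra hcon
  push Not at hcon
  subst hW
  set w := dn K' W with hw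
  set v := dn K W with hvd
  have hwp := w.isPrime
  have hvp := v.isPrime
  have hwm : w.asIdeal.IsMaximal := w.isMaximal
  have hun : w.asIdeal.comap (algebraMap (𝓞 K) (𝓞 K')) = v.asIdeal := E4_under W
  have hle : v.asIdeal.map (algebraMap (𝓞 K) (𝓞 K')) ≤ w.asIdeal := by
    rw [Ideal.map_le_iff_le_comap, hun]
  have hinj : Function.Injective (algebraMap (𝓞 K) (𝓞 K')) :=
    FaithfulSMul.algebraMap_injective (𝓞 K) (𝓞 K')
  have hne : v.asIdeal.map (algebraMap (𝓞 K) (𝓞 K')) ≠ ⊥ := by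
    rw [Ne, Ideal.map_eq_bot_iff_of_injective hinj]
    exact v.ne_bot
  have heq : v.asIdeal.map (algebraMap (𝓞 K) (𝓞 K')) = w.asIdeal := by
    have hpr : (v.asIdeal.map (algebraMap (𝓞 K) (𝓞 K'))).IsPrime := hv
    have hmax := hpr.isMaximal hne
    exact hmax.eq_of_le hwp.ne_top hle
  have hfr : Module.finrank (𝓞 K) (𝓞 K') = 2 := by
    rw [← h2]
    exact (Algebra.IsAlgebraic.finrank_of_isFractionRing (𝓞 K) K (𝓞 K') K').symm
  have hnorm : Ideal.absNorm w.asIdeal = Ideal.absNorm v.asIdeal ^ 2 := by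
    rw [← heq, Ideal.absNorm_algebraMap, hfr]
  have hq : Nat.card (𝓞 K ⧸ v.asIdeal) = Ideal.absNorm v.asIdeal := by
    rw [Ideal.absNorm_apply, Submodule.cardQuot_apply]
  have hqw : Nat.card (𝓞 K' ⧸ w.asIdeal) = Ideal.absNorm w.asIdeal := by
    rw [Ideal.absNorm_apply, Submodule.cardQuot_apply]
  have hv1 : Ideal.absNorm v.asIdeal ≠ 1 := by
    rw [Ne, Ideal.absNorm_eq_one_iff]
    exact hvp.ne_top
  have hv0 : Ideal.absNorm v.asIdeal ≠ 0 := by
    rw [Ne, Ideal.absNorm_eq_zero_iff]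
    exact v.ne_bot
  have hq2 : 2 ≤ Ideal.absNorm v.asIdeal := by omega
  letI : Field (𝓞 K' ⧸ w.asIdeal) := Ideal.Quotient.field w.asIdeal
  haveI : Finite (𝓞 K' ⧸ w.asIdeal) := by
    apply Nat.finite_of_card_ne_zero
    rw [hqw, hnorm]
    positivity
  have hroot : ∀ x : 𝓞 K' ⧸ w.asIdeal, x ^ Ideal.absNorm v.asIdeal = x := by
    intro x
    obtain ⟨x, rfl⟩ := Ideal.Quotient.mk_surjective x
    rw [← map_pow, eq_comm, Ideal.Quotient.eq]
    change algebraMap (𝓞 K') (𝓞 N) (x - x ^ Ideal.absNorm v.asIdeal) ∈ W.asIdeal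
    rw [← HeightOneSpectrum.valuation_lt_one_iff_mem (K := N)]
    have h3 := hφ.2 (algebraMap (𝓞 K') (𝓞 N) x)
    rw [hq] at h3
    have h4 : ((algebraMap (𝓞 K') (𝓞 N) x : 𝓞 N) : N) = algebraMap K' N (x : K') := rfl
    rw [h4, hcon] at h3
    have h5 : algebraMap (𝓞 N) N (algebraMap (𝓞 K') (𝓞 N) (x - x ^ Ideal.absNorm v.asIdeal)) =
        algebraMap K' N (x : K') - algebraMap K' N (x : K') ^ Ideal.absNorm v.asIdeal := by
      rw [← h4, map_sub, map_pow, map_sub, map_pow]
    have h6 : W.valuation N (algebraMap (𝓞 N) N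
        (algebraMap (𝓞 K') (𝓞 N) (x - x ^ Ideal.absNorm v.asIdeal))) < 1 := by
      rw [h5]
      exact h3
    exact h6
  have hc := E4_card hq2 hroot
  rw [hqw, hnorm] at hc
  nlinarith

theorem div_chi {K N : Type} [Field K] [NumberField K] [Field N] [NumberField N] [Algebra K N]
    [IsGalois K N] (χ : (N ≃ₐ[K] N) →* ℤˣ) {g0 : N ≃ₐ[K] N} (hg0 : χ g0 ≠ 1)
    {S : Set (HeightOneSpectrum (𝓞 K))} (hS : S.Finite) (C : ℝ) :
    ∃ F : Finset (HeightOneSpectrum (𝓞 K)), (∀ v ∈ F, v ∉ S ∧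
      ∀ W : HeightOneSpectrum (𝓞 N), dn K W = v → ∀ φ : N ≃ₐ[K] N, Frb K W φ → χ φ ≠ 1) ∧
      C ≤ ∑ v ∈ F, 1 / (Nv v : ℝ) := by
  have hfd : FiniteDimensional K N := inferInstance
  have hidx : χ.ker.index = 2 := by
    rw [Subgroup.index_ker]
    have htop : χ.range = ⊤ := by
      rw [eq_top_iff]
      intro y _
      rcases Int.units_eq_one_or y with h | h
      · rw [h]
        exact one_mem _
      · rcases Int.units_eq_one_or (χ g0) with h' | h'
        · exact absurd h' hg0
        · exact ⟨g0, by rw [h', h]⟩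
    rw [htop, Subgroup.card_top, Nat.card_eq_fintype_card]
    rfl
  have hfr : Module.finrank K (IntermediateField.fixedField χ.ker) = 2 := by
    rw [IntermediateField.finrank_eq_fixingSubgroup_index,
      IntermediateField.fixingSubgroup_fixedField, hidx]
  obtain ⟨F, hF, hC⟩ := inert_div (K := K) (K' := IntermediateField.fixedField χ.ker) hfr hS C
  refine ⟨F, fun v hv => ⟨(hF v hv).1, fun W hW φ hφ h1 => ?_⟩, hC⟩
  obtain ⟨x, hx⟩ := frob_inert (K := K) (K' := IntermediateField.fixedField χ.ker) (N := N) hfr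
    (hF v hv).2 hW hφ
  exact hx (x.2 ⟨φ, h1⟩)

end H76GM
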