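import Mathlib

/-!
Row E5 (project MP_78d38b_GM, density part), about 80 lines, only Mathlib: the sign of a permutation is `(-1) ^ (n - number of orbits)`.
`f : X → Y` is surjective and its fibres are the orbits of `σ`. Proof by `Equiv.Perm.sign_of_cycleType` (`sign σ = (-1) ^ (σ.cycleType.sum + σ.cycleType.card)`, `sum_cycleType = support.card`): the number of orbits is
`cycleType.card + (card X - support.card)`: the orbits in the support correspond to `σ.cycleFactorsFinset` (`cycleOf σ x`, `SameCycle`), the others are the fixed points. Or by induction on `σ` (`Equiv.Perm.cycle_induction_on`).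
-/

set_option autoImplicit false
set_option linter.unusedSectionVars false
open scoped Classical



namespace H76GM

theorem sign_orbits {X Y : Type} [Fintype X] [DecidableEq X] [Fintype Y] (σ : Equiv.Perm X)
    (f : X → Y) (hf : Function.Surjective f) (h : ∀ x y, f x = f y ↔ σ.SameCycle x y) :
    Equiv.Perm.sign σ = (-1) ^ (Fintype.card X + Fintype.card Y) := by
  have hfix : ∀ x, x ∉ σ.support → ∀ y, σ.SameCycle x y → x = y := by
    intro x hx y hxy
    have hx' : σ x = x := by simpa using hx
    obtain ⟨i, hi⟩ := hxy
    rw [← hi]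
    exact ((Equiv.Perm.zpow_apply_eq_self_of_apply_eq_self hx' i)).symm
  have h1 : (Finset.univ : Finset Y) = σ.support.image f ∪ (σ.supportᶜ).image f := by
    rw [← Finset.image_union, Finset.union_compl]
    exact (Finset.image_univ_of_surjective hf).symm
  have hdis : Disjoint (σ.support.image f) ((σ.supportᶜ).image f) := by
    rw [Finset.disjoint_left]
    intro y hy hy'
    obtain ⟨a, ha, rfl⟩ := Finset.mem_image.1 hy
    obtain ⟨b, hb, hab⟩ := Finset.mem_image.1 hy'
    have hb' : b ∉ σ.support := by simpa using hb
    have := hfix b hb' a ((h b a).1 hab)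
    rw [this] at hb'
    exact hb' ha
  have hinj : ((σ.supportᶜ).image f).card = (σ.supportᶜ).card := by
    apply Finset.card_image_of_injOn
    intro a ha b _ hab
    have ha' : a ∉ σ.support := by simpa using ha
    exact hfix a ha' b ((h a b).1 hab)
  have himg : σ.cycleFactorsFinset = σ.support.image (fun x => σ.cycleOf x) := by
    ext c
    rw [Finset.mem_image]
    constructor
    · intro hc
      have hcyc := (Equiv.Perm.mem_cycleFactorsFinset_iff.1 hc).1
      obtain ⟨a, ha⟩ := hcyc.nonempty_support
      refine ⟨a, ?_, (Equiv.Perm.cycle_is_cycleOf ha hc).symm⟩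
      exact Equiv.Perm.mem_cycleFactorsFinset_support_le hc ha
    · rintro ⟨a, ha, rfl⟩
      exact Equiv.Perm.cycleOf_mem_cycleFactorsFinset_iff.2 ha
  have hcard : (σ.support.image f).card = (σ.support.image (fun x => σ.cycleOf x)).card := by
    apply Finset.card_bij (fun y _ => σ.cycleOf (Function.surjInv hf y))
    · intro y hy
      obtain ⟨a, ha, rfl⟩ := Finset.mem_image.1 hy
      have h2 : f (Function.surjInv hf (f a)) = f a := Function.surjInv_eq hf (f a)
      rw [((h _ _).1 h2).cycleOf_eq]
      exact Finset.mem_image_of_mem _ ha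
    · intro y hy z hz hyz
      obtain ⟨a, ha, rfl⟩ := Finset.mem_image.1 hy
      obtain ⟨b, hb, rfl⟩ := Finset.mem_image.1 hz
      have h2 : f (Function.surjInv hf (f a)) = f a := Function.surjInv_eq hf (f a)
      have h3 : f (Function.surjInv hf (f b)) = f b := Function.surjInv_eq hf (f b)
      rw [((h _ _).1 h2).cycleOf_eq, ((h _ _).1 h3).cycleOf_eq] at hyz
      exact (h a b).2 ((Equiv.Perm.sameCycle_iff_cycleOf_eq_of_mem_support ha hb).2 hyz)
    · intro c hc
      obtain ⟨a, ha, rfl⟩ := Finset.mem_image.1 hc
      refine ⟨f a, Finset.mem_image_of_mem _ ha, ?_⟩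
      have h2 : f (Function.surjInv hf (f a)) = f a := Function.surjInv_eq hf (f a)
      exact ((h _ _).1 h2).cycleOf_eq
  have hY : Fintype.card Y = Multiset.card σ.cycleType + (σ.supportᶜ).card := by
    rw [← Finset.card_univ, h1, Finset.card_union_of_disjoint hdis, hinj, hcard, ← himg,
      Equiv.Perm.cycleType_def, Multiset.card_map]
    rfl
  have hX : Fintype.card X = σ.support.card + (σ.supportᶜ).card := by
    rw [Finset.card_add_card_compl]
  rw [Equiv.Perm.sign_of_cycleType, Equiv.Perm.sum_cycleType, hX, hY]
  have : σ.support.card + (σ.supportᶜ).card + (Multiset.card σ.cycleType + (σ.supportᶜ).card)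
      = σ.support.card + Multiset.card σ.cycleType + 2 * (σ.supportᶜ).card := by ring
  rw [this, pow_add _ (σ.support.card + _), pow_mul]
  simp

end H76GM
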