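import Pool.Agent.H76.GM.E0
import Pool.Agent.H36.AB.Ur
import Pool.Agent.H36.O2.Or
import Pool.Agent.H42.PC.BDeg
import Pool.Agent.H42.PC.BDeg
import Pool.Agent.H42.PC.BDeg

/-!
Row E6 (project MP_78d38b_GM, density part), about 220 lines: the places of `M` above `v` are the orbits of a Frobenius element on the embeddings of `M` in `N` (`v` unramified in `N`). `Frb` is in E0.lean.
stb_pow: the decomposition group is generated by the Frobenius element. `g` and `φ` stabilize `W` (`Stb`). The inertia group is trivial (`inertia_iff` in H36/AB/Ur.lean), Mathlib: `card_stabilizer_eq_card_inertia_mul_finrank` (the stabilizer has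
`inertiaDeg = f` elements); the powers `φ^k`, `k < f`, are different, because `φ^k` acts as `x ↦ x^(q^k)` on the residue field with `q^f` elements (if it is the identity then all `q^f` elements are roots of `X^(q^k) - X`). So the
subgroup generated by `φ` is the stabilizer. Here `g : N ≃ₐ[K] N` acts on `𝓞 N`; `Stb K W g` iff `g` is in the stabilizer of `W.asIdeal` (valuation < 1 iff in the ideal).
place_orbits: for `o : M →ₐ[K] N` let `w_o` be the place of `M` below `W` for the embedding `o`: the prime ideal `W.asIdeal.comap (𝓞 M → 𝓞 N)` (use `RingOfIntegers.mapRingHom`, or `dn` with the algebra structure `o.toRingHom.toAlgebra`).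
It lies above `v`. Surjective: `Algebra M N` gives one embedding `o0`; for `w` above `v` take `W'` above `w` (`H76PP.exists_above`, for `o0`), `W' = τ W` with `τ` in the Galois group (transitivity: e.g. `Pa_conj` in H88/PL/Pa.lean or
`H36CY`/`exists_conj` in H10/StarGal.lean, Mathlib `Algebra.IsInvariant.exists_smul_of_under_eq`), then `w = w_o` for `o = τ⁻¹ o0`. Fibres: if `o' = φ^k o` then `w_o = w_o'` (`φ` stabilizes `W`). Conversely let `w_o = w_o'`. `o' = τ o` for
some `τ` (`N / K` is normal: `AlgHom.liftNormal`/`IsGalois`, `o.restrictNormal`..: extend `o(M) → o'(M)` to an automorphism of `N`). Then `W` and `τ⁻¹ W` are above the same place of `M` for the embedding `o`, so (transitivity for `N / M`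
with the embedding `o`) `τ⁻¹ W = ρ W`, `ρ o = o`; so `τ ρ` stabilizes `W`, `τ ρ = φ^k` by stb_pow, `o' = τ o = τ ρ o = φ^k o`.
-/

set_option autoImplicit false
set_option linter.unusedSectionVars false
open scoped Classical

open WithZero NumberField IsDedekindDomain H38RT Filter Topology
open H76PP (dn Nv)

namespace H76GM

section Aux

variable {K N : Type} [Field K] [NumberField K] [Field N] [NumberField N] [Algebra K N]

private theorem E6_one {W : HeightOneSpectrum (𝓞 N)} : H36CY.Stb K W (1 : N ≃ₐ[K] N) :=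
  fun _ => rfl

private theorem E6_mul {W : HeightOneSpectrum (𝓞 N)} {g h : N ≃ₐ[K] N} (hg : H36CY.Stb K W g)
    (hh : H36CY.Stb K W h) : H36CY.Stb K W (g * h) := by
  intro y
  change W.valuation N (g (h y)) = _
  rw [hg, hh]

private theorem E6_inv {W : HeightOneSpectrum (𝓞 N)} {g : N ≃ₐ[K] N} (hg : H36CY.Stb K W g) :
    H36CY.Stb K W g⁻¹ := by
  intro y
  rw [← hg (g⁻¹ y)]
  change W.valuation N ((g * g⁻¹) y) = _
  rw [mul_inv_cancel]
  rfl

private theorem E6_zpow {W : HeightOneSpectrum (𝓞 N)} {g : N ≃ₐ[K] N} (hg : H36CY.Stb K W g)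
    (k : ℤ) : H36CY.Stb K W (g ^ k) := by
  let H : Subgroup (N ≃ₐ[K] N) :=
    { carrier := {g | H36CY.Stb K W g}
      mul_mem' := fun ha hb => E6_mul ha hb
      one_mem' := E6_one
      inv_mem' := fun ha => E6_inv ha }
  exact H.zpow_mem hg k

private theorem E6_mem (W : HeightOneSpectrum (𝓞 N)) (x : 𝓞 N) :
    x ∈ W.asIdeal ↔ W.valuation N (x : N) < 1 :=
  (W.valuation_lt_one_iff_mem (K := N) x).symm

open scoped Pointwise in
private theorem E6_stab {W : HeightOneSpectrum (𝓞 N)} {g : N ≃ₐ[K] N} (hg : H36CY.Stb K W g) :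
    g • W.asIdeal = W.asIdeal := by
  ext x
  rw [Ideal.mem_pointwise_smul_iff_inv_smul_mem, E6_mem, E6_mem]
  change W.valuation N (g⁻¹ (x : N)) < 1 ↔ _
  rw [E6_inv hg]

open scoped Pointwise in
private theorem E6_pow [IsGalois K N] {W : HeightOneSpectrum (𝓞 N)} (hW : ¬ H73P2.Ram K W)
    {φ g : N ≃ₐ[K] N} (hφ : Frb K W φ) (hg : g • W.asIdeal = W.asIdeal) :
    g ∈ Subgroup.zpowers φ := by
  have hwp := W.isPrime
  have hvp := (dn K W).isPrime
  have hwv : W.asIdeal.LiesOver (dn K W).asIdeal := ⟨rfl⟩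
  have hfin1 : Finite (𝓞 K ⧸ (dn K W).asIdeal) :=
    Ideal.finiteQuotientOfFreeOfNeBot _ (dn K W).ne_bot
  have hfin2 : Finite (𝓞 N ⧸ W.asIdeal) := Ideal.finiteQuotientOfFreeOfNeBot _ W.ne_bot
  have hmax : W.asIdeal.IsMaximal := W.isMaximal
  obtain ⟨q, hq⟩ : ∃ q : ℕ, q = Nat.card (𝓞 K ⧸ (dn K W).asIdeal) := ⟨_, rfl⟩
  have hqN : q = Ideal.absNorm (dn K W).asIdeal := by
    rw [hq, Ideal.absNorm_apply, Submodule.cardQuot_apply]
  have hq2 : 2 ≤ q := by
    rw [hqN]
    exact Pool.Agent.H42.PC.BDeg_two_le (dn K W)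
  -- the powers of the Frobenius element
  have hpow : ∀ n : ℕ, ∀ x : 𝓞 N, Ideal.Quotient.mk W.asIdeal (φ ^ n • x) =
      Ideal.Quotient.mk W.asIdeal x ^ q ^ n := by
    intro n
    induction n with
    | zero =>
      intro x
      rw [pow_zero, pow_zero, pow_one, one_smul]
    | succ n ih =>
      intro x
      rw [pow_succ', mul_smul]
      have h1 : Ideal.Quotient.mk W.asIdeal (φ • φ ^ n • x) =
          Ideal.Quotient.mk W.asIdeal (φ ^ n • x) ^ q := by
        rw [← map_pow, Ideal.Quotient.mk_eq_mk_iff_sub_mem, E6_mem]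
        have h2 := hφ.2 (φ ^ n • x)
        rw [← hq] at h2
        have h3 : ((φ • φ ^ n • x - (φ ^ n • x) ^ q : 𝓞 N) : N) =
            φ ((φ ^ n • x : 𝓞 N) : N) - ((φ ^ n • x : 𝓞 N) : N) ^ q := by
          rw [RingOfIntegers.coe_eq_algebraMap, map_sub, map_pow]
          rfl
        rw [h3]
        exact h2
      rw [h1, ih, ← pow_mul, ← pow_succ]
  have hn0 : 0 < orderOf φ := orderOf_pos φ
  have hF : ∀ y : 𝓞 N ⧸ W.asIdeal, y - y ^ q ^ orderOf φ = 0 := by
    intro y
    obtain ⟨y, rfl⟩ := Ideal.Quotient.mk_surjective y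
    have h1 := hpow (orderOf φ) y
    rw [pow_orderOf_eq_one, one_smul] at h1
    rw [← h1, sub_self]
  have hle : q ^ W.asIdeal.inertiaDeg (𝓞 K) ≤ q ^ orderOf φ := by
    rw [hqN, Ideal.absNorm_pow_inertiaDeg (dn K W).asIdeal W.asIdeal, ← hqN,
      Ideal.absNorm_apply W.asIdeal, Submodule.cardQuot_apply]
    let _ := Ideal.Quotient.field W.asIdeal
    exact Pool.Agent.H42.PC.BDeg_card_le (F := 𝓞 N ⧸ W.asIdeal)
      (Nat.one_lt_pow hn0.ne' (by omega)) hF
  have hf : W.asIdeal.inertiaDeg (𝓞 K) ≤ orderOf φ := (Nat.pow_le_pow_iff_right (by omega)).1 hle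
  have hG : IsGaloisGroup (N ≃ₐ[K] N) (𝓞 K) (𝓞 N) := IsGaloisGroup.of_isFractionRing _ _ _ K N
  have hs := Ideal.card_stabilizer_eq_card_inertia_mul_finrank (G := N ≃ₐ[K] N)
    (dn K W).asIdeal W.asIdeal
  have hin : Nat.card (Ideal.inertia (N ≃ₐ[K] N) W.asIdeal) = 1 := by
    rw [H36AB.inertia_iff.1 hW]
    exact Subgroup.card_bot
  rw [hin, one_mul] at hs
  have hsub : Subgroup.zpowers φ ≤ MulAction.stabilizer (N ≃ₐ[K] N) W.asIdeal := by
    rw [Subgroup.zpowers_le]
    exact MulAction.mem_stabilizer_iff.2 (E6_stab hφ.1)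
  have heq : Subgroup.zpowers φ = MulAction.stabilizer (N ≃ₐ[K] N) W.asIdeal := by
    apply Subgroup.eq_of_le_of_card_ge hsub
    rw [hs, Nat.card_zpowers]
    exact hf
  rw [heq]
  exact MulAction.mem_stabilizer_iff.2 hg

end Aux

section Emb

variable {K M N : Type} [Field K] [NumberField K] [Field M] [NumberField M] [Field N]
  [NumberField N] [Algebra K M] [Algebra K N]

/-- The place below `W` for the embedding `o`. -/
private noncomputable def E6_pl (W : HeightOneSpectrum (𝓞 N)) (o : M →ₐ[K] N) :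
    HeightOneSpectrum (𝓞 M) :=
  letI := o.toRingHom.toAlgebra
  dn M W

private theorem E6_pl_mem (W : HeightOneSpectrum (𝓞 N)) (o : M →ₐ[K] N) (x : 𝓞 M) :
    x ∈ (E6_pl W o).asIdeal ↔ W.valuation N (o (x : M)) < 1 := by
  letI := o.toRingHom.toAlgebra
  exact E6_mem W (algebraMap (𝓞 M) (𝓞 N) x)

private theorem E6_pl_dn (W : HeightOneSpectrum (𝓞 N)) (o : M →ₐ[K] N) :
    dn K (E6_pl W o) = dn K W := by
  apply HeightOneSpectrum.ext
  ext x
  have h1 : x ∈ (dn K (E6_pl W o)).asIdeal ↔ algebraMap (𝓞 K) (𝓞 M) x ∈ (E6_pl W o).asIdeal :=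
    Iff.rfl
  have h2 : x ∈ (dn K W).asIdeal ↔ algebraMap (𝓞 K) (𝓞 N) x ∈ W.asIdeal := Iff.rfl
  rw [h1, h2, E6_pl_mem, E6_mem]
  change W.valuation N (o (algebraMap K M (x : K))) < 1 ↔ W.valuation N (algebraMap K N (x : K)) < 1
  rw [o.commutes]

private theorem E6_lift [Normal K N] (o o' : M →ₐ[K] N) :
    ∃ τ : N ≃ₐ[K] N, ∀ x, τ (o x) = o' x := by
  letI := o.toRingHom.toAlgebra
  haveI : IsScalarTower K M N := IsScalarTower.of_algebraMap_eq fun x => (o.commutes x).symm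
  refine ⟨AlgEquiv.ofBijective (o'.liftNormal N) (AlgHom.normal_bijective K N N _), fun x => ?_⟩
  exact o'.liftNormal_commutes N x

open scoped Pointwise in
private theorem E6_fib [IsGalois K N] {W : HeightOneSpectrum (𝓞 N)} {o o' : M →ₐ[K] N}
    (h : E6_pl W o = E6_pl W o') :
    ∃ g : N ≃ₐ[K] N, g • W.asIdeal = W.asIdeal ∧ ∀ x, g (o x) = o' x := by
  obtain ⟨τ, hτ⟩ := E6_lift o o'
  letI := o.toRingHom.toAlgebra
  haveI : IsScalarTower K M N := IsScalarTower.of_algebraMap_eq fun x => (o.commutes x).symm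
  haveI : IsGalois M N := IsGalois.tower_top_of_isGalois K M N
  have hwp := W.isPrime
  have hP : (τ⁻¹ • W.asIdeal).IsPrime := inferInstance
  have hp := (E6_pl W o).isPrime
  have hl1 : W.asIdeal.LiesOver (E6_pl W o).asIdeal := ⟨rfl⟩
  have hl2 : (τ⁻¹ • W.asIdeal).LiesOver (E6_pl W o).asIdeal := by
    constructor
    ext x
    rw [Ideal.under_def, Ideal.mem_comap, Ideal.mem_pointwise_smul_iff_inv_smul_mem, inv_inv, h,
      E6_pl_mem, E6_mem, ← hτ]
    rfl
  have hG : IsGaloisGroup (N ≃ₐ[M] N) (𝓞 M) (𝓞 N) := IsGaloisGroup.of_isFractionRing _ _ _ M N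
  obtain ⟨ρ, hρ⟩ := Ideal.exists_smul_eq_of_isGaloisGroup (E6_pl W o).asIdeal (τ⁻¹ • W.asIdeal)
    W.asIdeal (N ≃ₐ[M] N)
  have hρ' : (ρ.restrictScalars K) • (τ⁻¹ • W.asIdeal) = W.asIdeal := by
    refine Eq.trans ?_ hρ
    ext x
    rw [Ideal.mem_pointwise_smul_iff_inv_smul_mem,
      Ideal.mem_pointwise_smul_iff_inv_smul_mem (a := ρ)]
    rfl
  refine ⟨τ * (ρ.restrictScalars K)⁻¹, ?_, fun x => ?_⟩
  · rw [mul_smul]
    rw [inv_smul_eq_iff.2 hρ'.symm, smul_inv_smul]
  · change τ ((ρ.restrictScalars K)⁻¹ (o x)) = o' x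
    have h1 : (ρ.restrictScalars K)⁻¹ (o x) = o x := by
      have h2 : (ρ.restrictScalars K) (o x) = o x := ρ.commutes x
      calc (ρ.restrictScalars K)⁻¹ (o x) = (ρ.restrictScalars K)⁻¹ ((ρ.restrictScalars K) (o x)) := by
            rw [h2]
        _ = o x := (ρ.restrictScalars K).symm_apply_apply (o x)
    rw [h1, hτ]

end Emb

variable {K M N : Type} [Field K] [NumberField K] [Field M] [NumberField M] [Field N]
  [NumberField N] [Algebra K M] [Algebra K N] [Algebra M N] [IsScalarTower K M N] [IsGalois K N]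

theorem stb_pow {W : HeightOneSpectrum (𝓞 N)} (hW : ¬ H73P2.Ram K W) {φ g : N ≃ₐ[K] N}
    (hφ : Frb K W φ) (hg : H36CY.Stb K W g) : g ∈ Subgroup.zpowers φ :=
  E6_pow hW hφ (E6_stab hg)

theorem place_orbits {v : HeightOneSpectrum (𝓞 K)} {W : HeightOneSpectrum (𝓞 N)}
    (hWv : dn K W = v) (hW : ¬ H73P2.Ram K W) {φ : N ≃ₐ[K] N} (hφ : Frb K W φ) :
    ∃ f : (M →ₐ[K] N) → {w : HeightOneSpectrum (𝓞 M) // dn K w = v}, Function.Surjective f ∧
      ∀ o o', f o = f o' ↔ (pm K M N φ).SameCycle o o' := by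
  refine ⟨fun o => ⟨E6_pl W o, (E6_pl_dn W o).trans hWv⟩, ?_, ?_⟩
  · rintro ⟨w, hw⟩
    obtain ⟨W', hW'⟩ := H76PP.exists_above (K := M) (L := N) w
    have hdn : dn K W' = dn K W := by
      rw [hWv, ← hw, ← hW']
      exact (H73P2.dn_dn (K := K) (k := M) W').symm
    have i1 : W.asIdeal.IsPrime := W.isPrime
    have i2 : W'.asIdeal.IsPrime := W'.isPrime
    have i3 : W.asIdeal.LiesOver (dn K W).asIdeal := ⟨rfl⟩
    have i4 : W'.asIdeal.LiesOver (dn K W).asIdeal := by
      rw [← hdn]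
      exact ⟨rfl⟩
    have hG : IsGaloisGroup (N ≃ₐ[K] N) (𝓞 K) (𝓞 N) := IsGaloisGroup.of_isFractionRing _ _ _ K N
    obtain ⟨g, hg⟩ := Ideal.exists_smul_eq_of_isGaloisGroup (dn K W).asIdeal W'.asIdeal W.asIdeal
      (N ≃ₐ[K] N)
    refine ⟨g.toAlgHom.comp (IsScalarTower.toAlgHom K M N), ?_⟩
    apply Subtype.ext
    apply HeightOneSpectrum.ext
    change (E6_pl W (g.toAlgHom.comp (IsScalarTower.toAlgHom K M N))).asIdeal = w.asIdeal
    ext x
    rw [E6_pl_mem, ← hW']
    have h1 : x ∈ (dn M W').asIdeal ↔ algebraMap (𝓞 M) (𝓞 N) x ∈ W'.asIdeal := Iff.rfl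
    rw [h1, ← Ideal.smul_mem_pointwise_smul_iff (a := g), hg, E6_mem]
    rfl
  · intro o o'
    rw [Subtype.mk_eq_mk]
    constructor
    · intro h
      obtain ⟨g, hg, hgo⟩ := E6_fib h
      obtain ⟨k, hk⟩ := E6_pow hW hφ hg
      refine ⟨k, ?_⟩
      rw [← map_zpow]
      ext x
      change (φ ^ k) (o x) = o' x
      rw [← hgo, ← hk]
    · rintro ⟨k, hk⟩
      apply HeightOneSpectrum.ext
      ext x
      rw [E6_pl_mem, E6_pl_mem, ← hk, ← map_zpow]
      change _ ↔ W.valuation N ((φ ^ k) (o (x : M))) < 1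
      rw [E6_zpow hφ.1 k]

end H76GM
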