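import Pool.Agent.H76.GM.E5
import Pool.Agent.H76.GM.E6
import Pool.Agent.H30.OR.Te

/-!
Row E7 (project MP_78d38b_GM, density part), about 100 lines (use the STATEMENTS of E5, E6): if the Frobenius element is an odd permutation of the embeddings then the number of places of `M` of even residue degree is odd.
`hur2`: `unram_down` of H36/AB/Ur.lean (`¬ Ram K W → ¬ Ram K (dn M W)`, every `w` above `v` is `dn M W'`, `H76PP.exists_above`) and `unram_ord` of H73P2 (used in H36/AB/Ur.lean, `not_ram_of_ord` is the converse).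
Let `n = [M : K] = card (M →ₐ[K] N)` (`AlgHom.card_of_splits`/`IsGalois`; `N / K` is normal and contains `M`; e.g. `Algebra.IsSeparable`, `AlgHom.natCard..`), `g` the number of places above `v`. `sign_orbits` with `place_orbits`: `(-1)^(n + g) = -1`, so
`n + g` is odd. `∑_w f_w = n` (`ord_norm v` for `algebraMap K M ϖ` as in `nb_le3` of H30/OR/Te.lean, `N = ϖ^n`, `ord_w ϖ = 1`). So `∑_w (f_w + 1)` is odd and modulo 2 it is the number of `w` with `f_w` even.
-/

set_option autoImplicit false
set_option linter.unusedSectionVars false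
open scoped Classical

open WithZero NumberField IsDedekindDomain H38RT Filter Topology
open H76PP (dn Nv)

namespace H76GM

variable {K M N : Type} [Field K] [NumberField K] [Field M] [NumberField M] [Field N]
  [NumberField N] [Algebra K M] [Algebra K N] [Algebra M N] [IsScalarTower K M N] [IsGalois K N]

theorem unr_ord {v : HeightOneSpectrum (𝓞 K)}
    (hur : ∀ W : HeightOneSpectrum (𝓞 N), dn K W = v → ¬ H73P2.Ram K W)
    (w : HeightOneSpectrum (𝓞 M)) (hw : dn K w = v) (x : K) (hx : x ≠ 0) :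
    ord (w.valuation M) (algebraMap K M x) = ord (v.valuation K) x := by
  obtain ⟨V, rfl⟩ := H76PP.exists_above (L := N) w
  have h1 : dn K V = v := by
    rw [← hw]
    exact (H73P2.dn_dn V).symm
  have h2 := H36AB.unram_down (M := M) (hur V h1)
  have h3 := H73P2.unram_ord h2 hx
  rw [hw] at h3
  exact h3

/-- The residue degrees over `v` add up to the degree. -/
private theorem E7_sum {v : HeightOneSpectrum (𝓞 K)}
    (hur : ∀ W : HeightOneSpectrum (𝓞 N), dn K W = v → ¬ H73P2.Ram K W)
    {P : Finset (HeightOneSpectrum (𝓞 M))} (hP : ∀ w, w ∈ P ↔ dn K w = v) :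
    ∑ w ∈ P, w.asIdeal.inertiaDeg (𝓞 K) = Module.finrank K M := by
  obtain ⟨ϖ, hϖ⟩ := v.valuation_exists_uniformizer K
  have hϖ0 : ϖ ≠ 0 := by
    rintro rfl
    rw [map_zero] at hϖ
    exact absurd hϖ.symm exp_ne_zero
  have hord : ord (v.valuation K) ϖ = 1 := by
    rw [ord, hϖ, log_exp]
    rfl
  have hL0 : algebraMap K M ϖ ≠ 0 := fun h0 =>
    hϖ0 ((algebraMap K M).injective (by rw [h0, map_zero]))
  have hn : Algebra.norm K (algebraMap K M ϖ) = ϖ ^ Module.finrank K M := by
    rw [Algebra.norm_algebraMap]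
  have h1 := H76PP.ord_norm (K := K) (L := M) v hL0
  have hPf : (H76PP.fin_above (L := M) v).toFinset = P := by
    ext w
    rw [Set.Finite.mem_toFinset, hP]
    rfl
  have h0 : ∑ᶠ w : {w : HeightOneSpectrum (𝓞 M) // dn K w = v},
        (w.1.asIdeal.inertiaDeg (𝓞 K) : ℤ) * ord (w.1.valuation M) (algebraMap K M ϖ) =
      ∑ w ∈ (H76PP.fin_above (L := M) v).toFinset,
        (w.asIdeal.inertiaDeg (𝓞 K) : ℤ) * ord (w.valuation M) (algebraMap K M ϖ) := by
    rw [← finsum_mem_eq_finite_toFinset_sum (fun w : HeightOneSpectrum (𝓞 M) =>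
      (w.asIdeal.inertiaDeg (𝓞 K) : ℤ) * ord (w.valuation M) (algebraMap K M ϖ))
      (H76PP.fin_above (L := M) v)]
    exact finsum_set_coe_eq_finsum_mem {w : HeightOneSpectrum (𝓞 M) | dn K w = v}
      (f := fun w => (w.asIdeal.inertiaDeg (𝓞 K) : ℤ) * ord (w.valuation M) (algebraMap K M ϖ))
  have h3 : ∀ n : ℕ, ord (v.valuation K) (ϖ ^ n) = n := by
    intro n
    induction n with
    | zero =>
      rw [pow_zero, ord, map_one, log_one]
      rfl
    | succ n ih =>
      rw [pow_succ, ord_mul (pow_ne_zero n hϖ0) hϖ0, ih, hord]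
      push_cast
      rfl
  rw [h0, hn, h3, hPf] at h1
  have h4 : ∑ w ∈ P, (w.asIdeal.inertiaDeg (𝓞 K) : ℤ) * ord (w.valuation M) (algebraMap K M ϖ) =
      ∑ w ∈ P, (w.asIdeal.inertiaDeg (𝓞 K) : ℤ) := by
    refine Finset.sum_congr rfl fun w hw => ?_
    rw [unr_ord hur w ((hP w).1 hw) ϖ hϖ0, hord, mul_one]
  rw [h4] at h1
  exact_mod_cast h1.symm

theorem odd_places {v : HeightOneSpectrum (𝓞 K)}
    (hur : ∀ W : HeightOneSpectrum (𝓞 N), dn K W = v → ¬ H73P2.Ram K W)
    {W : HeightOneSpectrum (𝓞 N)} (hWv : dn K W = v) {φ : N ≃ₐ[K] N} (hφ : Frb K W φ)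
    (hs : Equiv.Perm.sign (pm K M N φ) = -1)
    {P : Finset (HeightOneSpectrum (𝓞 M))} (hP : ∀ w, w ∈ P ↔ dn K w = v) :
    Odd (P.filter fun w => Even (w.asIdeal.inertiaDeg (𝓞 K))).card := by
  have hfd : FiniteDimensional K M := Module.Finite.of_restrictScalars_finite ℚ K M
  have hfdN : FiniteDimensional K N := Module.Finite.of_restrictScalars_finite ℚ K N
  obtain ⟨f, hf, hor⟩ := place_orbits (M := M) hWv (hur W hWv) hφ
  let iY : Fintype {w : HeightOneSpectrum (𝓞 M) // dn K w = v} := Fintype.subtype P hP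
  have hY : Fintype.card {w : HeightOneSpectrum (𝓞 M) // dn K w = v} = P.card :=
    Fintype.subtype_card P hP
  have h1 := sign_orbits (pm K M N φ) f hf hor
  have h2 : Fintype.card (M →ₐ[K] N) = Module.finrank K M := by
    rw [Fintype.card_eq_nat_card]
    apply AlgHom.natCard_of_splits
    intro x
    have h3 : ((minpoly K (algebraMap M N x)).map (algebraMap K N)).Splits :=
      Normal.splits inferInstance _
    rwa [minpoly.algebraMap_eq (algebraMap M N).injective] at h3
  rw [hs, h2, hY] at h1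
  have h4 : Odd (Module.finrank K M + P.card) := by
    rcases Nat.even_or_odd (Module.finrank K M + P.card) with h5 | h5
    · rw [h5.neg_one_pow] at h1
      exact absurd h1 (by decide)
    · exact h5
  have h5 : ∑ w ∈ P, (w.asIdeal.inertiaDeg (𝓞 K) + 1) = Module.finrank K M + P.card := by
    rw [Finset.sum_add_distrib, E7_sum hur hP, Finset.sum_const, smul_eq_mul, mul_one]
  rw [← h5, Finset.odd_sum_iff_odd_card_odd] at h4
  have h6 : (P.filter fun w => Odd (w.asIdeal.inertiaDeg (𝓞 K) + 1)) =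
      P.filter fun w => Even (w.asIdeal.inertiaDeg (𝓞 K)) := by
    refine Finset.filter_congr fun w _ => ?_
    rw [Nat.odd_add_one, Nat.not_odd_iff_even]
  rw [h6] at h4
  exact h4

theorem even_places {v : HeightOneSpectrum (𝓞 K)}
    (hur : ∀ W : HeightOneSpectrum (𝓞 N), dn K W = v → ¬ H73P2.Ram K W)
    {W : HeightOneSpectrum (𝓞 N)} (hWv : dn K W = v) {φ : N ≃ₐ[K] N} (hφ : Frb K W φ)
    (hs : Equiv.Perm.sign (pm K M N φ) = 1)
    {P : Finset (HeightOneSpectrum (𝓞 M))} (hP : ∀ w, w ∈ P ↔ dn K w = v) :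
    Even (P.filter fun w => Even (w.asIdeal.inertiaDeg (𝓞 K))).card := by
  have hfd : FiniteDimensional K M := Module.Finite.of_restrictScalars_finite ℚ K M
  have hfdN : FiniteDimensional K N := Module.Finite.of_restrictScalars_finite ℚ K N
  obtain ⟨f, hf, hor⟩ := place_orbits (M := M) hWv (hur W hWv) hφ
  let iY : Fintype {w : HeightOneSpectrum (𝓞 M) // dn K w = v} := Fintype.subtype P hP
  have hY : Fintype.card {w : HeightOneSpectrum (𝓞 M) // dn K w = v} = P.card :=
    Fintype.subtype_card P hP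
  have h1 := sign_orbits (pm K M N φ) f hf hor
  have h2 : Fintype.card (M →ₐ[K] N) = Module.finrank K M := by
    rw [Fintype.card_eq_nat_card]
    apply AlgHom.natCard_of_splits
    intro x
    have h3 : ((minpoly K (algebraMap M N x)).map (algebraMap K N)).Splits :=
      Normal.splits inferInstance _
    rwa [minpoly.algebraMap_eq (algebraMap M N).injective] at h3
  rw [hs, h2, hY] at h1
  have h4 : Even (Module.finrank K M + P.card) := by
    rcases Nat.even_or_odd (Module.finrank K M + P.card) with h5 | h5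
    · exact h5
    · rw [h5.neg_one_pow] at h1
      exact absurd h1 (by decide)
  have h5 : ∑ w ∈ P, (w.asIdeal.inertiaDeg (𝓞 K) + 1) = Module.finrank K M + P.card := by
    rw [Finset.sum_add_distrib, E7_sum hur hP, Finset.sum_const, smul_eq_mul, mul_one]
  rw [← h5, Finset.even_sum_iff_even_card_odd] at h4
  have h6 : (P.filter fun w => Odd (w.asIdeal.inertiaDeg (𝓞 K) + 1)) =
      P.filter fun w => Even (w.asIdeal.inertiaDeg (𝓞 K)) := by
    refine Finset.filter_congr fun w _ => ?_
    rw [Nat.odd_add_one, Nat.not_odd_iff_even]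
  rw [h6] at h4
  exact h4

end H76GM
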