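import Pool.Agent.H30.OD.De
import Pool.Agent.H36.MT.Cu
import Pool.Agent.H36.PP.Tl
import Pool.Agent.H36.PP.Lo

/-!
Row E8 (project MP_78d38b_GM, density part), about 150 lines: almost all pairs have a discriminant exactly divisible by a prime of `V`, if the sum of `1 / Nv v` over `V` is large and `V` consists of large primes.
Notation: `Bx K X` (box), `dsc A B = 4 A^3 + 27 B^2`, `Nv`, `rs`, `Tail` of H36PP (Pool/Agent/H36/PP/Df.lean), `d = finrank ℚ K`.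
(1) For a field `k` with `q` elements, `6 ≠ 0`: the number of pairs `(a, b)` with `4 a^3 + 27 b^2 = 0` is at least `q` (the pairs `(-3 r^2, 2 r^3)` are different for different `r`: `r = 0` iff `b = 0`, otherwise `r = -3 b / (2 a)`), so the set `S_v` of the other
pairs has at most `q^2 - q` elements. `count_prod` (Pool/Agent/H36/MT/Cu.lean): `#{p ∈ Bx K X : v ∤ dsc p for v ∈ V} ≤ C ∏ (1 - 1 / Nv v) X^(5 d) ≤ C exp (- ∑ 1 / Nv v) X^(5 d)` for `X ≥ X₀(V)`.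
(2) Pairs with `p ∈ Tail K M X`: `tail_bound` (Pool/Agent/H36/PP/Tl.lean) with `LatU` (its proof is in Pool/Agent/H36/PP or H76/PP, see how `fam_lower`/`main_parW`/`count_primes` get it) gives `M`. (3) Pairs with `A = 0` or `dsc = 0`: they satisfy `A ∈ v` (or `dsc ∈ v`) for
all `v`, so by `count_prod` with a large finite set of primes (sets of density at most `1 / Nv v`, resp. at most `2 / Nv v`: for `a` at most two `b`) they are at most `ε X^(5 d)`; or see how other files bound them (`nsq_count`, `main_AW`).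
If `p ∈ Bx K X`, `A ≠ 0`, `dsc ≠ 0`, `p ∉ Tail K M X`, and `dsc p ∈ v` for some `v ∈ V`, then `dsc p ∉ v^2` as `Nv v > M`, `6 ∉ v`.
-/

set_option autoImplicit false
set_option linter.unusedSectionVars false
open scoped Classical

open WithZero NumberField IsDedekindDomain H38RT Filter Topology
open H76PP H36PP H36MT

namespace H76GM

/-- At least `q` pairs have discriminant zero. -/
theorem E8_zero {k : Type*} [CommRing k] [IsDomain k] [Finite k] (h2 : (2 : k) ≠ 0)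
    (h3 : (3 : k) ≠ 0) : Nat.card k ≤ {p : k × k | dsc p.1 p.2 = 0}.ncard := by
  have h := Set.ncard_le_ncard_of_injOn (s := (Set.univ : Set k))
    (t := {p : k × k | dsc p.1 p.2 = 0}) (fun r : k => ((-3) * r ^ 2, 2 * r ^ 3))
    (fun r _ => by
      show dsc ((-3) * r ^ 2) (2 * r ^ 3) = 0
      rw [dsc]
      ring)
    (fun r _ s _ hrs => by
      have e0 : (-3 : k) * r ^ 2 = (-3) * s ^ 2 := congrArg Prod.fst hrs
      have e0' : (2 : k) * r ^ 3 = 2 * s ^ 3 := congrArg Prod.snd hrs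
      have e1 : r ^ 2 = s ^ 2 := mul_left_cancel₀ (neg_ne_zero.2 h3) e0
      have e2 : r ^ 3 = s ^ 3 := mul_left_cancel₀ h2 e0'
      have e3 : r ^ 2 * (r - s) = 0 := by linear_combination e2 - s * e1
      rcases mul_eq_zero.1 e3 with h | h
      · have hr : r = 0 := pow_eq_zero_iff (two_ne_zero) |>.1 h
        have hs : s = 0 := by
          rw [h] at e1
          exact pow_eq_zero_iff (two_ne_zero) |>.1 e1.symm
        rw [hr, hs]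
      · exact sub_eq_zero.1 h) (Set.toFinite _)
  rwa [Set.ncard_univ] at h

/-- The number of pairs with nonzero discriminant. -/
theorem E8_card {K : Type} [Field K] [NumberField K] {v : HeightOneSpectrum (𝓞 K)}
    (h : (6 : 𝓞 K) ∉ v.asIdeal) :
    ((SqO (𝓞 K ⧸ v.asIdeal)).ncard : ℝ) ≤ (Nv v : ℝ) ^ 2 - (Nv v : ℝ) := by
  have hfin : Finite (𝓞 K ⧸ v.asIdeal) := Ideal.finiteQuotientOfFreeOfNeBot _ v.ne_bot
  have hcardk : Nat.card (𝓞 K ⧸ v.asIdeal) = Nv v := by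
    rw [← Submodule.cardQuot_apply, ← Ideal.absNorm_apply]
    rfl
  have hprime := v.isPrime
  have hdom : IsDomain (𝓞 K ⧸ v.asIdeal) := Ideal.Quotient.isDomain _
  have hnat : ∀ m : ℕ, (m : 𝓞 K) ∉ v.asIdeal → ((m : ℕ) : 𝓞 K ⧸ v.asIdeal) ≠ 0 := by
    intro m hm h1
    apply hm
    rw [← Ideal.Quotient.eq_zero_iff_mem, map_natCast]
    exact h1
  have h2k : (2 : 𝓞 K ⧸ v.asIdeal) ≠ 0 := by
    have := hnat 2 (by exact_mod_cast (Lo_two h).1)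
    exact_mod_cast this
  have h3k : (3 : 𝓞 K ⧸ v.asIdeal) ≠ 0 := by
    have := hnat 3 (by exact_mod_cast (Lo_two h).2)
    exact_mod_cast this
  have h1 := E8_zero h2k h3k
  have h2 := Set.ncard_add_ncard_compl
    {p : (𝓞 K ⧸ v.asIdeal) × (𝓞 K ⧸ v.asIdeal) | dsc p.1 p.2 = 0}
  have h3 : {p : (𝓞 K ⧸ v.asIdeal) × (𝓞 K ⧸ v.asIdeal) | dsc p.1 p.2 = 0}ᶜ =
      SqO (𝓞 K ⧸ v.asIdeal) := rfl
  rw [h3, Nat.card_prod, hcardk] at h2
  rw [hcardk] at h1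
  have h4 : ((Nv v : ℕ) : ℝ) ≤
      (({p : (𝓞 K ⧸ v.asIdeal) × (𝓞 K ⧸ v.asIdeal) | dsc p.1 p.2 = 0}.ncard : ℕ) : ℝ) := by
    exact_mod_cast h1
  have h5 : (({p : (𝓞 K ⧸ v.asIdeal) × (𝓞 K ⧸ v.asIdeal) | dsc p.1 p.2 = 0}.ncard : ℕ) : ℝ) +
      ((SqO (𝓞 K ⧸ v.asIdeal)).ncard : ℝ) = (Nv v : ℝ) * (Nv v : ℝ) := by
    exact_mod_cast h2
  nlinarith

/-- The pairs with `A = 0`. -/
theorem E8_A (K : Type) [Field K] [NumberField K] {ε : ℝ} (hε : 0 < ε) :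
    ∃ X₀ : ℝ, ∀ X : ℝ, X₀ ≤ X → ({p : 𝓞 K × 𝓞 K | p ∈ Bx K X ∧ p.1 = 0}.ncard : ℝ) ≤
      ε * X ^ (5 * Module.finrank ℚ K) := by
  obtain ⟨C, hC1, hC⟩ := H76PP.coset_upper K
  obtain ⟨n, hn⟩ : ∃ n : ℕ, n = Module.finrank ℚ K := ⟨_, rfl⟩
  have hn1 : 1 ≤ n := by
    rw [hn]
    exact Module.finrank_pos
  rw [← hn] at hC ⊢
  refine ⟨max 1 (2 * C / ε), fun X hX => ?_⟩
  have hX1 : 1 ≤ X := (le_max_left _ _).trans hX
  have hX2 : 2 * C / ε ≤ X := (le_max_right _ _).trans hX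
  have hX0 : 0 < X := by linarith
  have h1 := hC ⊤ top_ne_bot 0 (X ^ 3) (by positivity)
  rw [Ideal.absNorm_top, Nat.cast_one, div_one, ← pow_mul] at h1
  have hfin : {a : 𝓞 K | a ∈ bx K (X ^ 3) ∧ a - 0 ∈ (⊤ : Ideal (𝓞 K))}.Finite :=
    (H76PP.bx_finite K (X ^ 3)).subset fun a ha => ha.1
  have h2 : {p : 𝓞 K × 𝓞 K | p ∈ Bx K X ∧ p.1 = 0}.ncard ≤
      {a : 𝓞 K | a ∈ bx K (X ^ 3) ∧ a - 0 ∈ (⊤ : Ideal (𝓞 K))}.ncard :=
    Set.ncard_le_ncard_of_injOn (fun p : 𝓞 K × 𝓞 K => p.2)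
      (fun p hp => ⟨hp.1.2, Submodule.mem_top⟩)
      (fun p hp p' hp' h => Prod.ext (hp.2.trans hp'.2.symm) h) hfin
  have h3 : (({p : 𝓞 K × 𝓞 K | p ∈ Bx K X ∧ p.1 = 0}.ncard : ℕ) : ℝ) ≤
      C * (X ^ (3 * n) + 1) := (Nat.cast_le.2 h2).trans h1
  have h4 : (1 : ℝ) ≤ X ^ (3 * n) := one_le_pow₀ hX1
  have h5 : X ≤ X ^ (2 * n) := le_self_pow₀ hX1 (by omega)
  have h6 : 2 * C ≤ ε * X ^ (2 * n) := by
    have := (div_le_iff₀ hε).1 (hX2.trans h5)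
    linarith
  calc (({p : 𝓞 K × 𝓞 K | p ∈ Bx K X ∧ p.1 = 0}.ncard : ℕ) : ℝ) ≤ C * (X ^ (3 * n) + 1) := h3
    _ ≤ 2 * C * X ^ (3 * n) := by nlinarith
    _ ≤ (ε * X ^ (2 * n)) * X ^ (3 * n) := mul_le_mul_of_nonneg_right h6 (by positivity)
    _ = ε * X ^ (5 * n) := by
      rw [mul_assoc, ← pow_add]
      congr 2
      ring

theorem mul_count (K : Type) [Field K] [NumberField K] {ε : ℝ} (hε : 0 < ε) :
    ∃ (M : ℕ) (C : ℝ), ∀ V : Finset (HeightOneSpectrum (𝓞 K)),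
      (∀ v ∈ V, (6 : 𝓞 K) ∉ v.asIdeal ∧ M < Nv v) → C ≤ ∑ v ∈ V, 1 / (Nv v : ℝ) →
      ∃ X₀ : ℝ, ∀ X : ℝ, X₀ ≤ X →
        ({p : 𝓞 K × 𝓞 K | p ∈ Bx K X ∧ ∀ v ∈ V, ¬ (dsc p.1 p.2 ∈ v.asIdeal ∧
          dsc p.1 p.2 ∉ v.asIdeal ^ 2)}.ncard : ℝ) ≤ ε * X ^ (5 * Module.finrank ℚ K) := by
  have hε4 : 0 < ε / 4 := by positivity
  obtain ⟨C0, hC0, hLat⟩ := H76PP.coset_upper K
  obtain ⟨M, X1, hT⟩ := tail_bound K (C := C0) (by linarith) hLat hε4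
  obtain ⟨C1, hC1, hcp⟩ := count_prod K
  obtain ⟨X2, h2⟩ := H30OD.nsq_count K hε4
  obtain ⟨X3, h3⟩ := E8_A K hε4
  have hC10 : 0 < C1 := by linarith
  refine ⟨M, Real.log (4 * C1 / ε), fun V hV hC => ?_⟩
  obtain ⟨X4, hX4, h4⟩ := hcp V (fun v => SqO (𝓞 K ⧸ v.asIdeal))
  refine ⟨max (max X1 X2) (max X3 X4), fun X hX => ?_⟩
  have k1 : X1 ≤ X := ((le_max_left _ _).trans (le_max_left _ _)).trans hX
  have k2 : X2 ≤ X := ((le_max_right _ _).trans (le_max_left _ _)).trans hX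
  have k3 : X3 ≤ X := ((le_max_left _ _).trans (le_max_right _ _)).trans hX
  have k4 : X4 ≤ X := ((le_max_right _ _).trans (le_max_right _ _)).trans hX
  have hXpos : 0 < X := by linarith
  have b1 := hT X k1
  have b2 := h2 X k2
  have b3 := h3 X k3
  have b4 := h4 X k4
  obtain ⟨E, hE⟩ : ∃ E : ℝ, E = X ^ (5 * Module.finrank ℚ K) := ⟨_, rfl⟩
  rw [← hE] at b1 b2 b3 b4 ⊢
  have hE0 : 0 < E := by
    rw [hE]
    positivity
  -- the product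
  have hprod : ∏ v ∈ V, (((SqO (𝓞 K ⧸ v.asIdeal)).ncard : ℝ) / (Nv v : ℝ) ^ 2) ≤
      ε / (4 * C1) := by
    have e1 : ∏ v ∈ V, (((SqO (𝓞 K ⧸ v.asIdeal)).ncard : ℝ) / (Nv v : ℝ) ^ 2) ≤
        ∏ v ∈ V, Real.exp (-(1 / (Nv v : ℝ))) := by
      refine Finset.prod_le_prod (fun v _ => by positivity) (fun v hv => ?_)
      obtain ⟨h6, hM⟩ := hV v hv
      have hNv : (0 : ℝ) < (Nv v : ℝ) := by
        have : 0 < Nv v := by omega
        exact_mod_cast this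
      have c1 := E8_card h6
      have c2 := Real.add_one_le_exp (-(1 / (Nv v : ℝ)))
      refine le_trans ?_ c2
      rw [div_le_iff₀ (by positivity)]
      refine c1.trans (le_of_eq ?_)
      field_simp
      ring
    have e2 : ∏ v ∈ V, Real.exp (-(1 / (Nv v : ℝ))) = Real.exp (-∑ v ∈ V, 1 / (Nv v : ℝ)) := by
      rw [← Real.exp_sum, Finset.sum_neg_distrib]
    have e3 : Real.exp (-∑ v ∈ V, 1 / (Nv v : ℝ)) ≤ Real.exp (-Real.log (4 * C1 / ε)) :=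
      Real.exp_le_exp.2 (neg_le_neg hC)
    have e4 : Real.exp (-Real.log (4 * C1 / ε)) = ε / (4 * C1) := by
      rw [Real.exp_neg, Real.exp_log (by positivity), inv_div]
    rw [e2] at e1
    exact e1.trans (e3.trans_eq e4)
  have b4' : ({p : 𝓞 K × 𝓞 K | p ∈ Bx K X ∧ ∀ v ∈ V, rs v.asIdeal p ∈
      SqO (𝓞 K ⧸ v.asIdeal)}.ncard : ℝ) ≤ ε / 4 * E := by
    refine b4.trans ?_
    have c1 : C1 * (∏ v ∈ V, ((SqO (𝓞 K ⧸ v.asIdeal)).ncard : ℝ) / (Nv v : ℝ) ^ 2) ≤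
        C1 * (ε / (4 * C1)) := mul_le_mul_of_nonneg_left hprod hC10.le
    have c2 : C1 * (ε / (4 * C1)) = ε / 4 := by
      field_simp
    rw [c2] at c1
    exact mul_le_mul_of_nonneg_right c1 hE0.le
  -- the union
  have hfin : ∀ s : Set (𝓞 K × 𝓞 K), s ⊆ Bx K X → s.Finite := fun s hs =>
    (H36PP.Bx_finite K X).subset hs
  obtain ⟨S1, hS1⟩ : ∃ S : Set (𝓞 K × 𝓞 K), S = {p : 𝓞 K × 𝓞 K | p ∈ Bx K X ∧ ∀ v ∈ V,
    rs v.asIdeal p ∈ SqO (𝓞 K ⧸ v.asIdeal)} := ⟨_, rfl⟩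
  obtain ⟨S2, hS2⟩ : ∃ S : Set (𝓞 K × 𝓞 K), S = {p : 𝓞 K × 𝓞 K | p ∈ Bx K X ∧
    IsSquare (-(4 * (p.1 : K) ^ 3 + 27 * (p.2 : K) ^ 2))} := ⟨_, rfl⟩
  obtain ⟨S3, hS3⟩ : ∃ S : Set (𝓞 K × 𝓞 K), S = {p : 𝓞 K × 𝓞 K | p ∈ Bx K X ∧ p.1 = 0} :=
    ⟨_, rfl⟩
  rw [← hS1] at b4'
  rw [← hS2] at b2
  rw [← hS3] at b3
  have hsub : {p : 𝓞 K × 𝓞 K | p ∈ Bx K X ∧ ∀ v ∈ V, ¬ (dsc p.1 p.2 ∈ v.asIdeal ∧
      dsc p.1 p.2 ∉ v.asIdeal ^ 2)} ⊆ (S1 ∪ S2) ∪ (S3 ∪ Tail K M X) := by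
    rintro p ⟨hp, hpV⟩
    by_cases hA : p.1 = 0
    · right; left
      rw [hS3]
      exact ⟨hp, hA⟩
    by_cases hd : dsc p.1 p.2 = 0
    · left; right
      rw [hS2]
      refine ⟨hp, ?_⟩
      have e1 : (4 * (p.1 : K) ^ 3 + 27 * (p.2 : K) ^ 2) = ((dsc p.1 p.2 : 𝓞 K) : K) := by
        rw [dsc]
        simp only [map_add, map_mul, map_pow, map_ofNat]
      rw [e1, hd]
      exact ⟨0, by simp⟩
    by_cases hTl : p ∈ Tail K M X
    · right; right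
      exact hTl
    left; left
    rw [hS1]
    refine ⟨hp, fun v hv => ?_⟩
    obtain ⟨h6, hM⟩ := hV v hv
    show dsc (Ideal.Quotient.mk v.asIdeal p.1) (Ideal.Quotient.mk v.asIdeal p.2) ≠ 0
    intro h0
    have e1 : dsc (Ideal.Quotient.mk v.asIdeal p.1) (Ideal.Quotient.mk v.asIdeal p.2) =
        Ideal.Quotient.mk v.asIdeal (dsc p.1 p.2) := by
      rw [dsc, dsc]
      simp only [map_add, map_mul, map_pow, map_ofNat]
    rw [e1, Ideal.Quotient.eq_zero_iff_mem] at h0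
    apply hTl
    refine ⟨hp, hA, hd, v, h6, hM, ?_⟩
    by_contra h5
    exact hpV v hv ⟨h0, h5⟩
  have f1 : S1 ⊆ Bx K X := by
    rw [hS1]
    exact fun p hp => hp.1
  have f2 : S2 ⊆ Bx K X := by
    rw [hS2]
    exact fun p hp => hp.1
  have f3 : S3 ⊆ Bx K X := by
    rw [hS3]
    exact fun p hp => hp.1
  have f4 : Tail K M X ⊆ Bx K X := fun p hp => hp.1
  have hle := Set.ncard_le_ncard hsub (hfin _ (Set.union_subset (Set.union_subset f1 f2)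
    (Set.union_subset f3 f4)))
  have hu1 := Set.ncard_union_le (S1 ∪ S2) (S3 ∪ Tail K M X)
  have hu2 := Set.ncard_union_le S1 S2
  have hu3 := Set.ncard_union_le S3 (Tail K M X)
  have htot : ({p : 𝓞 K × 𝓞 K | p ∈ Bx K X ∧ ∀ v ∈ V, ¬ (dsc p.1 p.2 ∈ v.asIdeal ∧
      dsc p.1 p.2 ∉ v.asIdeal ^ 2)}.ncard : ℝ) ≤
      (S1.ncard : ℝ) + S2.ncard + (S3.ncard + (Tail K M X).ncard) := by
    have := hle.trans (hu1.trans (add_le_add hu2 hu3))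
    exact_mod_cast this
  linarith

end H76GM
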