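import Pool.Agent.H30.OD.De
import Pool.Agent.H88.OD.Fe
import Pool.Agent.H30.MQ.Ch

/-!
Row E9 (project MP_78d38b_GM, density part), about 70 lines: almost all pairs have a discriminant which is not a square in `N`.
As `nsq_count` (Pool/Agent/H30/OD/De.lean) with `H36PP.inf_primes K` replaced by the infinite set of the primes `v`, `6 ∉ v`, which have a place `W` of `N` above `v` with trivial decomposition group / residue degree one and unramified, so that `K_v = N_W`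
(Chebotarev is not needed beyond `H30MQ.frob_infK (K := K) (L := N) 1` : see its statement in Pool/Agent/H30/MQ/Ch.lean, it is used in `exists_out` of H76/GM/Af.lean, and `Zs K N`, `exists_zs` in Pool/Agent/H88/PL/Pa.lean). At such `v`, `p ∈ Pt v` shows that
`-dsc p` is a unit and not a square modulo `v` (`nsq_of_Pt` and its proof: no `s : 𝓞 K` has `-dsc - s^2 ∈ v`), hence not a square modulo `W`, as every integer of `N` is congruent modulo `W` to an integer of `K`: so not a square in `N`.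
-/

set_option autoImplicit false
set_option linter.unusedSectionVars false
open scoped Classical

open WithZero NumberField IsDedekindDomain H38RT Filter Topology
open H76PP H36PP H36MT

namespace H76GM

/-- Typical primes with a trivial Frobenius element show that the discriminant is not a square in `N`. -/
private theorem E9_nsq {K N : Type} [Field K] [NumberField K] [Field N] [NumberField N] [Algebra K N]
    [IsGalois K N] {v : HeightOneSpectrum (𝓞 K)} (h6 : (6 : 𝓞 K) ∉ v.asIdeal)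
    (hF : Pool.Agent.H42.PC.IsFr K N v 1) {p : 𝓞 K × 𝓞 K} (h : p ∈ H36PP.Pt v) :
    ¬ IsSquare (algebraMap K N (-(4 * (p.1 : K) ^ 3 + 27 * (p.2 : K) ^ 2))) := by
  obtain ⟨A, B⟩ := p
  obtain ⟨t, ht, hs⟩ := h
  change t ^ 3 + A * t + B ∈ v.asIdeal at ht
  change ∀ s : 𝓞 K, -3 * t ^ 2 - 4 * A - s ^ 2 ∉ v.asIdeal at hs
  change ¬ IsSquare (algebraMap K N (-(4 * (A : K) ^ 3 + 27 * (B : K) ^ 2)))
  obtain ⟨w, hw, hfr⟩ := hF
  have hmem : ∀ x : 𝓞 K, x ∈ v.asIdeal ↔ algebraMap (𝓞 K) (𝓞 N) x ∈ w.asIdeal := fun x => by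
    have := hw
    exact Ideal.mem_of_liesOver w.asIdeal v.asIdeal x
  have hun : w.asIdeal.under (𝓞 K) = v.asIdeal := hw.over.symm
  have hfr1 : ∀ x : 𝓞 N, x - x ^ Nat.card (𝓞 K ⧸ v.asIdeal) ∈ w.asIdeal := fun x => by
    have h1 := hfr x
    rw [hun] at h1
    have h2 : (MulSemiringAction.toAlgHom (𝓞 K) (𝓞 N) (1 : N ≃ₐ[K] N)) x = x := one_smul _ x
    rw [h2] at h1
    exact h1
  rintro ⟨r, hr⟩
  have hcoe : ∀ x : 𝓞 K, ((algebraMap (𝓞 K) (𝓞 N) x : 𝓞 N) : N) = algebraMap K N (x : K) := fun x => by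
    have h1 : algebraMap (𝓞 N) N (algebraMap (𝓞 K) (𝓞 N) x) = algebraMap (𝓞 K) N x :=
      (IsScalarTower.algebraMap_apply (𝓞 K) (𝓞 N) N x).symm
    have h2 : algebraMap (𝓞 K) N x = algebraMap K N (algebraMap (𝓞 K) K x) :=
      IsScalarTower.algebraMap_apply (𝓞 K) K N x
    exact h1.trans h2
  have hr2 : r ^ 2 = ((algebraMap (𝓞 K) (𝓞 N) (-(4 * A ^ 3 + 27 * B ^ 2)) : 𝓞 N) : N) := by
    have h1 : ((-(4 * A ^ 3 + 27 * B ^ 2) : 𝓞 K) : K) = -((4 * A ^ 3 + 27 * B ^ 2 : 𝓞 K) : K) :=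
      map_neg (algebraMap (𝓞 K) K) _
    have h2 : ((4 * A ^ 3 + 27 * B ^ 2 : 𝓞 K) : K) = 4 * (A : K) ^ 3 + 27 * (B : K) ^ 2 :=
      H36MT.dsc_coe A B
    rw [hcoe, pow_two, ← hr, h1, h2]
  have hint : IsIntegral ℤ r := by
    have h1 : IsIntegral ℤ (r ^ 2) := by
      rw [hr2]
      exact RingOfIntegers.isIntegral_coe _
    exact IsIntegral.of_pow (by norm_num) h1
  obtain ⟨r', hr'⟩ : ∃ r' : 𝓞 N, (r' : N) = r := ⟨⟨r, hint⟩, rfl⟩
  have e1 : r' ^ 2 = algebraMap (𝓞 K) (𝓞 N) (-(4 * A ^ 3 + 27 * B ^ 2)) := by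
    apply RingOfIntegers.ext
    rw [← hr2, ← hr']
    exact map_pow (algebraMap (𝓞 N) N) r' 2
  -- the factorisation of the discriminant
  have e2 : r' ^ 2 - algebraMap (𝓞 K) (𝓞 N) ((-3 * t ^ 2 - 4 * A) * (3 * t ^ 2 + A) ^ 2) ∈ w.asIdeal := by
    have e3 : r' ^ 2 - algebraMap (𝓞 K) (𝓞 N) ((-3 * t ^ 2 - 4 * A) * (3 * t ^ 2 + A) ^ 2) =
        algebraMap (𝓞 K) (𝓞 N) ((t ^ 3 + A * t + B) * (27 * (t ^ 3 + A * t) - 27 * B)) := by
      rw [e1, ← map_sub]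
      congr 1
      ring
    rw [e3]
    exact (hmem _).1 (v.asIdeal.mul_mem_right _ ht)
  have h3 : 3 * t ^ 2 + A ∉ v.asIdeal := by
    intro h3
    apply hs (3 * t)
    have e4 : -3 * t ^ 2 - 4 * A - (3 * t) ^ 2 = (-4) * (3 * t ^ 2 + A) := by ring
    rw [e4]
    exact v.asIdeal.mul_mem_left _ h3
  obtain ⟨u, hu⟩ : ∃ u : 𝓞 K, u * (3 * t ^ 2 + A) - 1 ∈ v.asIdeal := by
    have hmax := v.isMaximal
    obtain ⟨u, y, hy, hu⟩ := hmax.exists_inv h3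
    refine ⟨u, ?_⟩
    have e5 : u * (3 * t ^ 2 + A) - 1 = -y := by rw [← hu]; ring
    rw [e5]
    exact v.asIdeal.neg_mem hy
  -- a square root modulo `w`
  obtain ⟨y, hy⟩ : ∃ y : 𝓞 N, y ^ 2 - algebraMap (𝓞 K) (𝓞 N) (-3 * t ^ 2 - 4 * A) ∈ w.asIdeal := by
    refine ⟨algebraMap (𝓞 K) (𝓞 N) u * r', ?_⟩
    have e6 : (algebraMap (𝓞 K) (𝓞 N) u * r') ^ 2 - algebraMap (𝓞 K) (𝓞 N) (-3 * t ^ 2 - 4 * A) =
        algebraMap (𝓞 K) (𝓞 N) u ^ 2 *
          (r' ^ 2 - algebraMap (𝓞 K) (𝓞 N) ((-3 * t ^ 2 - 4 * A) * (3 * t ^ 2 + A) ^ 2)) +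
        algebraMap (𝓞 K) (𝓞 N) ((-3 * t ^ 2 - 4 * A) * (u * (3 * t ^ 2 + A) + 1) *
          (u * (3 * t ^ 2 + A) - 1)) := by
      simp only [map_mul, map_sub, map_add, map_pow, map_one, map_neg]
      ring
    rw [e6]
    exact w.asIdeal.add_mem (w.asIdeal.mul_mem_left _ e2) ((hmem _).1 (v.asIdeal.mul_mem_left _ hu))
  -- the residue field
  obtain ⟨d, hd⟩ : ∃ d : 𝓞 K, d = -3 * t ^ 2 - 4 * A := ⟨_, rfl⟩
  rw [← hd] at hy hs
  have hmaxv := v.isMaximal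
  let _ : Field (𝓞 K ⧸ v.asIdeal) := Ideal.Quotient.field v.asIdeal
  have : Finite (𝓞 K ⧸ v.asIdeal) := Ideal.finiteQuotientOfFreeOfNeBot v.asIdeal v.ne_bot
  let _ : Fintype (𝓞 K ⧸ v.asIdeal) := Fintype.ofFinite _
  have hd0 : d ∉ v.asIdeal := by
    intro h0
    apply hs 0
    have e7 : d - (0 : 𝓞 K) ^ 2 = d := by ring
    rw [e7]
    exact h0
  have hdq : (Ideal.Quotient.mk v.asIdeal d) ≠ 0 := fun h0 => hd0 (Ideal.Quotient.eq_zero_iff_mem.1 h0)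
  have hchar : ringChar (𝓞 K ⧸ v.asIdeal) ≠ 2 := by
    intro h2
    apply h6
    have h7 : ((2 : ℕ) : 𝓞 K ⧸ v.asIdeal) = 0 := by
      rw [← h2]
      exact ringChar.Nat.cast_ringChar
    have h8 : Ideal.Quotient.mk v.asIdeal ((2 : ℕ) : 𝓞 K) = 0 := by
      rw [map_natCast]
      exact h7
    have h9 := Ideal.Quotient.eq_zero_iff_mem.1 h8
    have e8 : (6 : 𝓞 K) = 3 * ((2 : ℕ) : 𝓞 K) := by norm_num
    rw [e8]
    exact v.asIdeal.mul_mem_left _ h9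
  have hodd : Fintype.card (𝓞 K ⧸ v.asIdeal) % 2 = 1 := FiniteField.odd_card_of_char_ne_two hchar
  obtain ⟨m, hm⟩ : ∃ m : ℕ, Fintype.card (𝓞 K ⧸ v.asIdeal) = 2 * m + 1 := ⟨Fintype.card (𝓞 K ⧸ v.asIdeal) / 2, by omega⟩
  have hm2 : Fintype.card (𝓞 K ⧸ v.asIdeal) / 2 = m := by omega
  have hy0 : y ∉ w.asIdeal := by
    intro h0
    apply hd0
    rw [hmem]
    have e9 : algebraMap (𝓞 K) (𝓞 N) d = y * y - (y ^ 2 - algebraMap (𝓞 K) (𝓞 N) d) := by ring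
    rw [e9]
    exact w.asIdeal.sub_mem (w.asIdeal.mul_mem_left _ h0) hy
  have hpw := w.isPrime
  have hym : y ^ (2 * m) - 1 ∈ w.asIdeal := by
    have h1 := hfr1 y
    rw [Nat.card_eq_fintype_card, hm] at h1
    have e10 : y - y ^ (2 * m + 1) = -(y * (y ^ (2 * m) - 1)) := by
      rw [pow_succ]
      ring
    rw [e10, neg_mem_iff] at h1
    exact (hpw.mem_or_mem h1).resolve_left hy0
  have hdm : d ^ m - 1 ∈ v.asIdeal := by
    rw [hmem]
    have h1 : y ^ (2 * m) - algebraMap (𝓞 K) (𝓞 N) d ^ m ∈ w.asIdeal := by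
      rw [pow_mul]
      obtain ⟨c, hc⟩ := sub_dvd_pow_sub_pow (y ^ 2) (algebraMap (𝓞 K) (𝓞 N) d) m
      rw [hc]
      exact w.asIdeal.mul_mem_right _ hy
    have e11 : algebraMap (𝓞 K) (𝓞 N) (d ^ m - 1) =
        (y ^ (2 * m) - 1) - (y ^ (2 * m) - algebraMap (𝓞 K) (𝓞 N) d ^ m) := by
      rw [map_sub, map_pow, map_one]
      ring
    rw [e11]
    exact w.asIdeal.sub_mem hym h1
  have hsq : IsSquare (Ideal.Quotient.mk v.asIdeal d) := by
    rw [FiniteField.isSquare_iff hchar hdq, hm2, ← map_pow, ← map_one (Ideal.Quotient.mk v.asIdeal)]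
    exact Ideal.Quotient.eq.2 hdm
  obtain ⟨z, hz⟩ := hsq
  obtain ⟨s, rfl⟩ := Ideal.Quotient.mk_surjective z
  apply hs s
  rw [← map_mul] at hz
  have h10 := Ideal.Quotient.eq.1 hz
  rw [pow_two]
  exact h10

theorem nsqN_count (K N : Type) [Field K] [NumberField K] [Field N] [NumberField N] [Algebra K N]
    [IsGalois K N] {ε : ℝ} (hε : 0 < ε) :
    ∃ X₀ : ℝ, ∀ X : ℝ, X₀ ≤ X →
      ({p : 𝓞 K × 𝓞 K | p ∈ Bx K X ∧
        IsSquare (algebraMap K N (-(4 * (p.1 : K) ^ 3 + 27 * (p.2 : K) ^ 2)))}.ncard : ℝ) ≤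
        ε * X ^ (5 * Module.finrank ℚ K) := by
  have h6f : {v : HeightOneSpectrum (𝓞 K) | (6 : 𝓞 K) ∈ v.asIdeal}.Finite :=
    H30MQ.fin_mem (by
      intro h
      have h1 : algebraMap (𝓞 K) K 6 = 0 := by rw [h, map_zero]
      rw [map_ofNat] at h1
      norm_num at h1)
  have hinf : ({v : HeightOneSpectrum (𝓞 K) | ∃ g : N ≃ₐ[K] N,
      Subgroup.zpowers g = Subgroup.zpowers 1 ∧ Pool.Agent.H42.PC.IsFr K N v g} \
      {v : HeightOneSpectrum (𝓞 K) | (6 : 𝓞 K) ∈ v.asIdeal}).Infinite :=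
    (H30MQ.frob_infK (K := K) (L := N) 1).sdiff h6f
  obtain ⟨N₁, h1⟩ := type_count (K := K) hε
  obtain ⟨Z, hZ, hZc⟩ := hinf.exists_subset_card_eq (3 * (N₁ + 1))
  have hZ' : ∀ v ∈ Z, (∃ g : N ≃ₐ[K] N,
      Subgroup.zpowers g = Subgroup.zpowers 1 ∧ Pool.Agent.H42.PC.IsFr K N v g) ∧
      (6 : 𝓞 K) ∉ v.asIdeal := fun v hv => hZ (Finset.mem_coe.2 hv)
  obtain ⟨X₀, -, h2⟩ := h1 Z (N₁ + 1) (Nat.le_succ _) hZc (fun v hv => (hZ' v hv).2)
  refine ⟨X₀, fun X hX => le_trans (Nat.cast_le.2 ?_) (h2 X hX)⟩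
  refine Set.ncard_le_ncard ?_ ((H36PP.Bx_finite K X).subset fun p hp => hp.1)
  rintro p ⟨hp, hsq⟩
  refine ⟨hp, ?_⟩
  rw [Finset.filter_eq_empty_iff.2, Finset.card_empty]
  · exact Nat.succ_pos _
  · intro v hv hpv
    obtain ⟨⟨g, hg, hF⟩, h6⟩ := hZ' v hv
    have hg1 : g = 1 := by
      have h3 : g ∈ Subgroup.zpowers (1 : N ≃ₐ[K] N) := by
        rw [← hg]
        exact Subgroup.mem_zpowers g
      rw [Subgroup.zpowers_one_eq_bot, Subgroup.mem_bot] at h3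
      exact h3
    rw [hg1] at hF
    exact E9_nsq h6 hF hpv hsq

end H76GM
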