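import Pool.Agent.H76.GM.Dl
import Pool.Agent.H76.GM.Af
import Pool.Agent.H30.OR.Tn
import Pool.Agent.H88.PL.Pe

/-!
Project MP_78d38b_GM: the criterion with a set of real places, and the switch.
-/

set_option autoImplicit false
set_option linter.unusedSectionVars false
open scoped Classical

open WithZero NumberField IsDedekindDomain H38RT
open H38T1 (SC sc scu rep eo la si OddP unif)
open H76PP (Cub LC ev scm dn val_le val_one)
open H88OD H26OD H30OD H30ZO H36CY H30OR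

namespace H76GM

/-- `D / D0` is a square at the primes of `S` and positive at the real places outside `R`. -/
structure NearR (K : Type) [Field K] [NumberField K] (S : Finset (HeightOneSpectrum (𝓞 K)))
    (R : Set (K →+* ℝ)) (D0 D : K) : Prop where
  ne : D ≠ 0
  sq : ∀ v ∈ S, IsSquare (algebraMap K (v.adicCompletion K) (D / D0))
  pos : ∀ s : K →+* ℝ, s ∉ R → 0 < s (D / D0)

/-- Infinitely many twists. -/
def ManyR (K M : Type) [Field K] [NumberField K] [Field M] [NumberField M] [Algebra K M]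
    (a b : 𝓞 K) (S : Finset (HeightOneSpectrum (𝓞 K))) (R : Set (K →+* ℝ)) (D0 : K) : Prop :=
  ∃ f : ℕ → K, (∀ n, NearR K S R D0 (f n) ∧ TvB K M a b (f n)) ∧
    ∀ m n, IsSquare (f m * f n) → m = n

section Near

variable {K M : Type} [Field K] [NumberField K] [Field M] [NumberField M] [Algebra K M]
  {a b : 𝓞 K} {S : Finset (HeightOneSpectrum (𝓞 K))} {R : Set (K →+* ℝ)} {D0 D1 D : K}

theorem NearR.trans_rel (h0 : D0 ≠ 0) (h1 : NearR K S R D0 D1) (h : NearR K S R D1 D) :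
    NearR K S R D0 D := by
  have e : D / D0 = D / D1 * (D1 / D0) := by
    have := h1.ne
    field_simp
  refine ⟨h.ne, fun v hv => ?_, fun s hs => ?_⟩
  · rw [e, map_mul]
    exact (h.sq v hv).mul (h1.sq v hv)
  · rw [e, map_mul]
    exact mul_pos (h.pos s hs) (h1.pos s hs)

theorem near_of_rel (h : Rel K S D0 D) : NearR K S R D0 D := ⟨h.n1, h.sq, fun s _ => h.pos s⟩

theorem ManyR.trans (h0 : D0 ≠ 0) (h1 : NearR K S R D0 D1) (h : ManyR K M a b S R D1) :
    ManyR K M a b S R D0 := by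
  obtain ⟨f, g1, g2⟩ := h
  exact ⟨f, fun n => ⟨h1.trans_rel h0 (g1 n).1, (g1 n).2⟩, g2⟩

end Near

variable {K M N : Type} [Field K] [NumberField K] [Field M] [NumberField M] [Field N]
  [NumberField N] [Algebra K M] [Algebra K N] [Algebra M N] [IsScalarTower K M N] {a b : 𝓞 K}

/-- Both parities are even. -/
theorem many_even [IsGalois K N] (hodd : Odd (Module.finrank K M)) (h1 : Module.finrank K M ≠ 1)
    (G : Gen K M N) (hir : ∀ t : K, t ^ 3 + (a : K) * t + (b : K) ≠ 0)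
    (hsqN : ¬ IsSquare (algebraMap K N (-(4 * (a : K) ^ 3 + 27 * (b : K) ^ 2)))) {D0 : K}
    (hD0 : D0 ≠ 0) (hK : EvS K K a b D0) (hM : EvS K M a b D0)
    (S : Finset (HeightOneSpectrum (𝓞 K))) (R : Set (K →+* ℝ)) : ManyR K M a b S R D0 := by
  obtain ⟨f, g1, g2⟩ := crit_many (N := N) hodd h1 G hir hsqN hD0 hK hM S
  exact ⟨f, fun n => ⟨near_of_rel (g1 n).1, (g1 n).2⟩, g2⟩

/-- The parities over `K` and `M` of two twists which are near. -/
theorem par_KM [IsGalois K N] (hodd : Odd (Module.finrank K M))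
    (hir : ∀ t : K, t ^ 3 + (a : K) * t + (b : K) ≠ 0)
    (hsqN : ¬ IsSquare (algebraMap K N (-(4 * (a : K) ^ 3 + 27 * (b : K) ^ 2)))) {D0 D : K}
    {Sg : Finset (HeightOneSpectrum (𝓞 K))} (ok : OkK a b D0 Sg) (hD : D ≠ 0)
    (hsq : ∀ v ∈ Sg, IsSquare (algebraMap K (v.adicCompletion K) (D / D0))) :
    ((EvS K K a b D0 ↔ EvS K K a b D) ↔ Even (Nat.card {s : K →+* ℝ // s (D / D0) < 0})) ∧
    ((EvS K M a b D0 ↔ EvS K M a b D) ↔ Even (Nat.card {s : K →+* ℝ // s (D / D0) < 0})) := by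
  have hsqk : ¬ IsSquare (-(4 * (a : K) ^ 3 + 27 * (b : K) ^ 2)) := fun h =>
    hsqN (h.map (algebraMap K N))
  have hirM := cr_noroot (M := M) hir hsqN
  have hsqM := cr_sq (M := M) hsqN
  have hirK := cr_noroot (M := K) hir hsqN
  have hsqK := cr_sq (M := K) hsqN
  obtain ⟨L0, _, _, _, θ0, ⟨S0⟩⟩ := exists_self (fun v => v.valuation_le_one a)
    (fun v => v.valuation_le_one b) hir ok.dne hsqk
  obtain ⟨LM, _, _, _, _, U, ⟨S⟩⟩ := exists_upM S0 hirM hsqM
  obtain ⟨LK, _, _, _, _, UK, ⟨SK⟩⟩ := exists_upM S0 hirK hsqK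
  refine ⟨?_, ?_⟩
  · rw [evS_iff SK ok.ne, evS_iff SK hD]
    exact H30OR.par_M (by rw [Module.finrank_self]; exact odd_one) SK ok hD hsq
  · rw [evS_iff S ok.ne, evS_iff S hD]
    exact H30OR.par_M hodd S ok hD hsq

/-- **The parities over `K` and `M` are the same and there is a real place.** -/
theorem many_real [IsGalois K N] (hodd : Odd (Module.finrank K M)) (h1 : Module.finrank K M ≠ 1)
    (G : Gen K M N) (hir : ∀ t : K, t ^ 3 + (a : K) * t + (b : K) ≠ 0)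
    (hsqN : ¬ IsSquare (algebraMap K N (-(4 * (a : K) ^ 3 + 27 * (b : K) ^ 2)))) {D0 : K}
    (hD0 : D0 ≠ 0) (hKM : EvS K K a b D0 ↔ EvS K M a b D0)
    (S : Finset (HeightOneSpectrum (𝓞 K))) {R : Set (K →+* ℝ)} (hR : R.Nonempty) :
    ManyR K M a b S R D0 := by
  by_cases hK : EvS K K a b D0
  · exact many_even (N := N) hodd h1 G hir hsqN hD0 hK (hKM.1 hK) S R
  have hM : ¬ EvS K M a b D0 := fun h => hK (hKM.2 h)
  have hsqk : ¬ IsSquare (-(4 * (a : K) ^ 3 + 27 * (b : K) ^ 2)) := fun h =>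
    hsqN (h.map (algebraMap K N))
  have hne : 4 * (a : K) ^ 3 + 27 * (b : K) ^ 2 ≠ 0 := by
    intro h0
    apply hsqk
    rw [h0, neg_zero]
    exact ⟨0, (mul_zero 0).symm⟩
  obtain ⟨s0, hs0⟩ := hR
  obtain ⟨Sg, hle, ok, -⟩ := exists_okK hne hD0 S
  obtain ⟨δ, hδ, h2, h3, h4, -⟩ := H88PL.exists_sign (K := K) (N := K) (ι := Unit) (fun _ => a)
    (fun _ => b) (fun _ => hir) (fun I hI => by
      have hI1 : I = {()} := by
        obtain ⟨x, hx⟩ := hI
        ext y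
        simp only [Finset.mem_singleton, iff_true]
        exact hx
      rw [hI1, Finset.prod_singleton]
      exact hsqk) s0 Sg
  have hD1 : D0 * δ ≠ 0 := mul_ne_zero hD0 hδ
  have e : D0 * δ / D0 = δ := mul_div_cancel_left₀ _ hD0
  obtain ⟨p1, p2⟩ := par_KM (M := M) (N := N) hodd hir hsqN ok hD1 (fun v hv => by
    rw [e]
    exact h2 v hv)
  have hcard : Nat.card {s : K →+* ℝ // s (D0 * δ / D0) < 0} = 1 := by
    rw [e, Nat.card_eq_one_iff_unique]
    refine ⟨⟨fun x y => ?_⟩, ⟨⟨s0, h3⟩⟩⟩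
    have hx : ∀ x : {s : K →+* ℝ // s δ < 0}, x.1 = s0 := fun x => by
      by_contra hne
      exact lt_asymm x.2 (h4 x.1 hne)
    exact Subtype.ext ((hx x).trans (hx y).symm)
  rw [hcard] at p1 p2
  have q1 : EvS K K a b (D0 * δ) := by
    by_contra hc
    exact absurd (p1.1 (iff_of_false hK hc)) (by decide)
  have q2 : EvS K M a b (D0 * δ) := by
    by_contra hc
    exact absurd (p2.1 (iff_of_false hM hc)) (by decide)
  refine ManyR.trans hD0 ⟨hD1, fun v hv => ?_, fun s hs => ?_⟩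
    (many_even (N := N) hodd h1 G hir hsqN hD1 q1 q2 S R)
  · rw [e]
    exact h2 v (hle hv)
  · rw [e]
    exact h4 s fun h => hs (by rw [h]; exact hs0)

/-- **The converse.** -/
theorem conv_R [IsGalois K N] (hodd : Odd (Module.finrank K M))
    (hir : ∀ t : K, t ^ 3 + (a : K) * t + (b : K) ≠ 0)
    (hsqN : ¬ IsSquare (algebraMap K N (-(4 * (a : K) ^ 3 + 27 * (b : K) ^ 2)))) {D0 : K}
    (hD0 : D0 ≠ 0) (R : Set (K →+* ℝ)) :
    ∃ S0 : Finset (HeightOneSpectrum (𝓞 K)), ∀ D, NearR K S0 R D0 D → TvB K M a b D →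
      (EvS K K a b D0 ∧ EvS K M a b D0) ∨ (R.Nonempty ∧ (EvS K K a b D0 ↔ EvS K M a b D0)) := by
  have hsqk : ¬ IsSquare (-(4 * (a : K) ^ 3 + 27 * (b : K) ^ 2)) := fun h =>
    hsqN (h.map (algebraMap K N))
  have hne : 4 * (a : K) ^ 3 + 27 * (b : K) ^ 2 ≠ 0 := by
    intro h0
    apply hsqk
    rw [h0, neg_zero]
    exact ⟨0, (mul_zero 0).symm⟩
  obtain ⟨Sg, -, ok, -⟩ := exists_okK hne hD0 ∅
  refine ⟨Sg, fun D h ht => ?_⟩
  obtain ⟨S1, hS1⟩ := crit_conv (M := M) (N := N) hir hsqN (D0 := D) h.ne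
  obtain ⟨e1, e2⟩ := hS1 D ⟨h.ne, h.ne, fun v _ => by
    rw [div_self h.ne, map_one]
    exact ⟨1, (mul_one 1).symm⟩, fun s => by
    rw [div_self h.ne, map_one]
    exact one_pos⟩ ht
  obtain ⟨p1, p2⟩ := par_KM (M := M) (N := N) hodd hir hsqN ok h.ne h.sq
  rcases R.eq_empty_or_nonempty with hR | hR
  · left
    have hcard : Nat.card {s : K →+* ℝ // s (D / D0) < 0} = 0 := by
      have : IsEmpty {s : K →+* ℝ // s (D / D0) < 0} :=
        ⟨fun s => lt_asymm s.2 (h.pos s.1 (by rw [hR]; exact Set.notMem_empty _))⟩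
      exact Nat.card_of_isEmpty
    rw [hcard] at p1 p2
    exact ⟨(p1.2 Even.zero).2 e1, (p2.2 Even.zero).2 e2⟩
  · right
    refine ⟨hR, ?_⟩
    have q1 : EvS K K a b D0 ↔ Even (Nat.card {s : K →+* ℝ // s (D / D0) < 0}) := by
      rw [← p1]
      exact ⟨fun h => iff_of_true h e1, fun h => h.2 e1⟩
    have q2 : EvS K M a b D0 ↔ Even (Nat.card {s : K →+* ℝ // s (D / D0) < 0}) := by
      rw [← p2]
      exact ⟨fun h => iff_of_true h e2, fun h => h.2 e2⟩
    rw [q1, q2]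

/-- **The switch.** -/
theorem many_mul [IsGalois K N] (hodd : Odd (Module.finrank K M)) (h1 : Module.finrank K M ≠ 1)
    (G : Gen K M N) (hir : ∀ t : K, t ^ 3 + (a : K) * t + (b : K) ≠ 0)
    (hsqN : ¬ IsSquare (algebraMap K N (-(4 * (a : K) ^ 3 + 27 * (b : K) ^ 2))))
    {v : HeightOneSpectrum (𝓞 K)} (hv : MulM M a b v) {P : Finset (HeightOneSpectrum (𝓞 M))}
    (hP : ∀ w, w ∈ P ↔ dn K w = v)
    (hPo : Odd (P.filter fun w => Even (w.asIdeal.inertiaDeg (𝓞 K))).card) {D0 : K} (hD0 : D0 ≠ 0)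
    (S : Finset (HeightOneSpectrum (𝓞 K))) (hvS : v ∉ S) :
    (∀ R : Set (K →+* ℝ), R.Nonempty → ManyR K M a b S R D0) ∧
    ∀ v', v' ≠ v → v' ∉ S → MulM M a b v' → ∀ R : Set (K →+* ℝ), ManyR K M a b S R D0 := by
  have hirM := cr_noroot (M := M) hir hsqN
  have hsqM := cr_sq (M := M) hsqN
  refine ⟨fun R hR => ?_, fun v' hne hv'S hv' R => ?_⟩
  · obtain ⟨D, h2, -, h3⟩ := switch_one hirM hsqM hv hP hPo hD0 S ∅ hvS
      (Finset.disjoint_empty_left _) (Finset.notMem_empty _)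
    exact ManyR.trans hD0 (near_of_rel h2) (many_real (N := N) hodd h1 G hir hsqN h2.n1 h3 S hR)
  · obtain ⟨D, h2, h3, h4⟩ := switch_one hirM hsqM hv hP hPo hD0 S {v'} hvS
      (Finset.disjoint_singleton_left.2 hv'S) (by
        rw [Finset.mem_singleton]
        exact fun h => hne h.symm)
    obtain ⟨D1, h5, h6, h7⟩ := switch_two hodd hirM hsqM hv' h2.n1 S hv'S
      (h3 v' (Finset.mem_singleton_self _)) h4
    exact ManyR.trans hD0 (near_of_rel (h2.trans h5))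
      (many_even (N := N) hodd h1 G hir hsqN h5.n1 h6 h7 S R)

end H76GM
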