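import Pool.Agent.H76.GM.Fa

/-!
Project MP_78d38b_GM: equal parities over `K` and `M` and one prime of order one.
-/

set_option autoImplicit false
set_option linter.unusedSectionVars false
open scoped Classical

open WithZero NumberField IsDedekindDomain H38RT
open H38T1 (SC sc scu rep eo la si OddP unif)
open H76PP (Cub LC ev scm dn val_le val_one)
open H88OD H26OD H30OD H30ZO H36CY H30OR

namespace H76GM

variable {K M N : Type} [Field K] [NumberField K] [Field M] [NumberField M] [Field N]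
  [NumberField N] [Algebra K M] [Algebra K N] [Algebra M N] [IsScalarTower K M N] {a b : 𝓞 K}
  {v : HeightOneSpectrum (𝓞 K)}

/-- An element of given even order at `v`. -/
theorem exists_even_ord (v : HeightOneSpectrum (𝓞 K)) (j : ℤ) :
    ∃ z : K, z ≠ 0 ∧ v.valuation K z = exp j := by
  obtain ⟨π, hπ⟩ := v.valuation_exists_uniformizer K
  have h0 : π ≠ 0 := by
    intro h
    rw [h, map_zero] at hπ
    exact exp_ne_zero hπ.symm
  refine ⟨π ^ (-j), zpow_ne_zero _ h0, ?_⟩
  rw [map_zpow₀, hπ, ← exp_zsmul]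
  congr 1
  simp

/-- The parities do not change if the quotient is a square at the primes of `Sg` and positive. -/
theorem par_same [IsGalois K N] (hodd : Odd (Module.finrank K M))
    (hir : ∀ t : K, t ^ 3 + (a : K) * t + (b : K) ≠ 0)
    (hsqN : ¬ IsSquare (algebraMap K N (-(4 * (a : K) ^ 3 + 27 * (b : K) ^ 2)))) {D0 D : K}
    {Sg : Finset (HeightOneSpectrum (𝓞 K))} (ok : OkK a b D0 Sg) (hD : D ≠ 0)
    (hsq : ∀ v ∈ Sg, IsSquare (algebraMap K (v.adicCompletion K) (D / D0)))
    (hpos : ∀ s : K →+* ℝ, 0 < s (D / D0)) :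
    (EvS K K a b D0 ↔ EvS K K a b D) ∧ (EvS K M a b D0 ↔ EvS K M a b D) := by
  obtain ⟨p1, p2⟩ := par_KM (M := M) (N := N) hodd hir hsqN ok hD hsq
  have hcard : Nat.card {s : K →+* ℝ // s (D / D0) < 0} = 0 := by
    have : IsEmpty {s : K →+* ℝ // s (D / D0) < 0} :=
      ⟨fun s => lt_asymm s.2 (hpos s.1)⟩
    exact Nat.card_of_isEmpty
  rw [hcard] at p1 p2
  exact ⟨p1.2 Even.zero, p2.2 Even.zero⟩

/-- There is a twist which is a unit at `v` and has the same relation of the parities. -/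
theorem to_unit [IsGalois K N] (hodd : Odd (Module.finrank K M))
    (hir : ∀ t : K, t ^ 3 + (a : K) * t + (b : K) ≠ 0)
    (hsqN : ¬ IsSquare (algebraMap K N (-(4 * (a : K) ^ 3 + 27 * (b : K) ^ 2))))
    (hv : MulM M a b v) {P : Finset (HeightOneSpectrum (𝓞 M))} (hP : ∀ w, w ∈ P ↔ dn K w = v)
    (hPe : Even (P.filter fun w => Even (w.asIdeal.inertiaDeg (𝓞 K))).card) {D0 : K}
    (hD0 : D0 ≠ 0) (S : Finset (HeightOneSpectrum (𝓞 K))) (hvS : v ∉ S) :
    ∃ D : K, Rel K S D0 D ∧ v.valuation K D = 1 ∧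
      ((EvS K K a b D0 ↔ EvS K K a b D) ↔ (EvS K M a b D0 ↔ EvS K M a b D)) := by
  have hirM := cr_noroot (M := M) hir hsqN
  have hsqM := cr_sq (M := M) hsqN
  have hirk := cr_noroot (M := K) hir hsqN
  have hsqk := cr_sq (M := K) hsqN
  have hne : 4 * (a : K) ^ 3 + 27 * (b : K) ^ 2 ≠ 0 := by
    intro h0
    have h1 := hv.hd
    rw [h0, map_zero] at h1
    exact exp_ne_zero h1.symm
  obtain ⟨k, hk⟩ : ∃ k : ℤ, v.valuation K D0 = exp k :=
    ⟨_, (exp_log ((v.valuation K).ne_zero_iff.2 hD0)).symm⟩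
  rcases Int.even_or_odd' k with ⟨j, hj | hj⟩
  · obtain ⟨z, hz0, hz⟩ := exists_even_ord v (-j)
    have e : D0 * z ^ 2 / D0 = z ^ 2 := mul_div_cancel_left₀ _ hD0
    have hD1 : D0 * z ^ 2 ≠ 0 := mul_ne_zero hD0 (pow_ne_zero 2 hz0)
    have hsq : ∀ u : HeightOneSpectrum (𝓞 K),
        IsSquare (algebraMap K (u.adicCompletion K) (D0 * z ^ 2 / D0)) := fun u => by
      rw [e, map_pow]
      exact ⟨_, pow_two _⟩
    have hpos : ∀ s : K →+* ℝ, 0 < s (D0 * z ^ 2 / D0) := fun s => by
      rw [e, map_pow]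
      exact lt_of_le_of_ne (sq_nonneg _) (Ne.symm (pow_ne_zero 2 ((map_ne_zero s).2 hz0)))
    obtain ⟨Sg, -, ok, -⟩ := exists_okK hne hD0 S
    obtain ⟨p1, p2⟩ := par_same (M := M) (N := N) hodd hir hsqN ok hD1 (fun u _ => hsq u) hpos
    refine ⟨D0 * z ^ 2, ⟨hD0, hD1, fun u _ => hsq u, hpos⟩, ?_, iff_of_true p1 p2⟩
    rw [map_mul, map_pow, hk, hz, ← exp_nsmul, ← exp_add, hj]
    simp
  · obtain ⟨z, hz0, hz⟩ := exists_even_ord v (-j)
    obtain ⟨Sg, hle, ok, -⟩ := exists_okK hne hD0 (insert v S)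
    obtain ⟨y, hy0, hyp, hys, hyv, r, hr0, hr⟩ := exists_al Sg
      (x := (4 * (a : K) ^ 3 + 27 * (b : K) ^ 2) * z ^ 2)
      (mul_ne_zero hne (pow_ne_zero 2 hz0)) v
    have hD1 : D0 * y ≠ 0 := mul_ne_zero hD0 hy0
    have hDv : v.valuation K (D0 * y) = 1 := by
      rw [map_mul, hyv, map_mul, map_pow, hk, hz, hv.hd, ← exp_nsmul, ← exp_add, ← exp_add, hj]
      simp
    obtain ⟨Sg1, hle1, ok1, -⟩ := exists_okK hne hD1 (insert v Sg)
    obtain ⟨α, hα0, hαp, hαs, -, r', hr0', hr'⟩ := exists_al Sg1 hne v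
    have hvSg1 : v ∈ Sg1 := hle1 (Finset.mem_insert_self _ _)
    have hαd : IsSquare (algebraMap K (v.adicCompletion K)
        (α * (4 * (a : K) ^ 3 + 27 * (b : K) ^ 2))) := by
      rw [map_mul, hr']
      exact ⟨algebraMap K (v.adicCompletion K) (4 * (a : K) ^ 3 + 27 * (b : K) ^ 2) * r', by ring⟩
    have hW : Sw M a b (D0 * y) α Sg1 v :=
      ⟨ok1, hα0, hαp, hvSg1, fun u hu huv => (hαs u hu huv).1, hv.h2, hv.h3, hv.hd, hDv, hv.ur⟩
    have hWK : Sw K a b (D0 * y) α Sg1 v :=
      ⟨ok1, hα0, hαp, hvSg1, fun u hu huv => (hαs u hu huv).1, hv.h2, hv.h3, hv.hd, hDv,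
        hv.self.ur⟩
    have hD2 : D0 * y * α ≠ 0 := mul_ne_zero hD1 hα0
    have e : D0 * y * α / D0 = y * α := by field_simp
    obtain ⟨p1, p2⟩ := par_same (M := M) (N := N) hodd hir hsqN ok hD2 (fun u hu => by
        rw [e, map_mul]
        by_cases huv : u = v
        · subst huv
          rw [hr, hr', map_mul, map_pow]
          exact ⟨algebraMap K (u.adicCompletion K) (4 * (a : K) ^ 3 + 27 * (b : K) ^ 2) *
            algebraMap K (u.adicCompletion K) z * r * r', by ring⟩
        · exact (hys u hu huv).1.mul (hαs u (hle1 (Finset.mem_insert_of_mem hu)) huv).1)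
      (fun s => by
        rw [e, map_mul]
        exact mul_pos (hyp s) (hαp s))
    obtain ⟨hA, hB⟩ := AB_unit hv.h2 hv.h3 hv.hd
    have hxv : v.valuation K (-2 * (a : K) * b * (D0 * y)) = 1 := by
      rw [map_mul, map_mul, map_mul, Valuation.map_neg, hv.h2, hA, hB, hDv, one_mul, one_mul,
        one_mul]
    have hM := hW.parA hirM hsqM hP hαd
    have hK := hWK.parA hirk hsqk (P := {v}) (fun w => by
      rw [Finset.mem_singleton, dn_self]) hαd
    refine ⟨D0 * y, ⟨hD0, hD1, fun u hu => ?_, fun s => ?_⟩, hDv, ?_⟩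
    · rw [mul_div_cancel_left₀ _ hD0]
      exact (hys u (hle (Finset.mem_insert_of_mem hu)) (fun h => hvS (h ▸ hu))).1
    · rw [mul_div_cancel_left₀ _ hD0]
      exact hyp s
    · by_cases hs : IsSquare (algebraMap K (v.adicCompletion K) (-2 * (a : K) * b * (D0 * y)))
      · have hf : (P.filter fun w => IsSquare (algebraMap M (w.adicCompletion M)
            (algebraMap K M (-2 * a * b * (D0 * y))))) = P := by
          refine Finset.filter_true_of_mem fun w hw => sq_up ?_
          rw [(hP w).1 hw]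
          exact hs
        rw [hf] at hM
        have h3 := Finset.card_filter_add_card_filter_not (s := P)
          (fun w => Even (w.asIdeal.inertiaDeg (𝓞 K)))
        have h4 : Odd P.card := by
          rw [← h3]
          exact hPe.add_odd (odd_deg hodd hv.ur hP)
        have hfK : (({v} : Finset (HeightOneSpectrum (𝓞 K))).filter fun w =>
            IsSquare (algebraMap K (w.adicCompletion K)
              (algebraMap K K (-2 * a * b * (D0 * y))))) = {v} := by
          refine Finset.filter_true_of_mem fun w hw => ?_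
          rw [Finset.mem_singleton] at hw
          subst hw
          exact hs
        rw [hfK, Finset.card_singleton] at hK
        have q1 : ¬ (EvS K M a b (D0 * y) ↔ EvS K M a b (D0 * y * α)) := fun h =>
          (Nat.not_even_iff_odd.2 h4) (hM.1 h)
        have q2 : ¬ (EvS K K a b (D0 * y) ↔ EvS K K a b (D0 * y * α)) := fun h =>
          absurd (hK.1 h) (by decide)
        rw [p1, p2]
        exact iff_of_false (fun h => q2 h.symm) (fun h => q1 h.symm)
      · have hf : (P.filter fun w => IsSquare (algebraMap M (w.adicCompletion M)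
            (algebraMap K M (-2 * a * b * (D0 * y))))) =
            P.filter fun w => Even (w.asIdeal.inertiaDeg (𝓞 K)) :=
          Finset.filter_congr fun w hw => sq_iff_deg hv.h2 ((hP w).1 hw) hxv hs
        rw [hf] at hM
        have hfK : (({v} : Finset (HeightOneSpectrum (𝓞 K))).filter fun w =>
            IsSquare (algebraMap K (w.adicCompletion K)
              (algebraMap K K (-2 * a * b * (D0 * y))))) = ∅ := by
          refine Finset.filter_eq_empty_iff.2 fun w hw => ?_
          rw [Finset.mem_singleton] at hw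
          subst hw
          exact hs
        rw [hfK, Finset.card_empty] at hK
        have q1 := hM.2 hPe
        have q2 := hK.2 Even.zero
        rw [p1, p2]
        exact iff_of_true q2.symm q1.symm

private theorem four {p q r s : Prop} (h1 : p ↔ q) (h2 : (p ↔ r) ↔ (q ↔ s)) : r ↔ s := by
  tauto

/-- **Equal parities.** -/
theorem many_same [IsGalois K N] (hodd : Odd (Module.finrank K M)) (h1 : Module.finrank K M ≠ 1)
    (G : Gen K M N) (hir : ∀ t : K, t ^ 3 + (a : K) * t + (b : K) ≠ 0)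
    (hsqN : ¬ IsSquare (algebraMap K N (-(4 * (a : K) ^ 3 + 27 * (b : K) ^ 2))))
    (hv : MulM M a b v) {P : Finset (HeightOneSpectrum (𝓞 M))} (hP : ∀ w, w ∈ P ↔ dn K w = v)
    (hPe : Even (P.filter fun w => Even (w.asIdeal.inertiaDeg (𝓞 K))).card) {D0 : K}
    (hD0 : D0 ≠ 0) (S : Finset (HeightOneSpectrum (𝓞 K))) (hvS : v ∉ S)
    (hKM : EvS K K a b D0 ↔ EvS K M a b D0) (R : Set (K →+* ℝ)) : ManyR K M a b S R D0 := by
  have hirM := cr_noroot (M := M) hir hsqN
  have hsqM := cr_sq (M := M) hsqN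
  obtain ⟨D, h2, h3, h4⟩ := to_unit (N := N) hodd hir hsqN hv hP hPe hD0 S hvS
  obtain ⟨D1, h5, h6, h7⟩ := switch_two hodd hirM hsqM hv h2.n1 S hvS h3 (four hKM h4)
  exact ManyR.trans hD0 (near_of_rel (h2.trans h5))
    (many_even (N := N) hodd h1 G hir hsqN h5.n1 h6 h7 S R)

end H76GM
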