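import Pool.Agent.H76.GM.Fa
import Pool.Agent.H76.GM.E4
import Pool.Agent.H76.GM.E7
import Pool.Agent.H76.GM.E8
import Pool.Agent.H76.GM.E9
import Pool.Agent.H30.OD.De
import Pool.Agent.H30.PN.Fi

/-!
Project MP_78d38b_GM: almost all curves have two primes of the switch outside `S`.
-/

set_option autoImplicit false
set_option linter.unusedSectionVars false
open scoped Classical

open WithZero NumberField IsDedekindDomain H38RT
open H76PP (dn Nv)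
open H76PP (Bx)
open H88OD H26OD H30OD H30ZO H36CY H30OR

namespace H76GM

variable {K M N : Type} [Field K] [NumberField K] [Field M] [NumberField M] [Field N]
  [NumberField N] [Algebra K M] [Algebra K N] [Algebra M N] [IsScalarTower K M N]

/-- The conditions at `v` in terms of ideals. -/
theorem mul_of {v : HeightOneSpectrum (𝓞 K)} (h6 : (6 : 𝓞 K) ∉ v.asIdeal) {a b : 𝓞 K}
    (h1 : 4 * a ^ 3 + 27 * b ^ 2 ∈ v.asIdeal) (h2 : 4 * a ^ 3 + 27 * b ^ 2 ∉ v.asIdeal ^ 2)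
    (ur : ∀ w : HeightOneSpectrum (𝓞 M), dn K w = v → ∀ x : K, x ≠ 0 →
      ord (w.valuation M) (algebraMap K M x) = ord (v.valuation K) x) : MulM M a b v := by
  have e2 : v.valuation K (2 : K) = 1 := by
    have h : (2 : 𝓞 K) ∉ v.asIdeal := fun h => h6 (by
      have e : (6 : 𝓞 K) = 3 * 2 := by norm_num
      rw [e]
      exact v.asIdeal.mul_mem_left _ h)
    have h3 := (v.valuation_eq_one_iff_notMem (K := K)).2 h
    rwa [map_ofNat] at h3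
  have e3 : v.valuation K (3 : K) = 1 := by
    have h : (3 : 𝓞 K) ∉ v.asIdeal := fun h => h6 (by
      have e : (6 : 𝓞 K) = 2 * 3 := by norm_num
      rw [e]
      exact v.asIdeal.mul_mem_left _ h)
    have h3 := (v.valuation_eq_one_iff_notMem (K := K)).2 h
    rwa [map_ofNat] at h3
  refine ⟨e2, e3, ?_, ur⟩
  rw [← H36MT.dsc_coe, v.valuation_of_algebraMap]
  apply le_antisymm
  · have h3 := (v.intValuation_le_pow_iff_mem (4 * a ^ 3 + 27 * b ^ 2) 1).2 (by rwa [pow_one])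
    simpa using h3
  · by_contra hc
    rw [not_le] at hc
    apply h2
    rw [← v.intValuation_le_pow_iff_mem]
    have h4 : 4 * a ^ 3 + 27 * b ^ 2 ≠ 0 := fun h => h2 (by
      rw [h]
      exact Ideal.zero_mem _)
    have h5 := v.intValuation_if_neg h4
    rw [h5] at hc ⊢
    rw [exp_lt_exp] at hc
    rw [exp_le_exp]
    push_cast
    omega

/-- The switch at the places where the Frobenius element is an odd permutation. -/
theorem mul_frob [IsGalois K N] {v : HeightOneSpectrum (𝓞 K)}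
    (hr : ∀ W : HeightOneSpectrum (𝓞 N), dn K W = v → ¬ H73P2.Ram K W)
    (hs : ∀ W : HeightOneSpectrum (𝓞 N), dn K W = v → ∀ φ : N ≃ₐ[K] N, Frb K W φ →
      Equiv.Perm.sign (pm K M N φ) ≠ 1) {P : Finset (HeightOneSpectrum (𝓞 M))}
    (hP : ∀ w, w ∈ P ↔ dn K w = v) :
    Odd (P.filter fun w => Even (w.asIdeal.inertiaDeg (𝓞 K))).card := by
  obtain ⟨W, hW⟩ := H76PP.exists_above (L := N) v
  obtain ⟨φ, hφ1, hφ2⟩ := H36O2.exists_frob (K := K) W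
  have hφ : Frb K W φ := ⟨hφ1, hφ2⟩
  refine odd_places hr hW hφ ?_ hP
  rcases Int.units_eq_one_or (Equiv.Perm.sign (pm K M N φ)) with h | h
  · exact absurd h (hs W hW φ hφ)
  · exact h

/-- **Almost all curves.** -/
theorem dens [IsGalois K N] (hodd : Odd (Module.finrank K M)) (h1 : Module.finrank K M ≠ 1)
    (G : Gen K M N) {g : N ≃ₐ[K] N} (hg : Equiv.Perm.sign (pm K M N g) ≠ 1)
    (S : Finset (HeightOneSpectrum (𝓞 K))) {ε : ℝ} (hε : 0 < ε) :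
    ∃ X₀ : ℝ, ∀ X : ℝ, X₀ ≤ X →
      ({p : 𝓞 K × 𝓞 K | p ∈ Bx K X ∧ ¬ ((∀ t : K, t ^ 3 + (p.1 : K) * t + (p.2 : K) ≠ 0) ∧
        ¬ IsSquare (algebraMap K N (-(4 * (p.1 : K) ^ 3 + 27 * (p.2 : K) ^ 2))) ∧
        ∀ D0 : K, D0 ≠ 0 → ∀ R : Set (K →+* ℝ), ManyR K M p.1 p.2 S R D0)}.ncard : ℝ) ≤
        ε * ((Bx K X).ncard : ℝ) := by
  obtain ⟨c, X₁, hc, hlow⟩ := H36MT.class_lower (K := K) (m := ⊤) top_ne_bot
  obtain ⟨M₀, C, hm⟩ := mul_count K (ε := ε / 4 * c) (by positivity)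
  obtain ⟨DD, X₂, -, h2⟩ := H30OD.de_A K (m := ⊤) top_ne_bot (ε := ε / 4) (by positivity)
  obtain ⟨X₃, h3⟩ := nsqN_count K N (ε := ε / 4 * c) (by positivity)
  -- the excluded primes
  obtain ⟨S1, hS1⟩ : ∃ S1 : Finset (HeightOneSpectrum (𝓞 K)), ∀ v, v ∈ S1 ↔
      (v ∈ S ∨ (∃ W : HeightOneSpectrum (𝓞 N), dn K W = v ∧ H73P2.Ram K W)) ∨
        ((6 : 𝓞 K) ∈ v.asIdeal ∨ ¬ M₀ < Nv v) := by
    have hf1 : {v : HeightOneSpectrum (𝓞 K) | ¬ (M₀ + 1) ≤ Nv v}.Finite :=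
      H76PP.fin_norm K (M₀ + 1)
    have hf2 : {v : HeightOneSpectrum (𝓞 K) | (6 : 𝓞 K) ∈ v.asIdeal}.Finite := by
      refine (H36PP.nv_finite K (Ideal.absNorm (Ideal.span {(6 : 𝓞 K)}) : ℝ)).subset
        fun v hv => ?_
      have h6 : (6 : 𝓞 K) ≠ 0 := by norm_num
      have h7 : v.asIdeal ∣ Ideal.span {(6 : 𝓞 K)} :=
        Ideal.dvd_span_singleton.2 hv
      have h8 : Ideal.absNorm v.asIdeal ∣ Ideal.absNorm (Ideal.span {(6 : 𝓞 K)}) :=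
        map_dvd Ideal.absNorm h7
      have h9 : 0 < Ideal.absNorm (Ideal.span {(6 : 𝓞 K)}) := by
        refine Nat.pos_of_ne_zero ?_
        rw [Ne, Ideal.absNorm_eq_zero_iff, Ideal.span_singleton_eq_bot]
        exact h6
      exact_mod_cast Nat.le_of_dvd h9 h8
    have hf3 : {v : HeightOneSpectrum (𝓞 K) | ∃ W : HeightOneSpectrum (𝓞 N),
        dn K W = v ∧ H73P2.Ram K W}.Finite :=
      ((H30PN.ram_fin K N).image (dn K)).subset fun v hv => by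
        obtain ⟨W, hW1, hW2⟩ := hv
        exact ⟨W, hW2, hW1⟩
    refine ⟨((S.finite_toSet.union hf3).union (hf2.union hf1)).toFinset, fun v => ?_⟩
    rw [Set.Finite.mem_toFinset]
    simp only [Set.mem_union, Finset.mem_coe, Set.mem_ofPred_eq, Nat.succ_le_iff]
  obtain ⟨χ, hχ⟩ : ∃ χ : (N ≃ₐ[K] N) →* ℤˣ, ∀ φ, χ φ = Equiv.Perm.sign (pm K M N φ) :=
    ⟨Equiv.Perm.sign.comp (pm K M N), fun φ => rfl⟩
  have hχg : χ g ≠ 1 := by
    rw [hχ]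
    exact hg
  obtain ⟨F1, f1, f2⟩ := div_chi χ hχg S1.finite_toSet C
  obtain ⟨F2, f3, f4⟩ := div_chi χ hχg (S1.finite_toSet.union F1.finite_toSet) C
  -- the properties of the primes
  have key : ∀ (v : HeightOneSpectrum (𝓞 K)), v ∉ S1 → (∀ W : HeightOneSpectrum (𝓞 N),
      dn K W = v → ∀ φ : N ≃ₐ[K] N, Frb K W φ → χ φ ≠ 1) →
      v ∉ S ∧ ((6 : 𝓞 K) ∉ v.asIdeal ∧ M₀ < Nv v) ∧
      (∀ w : HeightOneSpectrum (𝓞 M), dn K w = v → ∀ x : K, x ≠ 0 →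
        ord (w.valuation M) (algebraMap K M x) = ord (v.valuation K) x) ∧
      ∀ P : Finset (HeightOneSpectrum (𝓞 M)), (∀ w, w ∈ P ↔ dn K w = v) →
        Odd (P.filter fun w => Even (w.asIdeal.inertiaDeg (𝓞 K))).card := by
    intro v hv hf
    rw [hS1] at hv
    push Not at hv
    obtain ⟨⟨v1, v2⟩, v3, v4⟩ := hv
    exact ⟨v1, ⟨v3, v4⟩, unr_ord v2, fun P hP => mul_frob v2 (fun W hW φ hφ => by
      rw [← hχ]
      exact hf W hW φ hφ) hP⟩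
  obtain ⟨X₄, h4⟩ := hm F1 (fun v hv => (key v (fun h => (f1 v hv).1 h) (f1 v hv).2).2.1) f2
  obtain ⟨X₅, h5⟩ := hm F2 (fun v hv => (key v (fun h => (f3 v hv).1 (Or.inl h))
    (f3 v hv).2).2.1) f4
  refine ⟨max (max X₁ X₂) (max X₃ (max X₄ X₅)), fun X hX => ?_⟩
  have hX1 : X₁ ≤ X := (le_max_left _ _).trans ((le_max_left _ _).trans hX)
  have hX2 : X₂ ≤ X := (le_max_right _ _).trans ((le_max_left _ _).trans hX)
  have hX3 : X₃ ≤ X := (le_max_left _ _).trans ((le_max_right _ _).trans hX)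
  have hX4 : X₄ ≤ X := (le_max_left _ _).trans ((le_max_right _ _).trans
    ((le_max_right _ _).trans hX))
  have hX5 : X₅ ≤ X := (le_max_right _ _).trans ((le_max_right _ _).trans
    ((le_max_right _ _).trans hX))
  have g1 := hlow X hX1 0 0
  have h6 : {p : 𝓞 K × 𝓞 K | p ∈ Bx K X ∧ p.1 - 0 ∈ (⊤ : Ideal (𝓞 K)) ∧
      p.2 - 0 ∈ (⊤ : Ideal (𝓞 K))} = Bx K X := by
    ext p
    simp
  rw [h6] at g1
  have g2 := h2 X hX2
  have g3 := h3 X hX3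
  have g4 := h4 X hX4
  have g5 := h5 X hX5
  have hfin : ∀ P : 𝓞 K × 𝓞 K → Prop, {p : 𝓞 K × 𝓞 K | p ∈ Bx K X ∧ P p}.Finite := fun P =>
    (H36PP.Bx_finite K X).subset fun p hp => hp.1
  have hsub : {p : 𝓞 K × 𝓞 K | p ∈ Bx K X ∧ ¬ ((∀ t : K, t ^ 3 + (p.1 : K) * t + (p.2 : K) ≠ 0) ∧
        ¬ IsSquare (algebraMap K N (-(4 * (p.1 : K) ^ 3 + 27 * (p.2 : K) ^ 2))) ∧
        ∀ D0 : K, D0 ≠ 0 → ∀ R : Set (K →+* ℝ), ManyR K M p.1 p.2 S R D0)} ⊆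
      ({p : 𝓞 K × 𝓞 K | p ∈ Bx K X ∧ ¬ H30OD.Gd K DD p} ∪
      {p : 𝓞 K × 𝓞 K | p ∈ Bx K X ∧
        IsSquare (algebraMap K N (-(4 * (p.1 : K) ^ 3 + 27 * (p.2 : K) ^ 2)))}) ∪
      ({p : 𝓞 K × 𝓞 K | p ∈ Bx K X ∧ ∀ v ∈ F1, ¬ (H76PP.dsc p.1 p.2 ∈ v.asIdeal ∧
          H76PP.dsc p.1 p.2 ∉ v.asIdeal ^ 2)} ∪
      {p : 𝓞 K × 𝓞 K | p ∈ Bx K X ∧ ∀ v ∈ F2, ¬ (H76PP.dsc p.1 p.2 ∈ v.asIdeal ∧
          H76PP.dsc p.1 p.2 ∉ v.asIdeal ^ 2)}) := by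
    rintro p ⟨hp, hno⟩
    by_contra hc
    simp only [Set.mem_union, Set.mem_ofPred_eq, not_or] at hc
    obtain ⟨⟨c1, c2⟩, c3, c4⟩ := hc
    have d1 : H30OD.Gd K DD p := by
      by_contra h
      exact c1 ⟨hp, h⟩
    have d2 : ¬ IsSquare (algebraMap K N (-(4 * (p.1 : K) ^ 3 + 27 * (p.2 : K) ^ 2))) :=
      fun h => c2 ⟨hp, h⟩
    obtain ⟨v, hv, v1, v2⟩ : ∃ v ∈ F1, H76PP.dsc p.1 p.2 ∈ v.asIdeal ∧
        H76PP.dsc p.1 p.2 ∉ v.asIdeal ^ 2 := by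
      by_contra h
      push Not at h
      exact c3 ⟨hp, fun v hv hh => hh.2 (h v hv hh.1)⟩
    obtain ⟨v', hv', v3, v4⟩ : ∃ v ∈ F2, H76PP.dsc p.1 p.2 ∈ v.asIdeal ∧
        H76PP.dsc p.1 p.2 ∉ v.asIdeal ^ 2 := by
      by_contra h
      push Not at h
      exact c4 ⟨hp, fun v hv hh => hh.2 (h v hv hh.1)⟩
    obtain ⟨k1, k2, k3, k4⟩ := key v (fun h => (f1 v hv).1 h) (f1 v hv).2
    obtain ⟨k5, k6, k7, -⟩ := key v' (fun h => (f3 v' hv').1 (Or.inl h)) (f3 v' hv').2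
    have hne : v' ≠ v := fun h => (f3 v' hv').1 (Or.inr (by
      rw [h]
      exact hv))
    obtain ⟨P, hP⟩ := exists_P M v
    apply hno
    refine ⟨d1.irr, d2, fun D0 hD0 R => ?_⟩
    exact (many_mul (N := N) hodd h1 G d1.irr d2 (mul_of k2.1 v1 v2 k3) hP (k4 P hP) hD0 S k1).2
      v' hne k5 (mul_of k6.1 v3 v4 k7) R
  have h8 := Nat.cast_le (α := ℝ).2 ((Set.ncard_le_ncard hsub
    (((hfin _).union (hfin _)).union ((hfin _).union (hfin _)))).trans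
      ((Set.ncard_union_le _ _).trans (add_le_add (Set.ncard_union_le _ _)
        (Set.ncard_union_le _ _))))
  rw [Nat.cast_add, Nat.cast_add, Nat.cast_add] at h8
  refine h8.trans ?_
  have h9 : ε / 4 * c * X ^ (5 * Module.finrank ℚ K) ≤ ε / 4 * ((Bx K X).ncard : ℝ) := by
    rw [mul_assoc]
    exact mul_le_mul_of_nonneg_left g1 (by positivity)
  linarith

end H76GM
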