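import Pool.Agent.H76.GM.Fd
import Pool.Agent.H76.GM.Fb
import Pool.Agent.H30.OR.Tt

/-!
Project MP_78d38b_GM: almost all curves; the alternating group.
-/

set_option autoImplicit false
set_option linter.unusedSectionVars false
open scoped Classical

open WithZero NumberField IsDedekindDomain H38RT
open H76PP (dn Nv)
open H76PP (Bx)
open H88OD H26OD H30OD H30ZO H36CY H30OR

namespace H76GM

variable {K M N : Type} [Field K] [NumberField K] [Field M] [NumberField M] [Field N]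
  [NumberField N] [Algebra K M] [Algebra K N] [Algebra M N] [IsScalarTower K M N]

/-- The places above a prime at which all Frobenius elements are even permutations. -/
theorem even_frob [IsGalois K N] {v : HeightOneSpectrum (𝓞 K)}
    (hr : ∀ W : HeightOneSpectrum (𝓞 N), dn K W = v → ¬ H73P2.Ram K W)
    (hs : ∀ φ : N ≃ₐ[K] N, Equiv.Perm.sign (pm K M N φ) = 1)
    {P : Finset (HeightOneSpectrum (𝓞 M))} (hP : ∀ w, w ∈ P ↔ dn K w = v) :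
    Even (P.filter fun w => Even (w.asIdeal.inertiaDeg (𝓞 K))).card := by
  obtain ⟨W, hW⟩ := H76PP.exists_above (L := N) v
  obtain ⟨φ, hφ1, hφ2⟩ := H36O2.exists_frob (K := K) W
  exact even_places hr hW (⟨hφ1, hφ2⟩ : Frb K W φ) (hs φ) hP

/-- **Almost all curves**, the case of the alternating group. -/
theorem dens_alt [IsGalois K N] (hodd : Odd (Module.finrank K M)) (h1 : Module.finrank K M ≠ 1)
    (G : Gen K M N) (hs : ∀ φ : N ≃ₐ[K] N, Equiv.Perm.sign (pm K M N φ) = 1)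
    (S : Finset (HeightOneSpectrum (𝓞 K))) {ε : ℝ} (hε : 0 < ε) :
    ∃ X₀ : ℝ, ∀ X : ℝ, X₀ ≤ X →
      ({p : 𝓞 K × 𝓞 K | p ∈ Bx K X ∧ ¬ ((∀ t : K, t ^ 3 + (p.1 : K) * t + (p.2 : K) ≠ 0) ∧
        ¬ IsSquare (algebraMap K N (-(4 * (p.1 : K) ^ 3 + 27 * (p.2 : K) ^ 2))) ∧
        ∀ D0 : K, D0 ≠ 0 → (EvS K K p.1 p.2 D0 ↔ EvS K M p.1 p.2 D0) →
          ∀ R : Set (K →+* ℝ), ManyR K M p.1 p.2 S R D0)}.ncard : ℝ) ≤
        ε * ((Bx K X).ncard : ℝ) := by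
  obtain ⟨c, X₁, hc, hlow⟩ := H36MT.class_lower (K := K) (m := ⊤) top_ne_bot
  obtain ⟨M₀, C, hm⟩ := mul_count K (ε := ε / 4 * c) (by positivity)
  obtain ⟨DD, X₂, -, h2⟩ := H30OD.de_A K (m := ⊤) top_ne_bot (ε := ε / 4) (by positivity)
  obtain ⟨X₃, h3⟩ := nsqN_count K N (ε := ε / 4 * c) (by positivity)
  -- the excluded primes
  obtain ⟨S1, hS1⟩ : ∃ S1 : Finset (HeightOneSpectrum (𝓞 K)), ∀ v, v ∈ S1 ↔
      (v ∈ S ∨ (∃ W : HeightOneSpectrum (𝓞 N), dn K W = v ∧ H73P2.Ram K W)) ∨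
        ((6 : 𝓞 K) ∈ v.asIdeal ∨ ¬ M₀ < Nv v) := by
    have hf1 : {v : HeightOneSpectrum (𝓞 K) | ¬ (M₀ + 1) ≤ Nv v}.Finite :=
      H76PP.fin_norm K (M₀ + 1)
    have hf2 : {v : HeightOneSpectrum (𝓞 K) | (6 : 𝓞 K) ∈ v.asIdeal}.Finite := by
      refine (H36PP.nv_finite K (Ideal.absNorm (Ideal.span {(6 : 𝓞 K)}) : ℝ)).subset
        fun v hv => ?_
      have h6 : (6 : 𝓞 K) ≠ 0 := by norm_num
      have h7 : v.asIdeal ∣ Ideal.span {(6 : 𝓞 K)} :=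
        Ideal.dvd_span_singleton.2 hv
      have h8 : Ideal.absNorm v.asIdeal ∣ Ideal.absNorm (Ideal.span {(6 : 𝓞 K)}) :=
        map_dvd Ideal.absNorm h7
      have h9 : 0 < Ideal.absNorm (Ideal.span {(6 : 𝓞 K)}) := by
        refine Nat.pos_of_ne_zero ?_
        rw [Ne, Ideal.absNorm_eq_zero_iff, Ideal.span_singleton_eq_bot]
        exact h6
      exact_mod_cast Nat.le_of_dvd h9 h8
    have hf3 : {v : HeightOneSpectrum (𝓞 K) | ∃ W : HeightOneSpectrum (𝓞 N),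
        dn K W = v ∧ H73P2.Ram K W}.Finite :=
      ((H30PN.ram_fin K N).image (dn K)).subset fun v hv => by
        obtain ⟨W, hW1, hW2⟩ := hv
        exact ⟨W, hW2, hW1⟩
    refine ⟨((S.finite_toSet.union hf3).union (hf2.union hf1)).toFinset, fun v => ?_⟩
    rw [Set.Finite.mem_toFinset]
    simp only [Set.mem_union, Finset.mem_coe, Set.mem_ofPred_eq, Nat.succ_le_iff]
  obtain ⟨F1, f1, f2⟩ := H30OR.all_div S1.finite_toSet C
  -- the properties of the primes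
  have key : ∀ (v : HeightOneSpectrum (𝓞 K)), v ∉ S1 →
      v ∉ S ∧ ((6 : 𝓞 K) ∉ v.asIdeal ∧ M₀ < Nv v) ∧
      (∀ w : HeightOneSpectrum (𝓞 M), dn K w = v → ∀ x : K, x ≠ 0 →
        ord (w.valuation M) (algebraMap K M x) = ord (v.valuation K) x) ∧
      ∀ P : Finset (HeightOneSpectrum (𝓞 M)), (∀ w, w ∈ P ↔ dn K w = v) →
        Even (P.filter fun w => Even (w.asIdeal.inertiaDeg (𝓞 K))).card := by
    intro v hv
    rw [hS1] at hv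
    push Not at hv
    obtain ⟨⟨v1, v2⟩, v3, v4⟩ := hv
    exact ⟨v1, ⟨v3, v4⟩, unr_ord v2, fun P hP => even_frob v2 hs hP⟩
  obtain ⟨X₄, h4⟩ := hm F1 (fun v hv => (key v (f1 v hv)).2.1) f2
  refine ⟨max (max X₁ X₂) (max X₃ X₄), fun X hX => ?_⟩
  have hX1 : X₁ ≤ X := (le_max_left _ _).trans ((le_max_left _ _).trans hX)
  have hX2 : X₂ ≤ X := (le_max_right _ _).trans ((le_max_left _ _).trans hX)
  have hX3 : X₃ ≤ X := (le_max_left _ _).trans ((le_max_right _ _).trans hX)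
  have hX4 : X₄ ≤ X := (le_max_right _ _).trans ((le_max_right _ _).trans hX)
  have g1 := hlow X hX1 0 0
  have h6 : {p : 𝓞 K × 𝓞 K | p ∈ Bx K X ∧ p.1 - 0 ∈ (⊤ : Ideal (𝓞 K)) ∧
      p.2 - 0 ∈ (⊤ : Ideal (𝓞 K))} = Bx K X := by
    ext p
    simp
  rw [h6] at g1
  have g2 := h2 X hX2
  have g3 := h3 X hX3
  have g4 := h4 X hX4
  have hfin : ∀ P : 𝓞 K × 𝓞 K → Prop, {p : 𝓞 K × 𝓞 K | p ∈ Bx K X ∧ P p}.Finite := fun P =>
    (H36PP.Bx_finite K X).subset fun p hp => hp.1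
  have hsub : {p : 𝓞 K × 𝓞 K | p ∈ Bx K X ∧ ¬ ((∀ t : K, t ^ 3 + (p.1 : K) * t + (p.2 : K) ≠ 0) ∧
        ¬ IsSquare (algebraMap K N (-(4 * (p.1 : K) ^ 3 + 27 * (p.2 : K) ^ 2))) ∧
        ∀ D0 : K, D0 ≠ 0 → (EvS K K p.1 p.2 D0 ↔ EvS K M p.1 p.2 D0) →
          ∀ R : Set (K →+* ℝ), ManyR K M p.1 p.2 S R D0)} ⊆
      ({p : 𝓞 K × 𝓞 K | p ∈ Bx K X ∧ ¬ H30OD.Gd K DD p} ∪
      {p : 𝓞 K × 𝓞 K | p ∈ Bx K X ∧
        IsSquare (algebraMap K N (-(4 * (p.1 : K) ^ 3 + 27 * (p.2 : K) ^ 2)))}) ∪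
      {p : 𝓞 K × 𝓞 K | p ∈ Bx K X ∧ ∀ v ∈ F1, ¬ (H76PP.dsc p.1 p.2 ∈ v.asIdeal ∧
          H76PP.dsc p.1 p.2 ∉ v.asIdeal ^ 2)} := by
    rintro p ⟨hp, hno⟩
    by_contra hc
    simp only [Set.mem_union, Set.mem_ofPred_eq, not_or] at hc
    obtain ⟨⟨c1, c2⟩, c3⟩ := hc
    have d1 : H30OD.Gd K DD p := by
      by_contra h
      exact c1 ⟨hp, h⟩
    have d2 : ¬ IsSquare (algebraMap K N (-(4 * (p.1 : K) ^ 3 + 27 * (p.2 : K) ^ 2))) :=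
      fun h => c2 ⟨hp, h⟩
    obtain ⟨v, hv, v1, v2⟩ : ∃ v ∈ F1, H76PP.dsc p.1 p.2 ∈ v.asIdeal ∧
        H76PP.dsc p.1 p.2 ∉ v.asIdeal ^ 2 := by
      by_contra h
      push Not at h
      exact c3 ⟨hp, fun v hv hh => hh.2 (h v hv hh.1)⟩
    obtain ⟨k1, k2, k3, k4⟩ := key v (f1 v hv)
    obtain ⟨P, hP⟩ := exists_P M v
    apply hno
    refine ⟨d1.irr, d2, fun D0 hD0 hKM R => ?_⟩
    exact many_same (N := N) hodd h1 G d1.irr d2 (mul_of k2.1 v1 v2 k3) hP (k4 P hP) hD0 S k1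
      hKM R
  have h8 := Nat.cast_le (α := ℝ).2 ((Set.ncard_le_ncard hsub
    (((hfin _).union (hfin _)).union (hfin _))).trans
      ((Set.ncard_union_le _ _).trans (add_le_add (Set.ncard_union_le _ _) le_rfl)))
  rw [Nat.cast_add, Nat.cast_add] at h8
  refine h8.trans ?_
  have h9 : ε / 4 * c * X ^ (5 * Module.finrank ℚ K) ≤ ε / 4 * ((Bx K X).ncard : ℝ) := by
    rw [mul_assoc]
    exact mul_le_mul_of_nonneg_left g1 (by positivity)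
  have h10 : 0 ≤ ε / 4 * ((Bx K X).ncard : ℝ) := by positivity
  linarith

/-- **Almost all curves.** -/
theorem dens_all [IsGalois K N] (hodd : Odd (Module.finrank K M)) (h1 : Module.finrank K M ≠ 1)
    (G : Gen K M N) (S : Finset (HeightOneSpectrum (𝓞 K))) {ε : ℝ} (hε : 0 < ε) :
    ∃ X₀ : ℝ, ∀ X : ℝ, X₀ ≤ X →
      ({p : 𝓞 K × 𝓞 K | p ∈ Bx K X ∧ ¬ ((∀ t : K, t ^ 3 + (p.1 : K) * t + (p.2 : K) ≠ 0) ∧
        ¬ IsSquare (algebraMap K N (-(4 * (p.1 : K) ^ 3 + 27 * (p.2 : K) ^ 2))) ∧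
        ∀ D0 : K, D0 ≠ 0 → ((EvS K K p.1 p.2 D0 ↔ EvS K M p.1 p.2 D0) ∨
          ∃ g : N ≃ₐ[K] N, Equiv.Perm.sign (pm K M N g) ≠ 1) →
          ∀ R : Set (K →+* ℝ), ManyR K M p.1 p.2 S R D0)}.ncard : ℝ) ≤
        ε * ((Bx K X).ncard : ℝ) := by
  by_cases h : ∃ g : N ≃ₐ[K] N, Equiv.Perm.sign (pm K M N g) ≠ 1
  · obtain ⟨g, hg⟩ := h
    obtain ⟨X₀, h2⟩ := dens hodd h1 G hg S hε
    refine ⟨X₀, fun X hX => le_trans (Nat.cast_le.2 ?_) (h2 X hX)⟩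
    refine Set.ncard_le_ncard ?_ ((H36PP.Bx_finite K X).subset fun p hp => hp.1)
    rintro p ⟨hp, hno⟩
    exact ⟨hp, fun hh => hno ⟨hh.1, hh.2.1, fun D0 hD0 _ R => hh.2.2 D0 hD0 R⟩⟩
  · have hs : ∀ φ : N ≃ₐ[K] N, Equiv.Perm.sign (pm K M N φ) = 1 := fun φ => by
      by_contra hc
      exact h ⟨φ, hc⟩
    obtain ⟨X₀, h2⟩ := dens_alt hodd h1 G hs S hε
    refine ⟨X₀, fun X hX => le_trans (Nat.cast_le.2 ?_) (h2 X hX)⟩
    refine Set.ncard_le_ncard ?_ ((H36PP.Bx_finite K X).subset fun p hp => hp.1)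
    rintro p ⟨hp, hno⟩
    refine ⟨hp, fun hh => hno ⟨hh.1, hh.2.1, fun D0 hD0 hor R => ?_⟩⟩
    rcases hor with h3 | h3
    · exact hh.2.2 D0 hD0 h3 R
    · exact absurd h3 h

end H76GM
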