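import Pool.Agent.H76.GM.Fe
import Pool.Agent.H30.QC.E1
import Pool.Agent.H30.OD.Vs

/-!
Project MP_78d38b_GM: the number of twists. The Selmer groups over `M` of the family of twists.
-/

set_option autoImplicit false
set_option linter.unusedSectionVars false
open scoped Classical

open WithZero NumberField IsDedekindDomain H38RT
open H38T1 (SC sc scu rep eo la si OddP unif)
open H76PP (Cub LC ev scm dn val_le val_lt val_one)
open H88OD H26OD H30OD H30ZO H36CY H30OR

namespace H76GM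

section Sel

variable {K M N LM : Type} [Field K] [NumberField K] [Field M] [NumberField M] [Field N]
  [NumberField N] [Algebra K M] [Algebra K N] [Algebra M N] [IsScalarTower K M N]
  [Field LM] [NumberField LM] [Algebra M LM] {a b : 𝓞 K} {θ : LM}

/-- The places of `M` above a prime which splits completely in `N`. -/
theorem noroot_M [IsGalois K N] {u : HeightOneSpectrum (𝓞 K)} (hz : u ∈ H26OD.Zs K N)
    (hn : ∀ t : 𝓞 K, t ^ 3 + a * t + b ∉ u.asIdeal) (w : HeightOneSpectrum (𝓞 M))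
    (hw : dn K w = u) (t : 𝓞 M) :
    t ^ 3 + algebraMap (𝓞 K) (𝓞 M) a * t + algebraMap (𝓞 K) (𝓞 M) b ∉ w.asIdeal := by
  intro ht
  obtain ⟨W, hW⟩ := H76PP.exists_above (L := N) w
  have hWu : dn K W = u := by
    rw [← hw, ← hW]
    exact (H73P2.dn_dn (K := K) (k := M) W).symm
  have h1 := noroot_up (K := K) (F := N) inferInstance (hz W hWu) (a := (a : K)) (b := (b : K))
    ((dn K W).valuation_le_one a) ((dn K W).valuation_le_one b) (by
      rw [hWu]
      exact H26OD.val_NR hn) (algebraMap M N (t : M)) (val_le (by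
        rw [hW]
        exact w.valuation_le_one t))
  have h2 : w.valuation M ((t : M) ^ 3 + algebraMap K M (a : K) * (t : M) +
      algebraMap K M (b : K)) < 1 :=
    (w.valuation_lt_one_iff_mem (K := M) _).2 ht
  have h3 : W.valuation N (algebraMap M N ((t : M) ^ 3 + algebraMap K M (a : K) * (t : M) +
      algebraMap K M (b : K))) < 1 := val_lt (by
    rw [hW]
    exact h2)
  have e : algebraMap M N ((t : M) ^ 3 + algebraMap K M (a : K) * (t : M) +
      algebraMap K M (b : K)) = algebraMap M N (t : M) ^ 3 +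
      algebraMap K N (a : K) * algebraMap M N (t : M) + algebraMap K N (b : K) := by
    rw [map_add (algebraMap M N), map_add (algebraMap M N), map_mul (algebraMap M N),
      map_pow (algebraMap M N), ← IsScalarTower.algebraMap_apply K M N,
      ← IsScalarTower.algebraMap_apply K M N]
  rw [e, h1] at h3
  exact lt_irrefl _ h3

/-- A square factor does not change anything. -/
theorem V_sqM (S : Ext M M LM (algebraMap K M (a : K)) (algebraMap K M (b : K)) θ) {D γ : K}
    (hD : D ≠ 0) (hγ : γ ≠ 0) (c : SC LM) :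
    S.V (algebraMap K M (D * γ ^ 2)) c ↔ S.V (algebraMap K M D) c := by
  have hD0 : algebraMap K M D ≠ 0 := (map_ne_zero _).2 hD
  have hγ0 : algebraMap K M γ ≠ 0 := (map_ne_zero _).2 hγ
  have hDγ0 : algebraMap K M (D * γ ^ 2) ≠ 0 :=
    (map_ne_zero _).2 (mul_ne_zero hD (pow_ne_zero 2 hγ))
  have e : algebraMap K M D / algebraMap K M (D * γ ^ 2) = (algebraMap K M γ)⁻¹ ^ 2 := by
    rw [map_mul, map_pow]
    field_simp
  have hf : ∀ v : HeightOneSpectrum (𝓞 M),
      S.Lv (algebraMap K M (D * γ ^ 2)) v c ↔ S.Lv (algebraMap K M D) v c := by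
    intro v
    rw [Lv_self, Lv_self]
    refine H76OD.Wc_tw_iff _ hDγ0 hD0 ?_
    rw [e, map_pow, pow_two]
    exact ⟨_, rfl⟩
  have hr : ∀ s : M →+* ℝ, S.Lr (algebraMap K M (D * γ ^ 2)) s c ↔ S.Lr (algebraMap K M D) s c := by
    intro s
    rw [Lr_self, Lr_self]
    refine H76OD.Wc_tw_real s hDγ0 hD0 ?_
    rw [e, map_pow]
    have h0 : s (algebraMap K M γ)⁻¹ ≠ 0 := (map_ne_zero _).2 (inv_ne_zero hγ0)
    positivity
  exact ⟨fun h => ⟨h.hh, fun v => (hf v).1 (h.fin v), fun s => (hr s).1 (h.inf s)⟩,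
    fun h => ⟨h.hh, fun v => (hf v).2 (h.fin v), fun s => (hr s).2 (h.inf s)⟩⟩

/-- **The Selmer group over `M` is the same for all elements of the family.** -/
theorem V_famM [IsGalois K N] (S : Ext M M LM (algebraMap K M (a : K)) (algebraMap K M (b : K)) θ)
    {D : K} {Sg : Finset (HeightOneSpectrum (𝓞 K))} (ok : OkK a b D Sg) {δ γ : K} (hδ : δ ≠ 0)
    (hγ : γ ≠ 0) (hsq : ∀ u ∈ Sg, IsSquare (algebraMap K (u.adicCompletion K) δ))
    (hpos : ∀ s : K →+* ℝ, 0 < s δ)
    (hout : ∀ u : HeightOneSpectrum (𝓞 K), u ∉ Sg → u.valuation K δ ≠ 1 →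
      u ∈ H26OD.Zs K N ∧ ∀ t : 𝓞 K, t ^ 3 + a * t + b ∉ u.asIdeal) (c : SC LM) :
    S.V (algebraMap K M (D * δ * γ ^ 2)) c ↔ S.V (algebraMap K M D) c := by
  rw [V_sqM S (mul_ne_zero ok.ne hδ) hγ]
  have hf : ∀ v : HeightOneSpectrum (𝓞 M), c ∈ HH M LM →
      (S.Lv (algebraMap K M (D * δ)) v c ↔ S.Lv (algebraMap K M D) v c) := by
    intro v hc
    by_cases h1 : dn K v ∈ Sg
    · exact same_sq S ok.ne hδ v (hsq _ h1) c
    · by_cases h2 : (dn K v).valuation K δ = 1
      · exact same_good S ok v h1 h2 hc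
      · exact same_nr S ok.ne hδ v (ok.two _ h1)
          (noroot_M (N := N) (hout _ h1 h2).1 (hout _ h1 h2).2 v rfl) hc
  have hr := same_real S ok.ne hδ hpos
  exact ⟨fun h => ⟨h.hh, fun v => (hf v h.hh).1 (h.fin v), fun s => (hr s c).1 (h.inf s)⟩,
    fun h => ⟨h.hh, fun v => (hf v h.hh).2 (h.fin v), fun s => (hr s c).2 (h.inf s)⟩⟩

end Sel

variable {K M N : Type} [Field K] [NumberField K] [Field M] [NumberField M] [Field N]
  [NumberField N] [Algebra K M] [Algebra K N] [Algebra M N] [IsScalarTower K M N] {a b : 𝓞 K}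

/-- Trivial over `M` implies trivial over all fields between `K` and `M`. -/
theorem tvB_of_V {LM : Type} [Field LM] [NumberField LM] [Algebra M LM] {θ : LM}
    (hodd : Odd (Module.finrank K M))
    (hirM : ∀ t : M, t ^ 3 + algebraMap K M (a : K) * t + algebraMap K M (b : K) ≠ 0)
    (hsqM : ¬ IsSquare (algebraMap K M (-(4 * (a : K) ^ 3 + 27 * (b : K) ^ 2))))
    (S : Ext M M LM (algebraMap K M (a : K)) (algebraMap K M (b : K)) θ) {D : K} (hD : D ≠ 0)
    (h : ∀ c, S.V (algebraMap K M D) c → c = 0) : TvB K M a b D := by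
  intro F _ _ _ _ _
  have hfd : FiniteDimensional K M := Module.Finite.of_restrictScalars_finite ℚ K M
  have hfdF : FiniteDimensional K F := Module.Finite.of_restrictScalars_finite ℚ K F
  have hfdM : FiniteDimensional F M := Module.Finite.of_restrictScalars_finite ℚ F M
  have hoddF : Odd (Module.finrank F M) := by
    have h2 := hodd
    rw [← Module.finrank_mul_finrank K F M] at h2
    exact (Nat.odd_mul.1 h2).2
  have e : ∀ x : K, algebraMap F M (algebraMap K F x) = algebraMap K M x := fun x =>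
    (IsScalarTower.algebraMap_apply K F M x).symm
  have htv := tv_of_V S ((map_ne_zero (algebraMap K M)).2 hD) h
  have h3 := tv_down (k := F) (M := M) hoddF (A := algebraMap K F (a : K))
    (B := algebraMap K F (b : K)) (fun v => val_le ((dn K v).valuation_le_one a))
    (fun v => val_le ((dn K v).valuation_le_one b)) (by rw [e, e]; exact hirM) (by
      have h4 := hsqM
      rw [← e] at h4
      rwa [map_neg (algebraMap K F), map_add (algebraMap K F), map_mul (algebraMap K F),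
        map_mul (algebraMap K F), map_pow (algebraMap K F), map_pow (algebraMap K F),
        map_ofNat, map_ofNat] at h4) (D := algebraMap K F D)
    ((map_ne_zero _).2 hD) (by rw [e, e, e]; exact htv)
  rw [map_mul, map_mul, map_pow, map_pow]
  exact h3

/-- **The number of twists.** -/
theorem many_quant [IsGalois K N] (hodd : Odd (Module.finrank K M))
    (hir : ∀ t : K, t ^ 3 + (a : K) * t + (b : K) ≠ 0)
    (hsqN : ¬ IsSquare (algebraMap K N (-(4 * (a : K) ^ 3 + 27 * (b : K) ^ 2)))) {D0 D1 : K}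
    (hD0 : D0 ≠ 0) {S : Finset (HeightOneSpectrum (𝓞 K))} {R : Set (K →+* ℝ)}
    (hnear : NearR K S R D0 D1) (ht : TvB K M a b D1) :
    ∃ e : ℝ, 0 < e ∧ ∃ X₀ : ℝ, ∀ X : ℝ, X₀ ≤ X → ∃ F : Finset (𝓞 K),
      X ^ Module.finrank ℚ K / Real.log X ^ (1 - e) ≤ (F.card : ℝ) ∧
      (∀ D ∈ F, ∀ D' ∈ F, IsSquare ((D : K) * (D' : K)) → D = D') ∧
      ∀ D ∈ F, (∀ s : K →+* ℂ, ‖s (D : K)‖ ≤ X) ∧ NearR K S R D0 (D : K) ∧
        TvB K M a b (D : K) := by
  have hsqk : ¬ IsSquare (-(4 * (a : K) ^ 3 + 27 * (b : K) ^ 2)) := fun h =>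
    hsqN (h.map (algebraMap K N))
  have hne : 4 * (a : K) ^ 3 + 27 * (b : K) ^ 2 ≠ 0 := by
    intro h0
    apply hsqk
    rw [h0, neg_zero]
    exact ⟨0, (mul_zero 0).symm⟩
  have hirM := cr_noroot (M := M) hir hsqN
  have hsqM := cr_sq (M := M) hsqN
  obtain ⟨L0, _, _, _, θ0, ⟨S0⟩⟩ := exists_self (fun v => v.valuation_le_one a)
    (fun v => v.valuation_le_one b) hir hne hsqk
  obtain ⟨LM, _, _, _, _, U, ⟨SM⟩⟩ := exists_upM S0 hirM hsqM
  obtain ⟨Sg, hle, ok, hcl⟩ := exists_okK hne hnear.ne S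
  have hV1 : ∀ c, SM.V (algebraMap K M D1) c → c = 0 := by
    have htv := ht M
    rw [map_mul, map_mul, map_pow, map_pow] at htv
    exact V_of_tv SM ((map_ne_zero (algebraMap K M)).2 hnear.ne) htv
  obtain ⟨e, he, X₀, hF⟩ := H30QC.family (K := K) (N := N) (ι := Unit) (fun _ => a) (fun _ => b)
    (fun _ => hir) (fun I hI => by
      obtain ⟨i, hi⟩ := hI
      have hI' : I = {()} := by
        ext j
        simp only [Finset.mem_singleton, iff_true]
        exact hi
      rw [hI', Finset.prod_singleton]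
      exact hsqN) ok.two hcl ok.ne ok.val
  refine ⟨e, he, X₀, fun X hX => ?_⟩
  obtain ⟨F, h1, h2, h3⟩ := hF X hX
  refine ⟨F, h1, h2, fun D hD => ?_⟩
  obtain ⟨h4, δ, γ, hδ, hγ, hDe, hsq, hpos, hout⟩ := h3 D hD
  have hD0' : (D : K) ≠ 0 := by
    rw [hDe]
    exact mul_ne_zero (mul_ne_zero ok.ne hδ) (pow_ne_zero 2 hγ)
  have hdiv : (D : K) / D1 = δ * γ ^ 2 := by
    rw [hDe]
    have := ok.ne
    field_simp
  refine ⟨h4, hnear.trans_rel hD0 ⟨hD0', fun v hv => ?_, fun s _ => ?_⟩, ?_⟩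
  · rw [hdiv, map_mul, map_pow]
    exact (hsq v (hle hv)).mul ⟨_, pow_two _⟩
  · rw [hdiv, map_mul, map_pow]
    have h0 : s γ ≠ 0 := (map_ne_zero _).2 hγ
    have := hpos s
    positivity
  · refine tvB_of_V hodd hirM hsqM SM hD0' fun c hc => hV1 c ?_
    rw [hDe] at hc
    exact (V_famM (N := N) SM ok hδ hγ hsq hpos (fun u hu hu' => by
      obtain ⟨-, g1, g2, -⟩ := hout u hu hu'
      exact ⟨g1, g2 ()⟩) c).1 hc

end H76GM
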